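import Pool.Agent.GWC.Mult
import Pool.Agent.GW6.Cheb

/-! # Averages over the windows of the primes between `s` and `s + H`, where `s` runs from `X` to `2 X` -/

namespace Pool.Agent.GWC

open Finset Pool.Agent.GW6

/-- the primes `p` with `s < p ≤ s + H` -/
def Pw (H s : ℕ) : Finset ℕ := (Ioc s (s + H)).filter Nat.Prime

/-- at most `H` windows contain a given number -/
theorem card_windows (X H a : ℕ) :
    ((Ioc X (2 * X)).filter (fun s => s < a ∧ a ≤ s + H)).card ≤ H := by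
  have h1 : (Ioc X (2 * X)).filter (fun s => s < a ∧ a ≤ s + H) ⊆ Ico (a - H) a := by
    intro s hs
    rw [mem_filter] at hs
    rw [mem_Ico]
    omega
  refine (card_le_card h1).trans ?_
  rw [Nat.card_Ico]
  omega

/-- double counting over the windows -/
theorem windows_sum (X H : ℕ) (A : Finset ℕ) (f : ℕ → ℝ) (hf : ∀ a, 0 ≤ f a) :
    ∑ s ∈ Ioc X (2 * X), ∑ a ∈ A.filter (fun a => s < a ∧ a ≤ s + H), f a
      ≤ H * ∑ a ∈ A, f a := by
  simp_rw [sum_filter]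
  rw [sum_comm, mul_sum]
  refine sum_le_sum fun a _ => ?_
  rw [← sum_filter, sum_const, nsmul_eq_mul]
  refine mul_le_mul_of_nonneg_right ?_ (hf a)
  exact_mod_cast card_windows X H a

theorem avg_card : ∃ C : ℝ, 0 < C ∧ ∀ X H : ℕ, 2 ≤ X → H ≤ X →
    ∑ s ∈ Ioc X (2 * X), ((Pw H s).card : ℝ) ≤ C * (X / Real.log X) * H := by
  refine ⟨12, by norm_num, fun X H hX hH => ?_⟩
  have h1 : ∀ s ∈ Ioc X (2 * X), ((Pw H s).card : ℝ)
      ≤ ∑ _a ∈ ((Icc 1 (3 * X)).filter Nat.Prime).filter (fun a => s < a ∧ a ≤ s + H), (1 : ℝ) := by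
    intro s hs
    rw [mem_Ioc] at hs
    rw [sum_const, nsmul_eq_mul, mul_one]
    have : Pw H s ⊆ ((Icc 1 (3 * X)).filter Nat.Prime).filter (fun a => s < a ∧ a ≤ s + H) := by
      intro a ha
      simp only [Pw, mem_filter, mem_Ioc] at ha
      simp only [mem_filter, mem_Icc]
      refine ⟨⟨⟨by omega, by omega⟩, ha.2⟩, ha.1⟩
    exact_mod_cast card_le_card this
  refine (sum_le_sum h1).trans ((windows_sum X H _ (fun _ => 1) (fun _ => zero_le_one)).trans ?_)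
  rw [sum_const, nsmul_eq_mul, mul_one]
  have h2 := cheb_upper (3 * X) (by omega)
  have hX' : (2 : ℝ) ≤ X := by exact_mod_cast hX
  have hlX : 0 < Real.log X := Real.log_pos (by linarith)
  have h3 : ((3 * X : ℕ) : ℝ) / Real.log ((3 * X : ℕ) : ℝ) ≤ 3 * (X / Real.log X) := by
    push_cast
    rw [mul_div_assoc]
    refine mul_le_mul_of_nonneg_left ?_ (by norm_num)
    refine div_le_div_of_nonneg_left (by linarith) hlX (Real.log_le_log (by linarith) (by linarith))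
  calc (H : ℝ) * (((Icc 1 (3 * X)).filter Nat.Prime).card : ℝ)
      ≤ H * (4 * (3 * (X / Real.log X))) := by
        refine mul_le_mul_of_nonneg_left (h2.trans ?_) (Nat.cast_nonneg _)
        linarith
    _ = _ := by ring

/-- ordered pairs in one window -/
theorem pairs_window (X H s : ℕ) (hs : s ∈ Ioc X (2 * X)) (hH : H ≤ X) (g : ℕ → ℝ)
    (hg : ∀ h, 0 ≤ g h) :
    ∑ p ∈ (Pw H s ×ˢ Pw H s).filter (fun p => p.1 < p.2), g (p.2 - p.1)
      ≤ ∑ h ∈ Icc 1 H, ∑ _a ∈ (PP (3 * X) h).filter (fun a => s < a ∧ a ≤ s + H), g h := by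
  classical
  rw [mem_Ioc] at hs
  have e : ∑ h ∈ Icc 1 H, ∑ a ∈ (PP (3 * X) h).filter (fun a => s < a ∧ a ≤ s + H), g h
      = ∑ x ∈ (Icc 1 H).sigma (fun h => (PP (3 * X) h).filter (fun a => s < a ∧ a ≤ s + H)),
        g x.1 := by
    rw [sum_sigma]
  rw [e]
  set ι : ℕ × ℕ → (_ : ℕ) × ℕ := fun p => ⟨p.2 - p.1, p.1⟩ with hι
  have hinj : Set.InjOn ι ((Pw H s ×ˢ Pw H s).filter (fun p => p.1 < p.2) : Finset (ℕ × ℕ)) := by
    intro p hp p' hp' h
    rw [mem_coe, mem_filter] at hp hp'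
    simp only [hι, Sigma.mk.injEq, heq_eq_eq] at h
    refine Prod.ext h.2 ?_
    have h1 := hp.2
    have h2 := hp'.2
    omega
  rw [← sum_image (f := fun x : (_ : ℕ) × ℕ => g x.1) hinj]
  refine sum_le_sum_of_subset_of_nonneg ?_ fun x _ _ => hg _
  intro x hx
  rw [mem_image] at hx
  obtain ⟨p, hp, rfl⟩ := hx
  simp only [mem_filter, mem_product, Pw, mem_Ioc] at hp
  simp only [hι, mem_sigma, mem_Icc, mem_filter, PP]
  obtain ⟨⟨⟨⟨h1, h2⟩, h3⟩, ⟨h4, h5⟩, h6⟩, h7⟩ := hp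
  refine ⟨⟨by omega, by omega⟩, ⟨⟨by omega, by omega⟩, h3, ?_⟩, h1, h2⟩
  rw [Nat.add_sub_cancel' h7.le]
  exact h6

theorem avg_pairs : ∃ C : ℝ, 0 < C ∧ ∀ X H : ℕ, 2 ≤ X → H ≤ X → ∀ g : ℕ → ℝ, (∀ h, 0 ≤ g h) →
    ∑ s ∈ Ioc X (2 * X), ∑ p ∈ (Pw H s ×ˢ Pw H s).filter (fun p => p.1 ≠ p.2),
      g ((p.1 - p.2) + (p.2 - p.1))
      ≤ C * (X / (Real.log X) ^ 2) * H * ∑ h ∈ Icc 1 H, g h * fh h := by
  obtain ⟨C, hC, hb⟩ := pairs_le
  refine ⟨6 * C, by positivity, fun X H hX hH g hg => ?_⟩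
  have hX' : (2 : ℝ) ≤ X := by exact_mod_cast hX
  have hlX : 0 < Real.log X := Real.log_pos (by linarith)
  -- symmetrise
  have h1 : ∀ s ∈ Ioc X (2 * X), ∑ p ∈ (Pw H s ×ˢ Pw H s).filter (fun p => p.1 ≠ p.2),
      g ((p.1 - p.2) + (p.2 - p.1))
      ≤ 2 * ∑ h ∈ Icc 1 H, ∑ a ∈ (PP (3 * X) h).filter (fun a => s < a ∧ a ≤ s + H), g h := by
    intro s hs
    have e1 : (Pw H s ×ˢ Pw H s).filter (fun p => p.1 ≠ p.2)
        = (Pw H s ×ˢ Pw H s).filter (fun p => p.1 < p.2)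
          ∪ (Pw H s ×ˢ Pw H s).filter (fun p => p.2 < p.1) := by
      ext p
      simp only [mem_union, mem_filter]
      constructor
      · rintro ⟨h1, h2⟩
        rcases lt_or_gt_of_ne h2 with h | h
        · exact Or.inl ⟨h1, h⟩
        · exact Or.inr ⟨h1, h⟩
      · rintro (⟨h1, h2⟩ | ⟨h1, h2⟩)
        · exact ⟨h1, h2.ne⟩
        · exact ⟨h1, h2.ne'⟩
    have e2 : Disjoint ((Pw H s ×ˢ Pw H s).filter (fun p => p.1 < p.2))
        ((Pw H s ×ˢ Pw H s).filter (fun p => p.2 < p.1)) := by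
      rw [disjoint_left]
      intro p hp hp'
      exact absurd (mem_filter.1 hp).2 (not_lt.2 (mem_filter.1 hp').2.le)
    rw [e1, sum_union e2]
    have e3 : ∑ p ∈ (Pw H s ×ˢ Pw H s).filter (fun p => p.1 < p.2), g ((p.1 - p.2) + (p.2 - p.1))
        = ∑ p ∈ (Pw H s ×ˢ Pw H s).filter (fun p => p.1 < p.2), g (p.2 - p.1) := by
      refine sum_congr rfl fun p hp => ?_
      have := (mem_filter.1 hp).2
      congr 1
      omega
    have e4 : ∑ p ∈ (Pw H s ×ˢ Pw H s).filter (fun p => p.2 < p.1), g ((p.1 - p.2) + (p.2 - p.1))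
        = ∑ p ∈ (Pw H s ×ˢ Pw H s).filter (fun p => p.1 < p.2), g (p.2 - p.1) := by
      refine sum_nbij' Prod.swap Prod.swap ?_ ?_ ?_ ?_ ?_
      · intro p hp
        simp only [mem_filter, mem_product, Prod.fst_swap, Prod.snd_swap] at hp ⊢
        exact ⟨⟨hp.1.2, hp.1.1⟩, hp.2⟩
      · intro p hp
        simp only [mem_filter, mem_product, Prod.fst_swap, Prod.snd_swap] at hp ⊢
        exact ⟨⟨hp.1.2, hp.1.1⟩, hp.2⟩
      · intro p _
        simp
      · intro p _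
        simp
      · intro p hp
        have := (mem_filter.1 hp).2
        simp only [Prod.fst_swap, Prod.snd_swap]
        congr 1
        omega
    rw [e3, e4]
    have := pairs_window X H s hs hH g hg
    linarith
  refine (sum_le_sum h1).trans ?_
  rw [← mul_sum, sum_comm]
  have h2 : ∀ h ∈ Icc 1 H, ∑ s ∈ Ioc X (2 * X),
      ∑ a ∈ (PP (3 * X) h).filter (fun a => s < a ∧ a ≤ s + H), g h
      ≤ H * (3 * C * (X / (Real.log X) ^ 2) * (g h * fh h)) := by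
    intro h hh
    rw [mem_Icc] at hh
    refine (windows_sum X H _ (fun _ => g h) (fun _ => hg h)).trans ?_
    refine mul_le_mul_of_nonneg_left ?_ (Nat.cast_nonneg _)
    rw [sum_const, nsmul_eq_mul]
    have h3 := hb (3 * X) h (by omega) hh.1
    have hf := fh_ge_one h
    have h4 : ((3 * X : ℕ) : ℝ) / (Real.log ((3 * X : ℕ) : ℝ)) ^ 2
        ≤ 3 * (X / (Real.log X) ^ 2) := by
      push_cast
      rw [mul_div_assoc]
      refine mul_le_mul_of_nonneg_left ?_ (by norm_num)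
      refine div_le_div_of_nonneg_left (by linarith) (by positivity) ?_
      exact pow_le_pow_left₀ hlX.le (Real.log_le_log (by linarith) (by linarith)) 2
    have h5 : ((PP (3 * X) h).card : ℝ) ≤ C * (3 * (X / (Real.log X) ^ 2)) * fh h := by
      refine h3.trans ?_
      have : 0 ≤ fh h := by linarith
      gcongr
    calc ((PP (3 * X) h).card : ℝ) * g h ≤ C * (3 * (X / (Real.log X) ^ 2)) * fh h * g h :=
          mul_le_mul_of_nonneg_right h5 (hg h)
      _ = _ := by ring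
  calc 2 * ∑ h ∈ Icc 1 H, ∑ s ∈ Ioc X (2 * X),
        ∑ a ∈ (PP (3 * X) h).filter (fun a => s < a ∧ a ≤ s + H), g h
      ≤ 2 * ∑ h ∈ Icc 1 H, H * (3 * C * (X / (Real.log X) ^ 2) * (g h * fh h)) := by
        have := sum_le_sum h2
        linarith
    _ = _ := by
        simp only [← mul_sum]
        ring

theorem mod_eq_iff_dvd (a b q : ℕ) : a % q = b % q ↔ q ∣ (a - b) + (b - a) := by
  rcases le_total a b with h | h
  · rw [Nat.sub_eq_zero_of_le h, zero_add]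
    exact ⟨fun h1 => (Nat.modEq_iff_dvd' h).1 h1, fun h1 => (Nat.modEq_iff_dvd' h).2 h1⟩
  · rw [Nat.sub_eq_zero_of_le h, add_zero]
    exact ⟨fun h1 => (Nat.modEq_iff_dvd' h).1 h1.symm, fun h1 => ((Nat.modEq_iff_dvd' h).2 h1).symm⟩

theorem avg_K2 : ∃ C : ℝ, 0 < C ∧ ∀ X H : ℕ, 2 ≤ X → 1 ≤ H → H ≤ X → ∀ Q : Finset ℕ,
    (∀ q ∈ Q, q.Prime) →
    ∑ s ∈ Ioc X (2 * X), (K2 (Pw H s) Q : ℝ)
      ≤ C * (X / (Real.log X) ^ 2) * (H : ℝ) ^ 2 * ∑ q ∈ Q, (1 : ℝ) / q := by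
  obtain ⟨C, hC, hb⟩ := avg_pairs
  obtain ⟨C', hC', hb'⟩ := sum_fh_dvd
  refine ⟨C * C', by positivity, fun X H hX _ hH Q hQ => ?_⟩
  have hX' : (2 : ℝ) ≤ X := by exact_mod_cast hX
  have hlX : 0 < Real.log X := Real.log_pos (by linarith)
  have h1 : ∀ s ∈ Ioc X (2 * X), (K2 (Pw H s) Q : ℝ)
      = ∑ q ∈ Q, ∑ p ∈ (Pw H s ×ˢ Pw H s).filter (fun p => p.1 ≠ p.2),
        (fun h : ℕ => if q ∣ h then (1 : ℝ) else 0) ((p.1 - p.2) + (p.2 - p.1)) := by
    intro s _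
    unfold K2
    push_cast
    refine sum_congr rfl fun q _ => ?_
    beta_reduce
    rw [← sum_filter, filter_filter, sum_const, nsmul_eq_mul, mul_one]
    simp only [mod_eq_iff_dvd]
  rw [sum_congr rfl h1, sum_comm, mul_sum]
  refine sum_le_sum fun q hq => ?_
  refine (hb X H hX hH (fun h : ℕ => if q ∣ h then (1 : ℝ) else 0)
    (fun h => by positivity)).trans ?_
  have h2 : ∑ h ∈ Icc 1 H, (if q ∣ h then (1 : ℝ) else 0) * fh h
      = ∑ h ∈ (Icc 1 H).filter (fun h => q ∣ h), fh h := by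
    rw [sum_filter]
    refine sum_congr rfl fun h _ => ?_
    split_ifs <;> simp
  rw [h2]
  calc C * (X / (Real.log X) ^ 2) * H * ∑ h ∈ (Icc 1 H).filter (fun h => q ∣ h), fh h
      ≤ C * (X / (Real.log X) ^ 2) * H * (C' * (H / q)) :=
        mul_le_mul_of_nonneg_left (hb' H q (hQ q hq)) (by positivity)
    _ = _ := by ring

theorem avg_Phi : ∃ C : ℝ, 0 < C ∧ ∀ X H R M : ℕ, 2 ≤ X → 1 ≤ H → H ≤ X → ∀ (T : Finset ℕ)
    (η K : ℝ), (∀ r ∈ T, r.Prime ∧ R < r) → 0 < η → 0 ≤ K → 2 * (M : ℝ) ^ 2 * (1 + K) ≤ R →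
    ∑ s ∈ Ioc X (2 * X), Phi T M η (Pw H s)
      ≤ C * (X / (Real.log X) ^ 2) * (H : ℝ) ^ 2 * (1 + η) ^ (-K) := by
  obtain ⟨C, hC, hb⟩ := avg_pairs
  obtain ⟨C', hC', hb'⟩ := sum_fh_large
  refine ⟨C * C', by positivity, fun X H R M hX hH1 hH T η K hT hη hK hR => ?_⟩
  have hX' : (2 : ℝ) ≤ X := by exact_mod_cast hX
  have hlX : 0 < Real.log X := Real.log_pos (by linarith)
  set G : ℕ → ℝ := fun h =>
    Real.exp (2 * (M : ℝ) ^ 2 * ∑ r ∈ T.filter (fun r => r ∣ h), (1 : ℝ) / r) - 1 with hG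
  have hG0 : ∀ h, 0 ≤ G h := by
    intro h
    have : (0 : ℝ) ≤ 2 * (M : ℝ) ^ 2 * ∑ r ∈ T.filter (fun r => r ∣ h), (1 : ℝ) / r :=
      mul_nonneg (by positivity) (sum_nonneg fun _ _ => by positivity)
    have := Real.one_le_exp this
    simp only [hG]
    linarith
  have hFF : ∀ a b, FF T M a b = G ((a - b) + (b - a)) := by
    intro a b
    simp only [FF, cc, hG, mod_eq_iff_dvd]
  have h1 : ∀ s ∈ Ioc X (2 * X), Phi T M η (Pw H s)
      = ∑ p ∈ (Pw H s ×ˢ Pw H s).filter (fun p => p.1 ≠ p.2),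
        (fun h : ℕ => if η < G h then G h else 0) ((p.1 - p.2) + (p.2 - p.1)) := by
    intro s _
    unfold Phi
    simp only [hFF]
    rw [← sum_filter, filter_filter]
  rw [sum_congr rfl h1]
  refine (hb X H hX hH (fun h : ℕ => if η < G h then G h else 0) (fun h => ?_)).trans ?_
  · beta_reduce
    split_ifs
    · exact hG0 h
    · exact le_rfl
  · have h2 : ∑ h ∈ Icc 1 H, (if η < G h then G h else 0) * fh h
        = ∑ h ∈ (Icc 1 H).filter (fun h => η < G h), fh h * G h := by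
      rw [sum_filter]
      refine sum_congr rfl fun h _ => ?_
      split_ifs
      · ring
      · simp
    rw [h2]
    have h3 := hb' H R T (2 * (M : ℝ) ^ 2) η K hH1 hT (by positivity) hη hK hR
    calc C * (X / (Real.log X) ^ 2) * H * ∑ h ∈ (Icc 1 H).filter (fun h => η < G h), fh h * G h
        ≤ C * (X / (Real.log X) ^ 2) * H * (C' * H * (1 + η) ^ (-K)) :=
          mul_le_mul_of_nonneg_left h3 (by positivity)
      _ = _ := by ring

end Pool.Agent.GWC
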