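import Pool.Agent.GWC.Defs
import Pool.Agent.E456.Mertens

/-! # Products and sums over primes -/

namespace Pool.Agent.GWC

open Finset

/-- the primes in `(a, b]` -/
def pr (a b : ℕ) : Finset ℕ := (Ioc a b).filter Nat.Prime

/-- the Euler product bound of Mertens type -/
theorem euler (N : ℕ) (hN : 2 ≤ N) :
    ∏ q ∈ N.primesBelow, (1 - 1 / (q : ℝ)) ≤ 1 / Real.log N := by
  let f : ℕ →* ℝ :=
    { toFun := fun m => (m : ℝ)⁻¹
      map_one' := by simp
      map_mul' := fun a b => by push_cast; rw [mul_inv] }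
  have hf1 : ∀ {p : ℕ}, p.Prime → ‖f p‖ < 1 := by
    intro p hp
    show ‖(p : ℝ)⁻¹‖ < 1
    rw [norm_inv, Real.norm_natCast]
    exact inv_lt_one_of_one_lt₀ (by exact_mod_cast hp.one_lt)
  obtain ⟨-, hsum⟩ := EulerProduct.summable_and_hasSum_smoothNumbers_prod_primesBelow_geometric
    (f := f) hf1 N
  have hlog : Real.log N ≤ ∏ p ∈ N.primesBelow, (1 - f p)⁻¹ := by
    classical
    let S : Finset N.smoothNumbers :=
      (Finset.Icc 1 (N - 1)).attach.image (fun m => (⟨m.1, Nat.mem_smoothNumbers_of_lt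
        (by have := (Finset.mem_Icc.1 m.2).1; omega)
        (by have := (Finset.mem_Icc.1 m.2).2; omega)⟩ : N.smoothNumbers))
    have h1 : ∑ m ∈ S, f m ≤ ∏ p ∈ N.primesBelow, (1 - f p)⁻¹ :=
      sum_le_hasSum S (fun m _ => by
        show (0 : ℝ) ≤ ((m : ℕ) : ℝ)⁻¹
        positivity) hsum
    have h2 : ∑ m ∈ S, f m = ∑ m ∈ Finset.Icc 1 (N - 1), ((m : ℝ))⁻¹ := by
      rw [Finset.sum_image]
      · rw [← Finset.sum_attach (Finset.Icc 1 (N - 1))]
        rfl
      · intro x _ y _ hxy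
        have := congrArg (fun z : N.smoothNumbers => (z : ℕ)) hxy
        exact Subtype.ext this
    have h3 := log_add_one_le_harmonic (N - 1)
    have h4 : ((N - 1 : ℕ) : ℝ) + 1 = N := by
      rw [Nat.cast_sub (by omega)]; push_cast; ring
    have h5 : ((harmonic (N - 1) : ℚ) : ℝ) = ∑ m ∈ Finset.Icc 1 (N - 1), ((m : ℝ))⁻¹ := by
      rw [harmonic_eq_sum_Icc]
      push_cast
      rfl
    rw [h5] at h3
    rw [← h2] at h3
    have h6 : Real.log N = Real.log (((N - 1 : ℕ) : ℝ) + 1) := by rw [h4]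
    rw [h6]
    refine le_trans ?_ (h3.trans h1)
    push_cast
    exact le_rfl
  have hlog0 : 0 < Real.log N := Real.log_pos (by exact_mod_cast hN)
  have hprod : ∏ q ∈ N.primesBelow, (1 - 1 / (q : ℝ))
      = (∏ p ∈ N.primesBelow, (1 - f p)⁻¹)⁻¹ := by
    rw [← Finset.prod_inv_distrib]
    refine Finset.prod_congr rfl fun q _ => ?_
    rw [inv_inv]
    show 1 - 1 / (q : ℝ) = 1 - (q : ℝ)⁻¹
    rw [one_div]
  rw [hprod, one_div]
  exact inv_anti₀ hlog0 hlog

/-- upper bound for the product over `3 ≤ r ≤ z` -/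
theorem sig_upper (z : ℕ) (hz : 2 ≤ z) : sig (pr 2 z) ≤ 2 / Real.log ((z + 1 : ℕ) : ℝ) := by
  have h2mem : 2 ∈ (z + 1).primesBelow := Nat.mem_primesBelow.2 ⟨by omega, Nat.prime_two⟩
  have h1 := euler (z + 1) (by omega)
  rw [← Finset.mul_prod_erase _ _ h2mem] at h1
  have h9 : (1 - 1 / ((2 : ℕ) : ℝ)) = 1 / 2 := by norm_num
  rw [h9] at h1
  have h10 : (2 : ℝ) / Real.log ((z + 1 : ℕ) : ℝ) = 2 * (1 / Real.log ((z + 1 : ℕ) : ℝ)) := by ring
  have h11 : pr 2 z = (z + 1).primesBelow.erase 2 := by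
    ext q
    rw [pr, mem_filter, mem_Ioc, mem_erase, Nat.mem_primesBelow]
    constructor
    · rintro ⟨⟨h1, h2⟩, h3⟩
      exact ⟨by omega, by omega, h3⟩
    · rintro ⟨h1, h2, h3⟩
      have := h3.two_le
      exact ⟨⟨by omega, by omega⟩, h3⟩
  rw [sig, h10, h11]
  linarith

theorem sum_inv_upper : ∃ C : ℝ, 0 < C ∧ ∀ z : ℕ, 3 ≤ z →
    ∑ r ∈ pr 2 z, (1 : ℝ) / r ≤ Real.log (Real.log z) + C := by
  obtain ⟨C, hC, h⟩ := E456.mertens2
  refine ⟨C, hC, fun z hz => ?_⟩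
  have h1 := (abs_le.1 (h z (by omega))).2
  have h2 := E456.S1_sub 2 z (by omega)
  have h3 : 0 ≤ E456.S1 2 := by
    unfold E456.S1
    positivity
  rw [pr, ← h2]
  linarith

/-- one factor -/
lemma factor_lower (r : ℕ) (hr : 2 ≤ r) :
    Real.exp (-((1 : ℝ) / r + (1 / ((r : ℝ) - 1) - 1 / r))) ≤ 1 - 1 / (r : ℝ) := by
  have hr' : (2 : ℝ) ≤ r := by exact_mod_cast hr
  have h1 : (0 : ℝ) < (r : ℝ) - 1 := by linarith
  have h2 : (1 : ℝ) / r + (1 / ((r : ℝ) - 1) - 1 / r) = 1 / ((r : ℝ) - 1) := by ring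
  rw [h2, Real.exp_neg]
  have h3 := Real.add_one_le_exp (1 / ((r : ℝ) - 1))
  have h4 : (1 : ℝ) - 1 / r = (1 / ((r : ℝ) - 1) + 1)⁻¹ := by
    field_simp
    ring
  rw [h4]
  exact inv_anti₀ (by positivity) h3

lemma telescope (z : ℕ) (hz : 2 ≤ z) :
    ∑ n ∈ Ioc 2 z, (1 / ((n : ℝ) - 1) - 1 / n) = 1 / 2 - 1 / z := by
  induction z, hz using Nat.le_induction with
  | base => simp
  | succ t ht ih =>
    have hins : Ioc 2 (t + 1) = insert (t + 1) (Ioc 2 t) := by
      ext x; simp only [mem_Ioc, mem_insert]; omega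
    rw [hins, sum_insert (by simp), ih]
    push_cast
    ring

theorem sig_lower : ∃ c : ℝ, 0 < c ∧ ∀ z : ℕ, 3 ≤ z → c / Real.log z ≤ sig (pr 2 z) := by
  obtain ⟨C, hC, h⟩ := sum_inv_upper
  refine ⟨Real.exp (-(C + 1 / 2)), Real.exp_pos _, fun z hz => ?_⟩
  have hz' : (3 : ℝ) ≤ z := by exact_mod_cast hz
  have hlz : 0 < Real.log z := Real.log_pos (by linarith)
  have h1 : Real.exp (-∑ r ∈ pr 2 z, ((1 : ℝ) / r + (1 / ((r : ℝ) - 1) - 1 / r))) ≤ sig (pr 2 z) := by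
    rw [sig, ← sum_neg_distrib, Real.exp_sum]
    apply prod_le_prod
    · intro r _
      exact (Real.exp_pos _).le
    · intro r hr
      rw [pr, mem_filter] at hr
      exact factor_lower r hr.2.two_le
  have h2 : ∑ r ∈ pr 2 z, (1 / ((r : ℝ) - 1) - 1 / r) ≤ 1 / 2 := by
    have h3 := telescope z (by omega)
    have h4 : ∑ r ∈ pr 2 z, (1 / ((r : ℝ) - 1) - 1 / r) ≤ ∑ n ∈ Ioc 2 z, (1 / ((n : ℝ) - 1) - 1 / n) := by
      apply sum_le_sum_of_subset_of_nonneg (filter_subset _ _)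
      intro n hn _
      have hn2 := (mem_Ioc.1 hn).1
      have hn' : (3 : ℝ) ≤ n := by exact_mod_cast hn2
      have : 1 / (n : ℝ) ≤ 1 / ((n : ℝ) - 1) := one_div_le_one_div_of_le (by linarith) (by linarith)
      linarith
    have h5 : (0 : ℝ) < 1 / z := by positivity
    linarith
  refine le_trans ?_ h1
  have h6 : Real.exp (-(C + 1 / 2)) / Real.log z
      = Real.exp (-(Real.log (Real.log z) + C + 1 / 2)) := by
    rw [show -(Real.log (Real.log z) + C + 1 / 2) = -(C + 1 / 2) - Real.log (Real.log z) by ring,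
      Real.exp_sub, Real.exp_log hlz]
  rw [h6]
  apply Real.exp_le_exp.2
  rw [sum_add_distrib]
  have := h z hz
  linarith

theorem Lam_upper (M R z : ℕ) (h : 4 * M ≤ R) :
    Lam (pr R z) M ≤ Real.exp (2 * M * ∑ r ∈ pr R z, (1 : ℝ) / r) := by
  rw [Lam, mul_sum, Real.exp_sum]
  apply prod_le_prod
  · intro r hr
    rw [pr, mem_filter, mem_Ioc] at hr
    have h1 : (M : ℝ) ≤ r := by exact_mod_cast (by omega : M ≤ r)
    have h2 : (0 : ℝ) < r := by exact_mod_cast hr.2.pos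
    have h3 : (M : ℝ) / r ≤ 1 := (div_le_one h2).2 h1
    exact inv_nonneg.2 (by linarith)
  · intro r hr
    rw [pr, mem_filter, mem_Ioc] at hr
    have h1 : 4 * (M : ℝ) ≤ r := by exact_mod_cast (by omega : 4 * M ≤ r)
    have h2 : (0 : ℝ) < r := by exact_mod_cast hr.2.pos
    set x : ℝ := (M : ℝ) / r with hx
    have hx0 : 0 ≤ x := by positivity
    have hx4 : x ≤ 1 / 4 := by
      rw [hx, div_le_div_iff₀ h2 (by norm_num)]
      linarith
    have h3 : 2 * (M : ℝ) * (1 / r) = 2 * x := by rw [hx]; ring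
    rw [h3]
    have h4 := Real.add_one_le_exp (2 * x)
    refine le_trans ?_ h4
    rw [inv_le_comm₀ (by linarith) (by linarith), inv_le_iff_one_le_mul₀ (by linarith)]
    nlinarith

theorem sig_pos (T : Finset ℕ) (hT : ∀ r ∈ T, r.Prime) : 0 < sig T := by
  apply prod_pos
  intro r hr
  have h : (2 : ℝ) ≤ r := by exact_mod_cast (hT r hr).two_le
  have h1 : 1 / (r : ℝ) ≤ 1 / 2 := one_div_le_one_div_of_le (by norm_num) h
  linarith

theorem sig_le_one (T : Finset ℕ) (hT : ∀ r ∈ T, r.Prime) : sig T ≤ 1 := by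
  apply prod_le_one
  · intro r hr
    have h : (2 : ℝ) ≤ r := by exact_mod_cast (hT r hr).two_le
    have h1 : 1 / (r : ℝ) ≤ 1 / 2 := one_div_le_one_div_of_le (by norm_num) h
    linarith
  · intro r _
    have : (0 : ℝ) ≤ 1 / (r : ℝ) := by positivity
    linarith

/-- the splitting of the primes up to `z` at `R` -/
theorem pr_split (R z : ℕ) (hR : 2 ≤ R) (hz : R ≤ z) :
    pr 2 R ∪ pr R z = pr 2 z ∧ Disjoint (pr 2 R) (pr R z) := by
  constructor
  · rw [pr, pr, pr, ← filter_union, Ioc_union_Ioc_eq_Ioc hR hz]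
  · rw [Finset.disjoint_left]
    intro x hx hx'
    simp only [pr, mem_filter, mem_Ioc] at hx hx'
    omega

end Pool.Agent.GWC
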