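import Pool.Agent.GWC.Greedy
import Pool.Agent.GWC.Mert

/-! # From the moments to a covering -/

namespace Pool.Agent.GWC

open Finset

/-- the number of classes for which `x` survives -/
lemma sum_surv_one (T : Finset ℕ) (hT : ∀ r ∈ T, r.Prime) (x : ℕ) :
    ∑ N ∈ range (∏ r ∈ T, r), (if ∀ r ∈ T, x % r ≠ N % r then (1 : ℝ) else 0)
      = ((∏ r ∈ T, r : ℕ) : ℝ) * sig T := by
  classical
  have h1 : ∀ N : ℕ, (if ∀ r ∈ T, x % r ≠ N % r then (1 : ℝ) else 0)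
      = ∏ r ∈ T, (if x % r ≠ N % r then (1 : ℝ) else 0) := by
    intro N
    rw [prod_ite_zero]
    simp
  rw [sum_congr rfl fun N _ => h1 N, sum_prod T hT (fun r k => if x % r ≠ k then (1 : ℝ) else 0),
    Nat.cast_prod, sig, ← prod_mul_distrib]
  refine prod_congr rfl fun r hr => ?_
  have hr0 : 0 < r := (hT r hr).pos
  have hr' : (r : ℝ) ≠ 0 := by exact_mod_cast hr0.ne'
  have h2 : ∀ k ∈ range r, (if x % r ≠ k then (1 : ℝ) else 0) = 1 - (if x % r = k then 1 else 0) := by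
    intro k _
    by_cases h : x % r = k
    · simp [h]
    · simp [h]
  rw [sum_congr rfl h2, sum_sub_distrib, sum_const, card_range, sum_ite_eq,
    if_pos (mem_range.2 (Nat.mod_lt _ hr0))]
  field_simp
  simp

lemma sum_card_surv (T P : Finset ℕ) (hT : ∀ r ∈ T, r.Prime) :
    ∑ N ∈ range (∏ r ∈ T, r), ((surv T N P).card : ℝ)
      = ((∏ r ∈ T, r : ℕ) : ℝ) * (P.card * sig T) := by
  classical
  have h1 : ∀ N : ℕ, ((surv T N P).card : ℝ) = ∑ x ∈ P, (if ∀ r ∈ T, x % r ≠ N % r then (1 : ℝ) else 0) := by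
    intro N
    rw [surv, card_filter]
    push_cast
    rfl
  rw [sum_congr rfl fun N _ => h1 N, sum_comm, sum_congr rfl fun x _ => sum_surv_one T hT x, sum_const,
    nsmul_eq_mul]
  ring

lemma DD_nonneg (T1 T2 : Finset ℕ) (M : ℕ) (P Q : Finset ℕ) (N : ℕ) : 0 ≤ DD T1 T2 M P Q N :=
  sum_nonneg fun _ _ => sq_nonneg _

lemma BB_nonneg (T1 T2 : Finset ℕ) (M : ℕ) (P Q : Finset ℕ) (N : ℕ) : 0 ≤ BB T1 T2 M P Q N :=
  sum_nonneg fun _ _ => sq_nonneg _

/-- Markov: one `N` is good for all scales -/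
theorem exists_N (T P J : Finset ℕ) (T1 T2 Q : ℕ → Finset ℕ) (M R : ℕ → ℕ) (D B : ℕ → ℝ)
    (hTp : ∀ r ∈ T, r.Prime) (hs : ∀ j ∈ J, Setup (T1 j) (T2 j) (M j) (R j))
    (hT : ∀ j ∈ J, T1 j ∪ T2 j = T) (hD0 : ∀ j ∈ J, 0 < D j) (hB0 : ∀ j ∈ J, 0 < B j)
    (hD : ∀ j ∈ J, ∑ N ∈ range (∏ r ∈ T, r), DD (T1 j) (T2 j) (M j) P (Q j) N
      ≤ ((∏ r ∈ T, r : ℕ) : ℝ) * D j / (8 * J.card))
    (hB : ∀ j ∈ J, ∑ N ∈ range (∏ r ∈ T, r), BB (T1 j) (T2 j) (M j) P (Q j) N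
      ≤ ((∏ r ∈ T, r : ℕ) : ℝ) * B j / (8 * J.card)) :
    ∃ N : ℕ, ((surv T N P).card : ℝ) ≤ 4 * P.card * sig T ∧ ∀ j ∈ J,
      DD (T1 j) (T2 j) (M j) P (Q j) N ≤ D j ∧ BB (T1 j) (T2 j) (M j) P (Q j) N ≤ B j := by
  classical
  set W : ℕ := ∏ r ∈ T, r with hW
  have hW0 : 0 < W := prod_pos fun r hr => (hTp r hr).pos
  have hW0' : (0 : ℝ) < W := by exact_mod_cast hW0
  have hsig : 0 < sig T := sig_pos T hTp
  set F : ℕ → ℝ := fun N => ((surv T N P).card : ℝ) / (4 * P.card * sig T)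
    + ∑ j ∈ J, DD (T1 j) (T2 j) (M j) P (Q j) N / D j
    + ∑ j ∈ J, BB (T1 j) (T2 j) (M j) P (Q j) N / B j with hF
  have hsum : ∑ N ∈ range W, F N < W := by
    have h1 : ∑ N ∈ range W, ((surv T N P).card : ℝ) / (4 * P.card * sig T) ≤ W / 4 := by
      rw [← sum_div, hW, sum_card_surv T P hTp, ← hW]
      rcases Nat.eq_zero_or_pos P.card with h | h
      · rw [h]
        simp
        positivity
      · have h' : (0 : ℝ) < P.card := by exact_mod_cast h
        rw [div_le_div_iff₀ (by positivity) (by norm_num)]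
        apply le_of_eq
        ring
    have h2 : ∀ (G : ℕ → ℕ → ℝ) (A : ℕ → ℝ), (∀ j ∈ J, 0 < A j) →
        (∀ j ∈ J, ∑ N ∈ range W, G j N ≤ (W : ℝ) * A j / (8 * J.card)) →
        ∑ N ∈ range W, ∑ j ∈ J, G j N / A j ≤ W / 8 := by
      intro G A hA hG
      rw [sum_comm]
      have h3 : ∀ j ∈ J, ∑ N ∈ range W, G j N / A j ≤ (W : ℝ) / (8 * J.card) := by
        intro j hj
        rw [← sum_div, div_le_iff₀ (hA j hj)]
        refine (hG j hj).trans (le_of_eq ?_)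
        ring
      refine (sum_le_sum h3).trans ?_
      rw [sum_const, nsmul_eq_mul]
      rcases Nat.eq_zero_or_pos J.card with h | h
      · rw [h]
        simp
        positivity
      · have h' : (0 : ℝ) < J.card := by exact_mod_cast h
        apply le_of_eq
        field_simp
    have h3 := h2 (fun j N => DD (T1 j) (T2 j) (M j) P (Q j) N) D hD0 hD
    have h4 := h2 (fun j N => BB (T1 j) (T2 j) (M j) P (Q j) N) B hB0 hB
    rw [hF]
    simp only [sum_add_distrib]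
    linarith
  obtain ⟨N, -, hN⟩ : ∃ N ∈ range W, F N < 1 := by
    by_contra hcon
    push Not at hcon
    have h1 := sum_le_sum hcon
    rw [sum_const, card_range, nsmul_eq_mul, mul_one] at h1
    linarith
  have hn1 : 0 ≤ ((surv T N P).card : ℝ) / (4 * P.card * sig T) := by positivity
  have hn2 : ∀ j ∈ J, 0 ≤ DD (T1 j) (T2 j) (M j) P (Q j) N / D j := fun j hj =>
    div_nonneg (DD_nonneg _ _ _ _ _ _) (hD0 j hj).le
  have hn3 : ∀ j ∈ J, 0 ≤ BB (T1 j) (T2 j) (M j) P (Q j) N / B j := fun j hj =>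
    div_nonneg (BB_nonneg _ _ _ _ _ _) (hB0 j hj).le
  have hs2 := sum_nonneg hn2
  have hs3 := sum_nonneg hn3
  refine ⟨N, ?_, fun j hj => ⟨?_, ?_⟩⟩
  · rcases Nat.eq_zero_or_pos P.card with h | h
    · have h1 : (surv T N P).card ≤ P.card := card_le_card (filter_subset _ _)
      have h2 : (surv T N P).card = 0 := by omega
      rw [h2, h]
      simp
    · have h' : (0 : ℝ) < P.card := by exact_mod_cast h
      have h1 : ((surv T N P).card : ℝ) / (4 * P.card * sig T) ≤ 1 := by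
        have := hN
        simp only [hF] at this
        linarith
      rwa [div_le_one (by positivity)] at h1
  · have h1 : DD (T1 j) (T2 j) (M j) P (Q j) N / D j ≤ ∑ j ∈ J, DD (T1 j) (T2 j) (M j) P (Q j) N / D j :=
      single_le_sum hn2 hj
    have h2 : DD (T1 j) (T2 j) (M j) P (Q j) N / D j ≤ 1 := by
      have := hN
      simp only [hF] at this
      linarith
    rwa [div_le_one (hD0 j hj)] at h2
  · have h1 : BB (T1 j) (T2 j) (M j) P (Q j) N / B j ≤ ∑ j ∈ J, BB (T1 j) (T2 j) (M j) P (Q j) N / B j :=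
      single_le_sum hn3 hj
    have h2 : BB (T1 j) (T2 j) (M j) P (Q j) N / B j ≤ 1 := by
      have := hN
      simp only [hF] at this
      linarith
    rwa [div_le_one (hB0 j hj)] at h2

/-- all scales, for a good `N` -/
theorem all_scales (T P J : Finset ℕ) (T1 T2 Q : ℕ → Finset ℕ) (M R Yv : ℕ → ℕ) (N : ℕ) (θ : ℝ)
    (hθ : 0 < θ) (hs : ∀ j ∈ J, Setup (T1 j) (T2 j) (M j) (R j))
    (hT : ∀ j ∈ J, T1 j ∪ T2 j = T) (hY : ∀ j ∈ J, 0 < Yv j)
    (hQ : ∀ j ∈ J, ∀ q ∈ Q j, 0 < q ∧ q ≤ Yv j)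
    (hQd : ∀ i ∈ J, ∀ j ∈ J, i ≠ j → Disjoint (Q i) (Q j))
    (hD : ∀ j ∈ J, 4 * DD (T1 j) (T2 j) (M j) P (Q j) N ≤ ((Q j).card / sig (T2 j)) ^ 2 * θ)
    (hB : ∀ j ∈ J, 8 * M j * BB (T1 j) (T2 j) (M j) P (Q j) N
      ≤ (Q j).card / sig (T2 j) * θ * Yv j) :
    ∃ a : ℕ → ℕ, let S' := (surv T N P).filter (fun x => ∀ j ∈ J, ∀ q ∈ Q j, x % q ≠ a q)
      (S'.card : ℝ) < θ ∨
      (S'.card : ℝ) * ∏ j ∈ J, (1 + (Q j).card / sig (T2 j) / (8 * Yv j)) ≤ (surv T N P).card := by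
  classical
  induction J using Finset.induction_on with
  | empty => exact ⟨fun _ => 0, by simp⟩
  | insert j J hj ih =>
    obtain ⟨a, ha⟩ := ih (fun i hi => hs i (mem_insert_of_mem hi)) (fun i hi => hT i (mem_insert_of_mem hi))
      (fun i hi => hY i (mem_insert_of_mem hi)) (fun i hi => hQ i (mem_insert_of_mem hi))
      (fun i hi k hk => hQd i (mem_insert_of_mem hi) k (mem_insert_of_mem hk))
      (fun i hi => hD i (mem_insert_of_mem hi)) (fun i hi => hB i (mem_insert_of_mem hi))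
    have hjm : j ∈ insert j J := mem_insert_self _ _
    set S := (surv T N P).filter (fun x => ∀ i ∈ J, ∀ q ∈ Q i, x % q ≠ a q) with hS
    have hSsub : S ⊆ surv (T1 j ∪ T2 j) N P := by
      rw [hT j hjm]
      exact filter_subset _ _
    obtain ⟨b, hb⟩ := scale_step (hs j hjm) P (Q j) N (Yv j) (hY j hjm) (hQ j hjm) S hSsub
      (DD (T1 j) (T2 j) (M j) P (Q j) N) (BB (T1 j) (T2 j) (M j) P (Q j) N) θ hθ le_rfl le_rfl
      (hD j hjm) (hB j hjm)
    refine ⟨fun q => if q ∈ Q j then b q else a q, ?_⟩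
    have hfil : (surv T N P).filter (fun x => ∀ i ∈ insert j J, ∀ q ∈ Q i,
        x % q ≠ (if q ∈ Q j then b q else a q))
        = S.filter (fun x => ∀ q ∈ Q j, x % q ≠ b q) := by
      ext x
      rw [hS]
      simp only [mem_filter]
      constructor
      · rintro ⟨h1, h2⟩
        refine ⟨⟨h1, fun i hi q hq => ?_⟩, fun q hq => ?_⟩
        · have h3 := h2 i (mem_insert_of_mem hi) q hq
          have h4 : q ∉ Q j := fun h5 =>
            (disjoint_left.1 (hQd i (mem_insert_of_mem hi) j hjm (by rintro rfl; exact hj hi)) hq) h5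
          rwa [if_neg h4] at h3
        · have h3 := h2 j hjm q hq
          rwa [if_pos hq] at h3
      · rintro ⟨⟨h1, h2⟩, h3⟩
        refine ⟨h1, fun i hi q hq => ?_⟩
        rcases mem_insert.1 hi with rfl | hi'
        · rw [if_pos hq]
          exact h3 q hq
        · have h4 : q ∉ Q j := fun h5 =>
            (disjoint_left.1 (hQd i hi j hjm (by rintro rfl; exact hj hi')) hq) h5
          rw [if_neg h4]
          exact h2 i hi' q hq
    show (((surv T N P).filter (fun x => ∀ i ∈ insert j J, ∀ q ∈ Q i,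
        x % q ≠ (if q ∈ Q j then b q else a q))).card : ℝ) < θ ∨
      (((surv T N P).filter (fun x => ∀ i ∈ insert j J, ∀ q ∈ Q i,
        x % q ≠ (if q ∈ Q j then b q else a q))).card : ℝ) *
        ∏ i ∈ insert j J, (1 + (Q i).card / sig (T2 i) / (8 * Yv i)) ≤ (surv T N P).card
    rw [hfil]
    set S'' := S.filter (fun x => ∀ q ∈ Q j, x % q ≠ b q) with hS''
    have hle : (S''.card : ℝ) ≤ S.card := by exact_mod_cast card_le_card (filter_subset _ _)
    rcases ha with ha | ha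
    · left
      exact lt_of_le_of_lt hle ha
    · rcases hb with hb | hb
      · left; exact hb
      · right
        rw [prod_insert hj]
        have hprod : 0 ≤ ∏ i ∈ J, (1 + ((Q i).card : ℝ) / sig (T2 i) / (8 * Yv i)) := by
          apply prod_nonneg
          intro i hi
          have := sig_pos (T2 i) (hs i (mem_insert_of_mem hi)).p2
          positivity
        calc (S''.card : ℝ) * ((1 + ((Q j).card : ℝ) / sig (T2 j) / (8 * Yv j)) *
              ∏ i ∈ J, (1 + ((Q i).card : ℝ) / sig (T2 i) / (8 * Yv i)))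
            = ((S''.card : ℝ) * (1 + ((Q j).card : ℝ) / sig (T2 j) / (8 * Yv j))) *
              ∏ i ∈ J, (1 + ((Q i).card : ℝ) / sig (T2 i) / (8 * Yv i)) := by ring
          _ ≤ S.card * ∏ i ∈ J, (1 + ((Q i).card : ℝ) / sig (T2 i) / (8 * Yv i)) :=
              mul_le_mul_of_nonneg_right hb hprod
          _ ≤ (surv T N P).card := ha

lemma assign (U T : Finset ℕ) (h : U.card ≤ T.card) :
    ∃ b : ℕ → ℕ, ∀ u ∈ U, ∃ q ∈ T, b q = u := by
  classical
  obtain ⟨f⟩ : Nonempty (U ↪ T) := Function.Embedding.nonempty_of_card_le (by simpa using h)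
  refine ⟨fun q => if hq : ∃ u : U, (f u : ℕ) = q then (hq.choose : ℕ) else 0, fun u hu => ?_⟩
  refine ⟨f ⟨u, hu⟩, (f ⟨u, hu⟩).2, ?_⟩
  have hex : ∃ u' : U, (f u' : ℕ) = (f ⟨u, hu⟩ : ℕ) := ⟨⟨u, hu⟩, rfl⟩
  simp only [dif_pos hex]
  have h1 := hex.choose_spec
  have h2 : hex.choose = ⟨u, hu⟩ := f.injective (Subtype.ext h1)
  rw [h2]

/-- the covering -/
theorem cover_main (T P J Q' : Finset ℕ) (T1 T2 Q : ℕ → Finset ℕ) (M R Yv : ℕ → ℕ) (θ : ℝ)
    (hθ : 0 < θ) (hTp : ∀ r ∈ T, r.Prime) (hs : ∀ j ∈ J, Setup (T1 j) (T2 j) (M j) (R j))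
    (hT : ∀ j ∈ J, T1 j ∪ T2 j = T) (hY : ∀ j ∈ J, 0 < Yv j)
    (hQ : ∀ j ∈ J, ∀ q ∈ Q j, 0 < q ∧ q ≤ Yv j) (hQ0 : ∀ j ∈ J, (Q j).Nonempty)
    (hQd : ∀ i ∈ J, ∀ j ∈ J, i ≠ j → Disjoint (Q i) (Q j))
    (hQT : ∀ j ∈ J, Disjoint T (Q j)) (hQ'T : Disjoint T Q') (hQ'Q : ∀ j ∈ J, Disjoint (Q j) Q')
    (hQ' : θ ≤ Q'.card)
    (hD : ∀ j ∈ J, ∑ N ∈ range (∏ r ∈ T, r), DD (T1 j) (T2 j) (M j) P (Q j) N
      ≤ ((∏ r ∈ T, r : ℕ) : ℝ) * (((Q j).card / sig (T2 j)) ^ 2 * θ / 4) / (8 * J.card))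
    (hB : ∀ j ∈ J, ∑ N ∈ range (∏ r ∈ T, r), BB (T1 j) (T2 j) (M j) P (Q j) N
      ≤ ((∏ r ∈ T, r : ℕ) : ℝ) * ((Q j).card / sig (T2 j) * θ * Yv j / (8 * M j)) / (8 * J.card))
    (hgain : 4 * P.card * sig T ≤
      θ * ∏ j ∈ J, (1 + (Q j).card / sig (T2 j) / (8 * Yv j))) :
    ∃ a : ℕ → ℕ, ∀ x ∈ P, ∃ r, (r ∈ T ∨ (∃ j ∈ J, r ∈ Q j) ∨ r ∈ Q') ∧ x ≡ a r [MOD r] := by
  classical
  have hsp : ∀ j ∈ J, 0 < sig (T2 j) := fun j hj => sig_pos (T2 j) (hs j hj).p2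
  have hQc : ∀ j ∈ J, (0 : ℝ) < (Q j).card := fun j hj => by exact_mod_cast card_pos.2 (hQ0 j hj)
  have hY' : ∀ j ∈ J, (0 : ℝ) < Yv j := fun j hj => by exact_mod_cast hY j hj
  have hM' : ∀ j ∈ J, (0 : ℝ) < M j := fun j hj => by exact_mod_cast (hs j hj).M1
  obtain ⟨N, hN1, hN2⟩ := exists_N T P J T1 T2 Q M R
    (fun j => ((Q j).card / sig (T2 j)) ^ 2 * θ / 4)
    (fun j => (Q j).card / sig (T2 j) * θ * Yv j / (8 * M j)) hTp hs hT
    (fun j hj => by have := hsp j hj; have := hQc j hj; positivity)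
    (fun j hj => by have := hsp j hj; have := hQc j hj; have := hY' j hj; have := hM' j hj; positivity)
    hD hB
  obtain ⟨a, ha⟩ := all_scales T P J T1 T2 Q M R Yv N θ hθ hs hT hY hQ hQd
    (fun j hj => by have := (hN2 j hj).1; linarith)
    (fun j hj => by
      have h1 := (hN2 j hj).2
      have h2 := hM' j hj
      rw [le_div_iff₀ (by positivity)] at h1
      linarith)
  set S' := (surv T N P).filter (fun x => ∀ j ∈ J, ∀ q ∈ Q j, x % q ≠ a q) with hS'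
  have hprod : 0 < ∏ j ∈ J, (1 + ((Q j).card : ℝ) / sig (T2 j) / (8 * Yv j)) := by
    apply prod_pos
    intro j hj
    have := hsp j hj
    have := hY' j hj
    positivity
  have hS'le : (S'.card : ℝ) ≤ θ := by
    rcases ha with ha | ha
    · exact ha.le
    · have h1 : (S'.card : ℝ) * ∏ j ∈ J, (1 + ((Q j).card : ℝ) / sig (T2 j) / (8 * Yv j))
          ≤ θ * ∏ j ∈ J, (1 + ((Q j).card : ℝ) / sig (T2 j) / (8 * Yv j)) :=
        ha.trans (hN1.trans hgain)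
      exact le_of_mul_le_mul_right h1 hprod
  have hcard : S'.card ≤ Q'.card := by exact_mod_cast hS'le.trans hQ'
  obtain ⟨b, hb⟩ := assign S' Q' hcard
  refine ⟨fun r => if r ∈ T then N else if r ∈ Q' then b r else a r, fun x hx => ?_⟩
  by_cases h1 : ∃ r ∈ T, x % r = N % r
  · obtain ⟨r, hr, hr'⟩ := h1
    refine ⟨r, Or.inl hr, ?_⟩
    simp only [if_pos hr]
    exact hr'
  · push Not at h1
    have hxs : x ∈ surv T N P := mem_filter.2 ⟨hx, h1⟩
    by_cases h2 : x ∈ S'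
    · obtain ⟨q, hq, hqx⟩ := hb x h2
      refine ⟨q, Or.inr (Or.inr hq), ?_⟩
      have hqT : q ∉ T := fun h => (disjoint_left.1 hQ'T h) hq
      simp only [if_neg hqT, if_pos hq, hqx]
      exact Nat.ModEq.refl _
    · have h3 : ¬ ∀ j ∈ J, ∀ q ∈ Q j, x % q ≠ a q := fun h => h2 (mem_filter.2 ⟨hxs, h⟩)
      push Not at h3
      obtain ⟨j, hj, q, hq, hqa⟩ := h3
      refine ⟨q, Or.inr (Or.inl ⟨j, hj, hq⟩), ?_⟩
      have hqT : q ∉ T := fun h => (disjoint_left.1 (hQT j hj) h) hq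
      have hqQ : q ∉ Q' := fun h => (disjoint_left.1 (hQ'Q j hj) hq) h
      simp only [if_neg hqT, if_neg hqQ, ← hqa]
      exact (Nat.mod_modEq _ _).symm

end Pool.Agent.GWC
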