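import Pool.Agent.GWC.Defs

/-! # Averages over residue classes -/

namespace Pool.Agent.GWC

open Finset

theorem sum_split (a b : ℕ) (ha : 0 < a) (hb : 0 < b) (hab : Nat.Coprime a b) (F : ℕ → ℕ → ℝ) :
    ∑ N ∈ range (a * b), F (N % a) (N % b) = ∑ i ∈ range a, ∑ k ∈ range b, F i k := by
  rw [← sum_product' (range a) (range b) F]
  refine sum_nbij (fun N => (N % a, N % b)) ?_ ?_ ?_ ?_
  · intro N _
    simp only [mem_product, mem_range]
    exact ⟨Nat.mod_lt _ ha, Nat.mod_lt _ hb⟩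
  · intro N hN N' hN' h
    rw [mem_coe, mem_range] at hN hN'
    simp only [Prod.mk.injEq] at h
    have h1 : N ≡ N' [MOD a * b] := (Nat.modEq_and_modEq_iff_modEq_mul hab).1 ⟨h.1, h.2⟩
    exact Nat.ModEq.eq_of_lt_of_lt h1 hN hN'
  · intro p hp
    rw [mem_coe, mem_product, mem_range, mem_range] at hp
    obtain ⟨k, hk⟩ := Nat.chineseRemainder hab p.1 p.2
    refine ⟨k % (a * b), ?_, ?_⟩
    · rw [mem_coe, mem_range]
      exact Nat.mod_lt _ (Nat.mul_pos ha hb)
    · have h1 : k % (a * b) % a = p.1 := by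
        rw [Nat.mod_mod_of_dvd _ (dvd_mul_right a b)]
        exact (show k % a = p.1 % a from hk.1).trans (Nat.mod_eq_of_lt hp.1)
      have h2 : k % (a * b) % b = p.2 := by
        rw [Nat.mod_mod_of_dvd _ (dvd_mul_left b a)]
        exact (show k % b = p.2 % b from hk.2).trans (Nat.mod_eq_of_lt hp.2)
      simp only [h1, h2]
  · intro N _
    rfl

theorem coprime_prod {r : ℕ} {T : Finset ℕ} (hr : r.Prime) (hT : ∀ r ∈ T, r.Prime)
    (h : r ∉ T) : Nat.Coprime r (∏ r ∈ T, r) :=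
  Nat.Coprime.prod_right fun q hq =>
    (Nat.coprime_primes hr (hT q hq)).2 (by rintro rfl; exact h hq)

theorem sum_prod (T : Finset ℕ) (hT : ∀ r ∈ T, r.Prime) (f : ℕ → ℕ → ℝ) :
    ∑ N ∈ range (∏ r ∈ T, r), ∏ r ∈ T, f r (N % r) = ∏ r ∈ T, ∑ k ∈ range r, f r k := by
  classical
  induction T using Finset.induction_on with
  | empty => simp
  | insert r T hr ih =>
    have hT' : ∀ q ∈ T, q.Prime := fun q hq => hT q (mem_insert_of_mem hq)
    have hrp : r.Prime := hT r (mem_insert_self _ _)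
    have hW : 0 < ∏ q ∈ T, q := prod_pos fun q hq => (hT' q hq).pos
    have h1 := sum_split r (∏ q ∈ T, q) hrp.pos hW (coprime_prod hrp hT' hr)
      (fun i k => f r i * ∏ q ∈ T, f q (k % q))
    rw [prod_insert hr, prod_insert hr, ← ih hT', sum_mul_sum, ← h1]
    refine sum_congr rfl fun N _ => ?_
    rw [prod_insert hr]
    congr 1
    refine prod_congr rfl fun q hq => ?_
    rw [Nat.mod_mod_of_dvd _ (dvd_prod_of_mem (fun q => q) hq)]

/-- two stages: `F` depends on `N mod ∏ T1` in the first argument, and the second factor on the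
classes modulo `r ∈ T2` -/
theorem sum_two (T1 T2 : Finset ℕ) (h1 : ∀ r ∈ T1, r.Prime) (h2 : ∀ r ∈ T2, r.Prime)
    (hd : Disjoint T1 T2) (G : ℕ → ℕ → ℝ) :
    ∑ N ∈ range (WW T1 T2), G (N % ∏ r ∈ T1, r) (N % ∏ r ∈ T2, r)
      = ∑ i ∈ range (∏ r ∈ T1, r), ∑ k ∈ range (∏ r ∈ T2, r), G i k := by
  refine sum_split _ _ (prod_pos fun q hq => (h1 q hq).pos) (prod_pos fun q hq => (h2 q hq).pos)
    ?_ G
  exact Nat.Coprime.prod_left fun r hr =>
    coprime_prod (h1 r hr) h2 (fun h => (disjoint_left.1 hd hr) h)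

end Pool.Agent.GWC
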