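import Mathlib

/-!
# Definitions for the covering argument (MP_33f996_nt)

`P` is a finite set of natural numbers, `T1`, `T2` finite sets of primes, and a natural number `N`
gives the residue class `N mod r` for every `r ∈ T1 ∪ T2`.
-/

namespace Pool.Agent.GWC

open Finset

/-- the residues of the elements of `U` modulo `r` -/
def res (U : Finset ℕ) (r : ℕ) : Finset ℕ := U.image (fun x => x % r)

/-- normalised indicator that `N` is in no residue class of `U` modulo `r`, for all `r ∈ T` -/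
noncomputable def vw (T U : Finset ℕ) (N : ℕ) : ℝ :=
  ∏ r ∈ T, (if N % r ∈ res U r then 0 else (1 - ((res U r).card : ℝ) / r)⁻¹)

/-- the elements of `V` not congruent to `N` modulo any `r ∈ T` -/
def surv (T : Finset ℕ) (N : ℕ) (V : Finset ℕ) : Finset ℕ :=
  V.filter (fun x => ∀ r ∈ T, x % r ≠ N % r)

/-- the sum of `1 / r` over `r ∈ T` with `a ≡ b` modulo `r` -/
noncomputable def cc (T : Finset ℕ) (a b : ℕ) : ℝ :=
  ∑ r ∈ T.filter (fun r => a % r = b % r), (1 : ℝ) / r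

/-- the product of `1 - 1 / r` -/
noncomputable def sig (T : Finset ℕ) : ℝ := ∏ r ∈ T, (1 - 1 / (r : ℝ))

/-- the maximal weight -/
noncomputable def Lam (T : Finset ℕ) (M : ℕ) : ℝ := ∏ r ∈ T, (1 - (M : ℝ) / r)⁻¹

/-- the weight of the cluster `V`; it is `0` if `V` has more than `M` elements -/
noncomputable def wt (T1 T2 : Finset ℕ) (M : ℕ) (V : Finset ℕ) (N : ℕ) : ℝ :=
  if V.card ≤ M then vw T2 (surv T1 N V) N else 0

/-- the modulus -/
def WW (T1 T2 : Finset ℕ) : ℕ := (∏ r ∈ T1, r) * ∏ r ∈ T2, r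

/-- the standing hypotheses -/
structure Setup (T1 T2 : Finset ℕ) (M R : ℕ) : Prop where
  p1 : ∀ r ∈ T1, r.Prime
  p2 : ∀ r ∈ T2, r.Prime
  big : ∀ r ∈ T2, R < r
  disj : Disjoint T1 T2
  MR : 4 * M ≤ R
  M1 : 1 ≤ M

/-- the elements of `P` in the class of `c` modulo `q` -/
def cls (P : Finset ℕ) (q c : ℕ) : Finset ℕ := P.filter (fun x => x % q = c)

/-- `exp (2 M^2 c(a,b)) - 1` -/
noncomputable def FF (T2 : Finset ℕ) (M : ℕ) (a b : ℕ) : ℝ :=
  Real.exp (2 * (M : ℝ) ^ 2 * cc T2 a b) - 1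

/-- the contribution of the pairs with large `FF` -/
noncomputable def Phi (T2 : Finset ℕ) (M : ℕ) (η : ℝ) (P : Finset ℕ) : ℝ :=
  ∑ p ∈ (P ×ˢ P).filter (fun p => p.1 ≠ p.2 ∧ η < FF T2 M p.1 p.2), FF T2 M p.1 p.2

/-- number of triples `(a, b, q)`, `a ≠ b` in `P`, `q ∈ Q`, `a ≡ b` modulo `q` -/
def K2 (P Q : Finset ℕ) : ℕ :=
  ∑ q ∈ Q, ((P ×ˢ P).filter (fun p => p.1 ≠ p.2 ∧ p.1 % q = p.2 % q)).card

/-- total weight of the clusters containing `x` -/
noncomputable def Wx (T1 T2 : Finset ℕ) (M : ℕ) (P Q : Finset ℕ) (x N : ℕ) : ℝ :=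
  ∑ q ∈ Q, wt T1 T2 M (cls P q (x % q)) N

/-- total weight of the clusters modulo `q` -/
noncomputable def Tq (T1 T2 : Finset ℕ) (M : ℕ) (P : Finset ℕ) (q N : ℕ) : ℝ :=
  ∑ c ∈ range q, wt T1 T2 M (cls P q c) N

/-- number of small clusters modulo `q` -/
def Gq (M : ℕ) (P : Finset ℕ) (q : ℕ) : ℕ := ((range q).filter (fun c => (cls P q c).card ≤ M)).card

/-- size of the largest class of `S` modulo `q` -/
def mx (S : Finset ℕ) (q : ℕ) : ℕ := (range q).sup (fun c => (cls S q c).card)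

/-- the mean square deviation sum over the survivors -/
noncomputable def DD (T1 T2 : Finset ℕ) (M : ℕ) (P Q : Finset ℕ) (N : ℕ) : ℝ :=
  ∑ x ∈ surv (T1 ∪ T2) N P, (Wx T1 T2 M P Q x N - Q.card / sig T2) ^ 2

/-- the mean square deviation sum over the moduli -/
noncomputable def BB (T1 T2 : Finset ℕ) (M : ℕ) (P Q : Finset ℕ) (N : ℕ) : ℝ :=
  ∑ q ∈ Q, (Tq T1 T2 M P q N - Gq M P q) ^ 2

end Pool.Agent.GWC
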