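import Pool.Agent.GWC.Avg
import Pool.Agent.PNT.Main

/-! # Many windows contain many primes -/

namespace Pool.Agent.GWC

open Finset Pool.Agent.GW6 Filter

/-- primes in the upper part of a dyadic interval -/
theorem primes_dyadic : ∃ X1 : ℕ, ∀ X : ℕ, X1 ≤ X → ∀ H : ℕ, 8 * H ≤ X →
    (X : ℝ) / (4 * Real.log X) ≤ (((Ioc (X + H) (2 * X)).filter Nat.Prime).card : ℝ) := by
  have h1 := PNT.theta_asymp
  have h2 : ∀ᶠ x : ℝ in atTop, |Chebyshev.theta x / x - 1| < 1 / 20 := by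
    have := (Metric.tendsto_nhds.1 h1) (1 / 20) (by norm_num)
    simpa [Real.dist_eq] using this
  obtain ⟨x0, hx0⟩ := eventually_atTop.1 (h2.and (eventually_ge_atTop (1 : ℝ)))
  refine ⟨max ⌈x0⌉₊ 2, fun X hX H hH => ?_⟩
  have hX1 : ⌈x0⌉₊ ≤ X := (le_max_left _ _).trans hX
  have hX2 : 2 ≤ X := (le_max_right _ _).trans hX
  have hXr : (2 : ℝ) ≤ X := by exact_mod_cast hX2
  have hx0X : x0 ≤ X := (Nat.le_ceil x0).trans (by exact_mod_cast hX1)
  have hHr : (H : ℝ) ≤ X / 8 := by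
    rw [le_div_iff₀ (by norm_num)]
    have : H * 8 ≤ X := by omega
    exact_mod_cast this
  have hH0 : (0 : ℝ) ≤ H := Nat.cast_nonneg _
  have a1 := (abs_lt.1 (hx0 ((2 * X : ℕ) : ℝ) (by push_cast; linarith)).1).1
  have a2 := (abs_lt.1 (hx0 ((X + H : ℕ) : ℝ) (by push_cast; linarith)).1).2
  have p1 : (0 : ℝ) < ((2 * X : ℕ) : ℝ) := by push_cast; linarith
  have p2 : (0 : ℝ) < ((X + H : ℕ) : ℝ) := by push_cast; linarith
  have b1 : 19 / 20 * ((2 * X : ℕ) : ℝ) ≤ Chebyshev.theta ((2 * X : ℕ) : ℝ) := by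
    have : 19 / 20 < Chebyshev.theta ((2 * X : ℕ) : ℝ) / ((2 * X : ℕ) : ℝ) := by linarith
    rw [lt_div_iff₀ p1] at this
    exact this.le
  have b2 : Chebyshev.theta ((X + H : ℕ) : ℝ) ≤ 21 / 20 * ((X + H : ℕ) : ℝ) := by
    have : Chebyshev.theta ((X + H : ℕ) : ℝ) / ((X + H : ℕ) : ℝ) < 21 / 20 := by linarith
    rw [div_lt_iff₀ p2] at this
    exact this.le
  have hsplit : Chebyshev.theta ((2 * X : ℕ) : ℝ) ≤ Chebyshev.theta ((X + H : ℕ) : ℝ)
      + ∑ p ∈ (Ioc (X + H) (2 * X)).filter Nat.Prime, Real.log p := by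
    unfold Chebyshev.theta
    rw [Nat.floor_natCast, Nat.floor_natCast]
    have hsub : (Ioc 0 (2 * X)).filter Nat.Prime ⊆
        (Ioc 0 (X + H)).filter Nat.Prime ∪ (Ioc (X + H) (2 * X)).filter Nat.Prime := by
      intro p hp
      rw [mem_filter, mem_Ioc] at hp
      rw [mem_union, mem_filter, mem_filter, mem_Ioc, mem_Ioc]
      rcases le_or_gt p (X + H) with h | h
      · exact Or.inl ⟨⟨hp.1.1, h⟩, hp.2⟩
      · exact Or.inr ⟨⟨h, hp.1.2⟩, hp.2⟩
    have hnn : ∀ p : ℕ, 0 ≤ Real.log p := fun p => Real.log_natCast_nonneg p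
    refine (sum_le_sum_of_subset_of_nonneg hsub fun p _ _ => hnn p).trans ?_
    have := sum_union_inter (s₁ := (Ioc 0 (X + H)).filter Nat.Prime)
      (s₂ := (Ioc (X + H) (2 * X)).filter Nat.Prime) (f := fun p : ℕ => Real.log p)
    have h0 : 0 ≤ ∑ p ∈ (Ioc 0 (X + H)).filter Nat.Prime ∩ (Ioc (X + H) (2 * X)).filter Nat.Prime,
        Real.log p := sum_nonneg fun p _ => hnn p
    linarith
  have hlog : Real.log ((2 * X : ℕ) : ℝ) ≤ 2 * Real.log X := by
    push_cast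
    rw [Real.log_mul (by norm_num) (by linarith)]
    have := Real.log_le_log (by norm_num) hXr
    linarith
  have hlX : 0 < Real.log X := Real.log_pos (by linarith)
  have hsum : ∑ p ∈ (Ioc (X + H) (2 * X)).filter Nat.Prime, Real.log p
      ≤ (((Ioc (X + H) (2 * X)).filter Nat.Prime).card : ℝ) * (2 * Real.log X) := by
    rw [← nsmul_eq_mul]
    refine sum_le_card_nsmul _ _ _ fun p hp => ?_
    rw [mem_filter, mem_Ioc] at hp
    refine le_trans (Real.log_le_log (by exact_mod_cast hp.2.pos) ?_) hlog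
    exact_mod_cast hp.1.2
  push_cast at b1 b2 hsplit
  rw [div_le_iff₀ (by positivity)]
  linarith

/-- at least `κ X` of the `s ∈ (X, 2X]` have at least `H / (8 log X)` primes in their window -/
theorem many_primes : ∃ κ : ℝ, 0 < κ ∧ ∃ X1 : ℕ, ∀ X : ℕ, X1 ≤ X → ∀ H : ℕ,
    Real.log X ≤ H → 8 * H ≤ X →
    κ * X ≤ ((Ioc X (2 * X)).filter (fun s => (H : ℝ) / (8 * Real.log X) ≤
      ((Pw H s).card : ℝ))).card := by
  obtain ⟨X1, hX1⟩ := primes_dyadic
  obtain ⟨C1, hC1, havg⟩ := avg_card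
  obtain ⟨C2, hC2, hpairs⟩ := avg_pairs
  set C : ℝ := C1 + C2 * Real.exp 4 with hC
  have hCpos : 0 < C := by positivity
  refine ⟨1 / (64 * C), by positivity, max X1 3, fun X hX H hH1 hH2 => ?_⟩
  have hXX1 : X1 ≤ X := (le_max_left _ _).trans hX
  have hX3 : 3 ≤ X := (le_max_right _ _).trans hX
  have hXr : (3 : ℝ) ≤ X := by exact_mod_cast hX3
  set L : ℝ := Real.log X with hL
  have hL1 : 1 ≤ L := by
    rw [hL, Real.le_log_iff_exp_le (by linarith)]
    have := Real.exp_one_lt_d9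
    linarith
  have hL0 : 0 < L := by linarith
  have hHr : 0 < (H : ℝ) := by linarith
  -- first moment
  have hfirst : (H : ℝ) * (X / (4 * L)) ≤ ∑ s ∈ Ioc X (2 * X), ((Pw H s).card : ℝ) := by
    have h1 : ∀ s ∈ Ioc X (2 * X), ∑ p ∈ (Ioc (X + H) (2 * X)).filter Nat.Prime,
        (if s < p ∧ p ≤ s + H then (1 : ℝ) else 0) ≤ ((Pw H s).card : ℝ) := by
      intro s _
      rw [← sum_filter, sum_const, nsmul_eq_mul, mul_one]
      have : ((Ioc (X + H) (2 * X)).filter Nat.Prime).filter (fun p => s < p ∧ p ≤ s + H)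
          ⊆ Pw H s := by
        intro p hp
        rw [mem_filter, mem_filter] at hp
        unfold Pw
        rw [mem_filter, mem_Ioc]
        exact ⟨hp.2, hp.1.2⟩
      exact_mod_cast card_le_card this
    refine le_trans ?_ (sum_le_sum h1)
    rw [sum_comm]
    have h2 : ∀ p ∈ (Ioc (X + H) (2 * X)).filter Nat.Prime,
        (H : ℝ) ≤ ∑ s ∈ Ioc X (2 * X), (if s < p ∧ p ≤ s + H then (1 : ℝ) else 0) := by
      intro p hp
      rw [mem_filter, mem_Ioc] at hp
      rw [← sum_filter, sum_const, nsmul_eq_mul, mul_one]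
      have : Ico (p - H) p ⊆ (Ioc X (2 * X)).filter (fun s => s < p ∧ p ≤ s + H) := by
        intro s hs
        rw [mem_Ico] at hs
        rw [mem_filter, mem_Ioc]
        omega
      have h3 := card_le_card this
      rw [Nat.card_Ico] at h3
      have h4 : H ≤ ((Ioc X (2 * X)).filter (fun s => s < p ∧ p ≤ s + H)).card := by omega
      exact_mod_cast h4
    refine le_trans ?_ (sum_le_sum h2)
    rw [sum_const, nsmul_eq_mul, mul_comm]
    exact mul_le_mul_of_nonneg_right (hX1 X hXX1 H hH2) hHr.le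
  -- second moment
  have hsecond : ∑ s ∈ Ioc X (2 * X), ((Pw H s).card : ℝ) ^ 2 ≤ C * (X / L ^ 2) * (H : ℝ) ^ 2 := by
    have h1 : ∀ s ∈ Ioc X (2 * X), ((Pw H s).card : ℝ) ^ 2 ≤ ((Pw H s).card : ℝ)
        + ∑ p ∈ (Pw H s ×ˢ Pw H s).filter (fun p => p.1 ≠ p.2), (1 : ℝ) := by
      intro s _
      rw [sum_const, nsmul_eq_mul, mul_one]
      have h2 : ((Pw H s ×ˢ Pw H s).filter (fun p => p.1 = p.2)).card
          + ((Pw H s ×ˢ Pw H s).filter (fun p => ¬ p.1 = p.2)).card = (Pw H s).card ^ 2 := by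
        rw [card_filter_add_card_filter_not, card_product, sq]
      have h3 : ((Pw H s ×ˢ Pw H s).filter (fun p => p.1 = p.2)).card ≤ (Pw H s).card := by
        refine card_le_card_of_injOn (fun p => p.1) ?_ ?_
        · intro p hp
          exact (mem_product.1 (mem_filter.1 hp).1).1
        · intro p hp q hq hpq
          have e1 : p.1 = p.2 := (mem_filter.1 hp).2
          have e2 : q.1 = q.2 := (mem_filter.1 hq).2
          have e3 : p.1 = q.1 := hpq
          exact Prod.ext e3 (by rw [← e1, ← e2, e3])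
      have h4 : (Pw H s).card ^ 2 ≤ (Pw H s).card
          + ((Pw H s ×ˢ Pw H s).filter (fun p => ¬ p.1 = p.2)).card := by omega
      exact_mod_cast h4
    refine (sum_le_sum h1).trans ?_
    rw [sum_add_distrib]
    have h5 := havg X H (by omega) (by omega)
    have h6 := hpairs X H (by omega) (by omega) (fun _ => 1) (fun _ => zero_le_one)
    have h7 : ∑ h ∈ Icc 1 H, (1 : ℝ) * fh h ≤ Real.exp 4 * H := by
      simp_rw [one_mul]
      exact sum_fh_le H
    have h8 : C1 * (X / L) * H ≤ C1 * (X / L ^ 2) * (H : ℝ) ^ 2 := by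
      have : C1 * (X / L) * H = C1 * (X / L ^ 2) * (L * H) := by field_simp
      rw [this]
      refine mul_le_mul_of_nonneg_left ?_ (by positivity)
      rw [sq]
      exact mul_le_mul_of_nonneg_right hH1 hHr.le
    calc ∑ s ∈ Ioc X (2 * X), ((Pw H s).card : ℝ)
          + ∑ s ∈ Ioc X (2 * X), ∑ p ∈ (Pw H s ×ˢ Pw H s).filter (fun p => p.1 ≠ p.2), (1 : ℝ)
        ≤ C1 * (X / L) * H + C2 * (X / L ^ 2) * H * ∑ h ∈ Icc 1 H, (1 : ℝ) * fh h :=
          add_le_add h5 h6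
      _ ≤ C1 * (X / L ^ 2) * (H : ℝ) ^ 2 + C2 * (X / L ^ 2) * H * (Real.exp 4 * H) := by
          refine add_le_add h8 (mul_le_mul_of_nonneg_left h7 (by positivity))
      _ = C * (X / L ^ 2) * (H : ℝ) ^ 2 := by rw [hC]; ring
  -- Paley-Zygmund
  set τ : ℝ := H / (8 * L) with hτ
  have hτ0 : 0 < τ := by positivity
  set B := (Ioc X (2 * X)).filter (fun s => τ ≤ ((Pw H s).card : ℝ)) with hB
  have hcardI : ((Ioc X (2 * X)).card : ℝ) = X := by
    rw [Nat.card_Ioc]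
    congr 1
    omega
  have h1 : ∑ s ∈ Ioc X (2 * X), ((Pw H s).card : ℝ) ≤ X * τ + ∑ s ∈ B, ((Pw H s).card : ℝ) := by
    rw [hB, ← sum_filter_add_sum_filter_not (Ioc X (2 * X)) (fun s => τ ≤ ((Pw H s).card : ℝ)),
      add_comm]
    refine add_le_add ?_ le_rfl
    calc ∑ s ∈ (Ioc X (2 * X)).filter (fun s => ¬ τ ≤ ((Pw H s).card : ℝ)), ((Pw H s).card : ℝ)
        ≤ ∑ s ∈ (Ioc X (2 * X)).filter (fun s => ¬ τ ≤ ((Pw H s).card : ℝ)), τ :=
          sum_le_sum fun s hs => (not_le.1 (mem_filter.1 hs).2).le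
      _ ≤ ∑ s ∈ Ioc X (2 * X), τ :=
          sum_le_sum_of_subset_of_nonneg (filter_subset _ _) fun _ _ _ => hτ0.le
      _ = X * τ := by rw [sum_const, nsmul_eq_mul, hcardI]
  have h2 : X * τ ≤ ∑ s ∈ B, ((Pw H s).card : ℝ) := by
    have e : (H : ℝ) * (X / (4 * L)) = X * τ + X * τ := by rw [hτ]; field_simp; ring
    linarith
  have h3 : (∑ s ∈ B, ((Pw H s).card : ℝ)) ^ 2 ≤ B.card * ∑ s ∈ B, ((Pw H s).card : ℝ) ^ 2 :=
    sq_sum_le_card_mul_sum_sq
  have h4 : ∑ s ∈ B, ((Pw H s).card : ℝ) ^ 2 ≤ C * (X / L ^ 2) * (H : ℝ) ^ 2 :=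
    (sum_le_sum_of_subset_of_nonneg (filter_subset _ _) fun _ _ _ => sq_nonneg _).trans hsecond
  have hX0 : (0 : ℝ) < X := by linarith
  have h5 : (X * τ) ^ 2 ≤ B.card * (C * (X / L ^ 2) * (H : ℝ) ^ 2) := by
    calc (X * τ) ^ 2 ≤ (∑ s ∈ B, ((Pw H s).card : ℝ)) ^ 2 := pow_le_pow_left₀ (by positivity) h2 2
      _ ≤ _ := h3.trans (mul_le_mul_of_nonneg_left h4 (Nat.cast_nonneg _))
  have h6 : (X * τ) ^ 2 = (1 / (64 * C) * X) * (C * (X / L ^ 2) * (H : ℝ) ^ 2) := by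
    rw [hτ]
    field_simp
    ring
  rw [h6] at h5
  exact le_of_mul_le_mul_right h5 (by positivity)

end Pool.Agent.GWC
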