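import Mathlib

/-! # MP_33f996_nt: small sets of primes do not suffice

Let `c, ε > 0` and `2 c + ε ≤ 1`. For all large `s` and every set `P` of at most `c log s`
natural numbers, at least `s^(1 - 2 c - ε)` of the `n` with `s < √(2n) < s + 1` are such that
`2 n - p` is not prime for every `p ∈ P` with `p < n`.

Proof. Put `L = log s`, `δ = ε / 8`, `z = L^(1-δ)`. Residue classes modulo the primes `3 ≤ q ≤ z`
are chosen greedily, so that at most `|P| ∏ (1 - 1/q) ≤ 2 |P| / log z` elements of `P` are not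
covered, and these are covered one by one by primes in `(z, 16 L]`. The modulus is
`s^(o(1)) (16 L)^(2 |P| / log z + 1) ≤ s^(2 c + ε)`. The Chinese remainder theorem gives even
`N` in `(s², (s+1)²)` in these classes.
-/

namespace Pool.Agent.GWC.Win

open Finset Real

theorem greedy (P : Finset ℕ) (T : Finset ℕ) (hT : ∀ q ∈ T, 0 < q) : ∃ a : ℕ → ℕ,
    ((P.filter (fun p => ∀ q ∈ T, ¬ p ≡ a q [MOD q])).card : ℝ)
      ≤ P.card * ∏ q ∈ T, (1 - 1 / (q : ℝ)) := by
  classical
  induction T using Finset.induction_on with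
  | empty => exact ⟨fun _ => 0, by simp⟩
  | insert q T hq ih =>
    obtain ⟨a, ha⟩ := ih fun q hq => hT q (mem_insert_of_mem hq)
    have hq0 : 0 < q := hT q (mem_insert_self _ _)
    set P' := P.filter (fun p => ∀ q ∈ T, ¬ p ≡ a q [MOD q]) with hP'
    have hsum : P'.card = ∑ r ∈ range q, (P'.filter (fun p => p % q = r)).card :=
      card_eq_sum_card_fiberwise (fun p _ => mem_coe.2 (mem_range.2 (Nat.mod_lt p hq0)))
    obtain ⟨r, hr, hrc⟩ : ∃ r ∈ range q, P'.card ≤ q * (P'.filter (fun p => p % q = r)).card := by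
      by_contra hcon
      push Not at hcon
      have h1 : ∑ r ∈ range q, q * (P'.filter (fun p => p % q = r)).card
          < ∑ r ∈ range q, P'.card :=
        sum_lt_sum_of_nonempty (nonempty_range_iff.2 hq0.ne') hcon
      rw [← mul_sum, ← hsum, sum_const, card_range, smul_eq_mul] at h1
      exact lt_irrefl _ h1
    rw [mem_range] at hr
    refine ⟨Function.update a q r, ?_⟩
    have hsub : (P.filter (fun p => ∀ q' ∈ insert q T, ¬ p ≡ Function.update a q r q' [MOD q']))
        ⊆ P'.filter (fun p => ¬ p % q = r) := by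
      intro p hp
      rw [mem_filter] at hp
      rw [mem_filter, hP', mem_filter]
      refine ⟨⟨hp.1, fun q' hq' => ?_⟩, fun h => ?_⟩
      · have h2 := hp.2 q' (mem_insert_of_mem hq')
        rwa [Function.update_of_ne (by rintro rfl; exact hq hq')] at h2
      · refine hp.2 q (mem_insert_self _ _) ?_
        rw [Function.update_self]
        unfold Nat.ModEq
        rw [h, Nat.mod_eq_of_lt hr]
    have hadd : (P'.filter (fun p => p % q = r)).card + (P'.filter (fun p => ¬ p % q = r)).card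
        = P'.card := card_filter_add_card_filter_not (fun p => p % q = r)
    have h3 : ((P'.filter (fun p => ¬ p % q = r)).card : ℝ) ≤ P'.card * (1 - 1 / (q : ℝ)) := by
      have h4 : (P'.card : ℝ) ≤ q * (P'.filter (fun p => p % q = r)).card := by exact_mod_cast hrc
      have h5 : ((P'.filter (fun p => p % q = r)).card : ℝ)
          + (P'.filter (fun p => ¬ p % q = r)).card = P'.card := by exact_mod_cast hadd
      have hq' : (0 : ℝ) < q := by exact_mod_cast hq0
      have h6 : (P'.card : ℝ) / q ≤ (P'.filter (fun p => p % q = r)).card := by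
        rw [div_le_iff₀ hq']
        linarith
      have h7 : (P'.card : ℝ) * (1 - 1 / (q : ℝ)) = P'.card - P'.card / q := by ring
      rw [h7]
      linarith
    have hq1 : (0 : ℝ) ≤ 1 - 1 / (q : ℝ) := by
      have : (1 : ℝ) ≤ q := by exact_mod_cast hq0
      rw [sub_nonneg, div_le_one (by linarith)]
      exact this
    calc ((P.filter (fun p => ∀ q' ∈ insert q T,
            ¬ p ≡ Function.update a q r q' [MOD q'])).card : ℝ)
        ≤ (P'.filter (fun p => ¬ p % q = r)).card := by exact_mod_cast card_le_card hsub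
      _ ≤ P'.card * (1 - 1 / (q : ℝ)) := h3
      _ ≤ (P.card * ∏ q ∈ T, (1 - 1 / (q : ℝ))) * (1 - 1 / (q : ℝ)) :=
          mul_le_mul_of_nonneg_right ha hq1
      _ = P.card * ∏ q ∈ insert q T, (1 - 1 / (q : ℝ)) := by
          rw [prod_insert hq]; ring

theorem assign (U T : Finset ℕ) (h : U.card ≤ T.card) :
    ∃ b : ℕ → ℕ, ∀ u ∈ U, ∃ q ∈ T, b q = u := by
  classical
  obtain ⟨f⟩ : Nonempty (U ↪ T) := Function.Embedding.nonempty_of_card_le (by simpa using h)
  refine ⟨fun q => if hq : ∃ u : U, (f u : ℕ) = q then (hq.choose : ℕ) else 0, fun u hu => ?_⟩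
  refine ⟨f ⟨u, hu⟩, (f ⟨u, hu⟩).2, ?_⟩
  have hex : ∃ u' : U, (f u' : ℕ) = (f ⟨u, hu⟩ : ℕ) := ⟨⟨u, hu⟩, rfl⟩
  simp only [dif_pos hex]
  have h1 := hex.choose_spec
  have h2 : hex.choose = ⟨u, hu⟩ := f.injective (Subtype.ext h1)
  rw [h2]

theorem cover (P T T' : Finset ℕ) (hT : ∀ q ∈ T, 0 < q) (hd : Disjoint T T')
    (h : (P.card : ℝ) * ∏ q ∈ T, (1 - 1 / (q : ℝ)) ≤ T'.card) :
    ∃ a : ℕ → ℕ, ∀ p ∈ P, ∃ q ∈ T ∪ T', p ≡ a q [MOD q] := by
  classical
  obtain ⟨a, ha⟩ := greedy P T hT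
  obtain ⟨b, hb⟩ := assign (P.filter (fun p => ∀ q ∈ T, ¬ p ≡ a q [MOD q])) T'
    (by exact_mod_cast ha.trans h)
  refine ⟨fun q => if q ∈ T then a q else b q, fun p hp => ?_⟩
  by_cases hc : ∀ q ∈ T, ¬ p ≡ a q [MOD q]
  · obtain ⟨q, hq, hqb⟩ := hb p (mem_filter.2 ⟨hp, hc⟩)
    refine ⟨q, mem_union_right _ hq, ?_⟩
    have hn : q ∉ T := fun h' => (disjoint_left.1 hd h') hq
    simp only [hn, if_false, hqb]
    exact Nat.ModEq.refl _
  · push Not at hc
    obtain ⟨q, hq, hqa⟩ := hc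
    refine ⟨q, mem_union_left _ hq, ?_⟩
    simp only [hq, if_true]
    exact hqa

/-- the Euler product bound of Mertens type -/
theorem euler (N : ℕ) (hN : 2 ≤ N) :
    ∏ q ∈ N.primesBelow, (1 - 1 / (q : ℝ)) ≤ 1 / Real.log N := by
  let f : ℕ →* ℝ :=
    { toFun := fun m => (m : ℝ)⁻¹
      map_one' := by simp
      map_mul' := fun a b => by push_cast; rw [mul_inv] }
  have hf1 : ∀ {p : ℕ}, p.Prime → ‖f p‖ < 1 := by
    intro p hp
    show ‖(p : ℝ)⁻¹‖ < 1
    rw [norm_inv, Real.norm_natCast]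
    exact inv_lt_one_of_one_lt₀ (by exact_mod_cast hp.one_lt)
  obtain ⟨-, hsum⟩ := EulerProduct.summable_and_hasSum_smoothNumbers_prod_primesBelow_geometric
    (f := f) hf1 N
  have hlog : Real.log N ≤ ∏ p ∈ N.primesBelow, (1 - f p)⁻¹ := by
    classical
    let S : Finset N.smoothNumbers :=
      (Finset.Icc 1 (N - 1)).attach.image (fun m => (⟨m.1, Nat.mem_smoothNumbers_of_lt
        (by have := (Finset.mem_Icc.1 m.2).1; omega)
        (by have := (Finset.mem_Icc.1 m.2).2; omega)⟩ : N.smoothNumbers))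
    have h1 : ∑ m ∈ S, f m ≤ ∏ p ∈ N.primesBelow, (1 - f p)⁻¹ :=
      sum_le_hasSum S (fun m _ => by
        show (0 : ℝ) ≤ ((m : ℕ) : ℝ)⁻¹
        positivity) hsum
    have h2 : ∑ m ∈ S, f m = ∑ m ∈ Finset.Icc 1 (N - 1), ((m : ℝ))⁻¹ := by
      rw [Finset.sum_image]
      · rw [← Finset.sum_attach (Finset.Icc 1 (N - 1))]
        rfl
      · intro x _ y _ hxy
        have := congrArg (fun z : N.smoothNumbers => (z : ℕ)) hxy
        exact Subtype.ext this
    have h3 := log_add_one_le_harmonic (N - 1)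
    have h4 : ((N - 1 : ℕ) : ℝ) + 1 = N := by
      rw [Nat.cast_sub (by omega)]; push_cast; ring
    have h5 : ((harmonic (N - 1) : ℚ) : ℝ) = ∑ m ∈ Finset.Icc 1 (N - 1), ((m : ℝ))⁻¹ := by
      rw [harmonic_eq_sum_Icc]
      push_cast
      rfl
    rw [h5] at h3
    rw [← h2] at h3
    have h6 : Real.log N = Real.log (((N - 1 : ℕ) : ℝ) + 1) := by rw [h4]
    rw [h6]
    refine le_trans ?_ (h3.trans h1)
    push_cast
    exact le_rfl
  have hlog0 : 0 < Real.log N := Real.log_pos (by exact_mod_cast hN)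
  have hprod : ∏ q ∈ N.primesBelow, (1 - 1 / (q : ℝ))
      = (∏ p ∈ N.primesBelow, (1 - f p)⁻¹)⁻¹ := by
    rw [← Finset.prod_inv_distrib]
    refine Finset.prod_congr rfl fun q _ => ?_
    rw [inv_inv]
    show 1 - 1 / (q : ℝ) = 1 - (q : ℝ)⁻¹
    rw [one_div]
  rw [hprod, one_div]
  exact inv_anti₀ hlog0 hlog

theorem card_primes (z y : ℕ) : Nat.primeCounting y ≤
    ((range (y + 1)).filter (fun q => q.Prime ∧ z < q)).card + z := by
  classical
  have h1 : Nat.primeCounting y = ((range (y + 1)).filter Nat.Prime).card := by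
    rw [Nat.primeCounting, Nat.primeCounting', Nat.count_eq_card_filter_range]
  rw [h1]
  have h2 : (range (y + 1)).filter Nat.Prime ⊆
      (range (y + 1)).filter (fun q => q.Prime ∧ z < q) ∪ Icc 1 z := by
    intro q hq
    rw [mem_filter] at hq
    rw [mem_union, mem_filter, mem_Icc]
    by_cases h : z < q
    · exact Or.inl ⟨hq.1, hq.2, h⟩
    · exact Or.inr ⟨hq.2.one_le, not_lt.1 h⟩
  calc ((range (y + 1)).filter Nat.Prime).card
      ≤ ((range (y + 1)).filter (fun q => q.Prime ∧ z < q) ∪ Icc 1 z).card :=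
        card_le_card h2
    _ ≤ _ := (card_union_le _ _).trans (by simp)

/-- the parameters -/
theorem params (c ε : ℝ) (hc : 0 < c) (hε : 0 < ε) (hce : 2 * c + ε ≤ 1) :
    ∃ L₀ : ℝ, 16 ≤ L₀ ∧ ∀ L : ℝ, L₀ ≤ L → ∃ z y r : ℕ, 2 ≤ z ∧ z ≤ y ∧ (y : ℝ) ≤ 16 * L ∧
      c * L * (2 / Real.log ((z + 1 : ℕ) : ℝ)) ≤ r ∧ r + z ≤ Nat.primeCounting y ∧
      z * Real.log 4 + r * Real.log y ≤ (2 * c + ε) * L := by
  set δ : ℝ := ε / 8 with hδ
  have hε1 : ε < 1 := by linarith
  have hδ0 : 0 < δ := by positivity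
  have hδ1 : δ < 1 / 8 := by rw [hδ]; linarith
  have hc1 : 2 * c < 1 := by linarith
  have ev1 : ∀ᶠ L : ℝ in Filter.atTop, 16 ≤ L := Filter.eventually_ge_atTop 16
  have ev2 : ∀ᶠ L : ℝ in Filter.atTop, 8 / ε ≤ L ^ δ :=
    (tendsto_rpow_atTop hδ0).eventually_ge_atTop _
  have ev3 : ∀ᶠ L : ℝ in Filter.atTop, 128 / ε ≤ Real.log L :=
    Real.tendsto_log_atTop.eventually_ge_atTop _
  have ev4 : ∀ᶠ L : ℝ in Filter.atTop, Real.log L ≤ (ε / 16) * L := by
    have h := Real.isLittleO_log_id_atTop.bound (c := ε / 16) (by positivity)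
    filter_upwards [h, ev1] with L hL hL1
    rw [Real.norm_of_nonneg (Real.log_nonneg (by linarith)), id,
      Real.norm_of_nonneg (by linarith)] at hL
    exact hL
  have ev5 : ∀ᶠ L : ℝ in Filter.atTop, 4 * Real.log L ≤ L ^ δ := by
    have h := (isLittleO_log_rpow_atTop hδ0).bound (c := 1 / 4) (by norm_num)
    filter_upwards [h, ev1] with L hL hL1
    rw [Real.norm_of_nonneg (Real.log_nonneg (by linarith)),
      Real.norm_of_nonneg (Real.rpow_nonneg (by linarith) _)] at hL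
    linarith
  obtain ⟨A, hA⟩ := Filter.eventually_atTop.1
    (ev1.and (ev2.and (ev3.and (ev4.and ev5))))
  refine ⟨max 16 A, le_max_left _ _, fun L hL => ?_⟩
  obtain ⟨h1, h2', h3, h4, h5⟩ := hA L ((le_max_right _ _).trans hL)
  have hL0 : 0 < L := by linarith
  have hlogL : 0 < Real.log L := Real.log_pos (by linarith)
  have hlogL128 : 128 ≤ Real.log L := by
    refine le_trans ?_ h3
    rw [le_div_iff₀ hε]
    linarith
  set W : ℝ := L ^ (1 - δ) with hW
  have hW0 : 0 < W := Real.rpow_pos_of_pos hL0 _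
  have hWL : W * L ^ δ = L := by
    rw [hW, ← Real.rpow_add hL0]
    simp
  have hεL : ε * L ≤ L := by
    have := mul_le_mul_of_nonneg_right hε1.le hL0.le
    linarith
  have h2 : W ≤ (ε / 8) * L := by
    have e1 := mul_le_mul_of_nonneg_left h2' hW0.le
    rw [hWL] at e1
    have e2 : W = (ε / 8) * (W * (8 / ε)) := by field_simp
    rw [e2]
    exact mul_le_mul_of_nonneg_left e1 (by positivity)
  -- `W ≤ L / (4 log L)`
  have hW4 : 4 * W * Real.log L ≤ L := by
    have := mul_le_mul_of_nonneg_left h5 hW0.le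
    linarith
  have hlogW : Real.log W = (1 - δ) * Real.log L := Real.log_rpow hL0 _
  have hW2 : 2 ≤ W := by
    have h6 : Real.log 2 ≤ Real.log W := by
      rw [hlogW]
      have h7 := Real.log_two_lt_d9
      have h8 : (1 / 2) * 128 ≤ (1 - δ) * Real.log L :=
        mul_le_mul (by linarith) hlogL128 (by norm_num) (by linarith)
      linarith
    exact (Real.log_le_log_iff (by norm_num) hW0).1 h6
  have hlog16 : Real.log 16 ≤ 3 := by
    have h6 : Real.log 16 = 4 * Real.log 2 := by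
      rw [show (16 : ℝ) = 2 ^ 4 by norm_num, Real.log_pow]; norm_num
    have := Real.log_two_lt_d9
    linarith
  have hlog4 : Real.log 4 ≤ 2 := by
    have h6 : Real.log 4 = 2 * Real.log 2 := by
      rw [show (4 : ℝ) = 2 ^ 2 by norm_num, Real.log_pow]; norm_num
    have := Real.log_two_lt_d9
    linarith
  have hlog40 : 0 ≤ Real.log 4 := Real.log_nonneg (by norm_num)
  set z := ⌊W⌋₊ with hz
  set y := ⌊16 * L⌋₊ with hy
  have hzW : (z : ℝ) ≤ W := Nat.floor_le hW0.le
  have hWz : W < z + 1 := Nat.lt_floor_add_one W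
  have hyL : (y : ℝ) ≤ 16 * L := Nat.floor_le (by positivity)
  have hLy : 16 * L < y + 1 := Nat.lt_floor_add_one _
  have hz2 : 2 ≤ z := Nat.le_floor (by exact_mod_cast hW2)
  have hlogz : (1 - δ) * Real.log L ≤ Real.log ((z + 1 : ℕ) : ℝ) := by
    rw [← hlogW]
    apply Real.log_le_log hW0
    push_cast
    exact hWz.le
  have hlogz0 : 0 < Real.log ((z + 1 : ℕ) : ℝ) := by
    refine lt_of_lt_of_le ?_ hlogz
    have : 0 < 1 - δ := by linarith
    positivity
  set R : ℝ := c * L * (2 / Real.log ((z + 1 : ℕ) : ℝ)) with hR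
  have hR0 : 0 ≤ R := by positivity
  -- `R log L ≤ (2 c + ε / 4) L`
  have hRL : R * Real.log L ≤ (2 * c + ε / 4) * L := by
    have h6 : R * Real.log ((z + 1 : ℕ) : ℝ) = 2 * c * L := by
      rw [hR]
      field_simp
    have h7 : R * ((1 - δ) * Real.log L) ≤ 2 * c * L := by
      rw [← h6]
      exact mul_le_mul_of_nonneg_left hlogz hR0
    have h8 : (1 - δ) * (R * Real.log L) ≤ 2 * c * L := by linarith
    have h9 : 2 * c ≤ (1 - δ) * (2 * c + ε / 4) := by
      have e1 : (1 - δ) * (2 * c + ε / 4) = 2 * c + ε / 4 - δ * (2 * c + ε / 4) := by ring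
      have e2 : δ * (2 * c + ε / 4) ≤ δ * 1 :=
        mul_le_mul_of_nonneg_left (by linarith) hδ0.le
      rw [e1]
      rw [hδ] at e2 ⊢
      linarith
    have h10 : (1 - δ) * (R * Real.log L) ≤ (1 - δ) * ((2 * c + ε / 4) * L) := by
      refine h8.trans ?_
      have := mul_le_mul_of_nonneg_right h9 hL0.le
      linarith
    exact le_of_mul_le_mul_left h10 (by linarith)
  have hRL' : R * Real.log L ≤ L := by
    refine hRL.trans ?_
    have h6 : 2 * c + ε / 4 ≤ 1 := by linarith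
    have h7 := mul_le_mul_of_nonneg_right h6 hL0.le
    linarith
  set r := ⌈R⌉₊ with hr
  have hrR : R ≤ r := Nat.le_ceil R
  have hrR' : (r : ℝ) < R + 1 := Nat.ceil_lt_add_one hR0
  have hyR : (15 : ℝ) * L ≤ y := by linarith
  have hy0 : (0 : ℝ) < y := by linarith
  have hlogy : Real.log y ≤ Real.log L + 3 := by
    have h6 : Real.log y ≤ Real.log (16 * L) := Real.log_le_log hy0 hyL
    rw [Real.log_mul (by norm_num) hL0.ne'] at h6
    linarith
  have hlogy0 : 0 < Real.log y := Real.log_pos (by linarith)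
  have hzy : z ≤ y := by
    have h6 : (z : ℝ) ≤ y := by
      have e1 : (ε / 8) * L = (ε * L) / 8 := by ring
      linarith
    exact_mod_cast h6
  refine ⟨z, y, r, hz2, hzy, hyL, hrR, ?_, ?_⟩
  · -- counting primes
    have h6 := Chebyshev.pi_ge y
    have h7 : (r : ℝ) + z ≤ (y * Real.log 2 - Real.log (y + 1)) / Real.log y := by
      rw [le_div_iff₀ hlogy0]
      have h8 : Real.log (y + 1) ≤ y / 10 := by
        have e1 : Real.log ((y : ℝ) + 1) ≤ Real.log (32 * L) :=
          Real.log_le_log (by linarith) (by linarith)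
        have e2 : Real.log (32 * L) = Real.log 32 + Real.log L :=
          Real.log_mul (by norm_num) hL0.ne'
        have e3 : Real.log 32 ≤ 4 := by
          have h6 : Real.log 32 = 5 * Real.log 2 := by
            rw [show (32 : ℝ) = 2 ^ 5 by norm_num, Real.log_pow]; norm_num
          have := Real.log_two_lt_d9
          linarith
        have e4 : (ε / 16) * L = (ε * L) / 16 := by ring
        linarith
      have h9 := Real.log_two_gt_d9
      have h10 : y * Real.log 2 - Real.log (y + 1) ≥ y / 2 := by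
        have e1 : (y : ℝ) * 0.69 ≤ y * Real.log 2 :=
          mul_le_mul_of_nonneg_left (by linarith) hy0.le
        linarith
      have h11 : ((r : ℝ) + z) * Real.log y ≤ (R + 1 + W) * (Real.log L + 3) := by
        apply mul_le_mul (by linarith) hlogy hlogy0.le (by linarith)
      have h12 : (R + 1 + W) * (Real.log L + 3) ≤ (R + 1 + W) * (2 * Real.log L) :=
        mul_le_mul_of_nonneg_left (by linarith) (by linarith)
      have h13 : (R + 1 + W) * (2 * Real.log L) ≤ 4 * L := by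
        have e1 : (ε / 16) * L = (ε * L) / 16 := by ring
        have e2 : (R + 1 + W) * (2 * Real.log L)
            = 2 * (R * Real.log L) + 2 * Real.log L + (4 * W * Real.log L) / 2 := by ring
        rw [e2]
        linarith
      linarith
    have h14 : ((r + z : ℕ) : ℝ) ≤ (Nat.primeCounting y : ℝ) := by
      push_cast
      exact h7.trans h6
    exact_mod_cast h14
  · -- the size of the modulus
    have h6 : (z : ℝ) * Real.log 4 ≤ (ε / 4) * L := by
      calc (z : ℝ) * Real.log 4 ≤ W * 2 := mul_le_mul hzW hlog4 hlog40 hW0.le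
        _ ≤ (ε / 8) * L * 2 := by linarith
        _ = (ε / 4) * L := by ring
    have h7 : (r : ℝ) * Real.log y ≤ (R + 1) * (Real.log L + 3) :=
      mul_le_mul hrR'.le hlogy hlogy0.le (by linarith)
    -- `3 R ≤ (ε / 8) L`
    have h8 : 3 * R ≤ (ε / 16) * L := by
      have e1 : R * (128 / ε) ≤ L := by
        refine le_trans ?_ hRL'
        exact mul_le_mul_of_nonneg_left h3 hR0
      have e2 : R * 128 ≤ L * ε := by
        have e4 := mul_le_mul_of_nonneg_right e1 hε.le
        have e3 : R * (128 / ε) * ε = R * 128 := by field_simp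
        linarith
      have e5 : (ε / 16) * L = (L * ε) / 16 := by ring
      rw [e5]
      have e6 : 0 ≤ L * ε := by positivity
      linarith
    have h9 : 3 ≤ Real.log L := by linarith
    have e1 : (R + 1) * (Real.log L + 3) = R * Real.log L + 3 * R + Real.log L + 3 := by ring
    have e2 : (2 * c + ε / 4) * L = (2 * c) * L + (ε * L) / 4 := by ring
    have e3 : (ε / 16) * L = (ε * L) / 16 := by ring
    have e4 : (2 * c + ε) * L = (2 * c) * L + ε * L := by ring
    have e5 : (ε / 4) * L = (ε * L) / 4 := by ring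
    have e6 : 0 ≤ ε * L := by positivity
    rw [e1] at h7
    rw [e2] at hRL
    rw [e3] at h8 h4
    rw [e5] at h6
    rw [e4]
    linarith

/-- the `n` of the window with a given covering -/
theorem window (s : ℕ) (hs2 : 2 ≤ s) (Q : Finset ℕ) (hQ : ∀ q ∈ Q, q.Prime) (h2 : 2 ∈ Q)
    (hQs : ∀ q ∈ Q, q < s) (a : ℕ → ℕ) (P : Finset ℕ)
    (ha : ∀ p ∈ P, ∃ q ∈ Q, q ≠ 2 ∧ p ≡ a q [MOD q]) (θ : ℝ) (hθ1 : θ ≤ 1)
    (hM : ((∏ q ∈ Q, q : ℕ) : ℝ) ≤ (s : ℝ) ^ θ) :
    (s : ℝ) ^ (1 - θ) ≤ Nat.card {n : ℕ // s ^ 2 < 2 * n ∧ 2 * n < (s + 1) ^ 2 ∧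
        ∀ p ∈ P, p < n → ¬ (2 * n - p).Prime} := by
  have hsR : (2 : ℝ) ≤ s := by exact_mod_cast hs2
  have hs1 : (1 : ℝ) ≤ s := by linarith
  obtain ⟨k, hk⟩ := Nat.chineseRemainderOfFinset (fun q => if q = 2 then 0 else a q) (fun q => q)
    Q (fun q hq => (hQ q hq).pos.ne')
    (fun q hq q' hq' hne => (Nat.coprime_primes (hQ q (mem_coe.1 hq))
      (hQ q' (mem_coe.1 hq'))).2 hne)
  set M := ∏ q ∈ Q, q with hMdef
  have hMpos : 0 < M := prod_pos fun q hq => (hQ q hq).pos
  have hqM : ∀ q ∈ Q, q ∣ M := fun q hq => dvd_prod_of_mem (fun q => q) hq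
  have hMs' : (M : ℝ) ≤ s := hM.trans (by
    calc (s : ℝ) ^ θ ≤ (s : ℝ) ^ (1 : ℝ) := Real.rpow_le_rpow_of_exponent_le hs1 hθ1
      _ = s := Real.rpow_one _)
  have hMsn : M ≤ s := by exact_mod_cast hMs'
  -- the base point
  set r := (k + (M - 1) * (s ^ 2 + 1)) % M with hr
  set N0 := s ^ 2 + 1 + r with hN0
  have hrM : r < M := Nat.mod_lt _ hMpos
  have hN0k : ∀ q : ℕ, q ∣ M → N0 ≡ k [MOD q] := by
    intro q hq
    have h1 : r ≡ k + (M - 1) * (s ^ 2 + 1) [MOD M] := Nat.mod_modEq _ _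
    have h2 : N0 ≡ s ^ 2 + 1 + (k + (M - 1) * (s ^ 2 + 1)) [MOD M] := by
      rw [hN0]
      exact Nat.ModEq.add_left _ h1
    have h3 : s ^ 2 + 1 + (k + (M - 1) * (s ^ 2 + 1)) = k + M * (s ^ 2 + 1) := by
      obtain ⟨M', hM'⟩ : ∃ M', M = M' + 1 := ⟨M - 1, by omega⟩
      rw [hM', Nat.add_sub_cancel]
      ring
    rw [h3] at h2
    have h4 : k + M * (s ^ 2 + 1) ≡ k [MOD M] := by
      have : M * (s ^ 2 + 1) ≡ 0 [MOD M] := (Nat.modEq_zero_iff_dvd).2 (dvd_mul_right _ _)
      simpa using Nat.ModEq.add_left k this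
    exact (h2.trans h4).of_dvd hq
  have h2M : 2 ∣ M := hqM 2 h2
  -- the set of good `n`
  have key : ∀ j : ℕ, N0 + j * M < (s + 1) ^ 2 →
      s ^ 2 < 2 * ((N0 + j * M) / 2) ∧ 2 * ((N0 + j * M) / 2) < (s + 1) ^ 2 ∧
        ∀ p ∈ P, p < (N0 + j * M) / 2 → ¬ (2 * ((N0 + j * M) / 2) - p).Prime := by
    intro j hj
    have hmod : ∀ q : ℕ, q ∣ M → N0 + j * M ≡ k [MOD q] := by
      intro q hq
      have h1 : j * M ≡ 0 [MOD q] := (Nat.modEq_zero_iff_dvd).2 (hq.mul_left _)
      simpa using (hN0k q hq).add h1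
    have heven : 2 ∣ N0 + j * M := by
      have h1 := hmod 2 h2M
      have h2 := hk 2 h2
      rw [if_pos rfl] at h2
      exact (Nat.modEq_zero_iff_dvd).1 (h1.trans h2)
    have hdiv : 2 * ((N0 + j * M) / 2) = N0 + j * M := Nat.mul_div_cancel' heven
    refine ⟨?_, ?_, fun p hp hpn => ?_⟩
    · rw [hdiv]
      have : 0 ≤ j * M := Nat.zero_le _
      omega
    · rw [hdiv]; exact hj
    · obtain ⟨q, hq, hq2, hpa⟩ := ha p hp
      have hlt := hQs q hq
      have h1 : N0 + j * M ≡ p [MOD q] := by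
        have h2 := hk q hq
        rw [if_neg hq2] at h2
        exact ((hmod q (hqM q hq)).trans h2).trans hpa.symm
      have h3 : q ∣ (N0 + j * M) - p := (Nat.modEq_iff_dvd' (by omega)).1 h1.symm
      rw [hdiv]
      intro hprime
      have h4 : q = (N0 + j * M) - p := (Nat.prime_dvd_prime_iff_eq (hQ q hq) hprime).1 h3
      have h5 : s * s < N0 + j * M := by
        have : 0 ≤ j * M := Nat.zero_le _
        have h6 : s ^ 2 = s * s := by ring
        omega
      have h7 : s * 2 ≤ s * s := Nat.mul_le_mul_left s hs2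
      omega
  set J := 2 * s / M with hJ
  have hJM : J * M ≤ 2 * s := Nat.div_mul_le_self _ _
  have hinj : ∃ f : Fin J → {n : ℕ // s ^ 2 < 2 * n ∧ 2 * n < (s + 1) ^ 2 ∧
        ∀ p ∈ P, p < n → ¬ (2 * n - p).Prime}, Function.Injective f := by
    have hjb : ∀ j : Fin J, N0 + (j : ℕ) * M < (s + 1) ^ 2 := by
      intro j
      have h1 : ((j : ℕ) + 1) * M ≤ J * M := Nat.mul_le_mul_right M j.2
      have h2 : (s + 1) ^ 2 = s ^ 2 + 2 * s + 1 := by ring
      have h3 : ((j : ℕ) + 1) * M = j * M + M := by ring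
      omega
    refine ⟨fun j => ⟨(N0 + (j : ℕ) * M) / 2, key j (hjb j)⟩, ?_⟩
    intro j j' hjj
    have h1 : (N0 + (j : ℕ) * M) / 2 = (N0 + (j' : ℕ) * M) / 2 := congrArg Subtype.val hjj
    have hev : ∀ i : Fin J, 2 ∣ N0 + (i : ℕ) * M := by
      intro i
      have h2 := hk 2 h2
      rw [if_pos rfl] at h2
      have h3 : (i : ℕ) * M ≡ 0 [MOD 2] := (Nat.modEq_zero_iff_dvd).2 (h2M.mul_left _)
      have h4 : N0 + (i : ℕ) * M ≡ k [MOD 2] := by simpa using (hN0k 2 h2M).add h3
      exact (Nat.modEq_zero_iff_dvd).1 (h4.trans h2)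
    have h5 : N0 + (j : ℕ) * M = N0 + (j' : ℕ) * M := by
      have e1 := Nat.mul_div_cancel' (hev j)
      have e2 := Nat.mul_div_cancel' (hev j')
      rw [← e1, ← e2, h1]
    have h6 : (j : ℕ) * M = (j' : ℕ) * M := by omega
    exact Fin.ext (Nat.eq_of_mul_eq_mul_right hMpos h6)
  obtain ⟨f, hf⟩ := hinj
  have hfin : Finite {n : ℕ // s ^ 2 < 2 * n ∧ 2 * n < (s + 1) ^ 2 ∧
        ∀ p ∈ P, p < n → ¬ (2 * n - p).Prime} := by
    refine Set.Finite.subset (Set.finite_Iio ((s + 1) ^ 2)) ?_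
    rintro n ⟨-, h, -⟩
    rw [Set.mem_Iio]
    omega
  have hcard : J ≤ Nat.card {n : ℕ // s ^ 2 < 2 * n ∧ 2 * n < (s + 1) ^ 2 ∧
        ∀ p ∈ P, p < n → ¬ (2 * n - p).Prime} := by
    have := Nat.card_le_card_of_injective f hf
    simpa using this
  have hJreal : (s : ℝ) ^ (1 - θ) ≤ J := by
    have hMpos' : (0 : ℝ) < M := by exact_mod_cast hMpos
    have h1 : (2 * s : ℝ) / M < J + 1 := by
      have h2 : 2 * s < (J + 1) * M := by
        have e1 := Nat.div_add_mod (2 * s) M
        have e2 := Nat.mod_lt (2 * s) hMpos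
        rw [← hJ] at e1
        have e3 : (J + 1) * M = M * J + M := by ring
        omega
      rw [div_lt_iff₀ hMpos']
      exact_mod_cast h2
    have h3 : (s : ℝ) / (s : ℝ) ^ θ ≤ s / M :=
      div_le_div_of_nonneg_left (by linarith) hMpos' hM
    have h4 : (s : ℝ) ^ (1 - θ) = s / (s : ℝ) ^ θ := by
      rw [Real.rpow_sub (by linarith), Real.rpow_one]
    have h5 : (1 : ℝ) ≤ (s : ℝ) ^ (1 - θ) := Real.one_le_rpow hs1 (by linarith)
    have h6 : (2 * s : ℝ) / M = 2 * (s / M) := by ring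
    rw [h6] at h1
    linarith
  exact hJreal.trans (by exact_mod_cast hcard)

theorem main (c ε : ℝ) (hc : 0 < c) (hε : 0 < ε) (hce : 2 * c + ε ≤ 1) : ∃ s₀ : ℕ, ∀ s ≥ s₀,
    ∀ P : Finset ℕ, (P.card : ℝ) ≤ c * Real.log s →
      (s : ℝ) ^ (1 - 2 * c - ε) ≤ Nat.card {n : ℕ // s ^ 2 < 2 * n ∧ 2 * n < (s + 1) ^ 2 ∧
        ∀ p ∈ P, p < n → ¬ (2 * n - p).Prime} := by
  classical
  obtain ⟨L₀, hL₀, hpar⟩ := params c ε hc hε hce
  obtain ⟨A, hA⟩ : ∃ A : ℕ, ∀ s : ℕ, A ≤ s → L₀ ≤ Real.log s ∧ 16 * Real.log s < s := by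
    have ht : Filter.Tendsto (fun s : ℕ => Real.log s) Filter.atTop Filter.atTop :=
      Real.tendsto_log_atTop.comp tendsto_natCast_atTop_atTop
    have h1 : ∀ᶠ s : ℕ in Filter.atTop, 16 * Real.log s < s := by
      have h := Real.isLittleO_log_id_atTop.bound (c := 1 / 32) (by norm_num)
      have h' := (tendsto_natCast_atTop_atTop (R := ℝ)).eventually h
      filter_upwards [h', Filter.eventually_ge_atTop 1] with s hs hs1
      have hs1' : (1 : ℝ) ≤ s := by exact_mod_cast hs1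
      rw [Real.norm_of_nonneg (Real.log_nonneg hs1'), id,
        Real.norm_of_nonneg (by linarith)] at hs
      linarith
    obtain ⟨A, hA⟩ := Filter.eventually_atTop.1 ((ht.eventually_ge_atTop L₀).and h1)
    exact ⟨A, hA⟩
  refine ⟨max 2 A, fun s hs P hP => ?_⟩
  have hs2 : 2 ≤ s := (le_max_left _ _).trans hs
  obtain ⟨hLs, h16⟩ := hA s ((le_max_right _ _).trans hs)
  have hsR : (2 : ℝ) ≤ s := by exact_mod_cast hs2
  obtain ⟨z, y, r, hz2, hzy, hyL, hr, hcount, hsize⟩ := hpar _ hLs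
  have hys : y < s := by
    have : (y : ℝ) < s := by linarith
    exact_mod_cast this
  have hr' : r ≤ ((range (y + 1)).filter (fun q => q.Prime ∧ z < q)).card := by
    have := card_primes z y
    omega
  obtain ⟨T', hT', hT'c⟩ := exists_subset_card_eq hr'
  have hT'm : ∀ q ∈ T', q.Prime ∧ z < q ∧ q ≤ y := by
    intro q hq
    have h := mem_filter.1 (hT' hq)
    exact ⟨h.2.1, h.2.2, by have := mem_range.1 h.1; omega⟩
  set B := (z + 1).primesBelow with hB
  have hBm : ∀ q ∈ B, q.Prime ∧ q ≤ z := by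
    intro q hq
    rw [hB, Nat.mem_primesBelow] at hq
    exact ⟨hq.2, by omega⟩
  have h2mem : 2 ∈ B := Nat.mem_primesBelow.2 ⟨by omega, Nat.prime_two⟩
  have hprod : ∏ q ∈ B.erase 2, (1 - 1 / (q : ℝ)) ≤ 2 / Real.log ((z + 1 : ℕ) : ℝ) := by
    have h1 := euler (z + 1) (by omega)
    rw [← hB, ← Finset.mul_prod_erase _ _ h2mem] at h1
    have h9 : (1 - 1 / ((2 : ℕ) : ℝ)) = 1 / 2 := by norm_num
    rw [h9] at h1
    have h10 : (2 : ℝ) / Real.log ((z + 1 : ℕ) : ℝ) =
      2 * (1 / Real.log ((z + 1 : ℕ) : ℝ)) := by ring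
    rw [h10]
    linarith
  have hlogz0 : 0 < Real.log ((z + 1 : ℕ) : ℝ) :=
    Real.log_pos (by exact_mod_cast (by omega : 1 < z + 1))
  have hd : Disjoint (B.erase 2) T' := by
    rw [disjoint_left]
    intro q hq hq'
    have h1 := (hBm q (mem_of_mem_erase hq)).2
    have h2 := (hT'm q hq').2.1
    omega
  obtain ⟨a, ha⟩ := cover P (B.erase 2) T' (fun q hq => (hBm q (mem_of_mem_erase hq)).1.pos) hd
    (by
      rw [hT'c]
      refine le_trans ?_ hr
      exact mul_le_mul hP hprod (prod_nonneg fun q hq => by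
        have h1 : (1 : ℝ) ≤ q := by
          exact_mod_cast (hBm q (mem_of_mem_erase hq)).1.one_le
        rw [sub_nonneg, div_le_one (by linarith)]
        exact h1) (by
          have : 0 < Real.log (s : ℝ) := Real.log_pos (by linarith)
          positivity))
  have hdB : Disjoint B T' := by
    rw [disjoint_left]
    intro q hq hq'
    have h1 := (hBm q hq).2
    have h2 := (hT'm q hq').2.1
    omega
  have hMbound : ((∏ q ∈ B ∪ T', q : ℕ) : ℝ) ≤ (s : ℝ) ^ (2 * c + ε) := by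
    rw [prod_union hdB]
    have h1 : ∏ q ∈ B, q = primorial z := by
      rw [primorial, hB, Nat.primesBelow]
    have h2 : (primorial z : ℝ) ≤ Real.exp (z * Real.log 4) := by
      have h3 : (primorial z : ℝ) ≤ (4 : ℝ) ^ z := by exact_mod_cast primorial_le_four_pow z
      refine h3.trans (le_of_eq ?_)
      rw [mul_comm, Real.exp_mul, Real.exp_log (by norm_num), Real.rpow_natCast]
    have hy0 : (0 : ℝ) < y := by
      have : 0 < y := by omega
      exact_mod_cast this
    have h4 : ((∏ q ∈ T', q : ℕ) : ℝ) ≤ Real.exp (r * Real.log y) := by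
      have h5 : ∏ q ∈ T', q ≤ y ^ T'.card := prod_le_pow_card _ _ _ fun q hq => (hT'm q hq).2.2
      rw [hT'c] at h5
      have h6 : ((∏ q ∈ T', q : ℕ) : ℝ) ≤ (y : ℝ) ^ r := by exact_mod_cast h5
      refine h6.trans (le_of_eq ?_)
      rw [mul_comm, Real.exp_mul, Real.exp_log hy0, Real.rpow_natCast]
    rw [h1, Nat.cast_mul]
    calc (primorial z : ℝ) * ((∏ q ∈ T', q : ℕ) : ℝ)
        ≤ Real.exp (z * Real.log 4) * Real.exp (r * Real.log y) :=
          mul_le_mul h2 h4 (Nat.cast_nonneg _) (Real.exp_pos _).le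
      _ = Real.exp (z * Real.log 4 + r * Real.log y) := (Real.exp_add _ _).symm
      _ ≤ Real.exp ((2 * c + ε) * Real.log s) := Real.exp_le_exp.2 hsize
      _ = (s : ℝ) ^ (2 * c + ε) := by
          rw [Real.rpow_def_of_pos (by linarith), mul_comm]
  have hfin := window s hs2 (B ∪ T') (fun q hq => by
      rcases mem_union.1 hq with h | h
      · exact (hBm q h).1
      · exact (hT'm q h).1) (mem_union_left _ h2mem) (fun q hq => by
      rcases mem_union.1 hq with h | h
      · have := (hBm q h).2; omega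
      · have := (hT'm q h).2.2; omega) a P (fun p hp => by
      obtain ⟨q, hq, hqa⟩ := ha p hp
      rcases mem_union.1 hq with h | h
      · exact ⟨q, mem_union_left _ (mem_of_mem_erase h), ne_of_mem_erase h, hqa⟩
      · exact ⟨q, mem_union_right _ h, by have := (hT'm q h).2.1; omega, hqa⟩)
    (2 * c + ε) hce hMbound
  have he : 1 - (2 * c + ε) = 1 - 2 * c - ε := by ring
  rwa [he] at hfin

end Pool.Agent.GWC.Win
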