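import Pool.Agent.GWC.Typ
import Pool.Agent.GWC.Win
import Pool.Agent.GWC.Pz

/-! # The final count -/

namespace Pool.Agent.GWC

open Finset

/-- no prime of the window of `n` gives a Goldbach partition of `2 n` -/
def nogo (c : ℝ) (n : ℕ) : Prop := ∀ p : ℕ, p.Prime → Real.sqrt (2 * n) < p →
  (p : ℝ) ≤ Real.sqrt (2 * n) + (Real.log n) ^ 2 * (Real.log (Real.log (Real.log n))) ^ c →
  ¬ (2 * n - p).Prime

/-- none of the first `log n (logloglog n)^c` primes beyond `√(2n)` gives a Goldbach partition -/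
def nofirst (c : ℝ) (n : ℕ) : Prop := ∀ p : ℕ, p.Prime → Real.sqrt (2 * n) < p →
  (Nat.card {q : ℕ // q.Prime ∧ Real.sqrt (2 * n) < q ∧ q ≤ p} : ℝ)
    ≤ Real.log n * (Real.log (Real.log (Real.log n))) ^ c →
  ¬ (2 * n - p).Prime

theorem basic_bounds (c : ℝ) (hc : 0 < c) (hc1 : c ≤ 1) (X s n : ℕ) (hX : 5 ≤ X)
    (hL : 3 ≤ Real.log X) (hLL : 1 ≤ Real.log (Real.log (Real.log X))) (hXs : X < s)
    (hs : s ≤ 2 * X) (h1 : s ^ 2 < 2 * n) (h2 : 2 * n < (s + 1) ^ 2) :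
    0 < Real.log n ∧ Real.log n ≤ 3 * Real.log X ∧
      0 ≤ (Real.log (Real.log (Real.log n))) ^ c ∧
      (Real.log (Real.log (Real.log n))) ^ c ≤ 2 * (Real.log (Real.log (Real.log X))) ^ c ∧
      (s : ℝ) < Real.sqrt (2 * n) ∧ Real.sqrt (2 * n) < s + 1 := by
  set L : ℝ := Real.log X with hLdef
  set LL : ℝ := Real.log L with hLLdef
  set LLL : ℝ := Real.log LL with hLLLdef
  have hXn : X ≤ n := by nlinarith
  have hn3 : n ≤ X ^ 3 := by
    have h4 : (s + 1) ^ 2 ≤ (2 * X + 1) ^ 2 := Nat.pow_le_pow_left (by omega) 2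
    have h5 : (2 * X + 1) ^ 2 ≤ 2 * X ^ 3 := by
      have : X ^ 3 = X * X ^ 2 := by ring
      nlinarith [Nat.mul_le_mul_right (X ^ 2) hX]
    omega
  have hXr : (0 : ℝ) < X := by exact_mod_cast (by omega : 0 < X)
  have hnr : (0 : ℝ) < n := by exact_mod_cast (by omega : 0 < n)
  have hLn : Real.log n ≤ 3 * L := by
    have h4 : (n : ℝ) ≤ (X : ℝ) ^ 3 := by exact_mod_cast hn3
    have h5 := Real.log_le_log hnr h4
    rw [Real.log_pow] at h5
    push_cast at h5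
    exact h5
  have hLn0 : L ≤ Real.log n := Real.log_le_log hXr (by exact_mod_cast hXn)
  have hLL1 : 1 ≤ LL := by
    have h4 : Real.log 3 ≤ LL := Real.log_le_log (by norm_num) hL
    have h5 : 1 ≤ Real.log 3 := by
      rw [Real.le_log_iff_exp_le (by norm_num)]
      have := Real.exp_one_lt_d9
      linarith
    linarith
  have hLLn : Real.log (Real.log n) ≤ 2 * LL := by
    have h4 := Real.log_le_log (by linarith) hLn
    rw [Real.log_mul (by norm_num) (by linarith)] at h4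
    have h5 : Real.log 3 ≤ LL := Real.log_le_log (by norm_num) hL
    linarith
  have hLLn0 : LL ≤ Real.log (Real.log n) := Real.log_le_log (by linarith) hLn0
  have hLLLn : Real.log (Real.log (Real.log n)) ≤ 2 * LLL := by
    have h4 := Real.log_le_log (by linarith) hLLn
    rw [Real.log_mul (by norm_num) (by linarith)] at h4
    have h5 : Real.log 2 ≤ 1 := by
      have := Real.log_two_lt_d9
      linarith
    linarith
  have hLLLn0 : 0 ≤ Real.log (Real.log (Real.log n)) := Real.log_nonneg (by linarith)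
  have hrp : (Real.log (Real.log (Real.log n))) ^ c ≤ 2 * LLL ^ c := by
    calc (Real.log (Real.log (Real.log n))) ^ c ≤ (2 * LLL) ^ c :=
          Real.rpow_le_rpow hLLLn0 hLLLn hc.le
      _ = (2 : ℝ) ^ c * LLL ^ c := Real.mul_rpow (by norm_num) (by linarith)
      _ ≤ 2 * LLL ^ c := by
          have h4 : (2 : ℝ) ^ c ≤ 2 := by
            calc (2 : ℝ) ^ c ≤ (2 : ℝ) ^ (1 : ℝ) :=
                  Real.rpow_le_rpow_of_exponent_le (by norm_num) hc1
              _ = 2 := Real.rpow_one _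
          exact mul_le_mul_of_nonneg_right h4 (Real.rpow_nonneg (by linarith) _)
  have hs1 : Real.sqrt (2 * n) < s + 1 := by
    rw [Real.sqrt_lt' (by positivity)]
    exact_mod_cast h2
  have hs2 : (s : ℝ) < Real.sqrt (2 * n) := by
    rw [Real.lt_sqrt (Nat.cast_nonneg _)]
    exact_mod_cast h1
  exact ⟨by linarith, hLn, Real.rpow_nonneg hLLLn0 _, hrp, hs2, hs1⟩

theorem nogo_of (c : ℝ) (hc : 0 < c) (hc1 : c ≤ 1) (X H s n : ℕ) (hX : 5 ≤ X)
    (hL : 3 ≤ Real.log X) (hLL : 1 ≤ Real.log (Real.log (Real.log X))) (hXs : X < s)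
    (hs : s ≤ 2 * X) (hHX : H ≤ X)
    (hH : 36 * (Real.log X) ^ 2 * (Real.log (Real.log (Real.log X))) ^ c ≤ H)
    (h1 : s ^ 2 < 2 * n) (h2 : 2 * n < (s + 1) ^ 2)
    (h3 : ∀ p ∈ Pw H s, p < n → ¬ (2 * n - p).Prime) : nogo c n := by
  intro p hp hp1 hp2
  obtain ⟨hLn0, hLn, hr0, hrp, hs2, hs1⟩ := basic_bounds c hc hc1 X s n hX hL hLL hXs hs h1 h2
  set L : ℝ := Real.log X with hLdef
  set LLL : ℝ := Real.log (Real.log L) with hLLLdef
  have hrp1 : 1 ≤ LLL ^ c := Real.one_le_rpow hLL hc.le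
  set V : ℝ := L ^ 2 * LLL ^ c with hV
  have hV1 : 1 ≤ V := by nlinarith [mul_nonneg (sub_nonneg.2 hL) (sub_nonneg.2 hL)]
  have hW : (Real.log n) ^ 2 * (Real.log (Real.log (Real.log n))) ^ c ≤ 18 * V := by
    calc (Real.log n) ^ 2 * (Real.log (Real.log (Real.log n))) ^ c
        ≤ (3 * L) ^ 2 * (2 * LLL ^ c) := by
          have h4 : (Real.log n) ^ 2 ≤ (3 * L) ^ 2 := pow_le_pow_left₀ (by linarith) hLn 2
          exact mul_le_mul h4 hrp hr0 (by positivity)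
      _ = 18 * V := by rw [hV]; ring
  have hps : s < p := by
    have : (s : ℝ) < p := hs2.trans hp1
    exact_mod_cast this
  have hpH : p ≤ s + H := by
    have h4 : 36 * V ≤ H := by rw [hV]; linarith
    have : (p : ℝ) ≤ s + H := by linarith
    exact_mod_cast this
  refine h3 p ?_ ?_
  · unfold Pw
    rw [mem_filter, mem_Ioc]
    exact ⟨⟨hps, hpH⟩, hp⟩
  · nlinarith

theorem nofirst_of (c : ℝ) (hc : 0 < c) (hc1 : c ≤ 1) (X H s n : ℕ) (hX : 5 ≤ X)
    (hL : 3 ≤ Real.log X) (hLL : 4 ≤ (Real.log (Real.log (Real.log X))) ^ (c / 2))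
    (hLL1 : 1 ≤ Real.log (Real.log (Real.log X))) (hXs : X < s)
    (hs : s ≤ 2 * X) (hHX : H ≤ X)
    (hH : 36 * (Real.log X) ^ 2 * (Real.log (Real.log (Real.log X))) ^ c ≤ H)
    (hcard : (H : ℝ) / (8 * Real.log X) ≤ ((Pw H s).card : ℝ))
    (h1 : s ^ 2 < 2 * n) (h2 : 2 * n < (s + 1) ^ 2)
    (h3 : ∀ p ∈ Pw H s, p < n → ¬ (2 * n - p).Prime) : nofirst (c / 2) n := by
  intro p hp hp1 hp2
  obtain ⟨hLn0, hLn, hr0, hrp, hs2, hs1⟩ := basic_bounds (c / 2) (by positivity) (by linarith)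
    X s n hX hL hLL1 hXs hs h1 h2
  set L : ℝ := Real.log X with hLdef
  set LLL : ℝ := Real.log (Real.log L) with hLLLdef
  have hps : s < p := by
    have : (s : ℝ) < p := hs2.trans hp1
    exact_mod_cast this
  have hpH : p ≤ s + H := by
    by_contra hcon
    rw [not_le] at hcon
    have hfin : Finite {q : ℕ // q.Prime ∧ Real.sqrt (2 * n) < q ∧ q ≤ p} :=
      Set.Finite.to_subtype ((Set.finite_le_nat p).subset fun q hq => hq.2.2)
    have h4 : (Pw H s).card ≤ Nat.card {q : ℕ // q.Prime ∧ Real.sqrt (2 * n) < q ∧ q ≤ p} := by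
      rw [← Nat.card_eq_finsetCard]
      refine Nat.card_le_card_of_injective (fun q => ⟨q.1, ?_⟩) ?_
      · have hq := q.2
        unfold Pw at hq
        rw [mem_filter, mem_Ioc] at hq
        refine ⟨hq.2, lt_of_lt_of_le hs1 ?_, by omega⟩
        exact_mod_cast hq.1.1
      · intro q q' h
        exact Subtype.ext (congrArg (fun z => z.1) h)
    have h5 : ((Pw H s).card : ℝ) ≤ Real.log n * (Real.log (Real.log (Real.log n))) ^ (c / 2) :=
      le_trans (by exact_mod_cast h4) hp2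
    have h6 : Real.log n * (Real.log (Real.log (Real.log n))) ^ (c / 2)
        ≤ 3 * L * (2 * LLL ^ (c / 2)) := mul_le_mul hLn hrp hr0 (by positivity)
    have h7 : LLL ^ c = LLL ^ (c / 2) * LLL ^ (c / 2) := by
      rw [← Real.rpow_add (by linarith)]
      congr 1
      ring
    have hL0 : 0 < L := by linarith
    have h8 : 36 * L ^ 2 * LLL ^ c / (8 * L) ≤ H / (8 * L) :=
      div_le_div_of_nonneg_right hH (by positivity)
    have h9 : 36 * L ^ 2 * LLL ^ c / (8 * L) = 9 / 2 * L * (LLL ^ (c / 2) * LLL ^ (c / 2)) := by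
      rw [h7]
      field_simp
      ring
    set z : ℝ := LLL ^ (c / 2) with hz
    have h10 : 9 / 2 * L * (z * z) ≤ 3 * L * (2 * z) := by linarith
    have h11 : 0 < L * z := by positivity
    nlinarith
  refine h3 p ?_ ?_
  · unfold Pw
    rw [mem_filter, mem_Ioc]
    exact ⟨⟨hps, hpH⟩, hp⟩
  · nlinarith

theorem nogo_mono (c c' : ℝ) (hcc : c' ≤ c) (n : ℕ) (hn : 1 ≤ Real.log (Real.log (Real.log n)))
    (h : nogo c n) : nogo c' n := by
  intro p hp hp1 hp2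
  refine h p hp hp1 (hp2.trans ?_)
  have h1 := Real.rpow_le_rpow_of_exponent_le hn hcc
  have h2 := mul_le_mul_of_nonneg_left h1 (sq_nonneg (Real.log n))
  linarith

/-- one good window -/
theorem one_window (c : ℝ) (hc : 0 < c) (hc1 : c ≤ 1) (ε : ℝ) (hε : 0 < ε) (hε1 : ε ≤ 1) :
    ∃ X0 : ℕ, ∀ X : ℕ, X0 ≤ X → ∀ H y s : ℕ, X < s → s ≤ 2 * X → H ≤ X → 2 ≤ y →
      (y : ℝ) ≤ ε / 2 * Real.log X →
      36 * (Real.log X) ^ 2 * (Real.log (Real.log (Real.log X))) ^ c ≤ H →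
      (∃ a : ℕ → ℕ, ∀ x ∈ Pw H s, ∃ r, r.Prime ∧ 3 ≤ r ∧ r ≤ y ∧ x ≡ a r [MOD r]) →
      (s : ℝ) ^ (1 - ε) ≤ Nat.card {n : ℕ // s ^ 2 < 2 * n ∧ 2 * n < (s + 1) ^ 2 ∧
        nogo (c / 2) n} ∧
      ((H : ℝ) / (8 * Real.log X) ≤ ((Pw H s).card : ℝ) →
        (s : ℝ) ^ (1 - ε) ≤ Nat.card {n : ℕ // s ^ 2 < 2 * n ∧ 2 * n < (s + 1) ^ 2 ∧
          (nogo (c / 2) n ∧ nofirst (c / 2) n)}) := by
  have t0 : Filter.Tendsto (fun X : ℕ => Real.log X) Filter.atTop Filter.atTop :=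
    Real.tendsto_log_atTop.comp tendsto_natCast_atTop_atTop
  have t1 : Filter.Tendsto (fun X : ℕ => Real.log (Real.log (Real.log X))) Filter.atTop
      Filter.atTop := Real.tendsto_log_atTop.comp (Real.tendsto_log_atTop.comp t0)
  have t2 : Filter.Tendsto (fun X : ℕ => (Real.log (Real.log (Real.log X))) ^ (c / 2))
      Filter.atTop Filter.atTop := (tendsto_rpow_atTop (by positivity)).comp t1
  obtain ⟨X0, hX0⟩ := Filter.eventually_atTop.1
    ((t0.eventually_ge_atTop 3).and ((t1.eventually_ge_atTop 1).and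
      ((t2.eventually_ge_atTop 4).and (Filter.eventually_ge_atTop 5))))
  refine ⟨X0, fun X hX H y s hXs hs hHX hy2 hy hH ⟨a, ha⟩ => ?_⟩
  obtain ⟨hL, hLL, hLLc, hX5⟩ := hX0 X hX
  have hXr : (0 : ℝ) < X := by exact_mod_cast (by omega : 0 < X)
  have hsX : (X : ℝ) ≤ s := by exact_mod_cast hXs.le
  have hys : y < s := by
    have h1 : Real.log X ≤ X := (Real.log_le_sub_one_of_pos hXr).trans (by linarith)
    have h2 : (y : ℝ) < s := by nlinarith
    exact_mod_cast h2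
  have hM : ((∏ q ∈ (y + 1).primesBelow, q : ℕ) : ℝ) ≤ (s : ℝ) ^ ε := by
    have h1 : ∏ q ∈ (y + 1).primesBelow, q = primorial y := by
      rw [primorial, Nat.primesBelow]
    have h3 : (primorial y : ℝ) ≤ (4 : ℝ) ^ y := by exact_mod_cast primorial_le_four_pow y
    have hl4 : Real.log 4 ≤ 2 := by
      have h4 : (4 : ℝ) = 2 ^ 2 := by norm_num
      rw [h4, Real.log_pow]
      have := Real.log_two_lt_d9
      push_cast
      linarith
    have hl40 : 0 ≤ Real.log 4 := Real.log_nonneg (by norm_num)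
    rw [h1]
    calc (primorial y : ℝ) ≤ (4 : ℝ) ^ y := h3
      _ = Real.exp (y * Real.log 4) := by
          rw [mul_comm, Real.exp_mul, Real.exp_log (by norm_num), Real.rpow_natCast]
      _ ≤ Real.exp (Real.log X * ε) := by
          refine Real.exp_le_exp.2 ?_
          calc (y : ℝ) * Real.log 4 ≤ (ε / 2 * Real.log X) * 2 := by gcongr
            _ = Real.log X * ε := by ring
      _ = (X : ℝ) ^ ε := by rw [Real.rpow_def_of_pos hXr]
      _ ≤ (s : ℝ) ^ ε := Real.rpow_le_rpow hXr.le hsX hε.le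
  have hw := Win.window s (by omega) ((y + 1).primesBelow)
    (fun q hq => (Nat.mem_primesBelow.1 hq).2)
    (Nat.mem_primesBelow.2 ⟨by omega, Nat.prime_two⟩)
    (fun q hq => by have := (Nat.mem_primesBelow.1 hq).1; omega) a (Pw H s)
    (fun p hp => by
      obtain ⟨r, hr, hr3, hry, hra⟩ := ha p hp
      exact ⟨r, Nat.mem_primesBelow.2 ⟨by omega, hr⟩, by omega, hra⟩) ε hε1 hM
  -- `log log log n ≥ 1` in the window
  have hLLn : ∀ n : ℕ, s ^ 2 < 2 * n → 1 ≤ Real.log (Real.log (Real.log n)) := by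
    intro n h1
    have hXn : X ≤ n := by nlinarith
    have hLn0 : Real.log X ≤ Real.log n := Real.log_le_log hXr (by exact_mod_cast hXn)
    have hLL0 : 0 < Real.log (Real.log X) := Real.log_pos (by linarith)
    exact hLL.trans (Real.log_le_log hLL0 (Real.log_le_log (by linarith) hLn0))
  have key : ∀ P : ℕ → Prop, (∀ n : ℕ, s ^ 2 < 2 * n → 2 * n < (s + 1) ^ 2 →
      (∀ p ∈ Pw H s, p < n → ¬ (2 * n - p).Prime) → P n) →
      (s : ℝ) ^ (1 - ε) ≤ Nat.card {n : ℕ // s ^ 2 < 2 * n ∧ 2 * n < (s + 1) ^ 2 ∧ P n} := by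
    intro P hP
    refine hw.trans ?_
    have hfin : Finite {n : ℕ // s ^ 2 < 2 * n ∧ 2 * n < (s + 1) ^ 2 ∧ P n} :=
      Set.Finite.to_subtype ((Set.finite_lt_nat ((s + 1) ^ 2)).subset fun n hn => by
        have h1 := hn.2.1
        show n < (s + 1) ^ 2
        omega)
    have hle : Nat.card {n : ℕ // s ^ 2 < 2 * n ∧ 2 * n < (s + 1) ^ 2 ∧
          ∀ p ∈ Pw H s, p < n → ¬ (2 * n - p).Prime}
        ≤ Nat.card {n : ℕ // s ^ 2 < 2 * n ∧ 2 * n < (s + 1) ^ 2 ∧ P n} := by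
      refine Nat.card_le_card_of_injective (fun n => ⟨n.1, n.2.1, n.2.2.1,
        hP n.1 n.2.1 n.2.2.1 n.2.2.2⟩) ?_
      intro m n h
      exact Subtype.ext (congrArg (fun z => z.1) h)
    exact_mod_cast hle
  refine ⟨key _ fun n h1 h2 h3 => ?_, fun hcard => key _ fun n h1 h2 h3 => ⟨?_, ?_⟩⟩
  · exact nogo_mono c (c / 2) (by linarith) n (hLLn n h1)
      (nogo_of c hc hc1 X H s n hX5 hL hLL hXs hs hHX hH h1 h2 h3)
  · exact nogo_mono c (c / 2) (by linarith) n (hLLn n h1)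
      (nogo_of c hc hc1 X H s n hX5 hL hLL hXs hs hHX hH h1 h2 h3)
  · exact nofirst_of c hc hc1 X H s n hX5 hL hLLc hLL hXs hs hHX hH hcard h1 h2 h3

/-- from the windows to the count of all `n ≤ X` -/
theorem global_of_local (P : ℕ → Prop) (κ : ℝ) (hκ : 0 < κ) (h : ∀ ε : ℝ, 0 < ε →
    ∃ X0 : ℕ, ∀ X : ℕ, X0 ≤ X →
    κ * X ≤ Nat.card {s : ℕ // X < s ∧ s ≤ 2 * X ∧ (s : ℝ) ^ (1 - ε) ≤
      Nat.card {n : ℕ // s ^ 2 < 2 * n ∧ 2 * n < (s + 1) ^ 2 ∧ P n}}) :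
    ∀ ε : ℝ, 0 < ε → ∃ X0 : ℕ, ∀ X : ℕ, X0 ≤ X →
      (X : ℝ) ^ (1 - ε) ≤ Nat.card {n : ℕ // n ≤ X ∧ P n} := by
  classical
  intro ε hε
  set e : ℝ := min ε (1 / 2) with he
  have he0 : 0 < e := lt_min hε (by norm_num)
  have he1 : e ≤ 1 / 2 := min_le_right _ _
  have heε : e ≤ ε := min_le_left _ _
  obtain ⟨X1, hX1⟩ := h e he0
  have t1 : Filter.Tendsto (fun X : ℕ => (X : ℝ) ^ (e / 2)) Filter.atTop Filter.atTop :=
    (tendsto_rpow_atTop (by positivity)).comp tendsto_natCast_atTop_atTop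
  obtain ⟨X2, hX2⟩ := Filter.eventually_atTop.1 (t1.eventually_ge_atTop (16 / κ))
  refine ⟨max (max (16 * (X1 + 1) ^ 2) X2) 16, fun X hX => ?_⟩
  have hXa : 16 * (X1 + 1) ^ 2 ≤ X := (le_max_left _ _).trans ((le_max_left _ _).trans hX)
  have hXb : X2 ≤ X := (le_max_right _ _).trans ((le_max_left _ _).trans hX)
  have hXc : 16 ≤ X := (le_max_right _ _).trans hX
  have hXr : (16 : ℝ) ≤ X := by exact_mod_cast hXc
  set q : ℕ := Nat.sqrt X with hq
  set Y : ℕ := q / 2 with hY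
  have hq1 : q ^ 2 ≤ X := Nat.sqrt_le' X
  have hq2 : X < (q + 1) ^ 2 := Nat.lt_succ_sqrt' X
  have hq4 : 4 * (X1 + 1) ≤ q := by
    rw [hq, Nat.le_sqrt']
    calc (4 * (X1 + 1)) ^ 2 = 16 * (X1 + 1) ^ 2 := by ring
      _ ≤ X := hXa
  have hYX1 : X1 ≤ Y := by omega
  have hY1 : 1 ≤ Y := by omega
  -- the bound `√X / 4 ≤ Y`
  have hYs : Real.sqrt X / 4 ≤ Y := by
    have h1 : Real.sqrt X ≤ q + 1 := by
      rw [Real.sqrt_le_left (by positivity)]
      exact_mod_cast hq2.le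
    have h2 : q ≤ 2 * Y + 1 := by omega
    have h3 : (q : ℝ) ≤ 2 * Y + 1 := by exact_mod_cast h2
    have h4 : (4 : ℝ) ≤ Real.sqrt X := Real.le_sqrt_of_sq_le (by norm_num; linarith)
    linarith
  set S : Finset ℕ := (Ioc Y (2 * Y)).filter (fun s => (s : ℝ) ^ (1 - e) ≤
      Nat.card {n : ℕ // s ^ 2 < 2 * n ∧ 2 * n < (s + 1) ^ 2 ∧ P n}) with hS
  have hSc : Nat.card {s : ℕ // Y < s ∧ s ≤ 2 * Y ∧ (s : ℝ) ^ (1 - e) ≤
      Nat.card {n : ℕ // s ^ 2 < 2 * n ∧ 2 * n < (s + 1) ^ 2 ∧ P n}} = S.card := by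
    refine Nat.subtype_card S fun s => ?_
    rw [hS, mem_filter, mem_Ioc, and_assoc]
  have hSY : κ * Y ≤ S.card := by
    have := hX1 Y hYX1
    rwa [hSc] at this
  set A : ℕ → Finset ℕ := fun s => (range ((s + 1) ^ 2)).filter
    (fun n => s ^ 2 < 2 * n ∧ 2 * n < (s + 1) ^ 2 ∧ P n) with hA
  have hAc : ∀ s, Nat.card {n : ℕ // s ^ 2 < 2 * n ∧ 2 * n < (s + 1) ^ 2 ∧ P n}
      = (A s).card := by
    intro s
    refine Nat.subtype_card (A s) fun n => ?_
    rw [hA, mem_filter, mem_range]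
    constructor
    · exact fun h => h.2
    · exact fun h => ⟨by have := h.2.1; omega, h⟩
  have hdisj : (S : Set ℕ).PairwiseDisjoint A := by
    intro s _ t _ hst
    rw [Function.onFun, disjoint_left]
    intro n hn hn'
    rw [hA, mem_filter] at hn hn'
    apply hst
    have h1 : s ^ 2 < (t + 1) ^ 2 := hn.2.1.trans hn'.2.2.1
    have h2 : t ^ 2 < (s + 1) ^ 2 := hn'.2.1.trans hn.2.2.1
    have h3 := lt_of_pow_lt_pow_left₀ 2 (Nat.zero_le _) h1
    have h4 := lt_of_pow_lt_pow_left₀ 2 (Nat.zero_le _) h2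
    omega
  have hsub : S.biUnion A ⊆ (range (X + 1)).filter (fun n => P n) := by
    intro n hn
    obtain ⟨s, hs, hns⟩ := mem_biUnion.1 hn
    rw [hA, mem_filter] at hns
    rw [hS, mem_filter, mem_Ioc] at hs
    refine mem_filter.2 ⟨mem_range.2 ?_, hns.2.2.2⟩
    have h1 : (s + 1) ^ 2 ≤ (q + 1) ^ 2 := Nat.pow_le_pow_left (by omega) 2
    have h2 := hns.2.2.1
    nlinarith
  have hcardX : Nat.card {n : ℕ // n ≤ X ∧ P n}
      = ((range (X + 1)).filter (fun n => P n)).card := by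
    refine Nat.subtype_card _ fun n => ?_
    rw [mem_filter, mem_range]
    constructor
    · exact fun h => ⟨by omega, h.2⟩
    · exact fun h => ⟨by omega, h.2⟩
  have hYr : (1 : ℝ) ≤ Y := by exact_mod_cast hY1
  have hsum : κ * Y * (Y : ℝ) ^ (1 - e) ≤ Nat.card {n : ℕ // n ≤ X ∧ P n} := by
    rw [hcardX]
    have h1 : (S.biUnion A).card = ∑ s ∈ S, (A s).card := card_biUnion fun s hs t ht hst =>
      hdisj hs ht hst
    have h2 : ∑ s ∈ S, (Y : ℝ) ^ (1 - e) ≤ ∑ s ∈ S, ((A s).card : ℝ) := by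
      refine sum_le_sum fun s hs => ?_
      rw [hS, mem_filter, mem_Ioc, hAc] at hs
      refine le_trans (Real.rpow_le_rpow (by positivity) ?_ (by linarith)) hs.2
      exact_mod_cast hs.1.1.le
    rw [sum_const, nsmul_eq_mul] at h2
    have h3 : κ * Y * (Y : ℝ) ^ (1 - e) ≤ S.card * (Y : ℝ) ^ (1 - e) :=
      mul_le_mul_of_nonneg_right hSY (by positivity)
    have h4 : ((S.biUnion A).card : ℝ) = ∑ s ∈ S, ((A s).card : ℝ) := by
      rw [h1]
      push_cast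
      rfl
    have h5 : ((S.biUnion A).card : ℝ) ≤ ((range (X + 1)).filter (fun n => P n)).card := by
      exact_mod_cast card_le_card hsub
    linarith
  refine le_trans ?_ hsum
  have hX0 : (0 : ℝ) < X := by linarith
  have h32 := hX2 X hXb
  have hs0 : (0 : ℝ) < Real.sqrt X := Real.sqrt_pos.2 hX0
  calc (X : ℝ) ^ (1 - ε) ≤ (X : ℝ) ^ (1 - e) :=
        Real.rpow_le_rpow_of_exponent_le (by linarith) (by linarith)
    _ ≤ (X : ℝ) ^ (1 - e) * (κ / 16 * (X : ℝ) ^ (e / 2)) := by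
        refine le_mul_of_one_le_right (by positivity) ?_
        calc (1 : ℝ) = κ / 16 * (16 / κ) := by field_simp
          _ ≤ κ / 16 * (X : ℝ) ^ (e / 2) := mul_le_mul_of_nonneg_left h32 (by positivity)
    _ = κ / 16 * (X : ℝ) ^ (1 - e / 2) := by
        have : (X : ℝ) ^ (1 - e / 2) = (X : ℝ) ^ (1 - e) * (X : ℝ) ^ (e / 2) := by
          rw [← Real.rpow_add hX0]
          congr 1
          ring
        rw [this]
        ring
    _ = κ / 16 * (Real.sqrt X) ^ (2 - e) := by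
        rw [Real.sqrt_eq_rpow, ← Real.rpow_mul hX0.le]
        congr 2
        ring
    _ ≤ κ * (Real.sqrt X / 4) ^ (2 - e) := by
        rw [Real.div_rpow hs0.le (by norm_num)]
        have h1 : (4 : ℝ) ^ (2 - e) ≤ 16 := by
          calc (4 : ℝ) ^ (2 - e) ≤ (4 : ℝ) ^ (2 : ℝ) :=
                Real.rpow_le_rpow_of_exponent_le (by norm_num) (by linarith)
            _ = 16 := by norm_num
        have h2 : (0 : ℝ) < (4 : ℝ) ^ (2 - e) := by positivity
        have h3 : (0 : ℝ) < (Real.sqrt X) ^ (2 - e) := by positivity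
        rw [← mul_div_assoc, le_div_iff₀ h2]
        have h4 : 0 < κ * (Real.sqrt X) ^ (2 - e) := by positivity
        nlinarith
    _ ≤ κ * (Y : ℝ) ^ (2 - e) := by
        have := Real.rpow_le_rpow (by positivity) hYs (show 0 ≤ 2 - e by linarith)
        exact mul_le_mul_of_nonneg_left this hκ.le
    _ = κ * Y * (Y : ℝ) ^ (1 - e) := by
        have : (Y : ℝ) ^ (2 - e) = Y * (Y : ℝ) ^ (1 - e) := by
          rw [show 2 - e = 1 + (1 - e) by ring, Real.rpow_add (by linarith), Real.rpow_one]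
        rw [this]
        ring

/-- the local forms -/
theorem final_local : ∃ c : ℝ, 0 < c ∧ ∃ κ : ℝ, 0 < κ ∧ ∀ ε : ℝ, 0 < ε →
    ∃ X0 : ℕ, ∀ X : ℕ, X0 ≤ X →
    (1 - ε) * X ≤ Nat.card {s : ℕ // X < s ∧ s ≤ 2 * X ∧ (s : ℝ) ^ (1 - ε) ≤
      Nat.card {n : ℕ // s ^ 2 < 2 * n ∧ 2 * n < (s + 1) ^ 2 ∧ nogo c n}} ∧
    κ * X ≤ Nat.card {s : ℕ // X < s ∧ s ≤ 2 * X ∧ (s : ℝ) ^ (1 - ε) ≤
      Nat.card {n : ℕ // s ^ 2 < 2 * n ∧ 2 * n < (s + 1) ^ 2 ∧ (nogo c n ∧ nofirst c n)}} := by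
  classical
  obtain ⟨c, hc, hc1, htyp⟩ := typical
  obtain ⟨κ, hκ, X3, hX3⟩ := many_primes
  refine ⟨c / 2, by positivity, κ / 2, by positivity, fun ε hε => ?_⟩
  set e : ℝ := min (min ε 1) κ with he
  have he0 : 0 < e := lt_min (lt_min hε one_pos) hκ
  have he1 : e ≤ 1 := (min_le_left _ _).trans (min_le_right _ _)
  have heε : e ≤ ε := (min_le_left _ _).trans (min_le_left _ _)
  have heκ : e ≤ κ := min_le_right _ _
  obtain ⟨X1, hX1⟩ := htyp (e / 2) (by positivity) (by linarith)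
  obtain ⟨X2, hX2⟩ := one_window c hc hc1 e he0 he1
  have t0 : Filter.Tendsto (fun X : ℕ => Real.log X) Filter.atTop Filter.atTop :=
    Real.tendsto_log_atTop.comp tendsto_natCast_atTop_atTop
  have t1 : Filter.Tendsto (fun X : ℕ => Real.log (Real.log (Real.log X))) Filter.atTop
      Filter.atTop := Real.tendsto_log_atTop.comp (Real.tendsto_log_atTop.comp t0)
  obtain ⟨X4, hX4⟩ := Filter.eventually_atTop.1
    ((t0.eventually_ge_atTop 3).and (t1.eventually_ge_atTop 1))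
  refine ⟨max (max X1 X2) (max (max X3 X4) 1), fun X hX => ?_⟩
  have hXX1 : X1 ≤ X := (le_max_left _ _).trans ((le_max_left _ _).trans hX)
  have hXX2 : X2 ≤ X := (le_max_right _ _).trans ((le_max_left _ _).trans hX)
  have hXX3 : X3 ≤ X := (le_max_left _ _).trans ((le_max_left _ _).trans
    ((le_max_right _ _).trans hX))
  have hXX4 : X4 ≤ X := (le_max_right _ _).trans ((le_max_left _ _).trans
    ((le_max_right _ _).trans hX))
  have hXX5 : 1 ≤ X := (le_max_right _ _).trans ((le_max_right _ _).trans hX)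
  obtain ⟨H, y, hH8, hy2, hy, hH, hcard⟩ := hX1 X hXX1
  obtain ⟨hL, hLLL⟩ := hX4 X hXX4
  have hHX : H ≤ X := by omega
  have hy' : (y : ℝ) ≤ e / 2 * Real.log X := hy
  have hXr : (0 : ℝ) ≤ X := Nat.cast_nonneg _
  have hHL : Real.log X ≤ H := by
    refine le_trans ?_ hH
    have h1 : 1 ≤ (Real.log (Real.log (Real.log X))) ^ c := Real.one_le_rpow hLLL hc.le
    nlinarith [mul_nonneg (sub_nonneg.2 hL) (sub_nonneg.2 hL),
      mul_nonneg (sq_nonneg (Real.log X)) (sub_nonneg.2 h1)]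
  have hcast : ∀ s : ℕ, X < s → (s : ℝ) ^ (1 - ε) ≤ (s : ℝ) ^ (1 - e) := by
    intro s hs
    refine Real.rpow_le_rpow_of_exponent_le ?_ (by linarith)
    have : 1 ≤ s := by omega
    exact_mod_cast this
  constructor
  · have h1 : (1 - ε) * X ≤ (1 - e / 2) * X := mul_le_mul_of_nonneg_right (by linarith) hXr
    refine h1.trans (hcard.trans ?_)
    have hfin : Finite {s : ℕ // X < s ∧ s ≤ 2 * X ∧ (s : ℝ) ^ (1 - ε) ≤
        Nat.card {n : ℕ // s ^ 2 < 2 * n ∧ 2 * n < (s + 1) ^ 2 ∧ nogo (c / 2) n}} :=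
      Set.Finite.to_subtype ((Set.finite_le_nat (2 * X)).subset fun s hs => hs.2.1)
    rw [← Nat.card_eq_finsetCard]
    have hle : Nat.card ((Ioc X (2 * X)).filter (fun s => ∃ a : ℕ → ℕ, ∀ x ∈ Pw H s,
          ∃ r, r.Prime ∧ 3 ≤ r ∧ r ≤ y ∧ x ≡ a r [MOD r]))
        ≤ Nat.card {s : ℕ // X < s ∧ s ≤ 2 * X ∧ (s : ℝ) ^ (1 - ε) ≤
          Nat.card {n : ℕ // s ^ 2 < 2 * n ∧ 2 * n < (s + 1) ^ 2 ∧ nogo (c / 2) n}} := by
      refine Nat.card_le_card_of_injective (fun s => ⟨s.1, ?_⟩) ?_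
      · have hs := mem_filter.1 s.2
        have hs1 := mem_Ioc.1 hs.1
        refine ⟨hs1.1, hs1.2, (hcast _ hs1.1).trans ?_⟩
        exact (hX2 X hXX2 H y s.1 hs1.1 hs1.2 hHX hy2 hy' hH hs.2).1
      · intro m n h
        exact Subtype.ext (congrArg (fun z => z.1) h)
    exact_mod_cast hle
  · set G1 := (Ioc X (2 * X)).filter (fun s => ∃ a : ℕ → ℕ, ∀ x ∈ Pw H s,
          ∃ r, r.Prime ∧ 3 ≤ r ∧ r ≤ y ∧ x ≡ a r [MOD r]) with hG1
    set G2 := (Ioc X (2 * X)).filter (fun s => (H : ℝ) / (8 * Real.log X) ≤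
      ((Pw H s).card : ℝ)) with hG2
    have hG2c : κ * X ≤ (G2.card : ℝ) := hX3 X hXX3 H hHL hH8
    have hG : κ / 2 * X ≤ ((G1 ∩ G2).card : ℝ) := by
      have h1 : (G1 ∪ G2).card ≤ X := by
        have : G1 ∪ G2 ⊆ Ioc X (2 * X) := union_subset (filter_subset _ _) (filter_subset _ _)
        refine (card_le_card this).trans ?_
        rw [Nat.card_Ioc]
        omega
      have h2 := card_union_add_card_inter G1 G2
      have h3 : (G1.card : ℝ) + G2.card ≤ X + (G1 ∩ G2).card := by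
        have : G1.card + G2.card ≤ X + (G1 ∩ G2).card := by omega
        exact_mod_cast this
      have h4 : e / 2 * X ≤ κ / 2 * X := mul_le_mul_of_nonneg_right (by linarith) hXr
      linarith
    refine hG.trans ?_
    have hfin : Finite {s : ℕ // X < s ∧ s ≤ 2 * X ∧ (s : ℝ) ^ (1 - ε) ≤
        Nat.card {n : ℕ // s ^ 2 < 2 * n ∧ 2 * n < (s + 1) ^ 2 ∧
          (nogo (c / 2) n ∧ nofirst (c / 2) n)}} :=
      Set.Finite.to_subtype ((Set.finite_le_nat (2 * X)).subset fun s hs => hs.2.1)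
    rw [← Nat.card_eq_finsetCard]
    have hle : Nat.card (G1 ∩ G2 : Finset ℕ)
        ≤ Nat.card {s : ℕ // X < s ∧ s ≤ 2 * X ∧ (s : ℝ) ^ (1 - ε) ≤
          Nat.card {n : ℕ // s ^ 2 < 2 * n ∧ 2 * n < (s + 1) ^ 2 ∧
            (nogo (c / 2) n ∧ nofirst (c / 2) n)}} := by
      refine Nat.card_le_card_of_injective (fun s => ⟨s.1, ?_⟩) ?_
      · have hs := mem_inter.1 s.2
        have hs0 := mem_filter.1 hs.1
        have hs0' := mem_filter.1 hs.2
        have hs1 := mem_Ioc.1 hs0.1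
        refine ⟨hs1.1, hs1.2, (hcast _ hs1.1).trans ?_⟩
        exact (hX2 X hXX2 H y s.1 hs1.1 hs1.2 hHX hy2 hy' hH hs0.2).2 hs0'.2
      · intro m n h
        exact Subtype.ext (congrArg (fun z => z.1) h)
    exact_mod_cast hle

theorem final : ∃ c : ℝ, 0 < c ∧ ∃ κ : ℝ, 0 < κ ∧ ∀ ε : ℝ, 0 < ε →
    ∃ X0 : ℕ, ∀ X : ℕ, X0 ≤ X →
    (1 - ε) * X ≤ Nat.card {s : ℕ // X < s ∧ s ≤ 2 * X ∧ (s : ℝ) ^ (1 - ε) ≤
      Nat.card {n : ℕ // s ^ 2 < 2 * n ∧ 2 * n < (s + 1) ^ 2 ∧ nogo c n}} ∧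
    κ * X ≤ Nat.card {s : ℕ // X < s ∧ s ≤ 2 * X ∧ (s : ℝ) ^ (1 - ε) ≤
      Nat.card {n : ℕ // s ^ 2 < 2 * n ∧ 2 * n < (s + 1) ^ 2 ∧ (nogo c n ∧ nofirst c n)}} ∧
    (X : ℝ) ^ (1 - ε) ≤ Nat.card {n : ℕ // n ≤ X ∧ (nogo c n ∧ nofirst c n)} := by
  obtain ⟨c, hc, κ, hκ, h⟩ := final_local
  refine ⟨c, hc, κ, hκ, fun ε hε => ?_⟩
  obtain ⟨X1, hX1⟩ := h ε hε
  obtain ⟨X2, hX2⟩ := global_of_local (fun n => nogo c n ∧ nofirst c n) κ hκ (fun e he => by
    obtain ⟨X3, hX3⟩ := h e he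
    exact ⟨X3, fun X hX => (hX3 X hX).2⟩) ε hε
  exact ⟨max X1 X2, fun X hX => ⟨(hX1 X ((le_max_left _ _).trans hX)).1,
    (hX1 X ((le_max_left _ _).trans hX)).2, hX2 X ((le_max_right _ _).trans hX)⟩⟩

end Pool.Agent.GWC
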