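import Mathlib

/-! # Parameters depending on `X` -/

namespace Pool.Agent.GWC

open Finset Filter

theorem par_X (δ : ℝ) (hδ : 0 < δ) (hδ1 : δ ≤ 1) (I1 : ℕ) : ∃ X0 : ℕ, ∀ X : ℕ, X0 ≤ X →
    ∃ y I : ℕ, I1 ≤ I ∧ 2 ≤ X ∧ (y : ℝ) ≤ δ * Real.log X ∧ δ / 2 * Real.log X ≤ y ∧
      (I : ℝ) ^ 4 ≤ Real.log (Real.log y) ∧ Real.log (Real.log y) < ((I : ℝ) + 1) ^ 4 ∧
      Real.log (Real.log (Real.log X)) ≤ 2 * Real.log (Real.log y) ∧
      8 * ((I : ℝ) * (Real.log X) ^ 2) ≤ X ∧ 2 / δ * I ≤ y := by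
  have t0 : Tendsto (fun X : ℕ => Real.log X) atTop atTop :=
    Real.tendsto_log_atTop.comp tendsto_natCast_atTop_atTop
  have t1 : Tendsto (fun X : ℕ => δ * Real.log X) atTop atTop := t0.const_mul_atTop hδ
  have ty : Tendsto (fun X : ℕ => ⌊δ * Real.log X⌋₊) atTop atTop :=
    tendsto_nat_floor_atTop.comp t1
  have tyr : Tendsto (fun X : ℕ => ((⌊δ * Real.log X⌋₊ : ℕ) : ℝ)) atTop atTop :=
    tendsto_natCast_atTop_atTop.comp ty
  have tly : Tendsto (fun X : ℕ => Real.log ((⌊δ * Real.log X⌋₊ : ℕ) : ℝ)) atTop atTop :=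
    Real.tendsto_log_atTop.comp tyr
  have tlly : Tendsto (fun X : ℕ => Real.log (Real.log ((⌊δ * Real.log X⌋₊ : ℕ) : ℝ)))
      atTop atTop := Real.tendsto_log_atTop.comp tly
  have e1 : ∀ᶠ X : ℕ in atTop, 2 ≤ δ * Real.log X := t1.eventually_ge_atTop 2
  have e2 : ∀ᶠ X : ℕ in atTop, (2 / δ) ^ 2 ≤ Real.log X := t0.eventually_ge_atTop _
  have e3 : ∀ᶠ X : ℕ in atTop, 4 ≤ Real.log (Real.log X) :=
    (Real.tendsto_log_atTop.comp t0).eventually_ge_atTop 4
  have e4 : ∀ᶠ X : ℕ in atTop, 8 * (Real.log X) ^ 3 ≤ X := by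
    have h := (Real.isLittleO_pow_log_id_atTop (n := 3)).bound (c := 1 / 8) (by norm_num)
    have h' := (tendsto_natCast_atTop_atTop (R := ℝ)).eventually h
    filter_upwards [h', eventually_ge_atTop 1] with X hX hX1
    have hX1' : (1 : ℝ) ≤ X := by exact_mod_cast hX1
    have h0 : 0 ≤ Real.log X := Real.log_nonneg hX1'
    rw [Real.norm_of_nonneg (by positivity), id, Real.norm_of_nonneg (by linarith)] at hX
    linarith
  have e5 : ∀ᶠ X : ℕ in atTop, 2 / δ * Real.log ((⌊δ * Real.log X⌋₊ : ℕ) : ℝ)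
      ≤ ((⌊δ * Real.log X⌋₊ : ℕ) : ℝ) := by
    have h := Real.isLittleO_log_id_atTop.bound (c := δ / 2) (by positivity)
    have h' := tyr.eventually h
    filter_upwards [h', tyr.eventually_ge_atTop 1] with X hX hX1
    rw [Real.norm_of_nonneg (Real.log_nonneg hX1), id, Real.norm_of_nonneg (by linarith)] at hX
    calc 2 / δ * Real.log ((⌊δ * Real.log X⌋₊ : ℕ) : ℝ)
        ≤ 2 / δ * (δ / 2 * ((⌊δ * Real.log X⌋₊ : ℕ) : ℝ)) :=
          mul_le_mul_of_nonneg_left hX (by positivity)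
      _ = _ := by field_simp
  have e6 : ∀ᶠ X : ℕ in atTop, ((I1 : ℝ) + 1) ^ 4
      ≤ Real.log (Real.log ((⌊δ * Real.log X⌋₊ : ℕ) : ℝ)) := tlly.eventually_ge_atTop _
  have e7 : ∀ᶠ X : ℕ in atTop, 1 ≤ Real.log ((⌊δ * Real.log X⌋₊ : ℕ) : ℝ) :=
    tly.eventually_ge_atTop _
  obtain ⟨X0, hX0⟩ := eventually_atTop.1
    (e1.and (e2.and (e3.and (e4.and (e5.and (e6.and (e7.and (eventually_ge_atTop 2))))))))
  refine ⟨X0, fun X hX => ?_⟩
  obtain ⟨h1, h2, h3, h4, h5, h6, h7, h8⟩ := hX0 X hX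
  set y : ℕ := ⌊δ * Real.log X⌋₊ with hy
  set L : ℝ := Real.log X with hL
  set t : ℝ := Real.log (Real.log y) with ht
  have hL0 : 0 < L := by
    have : (0 : ℝ) < (2 / δ) ^ 2 := by positivity
    linarith
  have ht1 : 1 ≤ t := by
    have : (1 : ℝ) ≤ ((I1 : ℝ) + 1) ^ 4 := by
      apply one_le_pow₀
      have : (0 : ℝ) ≤ I1 := Nat.cast_nonneg _
      linarith
    linarith
  have hyle : (y : ℝ) ≤ δ * L := Nat.floor_le (by positivity)
  have hyge : δ / 2 * L ≤ y := by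
    have := Nat.lt_floor_add_one (δ * L)
    rw [← hy] at this
    linarith
  refine ⟨y, ⌊t ^ (1 / 4 : ℝ)⌋₊, ?_, h8, hyle, hyge, ?_, ?_, ?_, ?_, ?_⟩
  · refine Nat.le_floor ?_
    have h : ((I1 : ℝ) + 1) ^ (4 : ℕ) ≤ t := h6
    have h' : (((I1 : ℝ) + 1) ^ (4 : ℕ)) ^ (1 / 4 : ℝ) ≤ t ^ (1 / 4 : ℝ) :=
      Real.rpow_le_rpow (by positivity) h (by norm_num)
    rw [← Real.rpow_natCast, ← Real.rpow_mul (by positivity)] at h'
    norm_num at h'
    norm_num
    linarith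
  · have h := Nat.floor_le (show 0 ≤ t ^ (1 / 4 : ℝ) by positivity)
    calc ((⌊t ^ (1 / 4 : ℝ)⌋₊ : ℕ) : ℝ) ^ 4 ≤ (t ^ (1 / 4 : ℝ)) ^ 4 :=
          pow_le_pow_left₀ (Nat.cast_nonneg _) h 4
      _ = t := by
          rw [← Real.rpow_natCast, ← Real.rpow_mul (by linarith)]
          norm_num
  · have h := Nat.lt_floor_add_one (t ^ (1 / 4 : ℝ))
    calc t = (t ^ (1 / 4 : ℝ)) ^ 4 := by
          rw [← Real.rpow_natCast, ← Real.rpow_mul (by linarith)]
          norm_num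
      _ < _ := pow_lt_pow_left₀ h (by positivity) (by norm_num)
  · have h9 : 1 / 2 * Real.log L ≤ Real.log y := by
      have ha : Real.sqrt L ≤ y := by
        refine le_trans ?_ hyge
        have hb : 2 / δ ≤ Real.sqrt L := Real.le_sqrt_of_sq_le h2
        have hc : Real.sqrt L * Real.sqrt L = L := Real.mul_self_sqrt hL0.le
        have hd : 0 ≤ Real.sqrt L := Real.sqrt_nonneg _
        calc Real.sqrt L = δ / 2 * (2 / δ) * Real.sqrt L := by field_simp
          _ ≤ δ / 2 * Real.sqrt L * Real.sqrt L := by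
              have := mul_le_mul_of_nonneg_left hb (show 0 ≤ δ / 2 * Real.sqrt L by positivity)
              nlinarith
          _ = δ / 2 * L := by rw [mul_assoc, hc]
      have hb := Real.log_le_log (Real.sqrt_pos.2 hL0) ha
      rw [Real.log_sqrt hL0.le] at hb
      linarith
    have h10 : Real.log L ≤ (Real.log y) ^ 2 := by nlinarith
    have h11 := Real.log_le_log (by linarith) h10
    rw [Real.log_pow] at h11
    push_cast at h11
    exact h11
  · have hI : ((⌊t ^ (1 / 4 : ℝ)⌋₊ : ℕ) : ℝ) ≤ t := by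
      refine (Nat.floor_le (show 0 ≤ t ^ (1 / 4 : ℝ) by positivity)).trans ?_
      calc t ^ (1 / 4 : ℝ) ≤ t ^ (1 : ℝ) := Real.rpow_le_rpow_of_exponent_le ht1 (by norm_num)
        _ = t := Real.rpow_one t
    have hy1 : (0 : ℝ) < y := by
      have : 0 < δ / 2 * L := by positivity
      linarith
    have ha : t ≤ Real.log y := (Real.log_le_sub_one_of_pos (by linarith)).trans (by linarith)
    have hb : Real.log y ≤ y := (Real.log_le_sub_one_of_pos hy1).trans (by linarith)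
    have hc : (y : ℝ) ≤ L := hyle.trans (by nlinarith)
    calc 8 * (((⌊t ^ (1 / 4 : ℝ)⌋₊ : ℕ) : ℝ) * L ^ 2) ≤ 8 * (L * L ^ 2) :=
          mul_le_mul_of_nonneg_left (mul_le_mul_of_nonneg_right (by linarith) (by positivity))
            (by norm_num)
      _ = 8 * L ^ 3 := by ring
      _ ≤ X := h4
  · have hI : ((⌊t ^ (1 / 4 : ℝ)⌋₊ : ℕ) : ℝ) ≤ t := by
      refine (Nat.floor_le (show 0 ≤ t ^ (1 / 4 : ℝ) by positivity)).trans ?_
      calc t ^ (1 / 4 : ℝ) ≤ t ^ (1 : ℝ) := Real.rpow_le_rpow_of_exponent_le ht1 (by norm_num)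
        _ = t := Real.rpow_one t
    have ha : t ≤ Real.log y := (Real.log_le_sub_one_of_pos (by linarith)).trans (by linarith)
    exact (mul_le_mul_of_nonneg_left (hI.trans ha) (by positivity)).trans h5

end Pool.Agent.GWC
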