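import Mathlib

/-! # Numerical estimates for large `I` -/

namespace Pool.Agent.GWC

open Finset Filter

theorem one_add_rpow_neg_le (η K : ℝ) (hη : 0 < η) (hη1 : η ≤ 1) (hK : 0 ≤ K) :
    (1 + η) ^ (-K) ≤ Real.exp (-(K * η / 2)) := by
  have h1 : η / 2 ≤ Real.log (1 + η) := by
    have h := Real.one_sub_inv_le_log_of_pos (show 0 < 1 + η by linarith)
    refine le_trans ?_ h
    have h2 : 1 - (1 + η)⁻¹ = η / (1 + η) := by
      field_simp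
      ring
    rw [h2]
    exact div_le_div_of_nonneg_left hη.le (by linarith) (by linarith)
  rw [Real.rpow_def_of_pos (by linarith)]
  refine Real.exp_le_exp.2 ?_
  nlinarith

theorem num_I (c1 C1 C2 C3 δ : ℝ) (hc1 : 0 < c1) (hc1' : c1 ≤ 1) (hC1 : 0 < C1) (hC2 : 0 < C2)
    (hC3 : 0 < C3) (hδ : 0 < δ) : ∃ I1 : ℕ, ∀ I : ℕ, I1 ≤ I → 2 ≤ I ∧
      C1 * (I : ℝ) ^ (-(c1 / 2)) ≤ δ / 3 ∧
      (I : ℝ) ^ 2 * (C2 * (I : ℝ) ^ c1 * Real.exp (2 * ((I : ℝ) + 1) ^ 4) *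
        (1 + 1 / (I : ℝ) ^ 4) ^ (-((160 : ℝ) ^ I))) ≤ δ / 3 ∧
      (I : ℝ) ^ 2 * (C3 * (I : ℝ) ^ c1 * 160 * (160 / 2000) ^ I) ≤ δ / 3 ∧
      4608 / δ * (I : ℝ) ^ (c1 / 4) ≤ (I : ℝ) ^ (c1 / 2) := by
  have tN : Tendsto (fun I : ℕ => (I : ℝ)) atTop atTop := tendsto_natCast_atTop_atTop
  have a1 : ∀ᶠ I : ℕ in atTop, C1 * (I : ℝ) ^ (-(c1 / 2)) ≤ δ / 3 := by
    have h := ((tendsto_rpow_neg_atTop (show 0 < c1 / 2 by positivity)).comp tN).const_mul C1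
    rw [mul_zero] at h
    exact (h.eventually_lt_const (show (0 : ℝ) < δ / 3 by positivity)).mono fun I hI => hI.le
  have a2 : ∀ᶠ I : ℕ in atTop, (I : ℝ) ^ 8 * (1 / 160) ^ I < 1 / 66 :=
    (tendsto_pow_const_mul_const_pow_of_abs_lt_one 8 (r := (1 / 160 : ℝ))
      (by rw [abs_of_pos (by norm_num)]; norm_num)).eventually_lt_const (by norm_num)
  have a3 : ∀ᶠ I : ℕ in atTop, (I : ℝ) ^ 3 * (Real.exp (-1)) ^ I < δ / 3 / C2 :=
    (tendsto_pow_const_mul_const_pow_of_abs_lt_one 3 (r := Real.exp (-1))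
      (by rw [abs_of_pos (Real.exp_pos _)]; exact Real.exp_lt_one_iff.2 (by norm_num))).eventually_lt_const
      (by positivity)
  have a4 : ∀ᶠ I : ℕ in atTop, (I : ℝ) ^ 3 * (160 / 2000 : ℝ) ^ I < δ / 3 / (C3 * 160) :=
    (tendsto_pow_const_mul_const_pow_of_abs_lt_one 3 (r := (160 / 2000 : ℝ))
      (by rw [abs_of_pos (by norm_num)]; norm_num)).eventually_lt_const (by positivity)
  have a5 : ∀ᶠ I : ℕ in atTop, 4608 / δ ≤ (I : ℝ) ^ (c1 / 4) :=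
    ((tendsto_rpow_atTop (show 0 < c1 / 4 by positivity)).comp tN).eventually_ge_atTop _
  obtain ⟨I1, hI1⟩ := eventually_atTop.1
    (a1.and (a2.and (a3.and (a4.and (a5.and (eventually_ge_atTop 2))))))
  refine ⟨I1, fun I hI => ?_⟩
  obtain ⟨h1, h2, h3, h4, h5, h6⟩ := hI1 I hI
  have hI2 : (2 : ℝ) ≤ I := by exact_mod_cast h6
  have hI0 : (0 : ℝ) < I := by linarith
  have hc : (I : ℝ) ^ c1 ≤ I := by
    calc (I : ℝ) ^ c1 ≤ (I : ℝ) ^ (1 : ℝ) :=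
          Real.rpow_le_rpow_of_exponent_le (by linarith) hc1'
      _ = I := Real.rpow_one _
  refine ⟨h6, h1, ?_, ?_, ?_⟩
  · have hb : (66 : ℝ) * (I : ℝ) ^ 8 ≤ 160 ^ I := by
      have e : (1 / 160 : ℝ) ^ I = 1 / 160 ^ I := by rw [div_pow, one_pow]
      rw [e, mul_one_div, div_lt_div_iff₀ (by positivity) (by norm_num)] at h2
      linarith
    have hc' := one_add_rpow_neg_le (1 / (I : ℝ) ^ 4) (160 ^ I) (by positivity) (by
      rw [div_le_one (by positivity)]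
      exact one_le_pow₀ (by linarith)) (by positivity)
    have hd : (160 : ℝ) ^ I * (1 / (I : ℝ) ^ 4) / 2 ≥ 33 * (I : ℝ) ^ 4 := by
      have : (160 : ℝ) ^ I * (1 / (I : ℝ) ^ 4) / 2 = 160 ^ I / (2 * (I : ℝ) ^ 4) := by
        field_simp
      rw [this, ge_iff_le, le_div_iff₀ (by positivity)]
      calc 33 * (I : ℝ) ^ 4 * (2 * (I : ℝ) ^ 4) = 66 * (I : ℝ) ^ 8 := by ring
        _ ≤ _ := hb
    have he : ((I : ℝ) + 1) ^ 4 ≤ 16 * (I : ℝ) ^ 4 := by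
      calc ((I : ℝ) + 1) ^ 4 ≤ (2 * (I : ℝ)) ^ 4 := pow_le_pow_left₀ (by positivity) (by linarith) 4
        _ = _ := by ring
    have hf : (I : ℝ) ≤ (I : ℝ) ^ 4 := by
      calc (I : ℝ) = (I : ℝ) ^ 1 := (pow_one _).symm
        _ ≤ (I : ℝ) ^ 4 := pow_le_pow_right₀ (by linarith) (by norm_num)
    have hg : Real.exp (2 * ((I : ℝ) + 1) ^ 4) * (1 + 1 / (I : ℝ) ^ 4) ^ (-((160 : ℝ) ^ I))
        ≤ (Real.exp (-1)) ^ I := by
      calc Real.exp (2 * ((I : ℝ) + 1) ^ 4) * (1 + 1 / (I : ℝ) ^ 4) ^ (-((160 : ℝ) ^ I))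
          ≤ Real.exp (2 * ((I : ℝ) + 1) ^ 4) *
              Real.exp (-(160 ^ I * (1 / (I : ℝ) ^ 4) / 2)) :=
            mul_le_mul_of_nonneg_left hc' (Real.exp_pos _).le
        _ = Real.exp (2 * ((I : ℝ) + 1) ^ 4 + -(160 ^ I * (1 / (I : ℝ) ^ 4) / 2)) :=
            (Real.exp_add _ _).symm
        _ ≤ Real.exp ((I : ℝ) * (-1)) := Real.exp_le_exp.2 (by linarith)
        _ = (Real.exp (-1)) ^ I := by rw [Real.exp_nat_mul]
    have hp : (0 : ℝ) ≤ (Real.exp (-1)) ^ I := by positivity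
    calc (I : ℝ) ^ 2 * (C2 * (I : ℝ) ^ c1 * Real.exp (2 * ((I : ℝ) + 1) ^ 4) *
          (1 + 1 / (I : ℝ) ^ 4) ^ (-((160 : ℝ) ^ I)))
        = (I : ℝ) ^ 2 * C2 * (I : ℝ) ^ c1 * (Real.exp (2 * ((I : ℝ) + 1) ^ 4) *
          (1 + 1 / (I : ℝ) ^ 4) ^ (-((160 : ℝ) ^ I))) := by ring
      _ ≤ (I : ℝ) ^ 2 * C2 * I * (Real.exp (-1)) ^ I := by
          apply mul_le_mul (mul_le_mul_of_nonneg_left hc (by positivity)) hg (by positivity)
            (by positivity)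
      _ = C2 * ((I : ℝ) ^ 3 * (Real.exp (-1)) ^ I) := by ring
      _ ≤ C2 * (δ / 3 / C2) := mul_le_mul_of_nonneg_left h3.le hC2.le
      _ = δ / 3 := by field_simp
  · calc (I : ℝ) ^ 2 * (C3 * (I : ℝ) ^ c1 * 160 * (160 / 2000) ^ I)
        ≤ (I : ℝ) ^ 2 * (C3 * I * 160 * (160 / 2000) ^ I) := by gcongr
      _ = C3 * 160 * ((I : ℝ) ^ 3 * (160 / 2000 : ℝ) ^ I) := by ring
      _ ≤ C3 * 160 * (δ / 3 / (C3 * 160)) := mul_le_mul_of_nonneg_left h4.le (by positivity)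
      _ = δ / 3 := by field_simp
  · calc 4608 / δ * (I : ℝ) ^ (c1 / 4) ≤ (I : ℝ) ^ (c1 / 4) * (I : ℝ) ^ (c1 / 4) :=
          mul_le_mul_of_nonneg_right h5 (by positivity)
      _ = (I : ℝ) ^ (c1 / 2) := by
          rw [← Real.rpow_add hI0]
          congr 1
          ring

/-- Markov's inequality -/
theorem markov {α : Type*} (S : Finset α) (f : α → ℝ) (hf : ∀ s ∈ S, 0 ≤ f s) (b B : ℝ)
    (hb : 0 < b) (h : ∑ s ∈ S, f s ≤ B * b) [DecidablePred fun s => b < f s] :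
    ((S.filter (fun s => b < f s)).card : ℝ) ≤ B := by
  have h1 : ((S.filter (fun s => b < f s)).card : ℝ) * b ≤ ∑ s ∈ S.filter (fun s => b < f s), f s := by
    rw [← nsmul_eq_mul]
    exact card_nsmul_le_sum _ _ _ fun s hs => (mem_filter.1 hs).2.le
  have h2 : ∑ s ∈ S.filter (fun s => b < f s), f s ≤ ∑ s ∈ S, f s :=
    sum_le_sum_of_subset_of_nonneg (filter_subset _ _) fun s hs _ => hf s hs
  exact le_of_mul_le_mul_right (h1.trans (h2.trans h)) hb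

end Pool.Agent.GWC
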