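import Pool.Agent.GWC.Two

/-! # The greedy choice of classes in one scale -/

namespace Pool.Agent.GWC

open Finset

theorem gr_cls_mono {S S' : Finset ℕ} (h : S' ⊆ S) (q c : ℕ) : cls S' q c ⊆ cls S q c :=
  filter_subset_filter _ h

theorem gr_mx_mono {S S' : Finset ℕ} (h : S' ⊆ S) (q : ℕ) : mx S' q ≤ mx S q :=
  Finset.sup_mono_fun fun c _ => card_le_card (gr_cls_mono h q c)

theorem gr_card_cls_le_mx (S : Finset ℕ) (q c : ℕ) (hc : c < q) : (cls S q c).card ≤ mx S q :=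
  Finset.le_sup (f := fun c => (cls S q c).card) (mem_range.2 hc)

theorem gr_exists_mx (S : Finset ℕ) (q : ℕ) (hq : 0 < q) : ∃ c, (cls S q c).card = mx S q := by
  obtain ⟨c, _, hc⟩ := Finset.exists_mem_eq_sup (range q) ⟨0, mem_range.2 hq⟩
    (fun c => (cls S q c).card)
  exact ⟨c, hc.symm⟩

theorem greedy_classes (S Q : Finset ℕ) (hQ : ∀ q ∈ Q, 0 < q) : ∃ a : ℕ → ℕ,
    ∑ q ∈ Q, mx (S.filter (fun x => ∀ q ∈ Q, x % q ≠ a q)) q
      + (S.filter (fun x => ∀ q ∈ Q, x % q ≠ a q)).card ≤ S.card := by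
  classical
  induction Q using Finset.induction_on with
  | empty => exact ⟨fun _ => 0, by simp⟩
  | insert q0 Q hq0 ih =>
    obtain ⟨a, ha⟩ := ih fun q hq => hQ q (mem_insert_of_mem hq)
    set SQ := S.filter (fun x => ∀ q ∈ Q, x % q ≠ a q) with hSQ
    obtain ⟨c, hc⟩ := gr_exists_mx SQ q0 (hQ q0 (mem_insert_self _ _))
    refine ⟨fun q => if q = q0 then c else a q, ?_⟩
    have h1 : S.filter (fun x => ∀ q ∈ insert q0 Q, x % q ≠ if q = q0 then c else a q)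
        = SQ.filter (fun x => x % q0 ≠ c) := by
      ext x
      simp only [hSQ, mem_filter, mem_insert, forall_eq_or_imp, if_true]
      constructor
      · rintro ⟨hx, h0, h2⟩
        refine ⟨⟨hx, fun q hq => ?_⟩, h0⟩
        have h3 := h2 q hq
        rwa [if_neg (by rintro rfl; exact hq0 hq)] at h3
      · rintro ⟨⟨hx, h2⟩, h0⟩
        refine ⟨hx, h0, fun q hq => ?_⟩
        rw [if_neg (by rintro rfl; exact hq0 hq)]
        exact h2 q hq
    rw [h1]
    set S' := SQ.filter (fun x => x % q0 ≠ c) with hS'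
    have h2 : S' ⊆ SQ := filter_subset _ _
    have h3 : (cls SQ q0 c).card + S'.card = SQ.card := by
      rw [hS']
      unfold cls
      exact Finset.card_filter_add_card_filter_not (fun x => x % q0 = c)
    rw [sum_insert hq0]
    have h4 : ∑ q ∈ Q, mx S' q ≤ ∑ q ∈ Q, mx SQ q := sum_le_sum fun q _ => gr_mx_mono h2 q
    have h5 := gr_mx_mono h2 q0
    omega

theorem gr_sig_pos {T : Finset ℕ} (hT : ∀ r ∈ T, r.Prime) : 0 < sig T := by
  refine prod_pos fun r hr => ?_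
  have h1 : (1 : ℝ) < r := by exact_mod_cast (hT r hr).one_lt
  have h2 : 1 / (r : ℝ) < 1 := by
    rw [div_lt_one (by linarith)]
    exact h1
  linarith

/-- the double count -/
theorem gr_sum_Wx (T1 T2 : Finset ℕ) (M : ℕ) (P Q S : Finset ℕ) (N : ℕ) (hQ : ∀ q ∈ Q, 0 < q) :
    ∑ x ∈ S, Wx T1 T2 M P Q x N
      = ∑ q ∈ Q, ∑ c ∈ range q, wt T1 T2 M (cls P q c) N * (cls S q c).card := by
  unfold Wx
  rw [sum_comm]
  refine sum_congr rfl fun q hq => ?_
  rw [← sum_fiberwise_of_maps_to (s := S) (t := range q) (g := fun x => x % q)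
    (fun x _ => mem_range.2 (Nat.mod_lt _ (hQ q hq)))]
  refine sum_congr rfl fun c _ => ?_
  have h1 : ∀ x ∈ S.filter (fun x => x % q = c), wt T1 T2 M (cls P q (x % q)) N
      = wt T1 T2 M (cls P q c) N := by
    intro x hx
    rw [(mem_filter.1 hx).2]
  rw [sum_congr rfl h1, sum_const, nsmul_eq_mul, mul_comm]
  rfl

/-- one modulus -/
theorem gr_one_q {T1 T2 : Finset ℕ} {M R : ℕ} (h : Setup T1 T2 M R) (P S : Finset ℕ) (N q Yv : ℕ)
    (hY : 0 < Yv) (hq : q ≤ Yv) (hS : S ⊆ P) :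
    ∑ c ∈ range q, wt T1 T2 M (cls P q c) N * (cls S q c).card
      ≤ 2 * Yv * mx S q + 2 * M * (Tq T1 T2 M P q N - Gq M P q) ^ 2 / Yv := by
  have hY' : (0 : ℝ) < Yv := by exact_mod_cast hY
  have hM' : (0 : ℝ) ≤ M := Nat.cast_nonneg _
  have hx' : (0 : ℝ) ≤ mx S q := Nat.cast_nonneg _
  have h1 : ∑ c ∈ range q, wt T1 T2 M (cls P q c) N * (cls S q c).card
      ≤ Tq T1 T2 M P q N * mx S q := by
    unfold Tq
    rw [sum_mul]
    refine sum_le_sum fun c hc => ?_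
    refine mul_le_mul_of_nonneg_left ?_ (wt_nonneg h _ _)
    exact_mod_cast gr_card_cls_le_mx S q c (mem_range.1 hc)
  have h2 : ∑ c ∈ range q, wt T1 T2 M (cls P q c) N * (cls S q c).card
      ≤ Tq T1 T2 M P q N * M := by
    unfold Tq
    rw [sum_mul]
    refine sum_le_sum fun c hc => ?_
    by_cases hc' : (cls P q c).card ≤ M
    · refine mul_le_mul_of_nonneg_left ?_ (wt_nonneg h _ _)
      exact_mod_cast (card_le_card (gr_cls_mono hS q c)).trans hc'
    · unfold wt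
      rw [if_neg hc']
      simp
  have hG : (Gq M P q : ℝ) ≤ Yv := by
    have h3 : Gq M P q ≤ q := by
      unfold Gq
      exact (card_filter_le _ _).trans (by rw [card_range])
    exact_mod_cast h3.trans hq
  rcases le_or_gt (Tq T1 T2 M P q N) (2 * Yv) with hT | hT
  · refine h1.trans ?_
    have h3 : 0 ≤ 2 * M * (Tq T1 T2 M P q N - Gq M P q) ^ 2 / Yv := by positivity
    have h4 : Tq T1 T2 M P q N * mx S q ≤ 2 * Yv * mx S q :=
      mul_le_mul_of_nonneg_right hT hx'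
    linarith
  · refine h2.trans ?_
    have h3 : 0 ≤ 2 * (Yv : ℝ) * mx S q := by positivity
    have h4 : Tq T1 T2 M P q N * Yv ≤ 2 * (Tq T1 T2 M P q N - Gq M P q) ^ 2 := by
      nlinarith
    have h5 : Tq T1 T2 M P q N * M ≤ 2 * M * (Tq T1 T2 M P q N - Gq M P q) ^ 2 / Yv := by
      rw [le_div_iff₀ hY']
      nlinarith
    linarith

/-- one scale: if `θ` or more elements remain, their number has been reduced by the factor
`1 + μ / (8 Y)`, `μ = |Q| / sig T2` -/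
theorem scale_step {T1 T2 : Finset ℕ} {M R : ℕ} (h : Setup T1 T2 M R) (P Q : Finset ℕ) (N Yv : ℕ)
    (hY : 0 < Yv) (hQ : ∀ q ∈ Q, 0 < q ∧ q ≤ Yv) (S : Finset ℕ) (hS : S ⊆ surv (T1 ∪ T2) N P)
    (D B θ : ℝ) (hθ : 0 < θ) (hD : DD T1 T2 M P Q N ≤ D) (hB : BB T1 T2 M P Q N ≤ B)
    (hD' : 4 * D ≤ (Q.card / sig T2) ^ 2 * θ) (hB' : 8 * M * B ≤ Q.card / sig T2 * θ * Yv) :
    ∃ a : ℕ → ℕ, ((S.filter (fun x => ∀ q ∈ Q, x % q ≠ a q)).card : ℝ) < θ ∨
      ((S.filter (fun x => ∀ q ∈ Q, x % q ≠ a q)).card : ℝ) * (1 + Q.card / sig T2 / (8 * Yv))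
        ≤ S.card := by
  obtain ⟨a, ha⟩ := greedy_classes S Q fun q hq => (hQ q hq).1
  refine ⟨a, ?_⟩
  set S' := S.filter (fun x => ∀ q ∈ Q, x % q ≠ a q) with hS'
  rcases lt_or_ge (S'.card : ℝ) θ with hs | hs
  · exact Or.inl hs
  right
  set μ : ℝ := Q.card / sig T2 with hμ
  have hμ0 : 0 ≤ μ := div_nonneg (Nat.cast_nonneg _) (gr_sig_pos h.p2).le
  have hs0 : (0 : ℝ) < S'.card := hθ.trans_le hs
  have hY' : (0 : ℝ) < Yv := by exact_mod_cast hY
  have hS'1 : S' ⊆ surv (T1 ∪ T2) N P := (filter_subset _ _).trans hS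
  have hS'2 : S' ⊆ P := hS'1.trans (filter_subset _ _)
  -- Cauchy-Schwarz
  have h1 : (∑ x ∈ S', (μ - Wx T1 T2 M P Q x N)) ^ 2 ≤ S'.card * D := by
    have h2 := sq_sum_le_card_mul_sum_sq (s := S') (f := fun x => μ - Wx T1 T2 M P Q x N)
    refine h2.trans (mul_le_mul_of_nonneg_left ?_ hs0.le)
    refine le_trans ?_ hD
    unfold DD
    refine le_trans (le_of_eq (sum_congr rfl fun x _ => ?_))
      (sum_le_sum_of_subset_of_nonneg hS'1 fun x _ _ => sq_nonneg _)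
    rw [← hμ]
    ring
  have h2 : ∑ x ∈ S', (μ - Wx T1 T2 M P Q x N) ≤ μ * S'.card / 2 := by
    have h3 : (S'.card : ℝ) * D ≤ (μ * S'.card / 2) ^ 2 := by
      have h4 : 4 * D ≤ μ ^ 2 * S'.card :=
        hD'.trans (mul_le_mul_of_nonneg_left hs (sq_nonneg _))
      nlinarith
    exact abs_le_of_sq_le_sq' (h1.trans h3) (by positivity) |>.2
  have h3 : μ * S'.card / 2 ≤ ∑ x ∈ S', Wx T1 T2 M P Q x N := by
    rw [sum_sub_distrib, sum_const, nsmul_eq_mul] at h2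
    linarith
  have h4 : ∑ x ∈ S', Wx T1 T2 M P Q x N
      ≤ 2 * Yv * (∑ q ∈ Q, (mx S' q : ℝ)) + 2 * M * B / Yv := by
    rw [gr_sum_Wx T1 T2 M P Q S' N fun q hq => (hQ q hq).1]
    refine (sum_le_sum fun q hq => gr_one_q h P S' N q Yv hY (hQ q hq).2 hS'2).trans ?_
    rw [sum_add_distrib, ← mul_sum, ← sum_div, ← mul_sum]
    have h5 : 2 * (M : ℝ) * (∑ q ∈ Q, (Tq T1 T2 M P q N - Gq M P q) ^ 2) / Yv
        ≤ 2 * M * B / Yv := by
      refine div_le_div_of_nonneg_right ?_ hY'.le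
      exact mul_le_mul_of_nonneg_left hB (by positivity)
    linarith
  have h5 : 2 * M * B / Yv ≤ μ * S'.card / 4 := by
    rw [div_le_iff₀ hY']
    have h6 : μ * θ * Yv ≤ μ * S'.card * Yv :=
      mul_le_mul_of_nonneg_right (mul_le_mul_of_nonneg_left hs hμ0) hY'.le
    nlinarith
  have h6 : μ * S'.card / (8 * Yv) ≤ ∑ q ∈ Q, (mx S' q : ℝ) := by
    rw [div_le_iff₀ (by positivity)]
    nlinarith
  have h7 : (∑ q ∈ Q, (mx S' q : ℝ)) + S'.card ≤ S.card := by exact_mod_cast ha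
  have h8 : (S'.card : ℝ) * (1 + μ / (8 * Yv)) = μ * S'.card / (8 * Yv) + S'.card := by ring
  rw [h8]
  linarith

end Pool.Agent.GWC
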