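import Pool.Agent.GWC.Two

/-! # The mean of `BB` -/

namespace Pool.Agent.GWC

open Finset

theorem mb_FF_nonneg (T2 : Finset ℕ) (M a b : ℕ) : 0 ≤ FF T2 M a b := by
  have h : 0 ≤ 2 * (M : ℝ) ^ 2 * cc T2 a b := by
    have h1 : 0 ≤ cc T2 a b := sum_nonneg fun r _ => by positivity
    positivity
  have := Real.add_one_le_exp (2 * (M : ℝ) ^ 2 * cc T2 a b)
  unfold FF
  linarith

theorem mb_Lam_nonneg {T1 T2 : Finset ℕ} {M R : ℕ} (h : Setup T1 T2 M R) : 0 ≤ Lam T2 M := by
  refine prod_nonneg fun r hr => ?_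
  have h1 : R < r := h.big r hr
  have h2 : 4 * M ≤ R := h.MR
  have h3 : (M : ℝ) ≤ r := by
    have : M ≤ r := by omega
    exact_mod_cast this
  have h4 : (0 : ℝ) < r := by
    have : 0 < r := by omega
    exact_mod_cast this
  have h5 : (M : ℝ) / r ≤ 1 := (div_le_one h4).2 h3
  exact inv_nonneg.2 (by linarith)

theorem mb_inner (s : Finset ℕ) (a b q : ℕ) (F : ℝ) (hF : 0 ≤ F) :
    ∑ c ∈ s, ∑ c' ∈ s, (if c = c' then 0 else
      if a % q = c then (if b % q = c' then F else 0) else 0) ≤ if a ≠ b then F else 0 := by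
  by_cases hab : a = b
  · subst hab
    have : ∑ c ∈ s, ∑ c' ∈ s, (if c = c' then 0 else
      if a % q = c then (if a % q = c' then F else 0) else 0) = 0 := by
      refine sum_eq_zero fun c _ => sum_eq_zero fun c' _ => ?_
      by_cases h1 : c = c'
      · simp [h1]
      · by_cases h2 : a % q = c
        · have h3 : a % q ≠ c' := fun h => h1 (h2.symm.trans h)
          simp [h1, h3]
        · simp [h2]
    rw [this]
    simp
  · rw [if_pos hab]
    calc ∑ c ∈ s, ∑ c' ∈ s, (if c = c' then 0 else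
          if a % q = c then (if b % q = c' then F else 0) else 0)
        ≤ ∑ c ∈ s, (if a % q = c then F else 0) := by
          refine sum_le_sum fun c _ => ?_
          by_cases h2 : a % q = c
          · simp only [h2, if_true]
            calc ∑ c' ∈ s, (if c = c' then 0 else (if b % q = c' then F else 0))
                ≤ ∑ c' ∈ s, (if b % q = c' then F else 0) := by
                  refine sum_le_sum fun c' _ => ?_
                  by_cases h1 : c = c'
                  · rw [if_pos h1]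
                    split_ifs <;> simp [hF]
                  · rw [if_neg h1]
              _ ≤ F := by
                  rw [sum_ite_eq]
                  split_ifs <;> simp [hF]
          · simp [h2]
      _ ≤ F := by
          rw [sum_ite_eq]
          split_ifs <;> simp [hF]

theorem mb_comb (P s : Finset ℕ) (q : ℕ) (F : ℕ → ℕ → ℝ) (hF : ∀ a b, 0 ≤ F a b) :
    ∑ c ∈ s, ∑ c' ∈ s, (if c = c' then 0 else
      ∑ p ∈ cls P q c ×ˢ cls P q c', F p.1 p.2)
      ≤ ∑ p ∈ (P ×ˢ P).filter (fun p => p.1 ≠ p.2), F p.1 p.2 := by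
  have h1 : ∀ c c', ∑ p ∈ cls P q c ×ˢ cls P q c', F p.1 p.2
      = ∑ a ∈ P, ∑ b ∈ P, (if a % q = c then (if b % q = c' then F a b else 0) else 0) := by
    intro c c'
    rw [sum_product]
    unfold cls
    rw [sum_filter]
    refine sum_congr rfl fun a _ => ?_
    by_cases ha : a % q = c
    · simp only [ha, if_true]
      rw [sum_filter]
    · simp [ha]
  have h2 : ∀ c c', (if c = c' then 0 else ∑ p ∈ cls P q c ×ˢ cls P q c', F p.1 p.2)
      = ∑ a ∈ P, ∑ b ∈ P, (if c = c' then 0 else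
        (if a % q = c then (if b % q = c' then F a b else 0) else 0)) := by
    intro c c'
    by_cases h : c = c'
    · simp [h]
    · simp only [h, if_false]
      exact h1 c c'
  simp only [h2]
  have h3 : ∑ c ∈ s, ∑ c' ∈ s, ∑ a ∈ P, ∑ b ∈ P, (if c = c' then 0 else
        (if a % q = c then (if b % q = c' then F a b else 0) else 0))
      = ∑ a ∈ P, ∑ b ∈ P, ∑ c ∈ s, ∑ c' ∈ s, (if c = c' then 0 else
        (if a % q = c then (if b % q = c' then F a b else 0) else 0)) := by
    calc _ = ∑ c ∈ s, ∑ a ∈ P, ∑ c' ∈ s, ∑ b ∈ P, (if c = c' then 0 else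
        (if a % q = c then (if b % q = c' then F a b else 0) else 0)) :=
          sum_congr rfl fun c _ => sum_comm
      _ = ∑ c ∈ s, ∑ a ∈ P, ∑ b ∈ P, ∑ c' ∈ s, (if c = c' then 0 else
        (if a % q = c then (if b % q = c' then F a b else 0) else 0)) :=
          sum_congr rfl fun c _ => sum_congr rfl fun a _ => sum_comm
      _ = ∑ a ∈ P, ∑ c ∈ s, ∑ b ∈ P, ∑ c' ∈ s, (if c = c' then 0 else
        (if a % q = c then (if b % q = c' then F a b else 0) else 0)) := sum_comm
      _ = _ := sum_congr rfl fun a _ => sum_comm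
  rw [h3, sum_filter, sum_product]
  refine sum_le_sum fun a _ => sum_le_sum fun b _ => ?_
  exact mb_inner s a b q (F a b) (hF a b)

theorem mb_pairs (T2 : Finset ℕ) (M : ℕ) (P : Finset ℕ) (η : ℝ) (hη : 0 ≤ η) :
    ∑ p ∈ (P ×ˢ P).filter (fun p => p.1 ≠ p.2), FF T2 M p.1 p.2
      ≤ η * (P.card : ℝ) ^ 2 + Phi T2 M η P := by
  classical
  rw [← sum_filter_add_sum_filter_not ((P ×ˢ P).filter (fun p => p.1 ≠ p.2))
    (fun p => η < FF T2 M p.1 p.2), add_comm]
  refine add_le_add ?_ ?_
  · calc _ ≤ ∑ p ∈ ((P ×ˢ P).filter (fun p => p.1 ≠ p.2)).filter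
            (fun p => ¬ η < FF T2 M p.1 p.2), η := by
          refine sum_le_sum fun p hp => ?_
          rw [mem_filter] at hp
          exact not_lt.1 hp.2
      _ = ((((P ×ˢ P).filter (fun p => p.1 ≠ p.2)).filter
            (fun p => ¬ η < FF T2 M p.1 p.2)).card : ℝ) * η := by
          rw [sum_const, nsmul_eq_mul]
      _ ≤ ((P ×ˢ P).card : ℝ) * η := by
          refine mul_le_mul_of_nonneg_right ?_ hη
          exact_mod_cast card_le_card ((filter_subset _ _).trans (filter_subset _ _))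
      _ = η * (P.card : ℝ) ^ 2 := by
          rw [card_product]
          push_cast
          ring
  · unfold Phi
    rw [filter_filter]

theorem momB1 {T1 T2 : Finset ℕ} {M R : ℕ} (h : Setup T1 T2 M R) (P : Finset ℕ) (q : ℕ)
    (hq : 0 < q) (η : ℝ) (hη : 0 ≤ η) :
    ∑ N ∈ range (WW T1 T2), (Tq T1 T2 M P q N - Gq M P q) ^ 2 ≤ WW T1 T2 *
      ((η * (P.card : ℝ) ^ 2 + Phi T2 M η P) / (M : ℝ) ^ 2 + q * Lam T2 M) := by
  classical
  set W : ℝ := (WW T1 T2 : ℝ) with hW
  have hW0 : 0 ≤ W := by positivity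
  set good := (range q).filter (fun c => (cls P q c).card ≤ M) with hgood
  have hG : (Gq M P q : ℝ) = good.card := by rw [hgood]; rfl
  have hMp : (0 : ℝ) < (M : ℝ) ^ 2 := by
    have : 0 < M := h.M1
    positivity
  have hgc : ∀ c ∈ good, (cls P q c).card ≤ M := fun c hc => (mem_filter.1 hc).2
  have hT : ∀ N, Tq T1 T2 M P q N = ∑ c ∈ good, wt T1 T2 M (cls P q c) N := by
    intro N
    unfold Tq
    rw [hgood, sum_filter]
    refine sum_congr rfl fun c _ => ?_
    unfold wt
    split_ifs <;> rfl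
  -- first moment
  have hE1 : ∑ N ∈ range (WW T1 T2), Tq T1 T2 M P q N = good.card * W := by
    simp only [hT]
    rw [sum_comm, sum_congr rfl fun c hc => sum_wt h (cls P q c) (hgc c hc), sum_const,
      nsmul_eq_mul]
  -- second moment
  have hE2 : ∑ N ∈ range (WW T1 T2), (Tq T1 T2 M P q N) ^ 2
      = ∑ c ∈ good, ∑ c' ∈ good, ∑ N ∈ range (WW T1 T2),
        wt T1 T2 M (cls P q c) N * wt T1 T2 M (cls P q c') N := by
    have : ∀ N, (Tq T1 T2 M P q N) ^ 2 = ∑ c ∈ good, ∑ c' ∈ good,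
        wt T1 T2 M (cls P q c) N * wt T1 T2 M (cls P q c') N := by
      intro N
      rw [hT, sq, sum_mul_sum]
    simp only [this]
    rw [sum_comm]
    exact sum_congr rfl fun c _ => sum_comm
  have hpair : ∀ c ∈ good, ∀ c' ∈ good, ∑ N ∈ range (WW T1 T2),
        wt T1 T2 M (cls P q c) N * wt T1 T2 M (cls P q c') N
      ≤ W * ((if c = c' then Lam T2 M else 0) + 1 + (if c = c' then 0 else
        ∑ p ∈ cls P q c ×ˢ cls P q c', FF T2 M p.1 p.2) / (M : ℝ) ^ 2) := by
    intro c hc c' hc'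
    by_cases hcc : c = c'
    · subst hcc
      simp only [if_true]
      have h1 := sum_wt_sq h (cls P q c) (hgc c hc)
      have h2 : ∑ N ∈ range (WW T1 T2),
          wt T1 T2 M (cls P q c) N * wt T1 T2 M (cls P q c) N
          = ∑ N ∈ range (WW T1 T2), (wt T1 T2 M (cls P q c) N) ^ 2 :=
        sum_congr rfl fun N _ => (sq _).symm
      rw [h2]
      refine h1.trans ?_
      rw [← hW, zero_div, add_zero, mul_add, mul_one]
      linarith
    · simp only [hcc, if_false, zero_add]
      refine (sum_wt_mul h _ _ (hgc c hc) (hgc c' hc')).trans ?_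
      rw [← hW]
      refine mul_le_mul_of_nonneg_left ?_ hW0
      have hcard : (((cls P q c ×ˢ cls P q c').card : ℕ) : ℝ) ≤ (M : ℝ) ^ 2 := by
        rw [card_product, sq]
        exact_mod_cast Nat.mul_le_mul (hgc c hc) (hgc c' hc')
      have h3 := exp_sum_le (cls P q c ×ˢ cls P q c') (fun p => 2 * cc T2 p.1 p.2)
        (fun p _ => by
          have h1 : 0 ≤ cc T2 p.1 p.2 := sum_nonneg fun r _ => by positivity
          positivity) ((M : ℝ) ^ 2) hMp hcard
      rw [← mul_sum] at h3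
      refine h3.trans (le_of_eq ?_)
      congr 2
      refine sum_congr rfl fun p _ => ?_
      unfold FF
      congr 2
      ring
  have hsum : ∑ N ∈ range (WW T1 T2), (Tq T1 T2 M P q N) ^ 2
      ≤ W * (good.card * Lam T2 M + (good.card : ℝ) ^ 2
        + (η * (P.card : ℝ) ^ 2 + Phi T2 M η P) / (M : ℝ) ^ 2) := by
    rw [hE2]
    refine (sum_le_sum fun c hc => sum_le_sum fun c' hc' => hpair c hc c' hc').trans ?_
    simp only [← mul_sum]
    refine mul_le_mul_of_nonneg_left ?_ hW0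
    simp only [sum_add_distrib]
    refine add_le_add (add_le_add ?_ ?_) ?_
    · have : ∀ c ∈ good, ∑ c' ∈ good, (if c = c' then Lam T2 M else 0) = Lam T2 M := by
        intro c hc
        rw [sum_ite_eq, if_pos hc]
      rw [sum_congr rfl this, sum_const, nsmul_eq_mul]
    · simp only [sum_const, nsmul_eq_mul, mul_one]
      rw [sq]
    · simp only [← sum_div]
      refine div_le_div_of_nonneg_right ?_ hMp.le
      exact (mb_comb P good q (FF T2 M) (mb_FF_nonneg T2 M)).trans (mb_pairs T2 M P η hη)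
  have hcardW : ∑ _N ∈ range (WW T1 T2), ((good.card : ℝ)) ^ 2 = W * (good.card : ℝ) ^ 2 := by
    rw [sum_const, card_range, nsmul_eq_mul]
  have hexp : ∑ N ∈ range (WW T1 T2), (Tq T1 T2 M P q N - Gq M P q) ^ 2
      = ∑ N ∈ range (WW T1 T2), (Tq T1 T2 M P q N) ^ 2 - W * (good.card : ℝ) ^ 2 := by
    have h1 : ∀ N, (Tq T1 T2 M P q N - Gq M P q) ^ 2
        = (Tq T1 T2 M P q N) ^ 2 - 2 * good.card * Tq T1 T2 M P q N + (good.card : ℝ) ^ 2 := by
      intro N
      rw [hG]
      ring
    simp only [h1]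
    rw [sum_add_distrib, sum_sub_distrib, ← mul_sum, hE1, hcardW]
    ring
  rw [hexp]
  have hgq : (good.card : ℝ) ≤ q := by
    have := card_le_card (filter_subset (fun c => (cls P q c).card ≤ M) (range q))
    rw [card_range] at this
    exact_mod_cast this
  have hL := mb_Lam_nonneg h
  have h5 : W * (good.card * Lam T2 M) ≤ W * (q * Lam T2 M) :=
    mul_le_mul_of_nonneg_left (mul_le_mul_of_nonneg_right hgq hL) hW0
  have h6 : W * (good.card * Lam T2 M + (good.card : ℝ) ^ 2
        + (η * (P.card : ℝ) ^ 2 + Phi T2 M η P) / (M : ℝ) ^ 2)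
      = W * (good.card * Lam T2 M) + W * (good.card : ℝ) ^ 2
        + W * ((η * (P.card : ℝ) ^ 2 + Phi T2 M η P) / (M : ℝ) ^ 2) := by ring
  have h7 : W * ((η * (P.card : ℝ) ^ 2 + Phi T2 M η P) / (M : ℝ) ^ 2 + q * Lam T2 M)
      = W * ((η * (P.card : ℝ) ^ 2 + Phi T2 M η P) / (M : ℝ) ^ 2) + W * (q * Lam T2 M) := by
    ring
  rw [h6] at hsum
  rw [h7]
  linarith

theorem momB {T1 T2 : Finset ℕ} {M R : ℕ} (h : Setup T1 T2 M R) (P Q : Finset ℕ) (Yv : ℕ)
    (hQ : ∀ q ∈ Q, 0 < q ∧ q ≤ Yv) (η : ℝ) (hη : 0 ≤ η) :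
    ∑ N ∈ range (WW T1 T2), BB T1 T2 M P Q N ≤ WW T1 T2 * (Q.card *
      ((η * (P.card : ℝ) ^ 2 + Phi T2 M η P) / (M : ℝ) ^ 2 + Yv * Lam T2 M)) := by
  have hL := mb_Lam_nonneg h
  unfold BB
  rw [sum_comm]
  calc _ ≤ ∑ q ∈ Q, (WW T1 T2 : ℝ) *
      ((η * (P.card : ℝ) ^ 2 + Phi T2 M η P) / (M : ℝ) ^ 2 + Yv * Lam T2 M) := by
        refine sum_le_sum fun q hq => (momB1 h P q (hQ q hq).1 η hη).trans ?_
        refine mul_le_mul_of_nonneg_left ?_ (by positivity)
        have h1 : (q : ℝ) ≤ Yv := by exact_mod_cast (hQ q hq).2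
        have h2 := mul_le_mul_of_nonneg_right h1 hL
        linarith
    _ = _ := by
        rw [sum_const, nsmul_eq_mul]
        ring

end Pool.Agent.GWC
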