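import Pool.Agent.GWC.Two

/-! # The mean of `DD` -/

namespace Pool.Agent.GWC

open Finset

lemma md_FF_nonneg (T2 : Finset ℕ) (M a b : ℕ) : 0 ≤ FF T2 M a b := by
  have h : 0 ≤ cc T2 a b := sum_nonneg fun r _ => by positivity
  have h1 : (0 : ℝ) ≤ 2 * (M : ℝ) ^ 2 * cc T2 a b := by positivity
  have h2 := Real.add_one_le_exp (2 * (M : ℝ) ^ 2 * cc T2 a b)
  unfold FF
  linarith

lemma md_FF_diag (T2 : Finset ℕ) (M a : ℕ) :
    FF T2 M a a ≤ Real.exp (2 * (M : ℝ) ^ 2 * ∑ r ∈ T2, (1 : ℝ) / r) := by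
  have h : cc T2 a a = ∑ r ∈ T2, (1 : ℝ) / r := by
    unfold cc
    rw [filter_true_of_mem (fun _ _ => rfl)]
  unfold FF
  rw [h]
  linarith [Real.exp_pos (2 * (M : ℝ) ^ 2 * ∑ r ∈ T2, (1 : ℝ) / r)]

/-- the number of moduli with `a ≡ x` -/
def md_cnt (Q : Finset ℕ) (a x : ℕ) : ℕ := (Q.filter (fun q => a % q = x % q)).card

lemma md_mem_cls {P : Finset ℕ} {q c x : ℕ} : x ∈ cls P q c ↔ x ∈ P ∧ x % q = c := by
  unfold cls
  exact mem_filter

/-- the sum over the survivors as a sum over `P` -/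
lemma md_DD_eq (T1 T2 : Finset ℕ) (M : ℕ) (P Q : Finset ℕ) (N : ℕ) :
    DD T1 T2 M P Q N = ∑ x ∈ P, (if ∀ r ∈ T1 ∪ T2, x % r ≠ N % r then
      (Wx T1 T2 M P Q x N - Q.card / sig T2) ^ 2 else 0) := by
  unfold DD surv
  rw [sum_filter]

/-- small clusters containing `x` -/
def md_G (M : ℕ) (P Q : Finset ℕ) (x : ℕ) : Finset ℕ :=
  Q.filter (fun q => (cls P q (x % q)).card ≤ M)

lemma md_Wx_eq (T1 T2 : Finset ℕ) (M : ℕ) (P Q : Finset ℕ) (x N : ℕ) :
    Wx T1 T2 M P Q x N = ∑ q ∈ md_G M P Q x, wt T1 T2 M (cls P q (x % q)) N := by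
  unfold Wx md_G
  rw [sum_filter]
  refine sum_congr rfl fun q _ => ?_
  unfold wt
  split_ifs <;> rfl

/-- the sum of `FF` over the pairs of clusters containing `x` -/
noncomputable def md_S (T2 : Finset ℕ) (M : ℕ) (P Q : Finset ℕ) (x : ℕ) : ℝ :=
  ∑ q ∈ md_G M P Q x, ∑ q' ∈ md_G M P Q x,
    ∑ p ∈ (cls P q (x % q) ×ˢ cls P q' (x % q')).erase (x, x), FF T2 M p.1 p.2

lemma md_pair {T1 T2 : Finset ℕ} {M R : ℕ} (h : Setup T1 T2 M R) (hσ : 0 < sig T2)
    (hσ1 : 0 < sig T1) (P Q : Finset ℕ)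
    (x : ℕ) (hx : x ∈ P) (q q' : ℕ) (hq : q ∈ md_G M P Q x) (hq' : q' ∈ md_G M P Q x) :
    ∑ N ∈ range (WW T1 T2), (if ∀ r ∈ T1 ∪ T2, x % r ≠ N % r then
        wt T1 T2 M (cls P q (x % q)) N * wt T1 T2 M (cls P q' (x % q')) N else 0)
      ≤ (if q = q' then WW T1 T2 * sig T1 * Lam T2 M else 0)
        + WW T1 T2 * sig T1 / sig T2 * (Real.exp (4 * (M : ℝ) ^ 2 / R) *
          (1 + (∑ p ∈ (cls P q (x % q) ×ˢ cls P q' (x % q')).erase (x, x), FF T2 M p.1 p.2) / (M : ℝ) ^ 2)) := by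
  classical
  have hM : (0 : ℝ) < M := by exact_mod_cast h.M1
  have hW : (0 : ℝ) ≤ WW T1 T2 := Nat.cast_nonneg _
  have hV : (cls P q (x % q)).card ≤ M := (mem_filter.1 hq).2
  have hV' : (cls P q' (x % q')).card ≤ M := (mem_filter.1 hq').2
  have hxV : x ∈ cls P q (x % q) := md_mem_cls.2 ⟨hx, rfl⟩
  have hxV' : x ∈ cls P q' (x % q') := md_mem_cls.2 ⟨hx, rfl⟩
  have hF : 0 ≤ ∑ p ∈ (cls P q (x % q) ×ˢ cls P q' (x % q')).erase (x, x), FF T2 M p.1 p.2 :=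
    sum_nonneg fun p _ => md_FF_nonneg _ _ _ _
  by_cases hqq : q = q'
  · subst hqq
    rw [if_pos rfl]
    have h1 := sum_wt_x_sq h (cls P q (x % q)) hV x hxV
    have h2 : ∑ N ∈ range (WW T1 T2), (if ∀ r ∈ T1 ∪ T2, x % r ≠ N % r then
        wt T1 T2 M (cls P q (x % q)) N * wt T1 T2 M (cls P q (x % q)) N else 0)
        = ∑ N ∈ range (WW T1 T2), (if ∀ r ∈ T1 ∪ T2, x % r ≠ N % r then
          (wt T1 T2 M (cls P q (x % q)) N) ^ 2 else 0) := by
      refine sum_congr rfl fun N _ => ?_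
      rw [sq]
    rw [h2]
    have h3 : 0 ≤ WW T1 T2 * sig T1 / sig T2 * (Real.exp (4 * (M : ℝ) ^ 2 / R) *
          (1 + (∑ p ∈ (cls P q (x % q) ×ˢ cls P q (x % q)).erase (x, x), FF T2 M p.1 p.2) / (M : ℝ) ^ 2)) := by
      have := Real.exp_pos (4 * (M : ℝ) ^ 2 / R)
      positivity
    linarith
  · rw [if_neg hqq, zero_add]
    have h1 := sum_wt_xx h _ _ hV hV' x hxV hxV'
    refine h1.trans ?_
    set I := (cls P q (x % q) ×ˢ cls P q' (x % q')).erase (x, x) with hI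
    have hIc : (I.card : ℝ) ≤ 2 * (M : ℝ) ^ 2 := by
      have h2 : I.card ≤ (cls P q (x % q)).card * (cls P q' (x % q')).card := by
        rw [← card_product]
        exact card_erase_le
      have h3 : I.card ≤ M * M := h2.trans (Nat.mul_le_mul hV hV')
      have h4 : (I.card : ℝ) ≤ (M : ℝ) * M := by exact_mod_cast h3
      nlinarith
    have h5 := exp_sum_le I (fun p => cc T2 p.1 p.2) (fun p _ => sum_nonneg fun r _ => by positivity)
      (2 * (M : ℝ) ^ 2) (by positivity) hIc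
    have h6 : Real.exp (∑ p ∈ I, cc T2 p.1 p.2) ≤ 1 + (∑ p ∈ I, FF T2 M p.1 p.2) / (M : ℝ) ^ 2 := by
      refine h5.trans ?_
      have h7 : (∑ p ∈ I, (Real.exp (2 * (M : ℝ) ^ 2 * cc T2 p.1 p.2) - 1)) = ∑ p ∈ I, FF T2 M p.1 p.2 := rfl
      rw [h7]
      have h8 : (∑ p ∈ I, FF T2 M p.1 p.2) / (2 * (M : ℝ) ^ 2) ≤ (∑ p ∈ I, FF T2 M p.1 p.2) / (M : ℝ) ^ 2 := by
        apply div_le_div_of_nonneg_left hF (by positivity)
        nlinarith [sq_nonneg (M : ℝ)]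
      linarith
    rw [Real.exp_add, div_eq_mul_inv, mul_comm (Real.exp (∑ p ∈ I, cc T2 p.1 p.2))]
    have h9 : 0 ≤ (WW T1 T2 : ℝ) * sig T1 * (sig T2)⁻¹ := by positivity
    have h10 := (Real.exp_pos (4 * (M : ℝ) ^ 2 / R)).le
    exact mul_le_mul_of_nonneg_left (mul_le_mul_of_nonneg_left h6 h10) h9

/-- the mean for one `x` -/
lemma md_one {T1 T2 : Finset ℕ} {M R : ℕ} (h : Setup T1 T2 M R) (hσ : 0 < sig T2) (hσ' : sig T2 ≤ 1)
    (hσ1 : 0 < sig T1) (P Q : Finset ℕ) (x : ℕ) (hx : x ∈ P) (hL : 0 ≤ Lam T2 M) :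
    ∑ N ∈ range (WW T1 T2), (if ∀ r ∈ T1 ∪ T2, x % r ≠ N % r then
      (Wx T1 T2 M P Q x N - Q.card / sig T2) ^ 2 else 0)
      ≤ WW T1 T2 * sig T1 / sig T2 * (Real.exp (4 * (M : ℝ) ^ 2 / R) *
          (((md_G M P Q x).card : ℝ) ^ 2 + md_S T2 M P Q x / (M : ℝ) ^ 2)
        + Q.card * Lam T2 M - 2 * Q.card * (md_G M P Q x).card + (Q.card : ℝ) ^ 2) := by
  classical
  set G := md_G M P Q x with hG
  have hGQ : (G.card : ℝ) ≤ Q.card := by exact_mod_cast card_le_card (filter_subset _ _)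
  have hW : (0 : ℝ) ≤ WW T1 T2 := Nat.cast_nonneg _
  set v : ℕ → ℕ → ℝ := fun q N => wt T1 T2 M (cls P q (x % q)) N with hv
  have h1 : ∀ N, (if ∀ r ∈ T1 ∪ T2, x % r ≠ N % r then
      (Wx T1 T2 M P Q x N - Q.card / sig T2) ^ 2 else 0)
      = ∑ q ∈ G, ∑ q' ∈ G, (if ∀ r ∈ T1 ∪ T2, x % r ≠ N % r then v q N * v q' N else 0)
        - 2 * (Q.card / sig T2) * ∑ q ∈ G, (if ∀ r ∈ T1 ∪ T2, x % r ≠ N % r then v q N else 0)
        + (Q.card / sig T2) ^ 2 * (if ∀ r ∈ T1 ∪ T2, x % r ≠ N % r then (1 : ℝ) else 0) := by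
    intro N
    rw [md_Wx_eq]
    split_ifs with hs
    · rw [← sum_mul_sum]
      ring
    · simp
  rw [sum_congr rfl fun N _ => h1 N, sum_add_distrib, sum_sub_distrib, ← mul_sum, ← mul_sum,
    sum_surv h x]
  have h2 : ∑ N ∈ range (WW T1 T2), ∑ q ∈ G, (if ∀ r ∈ T1 ∪ T2, x % r ≠ N % r then v q N else 0)
      = G.card * (WW T1 T2 * sig T1) := by
    rw [sum_comm, sum_congr rfl (g := fun _ => (WW T1 T2 : ℝ) * sig T1) ?_, sum_const, nsmul_eq_mul]
    intro q hq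
    exact sum_wt_x h _ (mem_filter.1 hq).2 x (md_mem_cls.2 ⟨hx, rfl⟩)
  have h3 : ∑ N ∈ range (WW T1 T2), ∑ q ∈ G, ∑ q' ∈ G,
      (if ∀ r ∈ T1 ∪ T2, x % r ≠ N % r then v q N * v q' N else 0)
      ≤ G.card * (WW T1 T2 * sig T1 * Lam T2 M)
        + WW T1 T2 * sig T1 / sig T2 * (Real.exp (4 * (M : ℝ) ^ 2 / R) *
          ((G.card : ℝ) ^ 2 + md_S T2 M P Q x / (M : ℝ) ^ 2)) := by
    rw [sum_comm]
    have e1 : ∀ q ∈ G, ∑ N ∈ range (WW T1 T2), ∑ q' ∈ G,
        (if ∀ r ∈ T1 ∪ T2, x % r ≠ N % r then v q N * v q' N else 0)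
        ≤ WW T1 T2 * sig T1 * Lam T2 M + WW T1 T2 * sig T1 / sig T2 * (Real.exp (4 * (M : ℝ) ^ 2 / R) *
          (G.card + (∑ q' ∈ G, ∑ p ∈ (cls P q (x % q) ×ˢ cls P q' (x % q')).erase (x, x), FF T2 M p.1 p.2)
            / (M : ℝ) ^ 2)) := by
      intro q hq
      rw [sum_comm]
      refine (sum_le_sum fun q' hq' => md_pair h hσ hσ1 P Q x hx q q' hq hq').trans (le_of_eq ?_)
      rw [sum_add_distrib, sum_ite_eq, if_pos hq, ← mul_sum, ← mul_sum, sum_add_distrib, sum_const,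
        nsmul_eq_mul, mul_one, sum_div]
    refine (sum_le_sum e1).trans (le_of_eq ?_)
    rw [sum_add_distrib, sum_const, nsmul_eq_mul, ← mul_sum, ← mul_sum, sum_add_distrib, sum_const,
      nsmul_eq_mul, ← sum_div]
    unfold md_S
    ring
  rw [h2]
  have h4 : (G.card : ℝ) * (WW T1 T2 * sig T1 * Lam T2 M)
      ≤ WW T1 T2 * sig T1 / sig T2 * (Q.card * Lam T2 M) := by
    have e1 : WW T1 T2 * sig T1 ≤ WW T1 T2 * sig T1 / sig T2 := by
      rw [le_div_iff₀ hσ]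
      exact mul_le_of_le_one_right (by positivity) hσ'
    calc (G.card : ℝ) * (WW T1 T2 * sig T1 * Lam T2 M)
        = (WW T1 T2 * sig T1) * (G.card * Lam T2 M) := by ring
      _ ≤ (WW T1 T2 * sig T1 / sig T2) * (Q.card * Lam T2 M) :=
        mul_le_mul e1 (mul_le_mul_of_nonneg_right hGQ hL) (by positivity) (by positivity)
  have h5 : (Q.card / sig T2 : ℝ) ^ 2 * (WW T1 T2 * sig T1 * sig T2)
      = WW T1 T2 * sig T1 / sig T2 * (Q.card : ℝ) ^ 2 := by
    field_simp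
  have h6 : 2 * (Q.card / sig T2 : ℝ) * (G.card * (WW T1 T2 * sig T1))
      = WW T1 T2 * sig T1 / sig T2 * (2 * Q.card * G.card) := by
    field_simp
  rw [h5, h6]
  have h7 : WW T1 T2 * sig T1 / sig T2 * (Real.exp (4 * (M : ℝ) ^ 2 / R) *
          ((G.card : ℝ) ^ 2 + md_S T2 M P Q x / (M : ℝ) ^ 2)
        + Q.card * Lam T2 M - 2 * Q.card * G.card + (Q.card : ℝ) ^ 2)
      = WW T1 T2 * sig T1 / sig T2 * (Q.card * Lam T2 M)
        + WW T1 T2 * sig T1 / sig T2 * (Real.exp (4 * (M : ℝ) ^ 2 / R) *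
          ((G.card : ℝ) ^ 2 + md_S T2 M P Q x / (M : ℝ) ^ 2))
        - WW T1 T2 * sig T1 / sig T2 * (2 * Q.card * G.card)
        + WW T1 T2 * sig T1 / sig T2 * (Q.card : ℝ) ^ 2 := by ring
  rw [h7]
  linarith

/-- large clusters are rare -/
lemma md_K2 (M : ℕ) (P Q : Finset ℕ) :
    (M : ℝ) * ∑ x ∈ P, ((Q.card : ℝ) - (md_G M P Q x).card) ≤ K2 P Q := by
  classical
  have h1 : K2 P Q = ∑ x ∈ P, ∑ q ∈ Q, (P.filter (fun b => x ≠ b ∧ x % q = b % q)).card := by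
    unfold K2
    rw [sum_comm]
    refine sum_congr rfl fun q _ => ?_
    rw [card_filter, sum_product]
    refine sum_congr rfl fun x _ => ?_
    rw [card_filter]
  rw [h1, mul_sum]
  push_cast
  refine sum_le_sum fun x hx => ?_
  have h2 : (Q.card : ℝ) - (md_G M P Q x).card = (Q.filter (fun q => ¬ (cls P q (x % q)).card ≤ M)).card := by
    have := card_filter_add_card_filter_not (s := Q) (fun q => (cls P q (x % q)).card ≤ M)
    have h3 : ((Q.filter (fun q => (cls P q (x % q)).card ≤ M)).card : ℝ)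
      + ((Q.filter (fun q => ¬ (cls P q (x % q)).card ≤ M)).card : ℝ) = Q.card := by exact_mod_cast this
    unfold md_G
    linarith
  rw [h2]
  have h4 : (M : ℝ) * ((Q.filter (fun q => ¬ (cls P q (x % q)).card ≤ M)).card : ℝ)
      = ∑ q ∈ Q.filter (fun q => ¬ (cls P q (x % q)).card ≤ M), (M : ℝ) := by
    rw [sum_const, nsmul_eq_mul, mul_comm]
  rw [h4]
  have h5 : ∑ q ∈ Q.filter (fun q => ¬ (cls P q (x % q)).card ≤ M), (M : ℝ)
      ≤ ∑ q ∈ Q.filter (fun q => ¬ (cls P q (x % q)).card ≤ M),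
        ((P.filter (fun b => x ≠ b ∧ x % q = b % q)).card : ℝ) := by
    refine sum_le_sum fun q hq => ?_
    have h6 := (mem_filter.1 hq).2
    have h7 : (cls P q (x % q)).card ≤ (P.filter (fun b => x ≠ b ∧ x % q = b % q)).card + 1 := by
      have h8 : cls P q (x % q) ⊆ insert x (P.filter (fun b => x ≠ b ∧ x % q = b % q)) := by
        intro b hb
        rw [md_mem_cls] at hb
        rw [mem_insert, mem_filter]
        by_cases hxb : b = x
        · left; exact hxb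
        · right; exact ⟨hb.1, fun h => hxb h.symm, hb.2.symm⟩
      exact (card_le_card h8).trans (card_insert_le _ _)
    exact_mod_cast (by omega : M ≤ (P.filter (fun b => x ≠ b ∧ x % q = b % q)).card)
  refine h5.trans ?_
  exact sum_le_sum_of_subset_of_nonneg (filter_subset _ _) fun _ _ _ => Nat.cast_nonneg _

/-- a double count -/
lemma md_count (P Q : Finset ℕ) (A : ℕ → ℕ → ℝ) (x : ℕ) :
    ∑ q ∈ Q, ∑ q' ∈ Q, ∑ p ∈ cls P q (x % q) ×ˢ cls P q' (x % q'), A p.1 p.2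
      = ∑ p ∈ P ×ˢ P, A p.1 p.2 * (md_cnt Q p.1 x * md_cnt Q p.2 x) := by
  classical
  have h1 : ∀ q q' : ℕ, ∑ p ∈ cls P q (x % q) ×ˢ cls P q' (x % q'), A p.1 p.2
      = ∑ p ∈ P ×ˢ P, A p.1 p.2 * ((if p.1 % q = x % q then 1 else 0) * (if p.2 % q' = x % q' then 1 else 0)) := by
    intro q q'
    have h2 : cls P q (x % q) ×ˢ cls P q' (x % q')
        = (P ×ˢ P).filter (fun p => p.1 % q = x % q ∧ p.2 % q' = x % q') := by
      ext p
      rw [mem_product, md_mem_cls, md_mem_cls, mem_filter, mem_product]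
      tauto
    rw [h2, sum_filter]
    refine sum_congr rfl fun p _ => ?_
    by_cases ha : p.1 % q = x % q
    · by_cases hb : p.2 % q' = x % q'
      · simp [ha, hb]
      · simp [ha, hb]
    · simp [ha]
  simp only [h1]
  have h3 : ∀ q ∈ Q, ∑ q' ∈ Q, ∑ p ∈ P ×ˢ P, A p.1 p.2 *
      ((if p.1 % q = x % q then (1 : ℝ) else 0) * (if p.2 % q' = x % q' then 1 else 0))
      = ∑ p ∈ P ×ˢ P, A p.1 p.2 * ((if p.1 % q = x % q then 1 else 0) * md_cnt Q p.2 x) := by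
    intro q _
    rw [sum_comm]
    refine sum_congr rfl fun p _ => ?_
    rw [← mul_sum, ← mul_sum, md_cnt, card_filter]
    push_cast
    rfl
  have h4 : ∀ y : ℕ, (md_cnt Q y x : ℝ) = ∑ q ∈ Q, (if y % q = x % q then (1 : ℝ) else 0) := by
    intro y
    rw [md_cnt, card_filter]
    push_cast
    rfl
  rw [sum_congr rfl h3, sum_comm]
  refine sum_congr rfl fun p _ => ?_
  rw [← mul_sum, ← sum_mul, ← h4]

lemma md_cnt_le (P Q : Finset ℕ) (w : ℕ)
    (hw : ∀ a ∈ P, ∀ b ∈ P, a ≠ b → (Q.filter (fun q => a % q = b % q)).card ≤ w)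
    (a x : ℕ) (ha : a ∈ P) (hx : x ∈ P) :
    (md_cnt Q a x : ℝ) ≤ (if a = x then (Q.card : ℝ) else w) := by
  split_ifs with h
  · exact_mod_cast card_le_card (filter_subset _ _)
  · exact_mod_cast hw a ha x hx h

/-- the number of triples -/
lemma md_triples (P Q : Finset ℕ) (w : ℕ)
    (hw : ∀ a ∈ P, ∀ b ∈ P, a ≠ b → (Q.filter (fun q => a % q = b % q)).card ≤ w)
    (a b : ℕ) (ha : a ∈ P) (hb : b ∈ P) (hab : a ≠ b) :
    ∑ x ∈ P, ((md_cnt Q a x : ℝ) * md_cnt Q b x) ≤ 2 * w * Q.card + (w : ℝ) ^ 2 * P.card := by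
  classical
  have h1 : ∀ x ∈ P, ((md_cnt Q a x : ℝ) * md_cnt Q b x)
      ≤ (if a = x then (w : ℝ) * Q.card else 0) + (if b = x then (w : ℝ) * Q.card else 0) + (w : ℝ) ^ 2 := by
    intro x hx
    have h2 := md_cnt_le P Q w hw a x ha hx
    have h3 := md_cnt_le P Q w hw b x hb hx
    have h4 : ((md_cnt Q a x : ℝ) * md_cnt Q b x)
        ≤ (if a = x then (Q.card : ℝ) else w) * (if b = x then (Q.card : ℝ) else w) := by
      apply mul_le_mul h2 h3 (Nat.cast_nonneg _)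
      split_ifs <;> positivity
    refine h4.trans ?_
    by_cases hax : a = x
    · have hbx : ¬ b = x := fun h => hab (hax.trans h.symm)
      rw [if_pos hax, if_neg hbx, if_pos hax, if_neg hbx]
      nlinarith [sq_nonneg (w : ℝ)]
    · rw [if_neg hax, if_neg hax]
      by_cases hbx : b = x
      · rw [if_pos hbx, if_pos hbx]
        nlinarith [sq_nonneg (w : ℝ)]
      · rw [if_neg hbx, if_neg hbx]
        nlinarith [sq_nonneg (w : ℝ)]
  refine (sum_le_sum h1).trans ?_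
  rw [sum_add_distrib, sum_add_distrib, sum_ite_eq, sum_ite_eq, if_pos ha, if_pos hb, sum_const,
    nsmul_eq_mul]
  apply le_of_eq
  ring

lemma md_S_le (T2 : Finset ℕ) (M : ℕ) (P Q : Finset ℕ) (w : ℕ)
    (hw : ∀ a ∈ P, ∀ b ∈ P, a ≠ b → (Q.filter (fun q => a % q = b % q)).card ≤ w)
    (η : ℝ) (hη : 0 ≤ η) :
    ∑ x ∈ P, md_S T2 M P Q x ≤ (M : ℝ) ^ 2 * (η * P.card * (Q.card : ℝ) ^ 2)
      + (Phi T2 M η P * (2 * w * Q.card + w ^ 2 * P.card)
        + Real.exp (2 * (M : ℝ) ^ 2 * ∑ r ∈ T2, (1 : ℝ) / r) * w ^ 2 * (P.card : ℝ) ^ 2) := by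
  classical
  set A : ℕ → ℕ → ℝ := fun a b => if a ≠ b ∧ η < FF T2 M a b then FF T2 M a b else 0 with hA
  set B : ℕ → ℕ → ℕ → ℝ := fun x a b => if a = b ∧ a ≠ x then FF T2 M a b else 0 with hB
  have hA0 : ∀ a b, 0 ≤ A a b := by
    intro a b
    simp only [hA]
    split_ifs
    · exact md_FF_nonneg _ _ _ _
    · exact le_rfl
  have hB0 : ∀ x a b, 0 ≤ B x a b := by
    intro x a b
    simp only [hB]
    split_ifs
    · exact md_FF_nonneg _ _ _ _
    · exact le_rfl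
  -- one x
  have h1 : ∀ x ∈ P, md_S T2 M P Q x ≤ (Q.card : ℝ) ^ 2 * ((M : ℝ) ^ 2 * η)
      + ∑ q ∈ Q, ∑ q' ∈ Q, ∑ p ∈ cls P q (x % q) ×ˢ cls P q' (x % q'), A p.1 p.2
      + ∑ q ∈ Q, ∑ q' ∈ Q, ∑ p ∈ cls P q (x % q) ×ˢ cls P q' (x % q'), B x p.1 p.2 := by
    intro x hx
    have e1 : ∀ q ∈ md_G M P Q x, ∀ q' ∈ md_G M P Q x,
        ∑ p ∈ (cls P q (x % q) ×ˢ cls P q' (x % q')).erase (x, x), FF T2 M p.1 p.2
        ≤ (M : ℝ) ^ 2 * η + ∑ p ∈ cls P q (x % q) ×ˢ cls P q' (x % q'), A p.1 p.2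
          + ∑ p ∈ cls P q (x % q) ×ˢ cls P q' (x % q'), B x p.1 p.2 := by
      intro q hq q' hq'
      have hV : (cls P q (x % q)).card ≤ M := (mem_filter.1 hq).2
      have hV' : (cls P q' (x % q')).card ≤ M := (mem_filter.1 hq').2
      have e2 : ∀ p ∈ (cls P q (x % q) ×ˢ cls P q' (x % q')).erase (x, x),
          FF T2 M p.1 p.2 ≤ η + (A p.1 p.2 + B x p.1 p.2) := by
        intro p hp
        rw [mem_erase] at hp
        by_cases hab : p.1 = p.2
        · have hne : p.1 ≠ x := by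
            intro h
            apply hp.1
            apply Prod.ext
            · exact h
            · exact hab ▸ h
          have : B x p.1 p.2 = FF T2 M p.1 p.2 := by
            simp only [hB]
            rw [if_pos ⟨hab, hne⟩]
          have h5 := hA0 p.1 p.2
          linarith
        · by_cases hlt : η < FF T2 M p.1 p.2
          · have : A p.1 p.2 = FF T2 M p.1 p.2 := by
              simp only [hA]
              rw [if_pos ⟨hab, hlt⟩]
            have h5 := hB0 x p.1 p.2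
            linarith
          · have h5 := hB0 x p.1 p.2
            have h6 := hA0 p.1 p.2
            linarith [not_lt.1 hlt]
      refine (sum_le_sum e2).trans ?_
      rw [sum_add_distrib, sum_const, nsmul_eq_mul, sum_add_distrib]
      have e3 : (((cls P q (x % q) ×ˢ cls P q' (x % q')).erase (x, x)).card : ℝ) * η ≤ (M : ℝ) ^ 2 * η := by
        apply mul_le_mul_of_nonneg_right _ hη
        have h2 : ((cls P q (x % q) ×ˢ cls P q' (x % q')).erase (x, x)).card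
            ≤ (cls P q (x % q)).card * (cls P q' (x % q')).card := by
          rw [← card_product]
          exact card_erase_le
        have h3 := h2.trans (Nat.mul_le_mul hV hV')
        have h4 : (((cls P q (x % q) ×ˢ cls P q' (x % q')).erase (x, x)).card : ℝ) ≤ (M : ℝ) * M := by
          exact_mod_cast h3
        rw [sq]
        exact h4
      have e4 : ∑ p ∈ (cls P q (x % q) ×ˢ cls P q' (x % q')).erase (x, x), A p.1 p.2
          ≤ ∑ p ∈ cls P q (x % q) ×ˢ cls P q' (x % q'), A p.1 p.2 :=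
        sum_le_sum_of_subset_of_nonneg (erase_subset _ _) fun p _ _ => hA0 _ _
      have e5 : ∑ p ∈ (cls P q (x % q) ×ˢ cls P q' (x % q')).erase (x, x), B x p.1 p.2
          ≤ ∑ p ∈ cls P q (x % q) ×ˢ cls P q' (x % q'), B x p.1 p.2 :=
        sum_le_sum_of_subset_of_nonneg (erase_subset _ _) fun p _ _ => hB0 _ _ _
      linarith
    have hGQ : md_G M P Q x ⊆ Q := filter_subset _ _
    have hGc : ((md_G M P Q x).card : ℝ) ≤ Q.card := by exact_mod_cast card_le_card hGQ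
    unfold md_S
    refine (sum_le_sum fun q hq => sum_le_sum fun q' hq' => e1 q hq q' hq').trans ?_
    simp only [sum_add_distrib, sum_const, nsmul_eq_mul]
    have e6 : ∀ F : ℕ → ℕ → ℝ, (∀ q q', 0 ≤ F q q') →
        ∑ q ∈ md_G M P Q x, ∑ q' ∈ md_G M P Q x, F q q' ≤ ∑ q ∈ Q, ∑ q' ∈ Q, F q q' := by
      intro F hF
      refine (sum_le_sum fun q _ => sum_le_sum_of_subset_of_nonneg hGQ fun q' _ _ => hF q q').trans ?_
      exact sum_le_sum_of_subset_of_nonneg hGQ fun q _ _ => sum_nonneg fun q' _ => hF q q'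
    have e7 := e6 (fun q q' => ∑ p ∈ cls P q (x % q) ×ˢ cls P q' (x % q'), A p.1 p.2)
      fun q q' => sum_nonneg fun p _ => hA0 _ _
    have e8 := e6 (fun q q' => ∑ p ∈ cls P q (x % q) ×ˢ cls P q' (x % q'), B x p.1 p.2)
      fun q q' => sum_nonneg fun p _ => hB0 _ _ _
    have e9 : ((md_G M P Q x).card : ℝ) * (((md_G M P Q x).card : ℝ) * ((M : ℝ) ^ 2 * η))
        ≤ (Q.card : ℝ) ^ 2 * ((M : ℝ) ^ 2 * η) := by
      have h0 : (0 : ℝ) ≤ (M : ℝ) ^ 2 * η := by positivity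
      have h1 : ((md_G M P Q x).card : ℝ) * (md_G M P Q x).card ≤ (Q.card : ℝ) * Q.card :=
        mul_le_mul hGc hGc (Nat.cast_nonneg _) (Nat.cast_nonneg _)
      calc ((md_G M P Q x).card : ℝ) * (((md_G M P Q x).card : ℝ) * ((M : ℝ) ^ 2 * η))
          = ((md_G M P Q x).card : ℝ) * (md_G M P Q x).card * ((M : ℝ) ^ 2 * η) := by ring
        _ ≤ (Q.card : ℝ) * Q.card * ((M : ℝ) ^ 2 * η) := mul_le_mul_of_nonneg_right h1 h0
        _ = (Q.card : ℝ) ^ 2 * ((M : ℝ) ^ 2 * η) := by ring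
    linarith
  refine (sum_le_sum h1).trans ?_
  rw [sum_add_distrib, sum_add_distrib, sum_const, nsmul_eq_mul]
  have h2 : ∑ x ∈ P, ∑ q ∈ Q, ∑ q' ∈ Q, ∑ p ∈ cls P q (x % q) ×ˢ cls P q' (x % q'), A p.1 p.2
      ≤ Phi T2 M η P * (2 * w * Q.card + w ^ 2 * P.card) := by
    have e1 : ∀ x ∈ P, ∑ q ∈ Q, ∑ q' ∈ Q, ∑ p ∈ cls P q (x % q) ×ˢ cls P q' (x % q'), A p.1 p.2
        = ∑ p ∈ P ×ˢ P, A p.1 p.2 * (md_cnt Q p.1 x * md_cnt Q p.2 x) := fun x _ => md_count P Q A x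
    rw [sum_congr rfl e1, sum_comm]
    have e2 : Phi T2 M η P * (2 * w * Q.card + w ^ 2 * P.card)
        = ∑ p ∈ P ×ˢ P, A p.1 p.2 * (2 * w * Q.card + w ^ 2 * P.card) := by
      rw [← sum_mul]
      congr 1
      unfold Phi
      rw [sum_filter]
    rw [e2]
    refine sum_le_sum fun p hp => ?_
    rw [← mul_sum]
    by_cases hab : p.1 = p.2
    · have : A p.1 p.2 = 0 := by
        simp only [hA]
        rw [if_neg (fun h => h.1 hab)]
      rw [this, zero_mul, zero_mul]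
    · rw [mem_product] at hp
      exact mul_le_mul_of_nonneg_left (md_triples P Q w hw p.1 p.2 hp.1 hp.2 hab) (hA0 _ _)
  have h3 : ∑ x ∈ P, ∑ q ∈ Q, ∑ q' ∈ Q, ∑ p ∈ cls P q (x % q) ×ˢ cls P q' (x % q'), B x p.1 p.2
      ≤ Real.exp (2 * (M : ℝ) ^ 2 * ∑ r ∈ T2, (1 : ℝ) / r) * w ^ 2 * (P.card : ℝ) ^ 2 := by
    set X := Real.exp (2 * (M : ℝ) ^ 2 * ∑ r ∈ T2, (1 : ℝ) / r) with hX
    have hX0 : 0 < X := Real.exp_pos _
    have e1 : ∀ x ∈ P, ∑ q ∈ Q, ∑ q' ∈ Q, ∑ p ∈ cls P q (x % q) ×ˢ cls P q' (x % q'), B x p.1 p.2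
        ≤ P.card * (X * w ^ 2) := by
      intro x hx
      rw [md_count P Q (B x) x, sum_product]
      have e2 : ∀ a ∈ P, ∑ b ∈ P, B x a b * (md_cnt Q a x * md_cnt Q b x) ≤ X * w ^ 2 := by
        intro a ha
        rw [sum_eq_single a]
        · by_cases hax : a = x
          · have hBa : B x a a = 0 := by simp [hB, hax]
            rw [hBa, zero_mul]
            positivity
          · have hBa : B x a a = FF T2 M a a := by simp [hB, hax]
            rw [hBa]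
            have h4 := md_cnt_le P Q w hw a x ha hx
            rw [if_neg hax] at h4
            apply mul_le_mul (md_FF_diag T2 M a) _ (by positivity) hX0.le
            rw [sq]
            exact mul_le_mul h4 h4 (Nat.cast_nonneg _) (Nat.cast_nonneg _)
        · intro b _ hb
          simp only [hB]
          rw [if_neg (fun h => hb h.1.symm), zero_mul]
        · intro h
          exact absurd ha h
      refine (sum_le_sum e2).trans (le_of_eq ?_)
      rw [sum_const, nsmul_eq_mul]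
    refine (sum_le_sum e1).trans (le_of_eq ?_)
    rw [sum_const, nsmul_eq_mul]
    ring
  have h4 : (P.card : ℝ) * ((Q.card : ℝ) ^ 2 * ((M : ℝ) ^ 2 * η)) = (M : ℝ) ^ 2 * (η * P.card * (Q.card : ℝ) ^ 2) := by
    ring
  rw [h4]
  linarith

theorem momD {T1 T2 : Finset ℕ} {M R : ℕ} (h : Setup T1 T2 M R) (P Q : Finset ℕ) (w : ℕ)
    (hw : ∀ a ∈ P, ∀ b ∈ P, a ≠ b → (Q.filter (fun q => a % q = b % q)).card ≤ w)
    (η : ℝ) (hη : 0 ≤ η) :
    ∑ N ∈ range (WW T1 T2), DD T1 T2 M P Q N ≤ WW T1 T2 * sig T1 / sig T2 *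
      (P.card * (Q.card : ℝ) ^ 2 * (Real.exp (4 * (M : ℝ) ^ 2 / R) - 1)
        + P.card * Q.card * Lam T2 M + Q.card * K2 P Q / M
        + Real.exp (4 * (M : ℝ) ^ 2 / R) * (η * P.card * (Q.card : ℝ) ^ 2
          + (Phi T2 M η P * (2 * w * Q.card + w ^ 2 * P.card)
            + Real.exp (2 * (M : ℝ) ^ 2 * ∑ r ∈ T2, (1 : ℝ) / r) * w ^ 2 * (P.card : ℝ) ^ 2)
              / (M : ℝ) ^ 2)) := by
  classical
  have hM : (0 : ℝ) < M := by exact_mod_cast h.M1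
  have hprime : ∀ (T : Finset ℕ), (∀ r ∈ T, r.Prime) → 0 < sig T ∧ sig T ≤ 1 := by
    intro T hT
    have h1 : ∀ r ∈ T, (0 : ℝ) < 1 - 1 / (r : ℝ) ∧ 1 - 1 / (r : ℝ) ≤ 1 := by
      intro r hr
      have h : (2 : ℝ) ≤ r := by exact_mod_cast (hT r hr).two_le
      have h1 : 1 / (r : ℝ) ≤ 1 / 2 := one_div_le_one_div_of_le (by norm_num) h
      have h2 : (0 : ℝ) ≤ 1 / (r : ℝ) := by positivity
      constructor <;> linarith
    exact ⟨prod_pos fun r hr => (h1 r hr).1, prod_le_one (fun r hr => (h1 r hr).1.le) fun r hr => (h1 r hr).2⟩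
  obtain ⟨hσ1, -⟩ := hprime T1 h.p1
  obtain ⟨hσ2, hσ2'⟩ := hprime T2 h.p2
  have hL : 0 ≤ Lam T2 M := by
    apply prod_nonneg
    intro r hr
    have h1 : 4 * M < r := lt_of_le_of_lt h.MR (h.big r hr)
    have h2 : (M : ℝ) ≤ r := by exact_mod_cast (by omega : M ≤ r)
    have h3 : (0 : ℝ) < r := by exact_mod_cast (h.p2 r hr).pos
    have h4 : (M : ℝ) / r ≤ 1 := (div_le_one h3).2 h2
    exact inv_nonneg.2 (by linarith)
  have hW : (0 : ℝ) ≤ WW T1 T2 := Nat.cast_nonneg _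
  set E := Real.exp (4 * (M : ℝ) ^ 2 / R) with hE
  have hE1 : 1 ≤ E := Real.one_le_exp (by positivity)
  rw [sum_congr rfl fun N _ => md_DD_eq T1 T2 M P Q N, sum_comm]
  refine (sum_le_sum fun x hx => md_one h hσ2 hσ2' hσ1 P Q x hx hL).trans ?_
  rw [← mul_sum]
  apply mul_le_mul_of_nonneg_left _ (by positivity)
  have h1 : ∀ x ∈ P, E * (((md_G M P Q x).card : ℝ) ^ 2 + md_S T2 M P Q x / (M : ℝ) ^ 2)
        + Q.card * Lam T2 M - 2 * Q.card * (md_G M P Q x).card + (Q.card : ℝ) ^ 2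
      ≤ (Q.card : ℝ) ^ 2 * (E - 1) + Q.card * Lam T2 M
        + (Q.card : ℝ) * ((Q.card : ℝ) - (md_G M P Q x).card) + E * (md_S T2 M P Q x / (M : ℝ) ^ 2) := by
    intro x _
    have hg : ((md_G M P Q x).card : ℝ) ≤ Q.card := by exact_mod_cast card_le_card (filter_subset _ _)
    have hg0 : (0 : ℝ) ≤ (md_G M P Q x).card := Nat.cast_nonneg _
    have e1 : (E - 1) * ((md_G M P Q x).card : ℝ) ^ 2 ≤ (E - 1) * (Q.card : ℝ) ^ 2 :=
      mul_le_mul_of_nonneg_left (pow_le_pow_left₀ hg0 hg 2) (by linarith)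
    have e2 : ((Q.card : ℝ) - (md_G M P Q x).card) ^ 2 ≤ Q.card * ((Q.card : ℝ) - (md_G M P Q x).card) := by
      rw [sq]
      apply mul_le_mul_of_nonneg_right _ (by linarith)
      linarith
    nlinarith
  refine (sum_le_sum h1).trans ?_
  rw [sum_add_distrib, sum_add_distrib, sum_add_distrib, sum_const, sum_const, nsmul_eq_mul,
    nsmul_eq_mul, ← mul_sum, ← mul_sum, ← sum_div]
  have h2 : ∑ x ∈ P, ((Q.card : ℝ) - (md_G M P Q x).card) ≤ K2 P Q / M := by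
    rw [le_div_iff₀ hM, mul_comm]
    exact md_K2 M P Q
  have h3 : (Q.card : ℝ) * ∑ x ∈ P, ((Q.card : ℝ) - (md_G M P Q x).card) ≤ Q.card * K2 P Q / M := by
    have := mul_le_mul_of_nonneg_left h2 (Nat.cast_nonneg (α := ℝ) Q.card)
    rwa [← mul_div_assoc] at this
  have h4 := md_S_le T2 M P Q w hw η hη
  have h5 : (∑ x ∈ P, md_S T2 M P Q x) / (M : ℝ) ^ 2 ≤ η * P.card * (Q.card : ℝ) ^ 2
      + (Phi T2 M η P * (2 * w * Q.card + w ^ 2 * P.card)
        + Real.exp (2 * (M : ℝ) ^ 2 * ∑ r ∈ T2, (1 : ℝ) / r) * w ^ 2 * (P.card : ℝ) ^ 2) / (M : ℝ) ^ 2 := by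
    rw [div_le_iff₀ (by positivity), add_mul, div_mul_cancel₀ _ (by positivity)]
    linarith
  have h6 := mul_le_mul_of_nonneg_left h5 (by linarith : (0 : ℝ) ≤ E)
  linarith

end Pool.Agent.GWC
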