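import Pool.Agent.GWC.Defs

/-! # Counting the off-diagonal pairs for the mean of `DD` -/

namespace Pool.Agent.GWC

open Finset

theorem md_FF_nonneg (T2 : Finset ℕ) (M a b : ℕ) : 0 ≤ FF T2 M a b := by
  have h : 0 ≤ 2 * (M : ℝ) ^ 2 * cc T2 a b := by
    have h1 : 0 ≤ cc T2 a b := sum_nonneg fun r _ => by positivity
    positivity
  have := Real.add_one_le_exp (2 * (M : ℝ) ^ 2 * cc T2 a b)
  unfold FF
  linarith

theorem md_FF_self (T2 : Finset ℕ) (M a : ℕ) :
    FF T2 M a a ≤ Real.exp (2 * (M : ℝ) ^ 2 * ∑ r ∈ T2, (1 : ℝ) / r) := by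
  have h : cc T2 a a = ∑ r ∈ T2, (1 : ℝ) / r := by
    unfold cc
    rw [filter_true_of_mem (fun _ _ => rfl)]
  unfold FF
  rw [h]
  linarith

/-- number of `q ∈ Q` with `a ≡ x` modulo `q` -/
def nq (Q : Finset ℕ) (a x : ℕ) : ℕ := (Q.filter (fun q => a % q = x % q)).card

theorem nq_le (Q : Finset ℕ) (a x : ℕ) : nq Q a x ≤ Q.card := card_filter_le _ _

theorem nq_sum (Q : Finset ℕ) (a x : ℕ) :
    (nq Q a x : ℝ) = ∑ q ∈ Q, (if a % q = x % q then (1 : ℝ) else 0) := by
  unfold nq
  rw [card_eq_sum_ones, Nat.cast_sum, sum_filter]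
  simp

/-- the triples for one pair `a ≠ b` -/
theorem md_triples (P Q : Finset ℕ) (w a b : ℕ) (ha : a ∈ P) (hb : b ∈ P)
    (hab : a ≠ b) (hw : ∀ a ∈ P, ∀ b ∈ P, a ≠ b → (Q.filter (fun q => a % q = b % q)).card ≤ w) :
    ∑ x ∈ P, (nq Q a x : ℝ) * nq Q b x ≤ 2 * w * Q.card + (w : ℝ) ^ 2 * P.card := by
  classical
  have h1 : ∀ x ∈ P, (nq Q a x : ℝ) * nq Q b x
      ≤ (if x = a then (w : ℝ) * Q.card else 0) + (if x = b then (w : ℝ) * Q.card else 0)
        + (w : ℝ) ^ 2 := by
    intro x hx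
    have hQ : ∀ c, (nq Q c x : ℝ) ≤ Q.card := fun c => by exact_mod_cast nq_le Q c x
    have hn : ∀ c, (0 : ℝ) ≤ nq Q c x := fun c => Nat.cast_nonneg _
    by_cases hxa : x = a
    · have h2 : (nq Q b x : ℝ) ≤ w := by
        exact_mod_cast hw b hb x hx (fun h => hab (hxa ▸ h.symm))
      rw [if_pos hxa]
      have h3 : (nq Q a x : ℝ) * nq Q b x ≤ Q.card * w := mul_le_mul (hQ a) h2 (hn b) (by positivity)
      have h4 : (0 : ℝ) ≤ (if x = b then (w : ℝ) * Q.card else 0) := by split_ifs <;> positivity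
      nlinarith [sq_nonneg (w : ℝ)]
    · have h2 : (nq Q a x : ℝ) ≤ w := by
        exact_mod_cast hw a ha x hx (fun h => hxa h.symm)
      rw [if_neg hxa]
      by_cases hxb : x = b
      · rw [if_pos hxb]
        have h3 : (nq Q a x : ℝ) * nq Q b x ≤ w * Q.card :=
          mul_le_mul h2 (hQ b) (hn b) (by positivity)
        nlinarith [sq_nonneg (w : ℝ)]
      · rw [if_neg hxb]
        have h3 : (nq Q b x : ℝ) ≤ w := by
          exact_mod_cast hw b hb x hx (fun h => hxb h.symm)
        have h4 : (nq Q a x : ℝ) * nq Q b x ≤ w * w := mul_le_mul h2 h3 (hn b) (by positivity)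
        nlinarith
  refine (sum_le_sum h1).trans ?_
  rw [sum_add_distrib, sum_add_distrib, sum_ite_eq', sum_ite_eq', if_pos ha, if_pos hb, sum_const,
    nsmul_eq_mul]
  linarith

theorem momD_pairs (T2 P Q : Finset ℕ) (M w : ℕ)
    (hw : ∀ a ∈ P, ∀ b ∈ P, a ≠ b → (Q.filter (fun q => a % q = b % q)).card ≤ w)
    (η : ℝ) (hη : 0 ≤ η) :
    ∑ x ∈ P, ∑ q ∈ Q.filter (fun q => (cls P q (x % q)).card ≤ M),
      ∑ q' ∈ Q.filter (fun q => (cls P q (x % q)).card ≤ M), (if q = q' then 0 else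
        ∑ p ∈ (cls P q (x % q) ×ˢ cls P q' (x % q')).erase (x, x), FF T2 M p.1 p.2)
      ≤ η * (M : ℝ) ^ 2 * P.card * (Q.card : ℝ) ^ 2
        + (Phi T2 M η P * (2 * w * Q.card + (w : ℝ) ^ 2 * P.card)
          + Real.exp (2 * (M : ℝ) ^ 2 * ∑ r ∈ T2, (1 : ℝ) / r) * (w : ℝ) ^ 2 * (P.card : ℝ) ^ 2) := by
  classical
  set E : ℝ := Real.exp (2 * (M : ℝ) ^ 2 * ∑ r ∈ T2, (1 : ℝ) / r) with hE
  have hE0 : 0 < E := Real.exp_pos _
  set BP := (P ×ˢ P).filter (fun p => p.1 ≠ p.2 ∧ η < FF T2 M p.1 p.2) with hBP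
  -- bound for one triple
  have h1 : ∀ x ∈ P, ∀ q ∈ Q.filter (fun q => (cls P q (x % q)).card ≤ M),
      ∀ q' ∈ Q.filter (fun q => (cls P q (x % q)).card ≤ M), (if q = q' then 0 else
        ∑ p ∈ (cls P q (x % q) ×ˢ cls P q' (x % q')).erase (x, x), FF T2 M p.1 p.2)
      ≤ η * (M : ℝ) ^ 2
        + ∑ p ∈ BP, FF T2 M p.1 p.2 * ((if p.1 % q = x % q then (1 : ℝ) else 0)
            * (if p.2 % q' = x % q' then (1 : ℝ) else 0))
        + ∑ a ∈ P.erase x, E * ((if a % q = x % q then (1 : ℝ) else 0)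
            * (if a % q' = x % q' then (1 : ℝ) else 0)) := by
    intro x hx q hq q' hq'
    rw [mem_filter] at hq hq'
    have t1 : 0 ≤ ∑ p ∈ BP, FF T2 M p.1 p.2 * ((if p.1 % q = x % q then (1 : ℝ) else 0)
            * (if p.2 % q' = x % q' then (1 : ℝ) else 0)) := by
      refine sum_nonneg fun p _ => ?_
      have := md_FF_nonneg T2 M p.1 p.2
      split_ifs <;> simp [this]
    have t2 : 0 ≤ ∑ a ∈ P.erase x, E * ((if a % q = x % q then (1 : ℝ) else 0)
            * (if a % q' = x % q' then (1 : ℝ) else 0)) := by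
      refine sum_nonneg fun a _ => ?_
      split_ifs <;> simp [hE0.le]
    have t0 : 0 ≤ η * (M : ℝ) ^ 2 := by positivity
    by_cases hqq : q = q'
    · rw [if_pos hqq]
      linarith
    rw [if_neg hqq]
    set S := (cls P q (x % q) ×ˢ cls P q' (x % q')).erase (x, x) with hS
    have hSm : ∀ p ∈ S, p.1 ∈ P ∧ p.1 % q = x % q ∧ p.2 ∈ P ∧ p.2 % q' = x % q' ∧ p ≠ (x, x) := by
      intro p hp
      rw [hS, mem_erase, mem_product] at hp
      unfold cls at hp
      rw [mem_filter, mem_filter] at hp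
      exact ⟨hp.2.1.1, hp.2.1.2, hp.2.2.1, hp.2.2.2, hp.1⟩
    have hScard : (S.card : ℝ) ≤ (M : ℝ) ^ 2 := by
      have e1 : S.card ≤ M * M := by
        refine (card_le_card (erase_subset _ _)).trans ?_
        rw [card_product]
        exact Nat.mul_le_mul hq.2 hq'.2
      have e2 : (S.card : ℝ) ≤ ((M * M : ℕ) : ℝ) := by exact_mod_cast e1
      refine e2.trans (le_of_eq ?_)
      push_cast
      ring
    -- split
    have s1 : ∑ p ∈ S, FF T2 M p.1 p.2 ≤ ∑ p ∈ S, (η
        + (if p.1 ≠ p.2 ∧ η < FF T2 M p.1 p.2 then FF T2 M p.1 p.2 else 0)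
        + (if p.1 = p.2 then E else 0)) := by
      refine sum_le_sum fun p _ => ?_
      have hF := md_FF_nonneg T2 M p.1 p.2
      by_cases h3 : p.1 = p.2
      · rw [if_neg (fun h => h.1 h3), if_pos h3]
        have h4 := md_FF_self T2 M p.1
        rw [← hE] at h4
        rw [← h3]
        linarith
      · rw [if_neg h3]
        by_cases h4 : η < FF T2 M p.1 p.2
        · rw [if_pos ⟨h3, h4⟩]
          linarith
        · rw [if_neg (fun h => h4 h.2)]
          linarith [not_lt.1 h4]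
    have s2 : ∑ p ∈ S, (if p.1 ≠ p.2 ∧ η < FF T2 M p.1 p.2 then FF T2 M p.1 p.2 else 0)
        ≤ ∑ p ∈ BP, FF T2 M p.1 p.2 * ((if p.1 % q = x % q then (1 : ℝ) else 0)
            * (if p.2 % q' = x % q' then (1 : ℝ) else 0)) := by
      rw [← sum_filter]
      have e1 : ∀ p ∈ S.filter (fun p => p.1 ≠ p.2 ∧ η < FF T2 M p.1 p.2), FF T2 M p.1 p.2
          = FF T2 M p.1 p.2 * ((if p.1 % q = x % q then (1 : ℝ) else 0)
            * (if p.2 % q' = x % q' then (1 : ℝ) else 0)) := by
        intro p hp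
        obtain ⟨_, h4, _, h6, _⟩ := hSm p (mem_filter.1 hp).1
        rw [if_pos h4, if_pos h6]
        ring
      rw [sum_congr rfl e1]
      refine sum_le_sum_of_subset_of_nonneg ?_ fun p _ _ => ?_
      · intro p hp
        rw [mem_filter] at hp
        obtain ⟨h3, _, h5, _, _⟩ := hSm p hp.1
        exact mem_filter.2 ⟨mem_product.2 ⟨h3, h5⟩, hp.2⟩
      · have := md_FF_nonneg T2 M p.1 p.2
        split_ifs <;> simp [this]
    have s3 : ∑ p ∈ S, (if p.1 = p.2 then E else 0)
        ≤ ∑ a ∈ P.erase x, E * ((if a % q = x % q then (1 : ℝ) else 0)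
            * (if a % q' = x % q' then (1 : ℝ) else 0)) := by
      rw [← sum_filter]
      have e1 : ∀ p ∈ S.filter (fun p => p.1 = p.2), E
          = (fun a : ℕ => E * ((if a % q = x % q then (1 : ℝ) else 0)
            * (if a % q' = x % q' then (1 : ℝ) else 0))) p.1 := by
        intro p hp
        rw [mem_filter] at hp
        obtain ⟨_, h4, _, h6, _⟩ := hSm p hp.1
        beta_reduce
        rw [if_pos h4, if_pos (by rw [hp.2]; exact h6)]
        ring
      rw [sum_congr rfl e1]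
      have hinj : Set.InjOn (fun p : ℕ × ℕ => p.1)
          (S.filter (fun p => p.1 = p.2) : Finset (ℕ × ℕ)) := by
        intro p hp p' hp' h
        rw [mem_coe, mem_filter] at hp hp'
        refine Prod.ext h ?_
        rw [← hp.2, ← hp'.2]
        exact h
      rw [← sum_image (g := fun p : ℕ × ℕ => p.1) (f := fun a : ℕ =>
        E * ((if a % q = x % q then (1 : ℝ) else 0)
            * (if a % q' = x % q' then (1 : ℝ) else 0))) hinj]
      refine sum_le_sum_of_subset_of_nonneg ?_ fun a _ _ => ?_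
      · intro a ha
        rw [mem_image] at ha
        obtain ⟨p, hp, rfl⟩ := ha
        rw [mem_filter] at hp
        obtain ⟨h3, _, _, _, h7⟩ := hSm p hp.1
        refine mem_erase.2 ⟨fun h => h7 (Prod.ext h ?_), h3⟩
        rw [← hp.2]
        exact h
      · split_ifs <;> simp [hE0.le]
    have s4 : ∑ p ∈ S, η ≤ η * (M : ℝ) ^ 2 := by
      rw [sum_const, nsmul_eq_mul, mul_comm]
      exact mul_le_mul_of_nonneg_left hScard hη
    rw [sum_add_distrib, sum_add_distrib] at s1
    linarith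
  -- nonnegativity of the bound, to enlarge the ranges
  have hpos1 : ∀ x q q' : ℕ, 0 ≤ ∑ p ∈ BP, FF T2 M p.1 p.2 *
      ((if p.1 % q = x % q then (1 : ℝ) else 0) * (if p.2 % q' = x % q' then (1 : ℝ) else 0)) := by
    intro x q q'
    refine sum_nonneg fun p _ => ?_
    have := md_FF_nonneg T2 M p.1 p.2
    split_ifs <;> simp [this]
  have hpos2 : ∀ x q q' : ℕ, 0 ≤ ∑ a ∈ P.erase x, E *
      ((if a % q = x % q then (1 : ℝ) else 0) * (if a % q' = x % q' then (1 : ℝ) else 0)) := by
    intro x q q'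
    refine sum_nonneg fun a _ => ?_
    split_ifs <;> simp [hE0.le]
  have hpos0 : 0 ≤ η * (M : ℝ) ^ 2 := by positivity
  calc _ ≤ ∑ x ∈ P, ∑ q ∈ Q, ∑ q' ∈ Q, (η * (M : ℝ) ^ 2
        + ∑ p ∈ BP, FF T2 M p.1 p.2 * ((if p.1 % q = x % q then (1 : ℝ) else 0)
            * (if p.2 % q' = x % q' then (1 : ℝ) else 0))
        + ∑ a ∈ P.erase x, E * ((if a % q = x % q then (1 : ℝ) else 0)
            * (if a % q' = x % q' then (1 : ℝ) else 0))) := by
        refine sum_le_sum fun x hx => ?_
        refine (sum_le_sum fun q hq => sum_le_sum fun q' hq' => h1 x hx q hq q' hq').trans ?_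
        refine (sum_le_sum fun q _ => sum_le_sum_of_subset_of_nonneg (filter_subset _ _)
          fun q' _ _ => ?_).trans (sum_le_sum_of_subset_of_nonneg (filter_subset _ _)
            fun q _ _ => sum_nonneg fun q' _ => ?_)
        · have := hpos1 x q q'
          have := hpos2 x q q'
          linarith
        · have := hpos1 x q q'
          have := hpos2 x q q'
          linarith
    _ = η * (M : ℝ) ^ 2 * P.card * (Q.card : ℝ) ^ 2
        + (∑ p ∈ BP, FF T2 M p.1 p.2 * ∑ x ∈ P, (nq Q p.1 x : ℝ) * nq Q p.2 x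
          + ∑ x ∈ P, ∑ a ∈ P.erase x, E * ((nq Q a x : ℝ) * nq Q a x)) := by
        simp only [sum_add_distrib]
        have a1 : ∑ x ∈ P, ∑ q ∈ Q, ∑ q' ∈ Q, η * (M : ℝ) ^ 2
            = η * (M : ℝ) ^ 2 * P.card * (Q.card : ℝ) ^ 2 := by
          simp only [sum_const, nsmul_eq_mul]
          ring
        have a2 : ∑ x ∈ P, ∑ q ∈ Q, ∑ q' ∈ Q, ∑ p ∈ BP, FF T2 M p.1 p.2 *
            ((if p.1 % q = x % q then (1 : ℝ) else 0) * (if p.2 % q' = x % q' then (1 : ℝ) else 0))
            = ∑ p ∈ BP, FF T2 M p.1 p.2 * ∑ x ∈ P, (nq Q p.1 x : ℝ) * nq Q p.2 x := by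
          calc _ = ∑ x ∈ P, ∑ p ∈ BP, FF T2 M p.1 p.2 * ((nq Q p.1 x : ℝ) * nq Q p.2 x) := by
                refine sum_congr rfl fun x _ => ?_
                calc _ = ∑ q ∈ Q, ∑ p ∈ BP, ∑ q' ∈ Q, FF T2 M p.1 p.2 *
                      ((if p.1 % q = x % q then (1 : ℝ) else 0)
                        * (if p.2 % q' = x % q' then (1 : ℝ) else 0)) :=
                      sum_congr rfl fun q _ => sum_comm
                  _ = ∑ p ∈ BP, ∑ q ∈ Q, ∑ q' ∈ Q, FF T2 M p.1 p.2 *
                      ((if p.1 % q = x % q then (1 : ℝ) else 0)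
                        * (if p.2 % q' = x % q' then (1 : ℝ) else 0)) := sum_comm
                  _ = _ := by
                      refine sum_congr rfl fun p _ => ?_
                      rw [nq_sum, nq_sum, sum_mul_sum, mul_sum]
                      refine sum_congr rfl fun q _ => ?_
                      rw [mul_sum]
            _ = ∑ p ∈ BP, ∑ x ∈ P, FF T2 M p.1 p.2 * ((nq Q p.1 x : ℝ) * nq Q p.2 x) := sum_comm
            _ = _ := by
                refine sum_congr rfl fun p _ => ?_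
                rw [mul_sum]
        have a3 : ∑ x ∈ P, ∑ q ∈ Q, ∑ q' ∈ Q, ∑ a ∈ P.erase x, E *
            ((if a % q = x % q then (1 : ℝ) else 0) * (if a % q' = x % q' then (1 : ℝ) else 0))
            = ∑ x ∈ P, ∑ a ∈ P.erase x, E * ((nq Q a x : ℝ) * nq Q a x) := by
          refine sum_congr rfl fun x _ => ?_
          calc _ = ∑ q ∈ Q, ∑ a ∈ P.erase x, ∑ q' ∈ Q, E *
                  ((if a % q = x % q then (1 : ℝ) else 0)
                    * (if a % q' = x % q' then (1 : ℝ) else 0)) :=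
                  sum_congr rfl fun q _ => sum_comm
            _ = ∑ a ∈ P.erase x, ∑ q ∈ Q, ∑ q' ∈ Q, E *
                  ((if a % q = x % q then (1 : ℝ) else 0)
                    * (if a % q' = x % q' then (1 : ℝ) else 0)) := sum_comm
            _ = _ := by
                refine sum_congr rfl fun a _ => ?_
                rw [nq_sum, sum_mul_sum, mul_sum]
                refine sum_congr rfl fun q _ => ?_
                rw [mul_sum]
        rw [a1, a2, a3]
        ring
    _ ≤ _ := by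
        have b1 : ∑ p ∈ BP, FF T2 M p.1 p.2 * ∑ x ∈ P, (nq Q p.1 x : ℝ) * nq Q p.2 x
            ≤ Phi T2 M η P * (2 * w * Q.card + (w : ℝ) ^ 2 * P.card) := by
          unfold Phi
          rw [sum_mul]
          refine sum_le_sum fun p hp => ?_
          rw [hBP, mem_filter, mem_product] at hp
          exact mul_le_mul_of_nonneg_left
            (md_triples P Q w p.1 p.2 hp.1.1 hp.1.2 hp.2.1 hw) (md_FF_nonneg T2 M p.1 p.2)
        have b2 : ∑ x ∈ P, ∑ a ∈ P.erase x, E * ((nq Q a x : ℝ) * nq Q a x)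
            ≤ E * (w : ℝ) ^ 2 * (P.card : ℝ) ^ 2 := by
          have c1 : ∀ x ∈ P, ∑ a ∈ P.erase x, E * ((nq Q a x : ℝ) * nq Q a x)
              ≤ P.card * (E * (w : ℝ) ^ 2) := by
            intro x hx
            calc _ ≤ ∑ _a ∈ P.erase x, E * (w : ℝ) ^ 2 := by
                  refine sum_le_sum fun a ha => ?_
                  rw [mem_erase] at ha
                  have d1 : (nq Q a x : ℝ) ≤ w := by exact_mod_cast hw a ha.2 x hx ha.1
                  have d2 : (0 : ℝ) ≤ nq Q a x := Nat.cast_nonneg _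
                  refine mul_le_mul_of_nonneg_left ?_ hE0.le
                  rw [sq]
                  exact mul_le_mul d1 d1 d2 (d2.trans d1)
              _ = ((P.erase x).card : ℝ) * (E * (w : ℝ) ^ 2) := by
                  rw [sum_const, nsmul_eq_mul]
              _ ≤ _ := by
                  refine mul_le_mul_of_nonneg_right ?_ (by positivity)
                  exact_mod_cast card_le_card (erase_subset _ _)
          refine (sum_le_sum c1).trans (le_of_eq ?_)
          rw [sum_const, nsmul_eq_mul]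
          ring
        linarith

end Pool.Agent.GWC
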