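import Pool.Agent.GWC.Weights
import Pool.Agent.GW6.Avg

/-! # Mean values of multiplicative majorants -/

namespace Pool.Agent.GWC

open Finset Pool.Agent.GW6

/-- mean value bound for the primes of `P` -/
theorem mult_sum_gen (P : Finset ℕ) (hP : ∀ l ∈ P, l.Prime) (g : ℕ → ℝ) (hg : ∀ l, 0 ≤ g l)
    (H : ℕ) :
    ∑ h ∈ Icc 1 H, ∏ l ∈ P, (1 + (if l ∣ h then g l else 0))
      ≤ H * Real.exp (∑ l ∈ P, g l / l) := by
  classical
  have hPp : ∀ T ∈ P.powerset, ∀ l ∈ T, l.Prime := fun T hT l hl => hP l (mem_powerset.mp hT hl)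
  calc ∑ h ∈ Icc 1 H, ∏ l ∈ P, (1 + (if l ∣ h then g l else 0))
      = ∑ h ∈ Icc 1 H, ∑ T ∈ P.powerset, ∏ l ∈ T, (if l ∣ h then g l else 0) := by
        refine sum_congr rfl fun h _ => ?_
        rw [prod_one_add]
    _ = ∑ T ∈ P.powerset, ∑ h ∈ Icc 1 H, ∏ l ∈ T, (if l ∣ h then g l else 0) := sum_comm
    _ ≤ ∑ T ∈ P.powerset, H * ∏ l ∈ T, g l / l := by
        refine sum_le_sum fun T hT => ?_
        have h1 : ∑ h ∈ Icc 1 H, ∏ l ∈ T, (if l ∣ h then g l else 0) =
            (((Icc 1 H).filter (fun h => ∀ l ∈ T, l ∣ h)).card : ℝ) * ∏ l ∈ T, g l := by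
          rw [← nsmul_eq_mul, ← sum_const, sum_filter]
          refine sum_congr rfl fun h _ => ?_
          split_ifs with h2
          · exact prod_congr rfl fun l hl => if_pos (h2 l hl)
          · push Not at h2
            obtain ⟨l, hl, hd⟩ := h2
            exact prod_eq_zero hl (if_neg hd)
        rw [h1, prod_div_distrib]
        have h3 := card_dvd_le T (hPp T hT) H
        have h4 : 0 ≤ ∏ l ∈ T, g l := prod_nonneg fun l _ => hg l
        calc _ ≤ (H / ∏ l ∈ T, (l : ℝ)) * ∏ l ∈ T, g l :=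
              mul_le_mul_of_nonneg_right h3 h4
          _ = _ := by ring
    _ = H * ∏ l ∈ P, (1 + g l / l) := by
        rw [← mul_sum, prod_one_add]
    _ ≤ H * Real.exp (∑ l ∈ P, g l / l) := by
        refine mul_le_mul_of_nonneg_left ?_ (by positivity)
        rw [Real.exp_sum]
        refine prod_le_prod (fun l _ => ?_) fun l _ => ?_
        · have := hg l
          positivity
        · rw [add_comm]
          exact Real.add_one_le_exp _

/-- general mean value bound -/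
theorem mult_sum (g : ℕ → ℝ) (hg : ∀ l, 0 ≤ g l) (H : ℕ) :
    ∑ h ∈ Icc 1 H, ∏ l ∈ (Icc 1 H).filter Nat.Prime, (1 + (if l ∣ h then g l else 0))
      ≤ H * Real.exp (∑ l ∈ (Icc 1 H).filter Nat.Prime, g l / l) :=
  mult_sum_gen _ (fun _ hl => (mem_filter.1 hl).2) g hg H

theorem sum_fh_le (H : ℕ) : ∑ h ∈ Icc 1 H, fh h ≤ Real.exp 4 * H := by
  refine le_trans (sum_le_sum fun h _ => ?_) (sum_fh_sq_le H)
  have := fh_ge_one h
  nlinarith

theorem fh_mul_le (q m : ℕ) (hq : q.Prime) (hm : 0 < m) : fh (q * m) ≤ Real.exp 1 * fh m := by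
  classical
  unfold fh
  rw [← Real.exp_add]
  refine Real.exp_le_exp.2 ?_
  rw [Nat.primeFactors_mul hq.ne_zero hm.ne', hq.primeFactors]
  have h1 := sum_union_inter (s₁ := ({q} : Finset ℕ)) (s₂ := m.primeFactors)
    (f := fun l : ℕ => (1 : ℝ) / l)
  have h2 : (0 : ℝ) ≤ ∑ l ∈ ({q} : Finset ℕ) ∩ m.primeFactors, (1 : ℝ) / l :=
    sum_nonneg fun _ _ => by positivity
  have h3 : ∑ l ∈ ({q} : Finset ℕ), (1 : ℝ) / l ≤ 1 := by
    rw [sum_singleton, div_le_one (by exact_mod_cast hq.pos)]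
    exact_mod_cast hq.one_le
  linarith

/-- multiples of a prime -/
theorem sum_fh_dvd : ∃ C : ℝ, 0 < C ∧ ∀ H q : ℕ, q.Prime →
    ∑ h ∈ (Icc 1 H).filter (fun h => q ∣ h), fh h ≤ C * (H / q) := by
  refine ⟨Real.exp 1 * Real.exp 4, by positivity, fun H q hq => ?_⟩
  have h1 : ∑ h ∈ (Icc 1 H).filter (fun h => q ∣ h), fh h = ∑ m ∈ Icc 1 (H / q), fh (q * m) := by
    symm
    refine sum_bij (fun m _ => q * m) ?_ ?_ ?_ ?_
    · intro m hm
      rw [mem_Icc] at hm
      rw [mem_filter, mem_Icc]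
      refine ⟨⟨Nat.mul_pos hq.pos (by omega), ?_⟩, dvd_mul_right _ _⟩
      calc q * m ≤ q * (H / q) := Nat.mul_le_mul_left _ hm.2
        _ ≤ H := Nat.mul_div_le _ _
    · intro m _ m' _ h
      exact Nat.eq_of_mul_eq_mul_left hq.pos h
    · intro h hh
      rw [mem_filter, mem_Icc] at hh
      obtain ⟨⟨h1, h2⟩, m, rfl⟩ := hh
      refine ⟨m, mem_Icc.2 ⟨?_, ?_⟩, rfl⟩
      · rcases Nat.eq_zero_or_pos m with rfl | h
        · simp at h1
        · exact h
      · rw [Nat.le_div_iff_mul_le hq.pos]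
        linarith [mul_comm m q]
    · intro m _
      rfl
  rw [h1]
  have hq0 : (0 : ℝ) < q := by exact_mod_cast hq.pos
  calc ∑ m ∈ Icc 1 (H / q), fh (q * m) ≤ ∑ m ∈ Icc 1 (H / q), Real.exp 1 * fh m := by
        refine sum_le_sum fun m hm => fh_mul_le q m hq ?_
        rw [mem_Icc] at hm
        omega
    _ = Real.exp 1 * ∑ m ∈ Icc 1 (H / q), fh m := by rw [mul_sum]
    _ ≤ Real.exp 1 * (Real.exp 4 * ((H / q : ℕ) : ℝ)) :=
        mul_le_mul_of_nonneg_left (sum_fh_le _) (Real.exp_pos _).le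
    _ ≤ Real.exp 1 * (Real.exp 4 * ((H : ℝ) / q)) := by
        have : ((H / q : ℕ) : ℝ) ≤ (H : ℝ) / q := Nat.cast_div_le
        gcongr
    _ = _ := by ring

/-- mean value of `fh` times an exponential -/
theorem sum_fh_exp (H R : ℕ) (T : Finset ℕ) (b : ℝ) (hT : ∀ r ∈ T, r.Prime ∧ R < r)
    (hb0 : 0 ≤ b) (hb : b ≤ R) :
    ∑ h ∈ Icc 1 H, fh h * Real.exp (b * ∑ r ∈ T.filter (fun r => r ∣ h), (1 : ℝ) / r)
      ≤ Real.exp 4 * H := by
  classical
  set P := (Icc 1 H).filter Nat.Prime with hP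
  have hPp : ∀ l ∈ P, l.Prime := fun l hl => (mem_filter.1 hl).2
  have key : ∀ h ∈ Icc 1 H, fh h * Real.exp (b * ∑ r ∈ T.filter (fun r => r ∣ h), (1 : ℝ) / r)
      ≤ ∏ l ∈ P, (1 + (if l ∣ h then 2 * (1 + (if l ∈ T then b else 0)) / l else 0)) := by
    intro h hh
    rw [mem_Icc] at hh
    have e2 : h.primeFactors = P.filter (fun l => l ∣ h) := by
      ext l
      simp only [hP, Nat.mem_primeFactors, mem_filter, mem_Icc]
      constructor
      · rintro ⟨h2, h3, h4⟩
        exact ⟨⟨⟨h2.one_le, (Nat.le_of_dvd (by omega) h3).trans hh.2⟩, h2⟩, h3⟩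
      · rintro ⟨⟨h2, h3⟩, h4⟩
        exact ⟨h3, h4, by omega⟩
    have e3 : T.filter (fun r => r ∣ h) = (P.filter (fun l => l ∣ h)).filter (fun l => l ∈ T) := by
      ext l
      simp only [hP, mem_filter, mem_Icc]
      constructor
      · rintro ⟨h2, h3⟩
        exact ⟨⟨⟨⟨(hT l h2).1.one_le, (Nat.le_of_dvd (by omega) h3).trans hh.2⟩, (hT l h2).1⟩,
          h3⟩, h2⟩
      · rintro ⟨⟨h2, h3⟩, h4⟩
        exact ⟨h4, h3⟩
    rw [fh, e2, e3, ← Real.exp_add, sum_filter (s := P.filter (fun l => l ∣ h)), mul_sum,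
      ← sum_add_distrib, sum_filter, Real.exp_sum]
    refine prod_le_prod (fun l _ => (Real.exp_pos _).le) fun l hl => ?_
    have hl' := hPp l hl
    split_ifs with h1 h2
    · have h3 : (R : ℝ) + 1 ≤ l := by exact_mod_cast (hT l h2).2
      have h4 : (0 : ℝ) < l := by exact_mod_cast hl'.pos
      have h5 : (1 : ℝ) / l + b * (1 / l) = (1 + b) / l := by ring
      rw [h5]
      refine (exp_le_one_add (by positivity) ?_).trans (le_of_eq (by ring))
      rw [div_le_one h4]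
      linarith
    · have h4 : (1 : ℝ) ≤ l := by exact_mod_cast hl'.one_le
      rw [mul_zero, add_zero, add_zero, mul_one]
      refine (exp_le_one_add (by positivity) ?_).trans (le_of_eq (by ring))
      rw [div_le_one (by linarith)]
      exact h4
    · simp
  refine (sum_le_sum key).trans ?_
  refine (mult_sum_gen P hPp (fun l => 2 * (1 + (if l ∈ T then b else 0)) / l) (fun l => ?_)
    H).trans ?_
  · have : (0 : ℝ) ≤ (if l ∈ T then b else 0) := by split_ifs <;> simp [hb0]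
    positivity
  · rw [mul_comm]
    refine mul_le_mul_of_nonneg_right (Real.exp_le_exp.2 ?_) (Nat.cast_nonneg _)
    have h1 : ∀ l ∈ P, 2 * (1 + (if l ∈ T then b else 0)) / (l : ℝ) / l
        = 2 * ((1 : ℝ) / (l : ℝ) ^ 2) + 2 * b * (if l ∈ T then (1 : ℝ) / (l : ℝ) ^ 2 else 0) := by
      intro l hl
      have h4 : (0 : ℝ) < l := by exact_mod_cast (hPp l hl).pos
      split_ifs
      · field_simp
      · field_simp
        ring
    rw [sum_congr rfl h1, sum_add_distrib, ← mul_sum, ← mul_sum, ← sum_filter]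
    have h2 := sum_inv_sq_le H
    rw [← hP] at h2
    rcases Nat.eq_zero_or_pos R with hR | hR
    · have hb' : b = 0 := by
        rw [hR] at hb
        push_cast at hb
        linarith
      rw [hb']
      linarith
    · have h3 := sum_inv_sq (P.filter (fun l => l ∈ T)) R hR
        (fun r hr => (hT r (mem_filter.1 hr).2).2)
      have h4 : (0 : ℝ) < R := by exact_mod_cast hR
      have h5 : b * ∑ l ∈ P.filter (fun l => l ∈ T), (1 : ℝ) / (l : ℝ) ^ 2 ≤ R * (1 / R) :=
        mul_le_mul hb h3 (sum_nonneg fun _ _ => by positivity) h4.le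
      rw [mul_one_div_cancel h4.ne'] at h5
      linarith

/-- large values of the sum of `1 / r` over the prime divisors `r > R` are rare -/
theorem sum_fh_large : ∃ C : ℝ, 0 < C ∧ ∀ (H R : ℕ) (T : Finset ℕ) (β η K : ℝ), 1 ≤ H →
    (∀ r ∈ T, r.Prime ∧ R < r) → 0 ≤ β → 0 < η → 0 ≤ K → β * (1 + K) ≤ R →
    ∑ h ∈ (Icc 1 H).filter (fun h => η <
        Real.exp (β * ∑ r ∈ T.filter (fun r => r ∣ h), (1 : ℝ) / r) - 1),
      fh h * (Real.exp (β * ∑ r ∈ T.filter (fun r => r ∣ h), (1 : ℝ) / r) - 1)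
      ≤ C * H * (1 + η) ^ (-K) := by
  refine ⟨Real.exp 4, Real.exp_pos _, fun H R T β η K _ hT hβ hη hK hR => ?_⟩
  set S : ℕ → ℝ := fun h => ∑ r ∈ T.filter (fun r => r ∣ h), (1 : ℝ) / r with hS
  have h1η : 0 < 1 + η := by linarith
  have hk0 : 0 ≤ (1 + η) ^ (-K) := (Real.rpow_pos_of_pos h1η _).le
  have h1 : ∀ h ∈ (Icc 1 H).filter (fun h => η < Real.exp (β * S h) - 1),
      fh h * (Real.exp (β * S h) - 1)
        ≤ (1 + η) ^ (-K) * (fh h * Real.exp (β * (1 + K) * S h)) := by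
    intro h hh
    have hh := (mem_filter.1 hh).2
    have hf := fh_ge_one h
    have h2 : 1 + η ≤ Real.exp (β * S h) := by linarith
    have h3 : (1 + η) ^ K ≤ Real.exp (β * S h) ^ K := Real.rpow_le_rpow h1η.le h2 hK
    have h4 : Real.exp (β * (1 + K) * S h) = Real.exp (β * S h) * Real.exp (β * S h) ^ K := by
      rw [← Real.exp_mul, ← Real.exp_add]
      congr 1
      ring
    have h5 : (1 + η) ^ (-K) * (1 + η) ^ K = 1 := by
      rw [← Real.rpow_add h1η]
      simp
    have h6 : 1 ≤ (1 + η) ^ (-K) * Real.exp (β * S h) ^ K :=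
      h5.symm.le.trans (mul_le_mul_of_nonneg_left h3 hk0)
    have h7 := Real.exp_pos (β * S h)
    rw [h4]
    calc fh h * (Real.exp (β * S h) - 1) ≤ fh h * (Real.exp (β * S h) * 1) := by
          refine mul_le_mul_of_nonneg_left ?_ (by linarith)
          linarith
      _ ≤ fh h * (Real.exp (β * S h) * ((1 + η) ^ (-K) * Real.exp (β * S h) ^ K)) := by
          gcongr
      _ = _ := by ring
  refine (sum_le_sum h1).trans ?_
  rw [← mul_sum]
  have h2 : ∑ h ∈ (Icc 1 H).filter (fun h => η < Real.exp (β * S h) - 1),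
      fh h * Real.exp (β * (1 + K) * S h)
        ≤ ∑ h ∈ Icc 1 H, fh h * Real.exp (β * (1 + K) * S h) := by
    refine sum_le_sum_of_subset_of_nonneg (filter_subset _ _) fun h _ _ => ?_
    have := fh_ge_one h
    positivity
  have h3 := sum_fh_exp H R T (β * (1 + K)) hT (by positivity) hR
  calc _ ≤ (1 + η) ^ (-K) * (Real.exp 4 * H) := mul_le_mul_of_nonneg_left (h2.trans h3) hk0
    _ = _ := by ring

end Pool.Agent.GWC
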