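import Mathlib

/-! # Numerical inequalities for the covering theorem with parameters -/

namespace Pool.Agent.GWC

open Finset Filter

lemma par_ev1 (n : ℕ) (K : ℝ) : ∀ᶠ I : ℕ in atTop, K * (I : ℝ) ^ n ≤ Real.exp I := by
  have h := (Real.tendsto_exp_div_pow_atTop n).comp (tendsto_natCast_atTop_atTop (R := ℝ))
  have h1 := h.eventually_ge_atTop K
  filter_upwards [h1, eventually_ge_atTop 1] with I hI hI1
  have hp : (0 : ℝ) < (I : ℝ) ^ n := by
    have : (0 : ℝ) < I := by exact_mod_cast hI1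
    positivity
  simp only [Function.comp] at hI
  rwa [le_div_iff₀ hp] at hI

/-- All the conditions on `I`. -/
lemma par_ev (κ C : ℝ) (hκ : 0 < κ) (hC : 0 < C) : ∃ I0 : ℕ, ∀ I : ℕ, I0 ≤ I →
    (30720 : ℝ) ≤ I ∧ 320 ≤ (I : ℝ) ^ (κ / 1280) ∧
    10 ^ 12 / κ * (I : ℝ) ^ 7 * 160 ^ (4 * I ^ 2) ≤ Real.exp ((I : ℝ) ^ 4) ∧
    16 * 160 ^ (4 * I ^ 2) * (((I : ℝ) + 1) ^ 4 + C) ≤ Real.exp ((I : ℝ) ^ 4) ∧
    160 ^ (13 * I ^ 2) ≤ Real.exp ((I : ℝ) ^ 4) ∧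
    10 ^ 7 / κ * (I : ℝ) ^ 4 ≤ Real.exp I ∧
    (∀ l : ℝ, Real.exp ((I : ℝ) ^ 4) ≤ l → l ^ 4 ≤ Real.exp (l / 4)) := by
  have hE2 : ∀ᶠ I : ℕ in atTop, 320 ≤ (I : ℝ) ^ (κ / 1280) :=
    ((tendsto_rpow_atTop (by positivity : 0 < κ / 1280)).comp
      (tendsto_natCast_atTop_atTop (R := ℝ))).eventually_ge_atTop 320
  have hL : ∀ᶠ l : ℝ in atTop, l ^ 4 ≤ Real.exp (l / 4) := by
    have h := (Real.tendsto_exp_div_pow_atTop 4).comp
      (tendsto_id.atTop_div_const (by norm_num : (0 : ℝ) < 4))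
    filter_upwards [h.eventually_ge_atTop 256, eventually_gt_atTop (0 : ℝ)] with l hl hl0
    simp only [Function.comp, id] at hl
    rw [le_div_iff₀ (by positivity)] at hl
    calc l ^ 4 = 256 * (l / 4) ^ 4 := by ring
      _ ≤ _ := hl
  obtain ⟨L0, hL0⟩ := eventually_atTop.1 hL
  have h160 : ∀ (m : ℕ), (160 : ℝ) ^ m ≤ Real.exp (6 * m) := by
    intro m
    have h1 : (160 : ℝ) ≤ Real.exp 6 := by
      have h2 : (2.7182818283 : ℝ) < Real.exp 1 := Real.exp_one_gt_d9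
      have h3 : Real.exp 6 = (Real.exp 1) ^ 6 := by rw [← Real.exp_nat_mul]; norm_num
      rw [h3]
      calc (160 : ℝ) ≤ 2.7182818283 ^ 6 := by norm_num
        _ ≤ (Real.exp 1) ^ 6 := pow_le_pow_left₀ (by norm_num) h2.le 6
    calc (160 : ℝ) ^ m ≤ (Real.exp 6) ^ m := pow_le_pow_left₀ (by norm_num) h1 m
      _ = Real.exp (6 * m) := by rw [← Real.exp_nat_mul, mul_comm]
  have hmain : ∀ᶠ I : ℕ in atTop, (30720 : ℝ) ≤ I ∧ 320 ≤ (I : ℝ) ^ (κ / 1280) ∧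
    10 ^ 12 / κ * (I : ℝ) ^ 7 * 160 ^ (4 * I ^ 2) ≤ Real.exp ((I : ℝ) ^ 4) ∧
    16 * 160 ^ (4 * I ^ 2) * (((I : ℝ) + 1) ^ 4 + C) ≤ Real.exp ((I : ℝ) ^ 4) ∧
    160 ^ (13 * I ^ 2) ≤ Real.exp ((I : ℝ) ^ 4) ∧
    10 ^ 7 / κ * (I : ℝ) ^ 4 ≤ Real.exp I ∧
    (∀ l : ℝ, Real.exp ((I : ℝ) ^ 4) ≤ l → l ^ 4 ≤ Real.exp (l / 4)) := by
    filter_upwards [hE2, par_ev1 7 (10 ^ 12 / κ), par_ev1 4 (16 * (16 + C)),
      par_ev1 4 (10 ^ 7 / κ), eventually_ge_atTop 30720,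
      (tendsto_natCast_atTop_atTop (R := ℝ)).eventually_ge_atTop L0] with I h2 h7 h4 h4' h1 hL1
    have hI : (30720 : ℝ) ≤ I := by exact_mod_cast h1
    have hI0 : (0 : ℝ) < I := by linarith
    have hI1 : (1 : ℝ) ≤ I := by linarith
    have hsq : (I : ℝ) ≤ (I : ℝ) ^ 2 := by nlinarith
    have h4a : (25 : ℝ) * (I : ℝ) ^ 2 ≤ (I : ℝ) ^ 4 := by
      have : (25 : ℝ) ≤ (I : ℝ) ^ 2 := by nlinarith
      nlinarith [sq_nonneg (I : ℝ)]
    have h4b : (78 : ℝ) * (I : ℝ) ^ 2 ≤ (I : ℝ) ^ 4 := by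
      have : (78 : ℝ) ≤ (I : ℝ) ^ 2 := by nlinarith
      nlinarith [sq_nonneg (I : ℝ)]
    have hp : (160 : ℝ) ^ (4 * I ^ 2) ≤ Real.exp (24 * (I : ℝ) ^ 2) := by
      refine (h160 _).trans (le_of_eq ?_)
      congr 1
      push_cast
      ring
    have key : ∀ v : ℝ, 0 ≤ v → v ≤ Real.exp I →
        v * 160 ^ (4 * I ^ 2) ≤ Real.exp ((I : ℝ) ^ 4) := by
      intro v hv0 hv
      calc v * 160 ^ (4 * I ^ 2) ≤ Real.exp I * Real.exp (24 * (I : ℝ) ^ 2) :=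
            mul_le_mul hv hp (by positivity) (Real.exp_pos _).le
        _ = Real.exp (I + 24 * (I : ℝ) ^ 2) := (Real.exp_add _ _).symm
        _ ≤ Real.exp ((I : ℝ) ^ 4) := Real.exp_le_exp.2 (by linarith)
    refine ⟨hI, h2, key _ (by positivity) h7, ?_, ?_, h4', ?_⟩
    · have e : 16 * 160 ^ (4 * I ^ 2) * (((I : ℝ) + 1) ^ 4 + C) =
          (16 * (((I : ℝ) + 1) ^ 4 + C)) * 160 ^ (4 * I ^ 2) := by ring
      rw [e]
      refine key _ (by positivity) (le_trans ?_ h4)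
      have h5 : ((I : ℝ) + 1) ^ 4 ≤ 16 * (I : ℝ) ^ 4 := by
        have h6 : ((I : ℝ) + 1) ^ 4 ≤ (2 * (I : ℝ)) ^ 4 :=
          pow_le_pow_left₀ (by linarith) (by linarith) 4
        calc _ ≤ (2 * (I : ℝ)) ^ 4 := h6
          _ = _ := by ring
      have h6 : (1 : ℝ) ≤ (I : ℝ) ^ 4 := one_le_pow₀ hI1
      nlinarith
    · refine (h160 _).trans (Real.exp_le_exp.2 ?_)
      push_cast
      linarith
    · intro l hl
      refine hL0 l ?_
      have h6 : (I : ℝ) ≤ (I : ℝ) ^ 4 := by nlinarith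
      have h8 := Real.add_one_le_exp ((I : ℝ) ^ 4)
      linarith
  obtain ⟨I0, hI0⟩ := eventually_atTop.1 hmain
  exact ⟨I0, hI0⟩

lemma par_exp_small {x : ℝ} (h0 : 0 ≤ x) (h1 : x ≤ 1) : Real.exp x - 1 ≤ 2 * x := by
  have h := Real.abs_exp_sub_one_le (x := x) (by rw [abs_of_nonneg h0]; exact h1)
  rw [abs_of_nonneg h0] at h
  exact (le_abs_self _).trans h

/-- The bracket in the estimate of the mean of `DD`. -/
lemma parD {b l y I p q k2 v phi lam ex : ℝ} (hl0 : 0 < l) (hy : y = Real.exp l)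
    (hI : 30720 ≤ I) (hbI : 10 ^ 7 * I ^ 4 ≤ b) (hp0 : 0 ≤ p) (hp : p ≤ I * y)
    (hq0 : 0 < q) (hq : y ≤ 40 * l * b * q) (hv : v * (15360 * I ^ 2) ≤ b ^ 2)
    (hk2 : k2 ≤ y * q * v) (hphi0 : 0 ≤ phi) (hphi : phi ≤ y ^ 2 / l ^ 2)
    (hlam0 : 0 ≤ lam) (hlam : lam ≤ Real.exp (l / 8)) (hex0 : 0 ≤ ex)
    (hex : ex ≤ Real.exp (l / 8)) (hl4 : l ^ 4 ≤ Real.exp (l / 4))
    (hlb : 10 ^ 12 * I ^ 5 * b ^ 4 ≤ l) :
    p * q ^ 2 * (Real.exp (4 * (b ^ 2) ^ 2 / b ^ 12) - 1) + p * q * lam + q * k2 / b ^ 2 +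
      Real.exp (4 * (b ^ 2) ^ 2 / b ^ 12) * (1 / I ^ 4 * p * q ^ 2 +
        (phi * (2 * 6 * q + 6 ^ 2 * p) + ex * 6 ^ 2 * p ^ 2) / (b ^ 2) ^ 2) ≤
      q ^ 2 * y / (2560 * I ^ 2) := by
  have hI0 : 0 < I := by linarith
  have hI1 : 1 ≤ I := by linarith
  have hI4 : 1 ≤ I ^ 4 := one_le_pow₀ hI1
  have hb1 : 10 ^ 7 ≤ b := by nlinarith
  have hb0 : 0 < b := by linarith [show (0 : ℝ) < 10 ^ 7 by norm_num]
  have hy0 : 0 < y := by rw [hy]; exact Real.exp_pos _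
  have hbge1 : 1 ≤ b := by linarith [show (1 : ℝ) ≤ 10 ^ 7 by norm_num]
  have hl1 : 1 ≤ l := by
    have h1 : 1 ≤ I ^ 5 := one_le_pow₀ hI1
    have h2 : 1 ≤ b ^ 4 := one_le_pow₀ hbge1
    have h3 : 1 ≤ I ^ 5 * b ^ 4 := by nlinarith
    nlinarith
  -- the exponential factor
  set x := 4 * (b ^ 2) ^ 2 / b ^ 12 with hx
  have hx1 : x = 4 / b ^ 8 := by
    rw [hx]
    field_simp
  have hb8 : b ≤ b ^ 8 := by
    calc b = b ^ 1 := (pow_one b).symm
      _ ≤ b ^ 8 := pow_le_pow_right₀ hbge1 (by norm_num)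
  have hx0 : 0 ≤ x := by positivity
  have hxle : x ≤ 1 := by
    rw [hx1, div_le_one (by positivity)]
    linarith
  have he1 := par_exp_small hx0 hxle
  have he2 : Real.exp x ≤ 2 := by
    have : 2 * x ≤ 1 := by
      rw [hx1]
      have : 4 / b ^ 8 ≤ 4 / 8 := by
        gcongr
        linarith
      linarith
    linarith
  have he0 := Real.exp_pos x
  have hq2 : 0 < q ^ 2 := by positivity
  have hu : 0 < q ^ 2 * y / (15360 * I ^ 2) := by positivity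
  -- powers of `y` are `exp`
  have hE : ∀ c : ℝ, 0 ≤ c → c ≤ l ^ 4 → c * Real.exp (l / 8) ≤ y := by
    intro c hc0 hc
    calc c * Real.exp (l / 8) ≤ Real.exp (l / 4) * Real.exp (l / 8) :=
          mul_le_mul_of_nonneg_right (hc.trans hl4) (Real.exp_pos _).le
      _ = Real.exp (l / 4 + l / 8) := (Real.exp_add _ _).symm
      _ ≤ y := by rw [hy]; exact Real.exp_le_exp.2 (by linarith)
  have hl12 : 10 ^ 12 * I ^ 5 ≤ l := by
    refine le_trans ?_ hlb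
    have h2 : 1 ≤ b ^ 4 := one_le_pow₀ hbge1
    have h1 : 0 ≤ 10 ^ 12 * I ^ 5 := by positivity
    nlinarith
  -- first term
  have t1 : p * q ^ 2 * (Real.exp x - 1) ≤ q ^ 2 * y / (15360 * I ^ 2) := by
    rw [le_div_iff₀ (by positivity)]
    have h1 : Real.exp x - 1 ≤ 8 / b ^ 8 := by
      refine he1.trans (le_of_eq ?_)
      rw [hx1]; ring
    have h2 : 122880 * I ^ 3 ≤ b ^ 8 := by
      refine le_trans ?_ (hbI.trans hb8)
      have : I ^ 3 ≤ I ^ 4 := pow_le_pow_right₀ hI1 (by norm_num)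
      nlinarith [pow_pos hI0 3]
    have h3 : (8 / b ^ 8) * (15360 * I ^ 3) ≤ 1 := by
      rw [div_mul_eq_mul_div, div_le_one (by positivity)]
      linarith
    calc p * q ^ 2 * (Real.exp x - 1) * (15360 * I ^ 2)
        ≤ (I * y) * q ^ 2 * (8 / b ^ 8) * (15360 * I ^ 2) := by
          have : 0 ≤ 8 / b ^ 8 := by positivity
          have h9 : 0 ≤ Real.exp x - 1 := by
            have := Real.add_one_le_exp x
            linarith
          gcongr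
      _ = q ^ 2 * y * ((8 / b ^ 8) * (15360 * I ^ 3)) := by ring
      _ ≤ q ^ 2 * y * 1 := by gcongr
      _ = q ^ 2 * y := mul_one _
  -- second term
  have t2 : p * q * lam ≤ q ^ 2 * y / (15360 * I ^ 2) := by
    rw [le_div_iff₀ (by positivity)]
    have h1 : 614400 * I ^ 3 * b ≤ l := by
      refine le_trans ?_ hlb
      have h2 : I ^ 3 ≤ I ^ 5 := pow_le_pow_right₀ hI1 (by norm_num)
      have h3 : b ≤ b ^ 4 := by
        calc b = b ^ 1 := (pow_one b).symm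
          _ ≤ b ^ 4 := pow_le_pow_right₀ hbge1 (by norm_num)
      have h4 : I ^ 3 * b ≤ I ^ 5 * b ^ 4 := mul_le_mul h2 h3 hb0.le (by positivity)
      have h5 : 0 ≤ I ^ 3 * b := by positivity
      nlinarith
    have h2 : (l * l) * Real.exp (l / 8) ≤ y := hE _ (by positivity) (by
      have : l ^ 2 ≤ l ^ 4 := pow_le_pow_right₀ hl1 (by norm_num)
      nlinarith)
    calc p * q * lam * (15360 * I ^ 2) ≤ (I * y) * q * Real.exp (l / 8) * (15360 * I ^ 2) := by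
          gcongr
      _ ≤ (I * (40 * l * b * q)) * q * Real.exp (l / 8) * (15360 * I ^ 2) := by
          gcongr
      _ = q ^ 2 * ((614400 * I ^ 3 * b) * l * Real.exp (l / 8)) := by ring
      _ ≤ q ^ 2 * (l * l * Real.exp (l / 8)) := by gcongr
      _ ≤ q ^ 2 * y := by gcongr
  -- third term
  have t3 : q * k2 / b ^ 2 ≤ q ^ 2 * y / (15360 * I ^ 2) := by
    rw [div_le_div_iff₀ (by positivity) (by positivity)]
    calc q * k2 * (15360 * I ^ 2) ≤ q * (y * q * v) * (15360 * I ^ 2) := by gcongr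
      _ = q ^ 2 * y * (v * (15360 * I ^ 2)) := by ring
      _ ≤ q ^ 2 * y * b ^ 2 := by gcongr
  -- fourth term
  have t4 : Real.exp x * (1 / I ^ 4 * p * q ^ 2) ≤ q ^ 2 * y / (15360 * I ^ 2) := by
    rw [le_div_iff₀ (by positivity)]
    calc Real.exp x * (1 / I ^ 4 * p * q ^ 2) * (15360 * I ^ 2)
        ≤ 2 * (1 / I ^ 4 * (I * y) * q ^ 2) * (15360 * I ^ 2) := by gcongr
      _ = q ^ 2 * y * (30720 / I) := by
          field_simp
          ring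
      _ ≤ q ^ 2 * y * 1 := by
          have : 30720 / I ≤ 1 := by rw [div_le_one hI0]; exact hI
          gcongr
      _ = q ^ 2 * y := mul_one _
  -- fifth term
  have t5a : Real.exp x * (phi * (2 * 6 * q) / (b ^ 2) ^ 2) ≤
      q ^ 2 * y / (15360 * I ^ 2) / 2 := by
    rw [div_div, le_div_iff₀ (by positivity)]
    have h1 : 960 * 30720 * I ^ 2 ≤ l * b ^ 3 := by
      have h2 : I ^ 2 ≤ I ^ 5 := pow_le_pow_right₀ hI1 (by norm_num)
      have h3 : 1 ≤ b ^ 3 := one_le_pow₀ hbge1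
      have h4 : l ≤ l * b ^ 3 := by nlinarith
      nlinarith [pow_pos hI0 2]
    have h2 : 960 * 30720 * I ^ 2 / (l * b ^ 3) ≤ 1 := by
      rw [div_le_one (by positivity)]
      exact h1
    calc Real.exp x * (phi * (2 * 6 * q) / (b ^ 2) ^ 2) * (15360 * I ^ 2 * 2)
        ≤ 2 * ((y ^ 2 / l ^ 2) * (2 * 6 * q) / (b ^ 2) ^ 2) * (15360 * I ^ 2 * 2) := by gcongr
      _ = y * (y * q * (24 * 30720 * I ^ 2) / (l ^ 2 * b ^ 4)) := by
          field_simp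
          ring
      _ ≤ y * ((40 * l * b * q) * q * (24 * 30720 * I ^ 2) / (l ^ 2 * b ^ 4)) := by gcongr
      _ = q ^ 2 * y * (960 * 30720 * I ^ 2 / (l * b ^ 3)) := by
          field_simp
          ring
      _ ≤ q ^ 2 * y * 1 := by gcongr
      _ = q ^ 2 * y := mul_one _
  have hyy : y ^ 2 ≤ 1600 * l ^ 2 * b ^ 2 * q ^ 2 := by
    calc y ^ 2 ≤ (40 * l * b * q) ^ 2 := pow_le_pow_left₀ hy0.le hq 2
      _ = _ := by ring
  have t5b : Real.exp x * (phi * (6 ^ 2 * p) / (b ^ 2) ^ 2) ≤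
      q ^ 2 * y / (15360 * I ^ 2) / 2 := by
    rw [div_div, le_div_iff₀ (by positivity)]
    have h1 : 115200 * 30720 * I ^ 3 ≤ b ^ 2 := by
      have h2 : (10 ^ 7 * I ^ 4) ^ 2 ≤ b ^ 2 := pow_le_pow_left₀ (by positivity) hbI 2
      have h3 : I ^ 3 ≤ I ^ 8 := pow_le_pow_right₀ hI1 (by norm_num)
      have h4 : (10 ^ 7 * I ^ 4) ^ 2 = 10 ^ 14 * I ^ 8 := by ring
      rw [h4] at h2
      nlinarith [pow_pos hI0 3]
    have h2 : 115200 * 30720 * I ^ 3 / b ^ 2 ≤ 1 := by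
      rw [div_le_one (by positivity)]
      exact h1
    calc Real.exp x * (phi * (6 ^ 2 * p) / (b ^ 2) ^ 2) * (15360 * I ^ 2 * 2)
        ≤ 2 * ((y ^ 2 / l ^ 2) * (6 ^ 2 * (I * y)) / (b ^ 2) ^ 2) * (15360 * I ^ 2 * 2) := by
          gcongr
      _ = y * (y ^ 2 * (72 * 30720 * I ^ 3) / (l ^ 2 * b ^ 4)) := by
          field_simp
          ring
      _ ≤ y * ((1600 * l ^ 2 * b ^ 2 * q ^ 2) * (72 * 30720 * I ^ 3) / (l ^ 2 * b ^ 4)) := by
          gcongr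
      _ = q ^ 2 * y * (115200 * 30720 * I ^ 3 / b ^ 2) := by
          field_simp
          ring
      _ ≤ q ^ 2 * y * 1 := by gcongr
      _ = q ^ 2 * y := mul_one _
  -- sixth term
  have t6 : Real.exp x * (ex * 6 ^ 2 * p ^ 2 / (b ^ 2) ^ 2) ≤ q ^ 2 * y / (15360 * I ^ 2) := by
    rw [le_div_iff₀ (by positivity)]
    have h1 : 115200 * 15360 * I ^ 4 ≤ l := by
      refine le_trans ?_ hl12
      have h2 : I ^ 4 ≤ I ^ 5 := pow_le_pow_right₀ hI1 (by norm_num)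
      nlinarith [pow_pos hI0 4]
    have h2 : (l * l ^ 2) * Real.exp (l / 8) ≤ y := hE _ (by positivity) (by
      have : l ^ 3 ≤ l ^ 4 := pow_le_pow_right₀ hl1 (by norm_num)
      nlinarith)
    have h3 : 1 ≤ b ^ 2 := one_le_pow₀ hbge1
    calc Real.exp x * (ex * 6 ^ 2 * p ^ 2 / (b ^ 2) ^ 2) * (15360 * I ^ 2)
        ≤ 2 * (Real.exp (l / 8) * 6 ^ 2 * (I * y) ^ 2 / (b ^ 2) ^ 2) * (15360 * I ^ 2) := by
          gcongr
      _ = y ^ 2 * (Real.exp (l / 8) * (72 * 15360 * I ^ 4) / b ^ 4) := by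
          field_simp
          ring
      _ ≤ (1600 * l ^ 2 * b ^ 2 * q ^ 2) * (Real.exp (l / 8) * (72 * 15360 * I ^ 4) / b ^ 4) := by
          gcongr
      _ = q ^ 2 * ((115200 * 15360 * I ^ 4) * l ^ 2 * Real.exp (l / 8)) / b ^ 2 := by
          field_simp
          ring
      _ ≤ q ^ 2 * ((115200 * 15360 * I ^ 4) * l ^ 2 * Real.exp (l / 8)) / 1 := by
          gcongr
      _ = q ^ 2 * ((115200 * 15360 * I ^ 4) * l ^ 2 * Real.exp (l / 8)) := div_one _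
      _ ≤ q ^ 2 * (l * l ^ 2 * Real.exp (l / 8)) := by gcongr
      _ ≤ q ^ 2 * y := by gcongr
  have e : Real.exp x * (1 / I ^ 4 * p * q ^ 2 +
        (phi * (2 * 6 * q + 6 ^ 2 * p) + ex * 6 ^ 2 * p ^ 2) / (b ^ 2) ^ 2) =
      Real.exp x * (1 / I ^ 4 * p * q ^ 2) + Real.exp x * (phi * (2 * 6 * q) / (b ^ 2) ^ 2) +
      Real.exp x * (phi * (6 ^ 2 * p) / (b ^ 2) ^ 2) +
      Real.exp x * (ex * 6 ^ 2 * p ^ 2 / (b ^ 2) ^ 2) := by
    ring
  have e2 : q ^ 2 * y / (2560 * I ^ 2) = 6 * (q ^ 2 * y / (15360 * I ^ 2)) := by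
    field_simp
    ring
  rw [e, e2]
  linarith

/-- The bracket in the estimate of the mean of `BB`. -/
lemma parB {b l y I j p q phi lam κ t2 Yv J : ℝ} (hl0 : 0 < l) (hy : y = Real.exp l)
    (hI : 30720 ≤ I) (hj : 1 ≤ j) (hκ : 0 < κ) (hκ1 : κ ≤ 1) (hbI : 10 ^ 7 * I ^ 4 * j ≤ κ * b)
    (hp0 : 0 ≤ p) (hp : p ≤ I * y) (hq0 : 0 < q) (hphi : phi ≤ y ^ 2 / l ^ 2)
    (hlam : lam ≤ Real.exp (l / 8)) (hl4 : l ^ 4 ≤ Real.exp (l / 4))
    (hlb : 10 ^ 12 * I ^ 5 * j * b ^ 4 ≤ κ * l) (ht0 : 0 < t2) (ht2 : κ * l * t2 ≤ 4 * j)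
    (hY : y ≤ 2 * b * Yv) (hJ0 : 0 < J) (hJ : J ≤ I ^ 2) :
    q * ((1 / I ^ 4 * p ^ 2 + phi) / (b ^ 2) ^ 2 + Yv * lam) ≤
      (q / t2 * (y / (20 * l)) * Yv / (8 * b ^ 2)) / (8 * J) := by
  have hI0 : 0 < I := by linarith
  have hI1 : 1 ≤ I := by linarith
  have hI4 : 1 ≤ I ^ 4 := one_le_pow₀ hI1
  have hj0 : 0 < j := by linarith
  have hb1 : 10 ^ 7 * I ^ 4 * j ≤ b := by
    have h1 : 0 < κ * b := lt_of_lt_of_le (by positivity) hbI
    have h2 : 0 < b := by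
      rcases pos_and_pos_or_neg_and_neg_of_mul_pos h1 with h | h
      · exact h.2
      · linarith [h.1]
    nlinarith
  have hb0 : 0 < b := lt_of_lt_of_le (by positivity) hb1
  have hbge1 : 1 ≤ b := by
    refine le_trans ?_ hb1
    nlinarith
  have hy0 : 0 < y := by rw [hy]; exact Real.exp_pos _
  have hY0 : 0 < Yv := by
    by_contra h
    have : 2 * b * Yv ≤ 0 := mul_nonpos_of_nonneg_of_nonpos (by positivity) (not_lt.1 h)
    linarith
  have hl12 : 10 ^ 12 * I ^ 5 * j * b ^ 4 ≤ l := by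
    refine hlb.trans ?_
    nlinarith
  have hl1 : 1 ≤ l := by
    refine le_trans ?_ hl12
    have h1 : 1 ≤ I ^ 5 := one_le_pow₀ hI1
    have h2 : 1 ≤ b ^ 4 := one_le_pow₀ hbge1
    have h3 : 1 ≤ I ^ 5 * j := one_le_mul_of_one_le_of_one_le h1 hj
    have h4 : 1 ≤ I ^ 5 * j * b ^ 4 := one_le_mul_of_one_le_of_one_le h3 h2
    nlinarith
  -- lower bound for the right-hand side
  have hR : q * (κ * y * Yv / (5120 * j * b ^ 2 * I ^ 2)) ≤
      (q / t2 * (y / (20 * l)) * Yv / (8 * b ^ 2)) / (8 * J) := by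
    have h1 : κ * l / (4 * j) ≤ 1 / t2 := by
      rw [div_le_div_iff₀ (by positivity) ht0]
      linarith
    calc q * (κ * y * Yv / (5120 * j * b ^ 2 * I ^ 2))
        = q * (κ * l / (4 * j)) * (y / (20 * l)) * Yv / (8 * b ^ 2) / (8 * I ^ 2) := by
          field_simp
          ring
      _ ≤ q * (1 / t2) * (y / (20 * l)) * Yv / (8 * b ^ 2) / (8 * J) := by gcongr
      _ = _ := by ring
  refine le_trans ?_ hR
  refine mul_le_mul_of_nonneg_left ?_ hq0.le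
  have e : κ * y * Yv / (5120 * j * b ^ 2 * I ^ 2) =
      κ * y * Yv / (10240 * j * b ^ 2 * I ^ 2) + κ * y * Yv / (10240 * j * b ^ 2 * I ^ 2) := by
    field_simp
    ring
  rw [e]
  refine add_le_add ?_ ?_
  · rw [div_le_div_iff₀ (by positivity) (by positivity)]
    have h1 : 1 / I ^ 4 * p ^ 2 ≤ y ^ 2 := by
      have h2 : p ^ 2 ≤ (I * y) ^ 2 := pow_le_pow_left₀ hp0 hp 2
      have h3 : I ^ 2 ≤ I ^ 4 := pow_le_pow_right₀ hI1 (by norm_num)
      rw [one_div_mul_eq_div, div_le_iff₀ (by positivity)]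
      calc p ^ 2 ≤ (I * y) ^ 2 := h2
        _ = y ^ 2 * I ^ 2 := by ring
        _ ≤ y ^ 2 * I ^ 4 := by gcongr
    have h2 : phi ≤ y ^ 2 := by
      refine hphi.trans (div_le_self (by positivity) (one_le_pow₀ hl1))
    have h3 : 40960 * j * I ^ 2 ≤ κ * b := by
      refine le_trans ?_ hbI
      have h4 : I ^ 2 ≤ I ^ 4 := pow_le_pow_right₀ hI1 (by norm_num)
      have h5 : j * I ^ 2 ≤ j * I ^ 4 := mul_le_mul_of_nonneg_left h4 hj0.le
      have h6 : 0 < j * I ^ 4 := by positivity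
      nlinarith
    calc (1 / I ^ 4 * p ^ 2 + phi) * (10240 * j * b ^ 2 * I ^ 2)
        ≤ (y ^ 2 + y ^ 2) * (10240 * j * b ^ 2 * I ^ 2) := by gcongr
      _ = y ^ 2 * b ^ 2 * (1 / 2) * (40960 * j * I ^ 2) := by ring
      _ ≤ y ^ 2 * b ^ 2 * (1 / 2) * (κ * b) := by gcongr
      _ = κ * y * b ^ 3 * (1 / 2) * y := by ring
      _ ≤ κ * y * b ^ 3 * (1 / 2) * (2 * b * Yv) := by gcongr
      _ = κ * y * Yv * (b ^ 2) ^ 2 := by ring
  · rw [le_div_iff₀ (by positivity)]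
    have h1 : 10240 * j * b ^ 2 * I ^ 2 ≤ κ * l := by
      refine le_trans ?_ hlb
      have h2 : b ^ 2 ≤ b ^ 4 := pow_le_pow_right₀ hbge1 (by norm_num)
      have h3 : I ^ 2 ≤ I ^ 5 := pow_le_pow_right₀ hI1 (by norm_num)
      have h4 : b ^ 2 * I ^ 2 ≤ b ^ 4 * I ^ 5 := mul_le_mul h2 h3 (by positivity) (by positivity)
      have h5 : j * (b ^ 2 * I ^ 2) ≤ j * (b ^ 4 * I ^ 5) := mul_le_mul_of_nonneg_left h4 hj0.le
      have h6 : 0 < j * (b ^ 4 * I ^ 5) := by positivity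
      nlinarith
    have h2 : l * Real.exp (l / 8) ≤ y := by
      have h3 : l ≤ l ^ 4 := by
        calc l = l ^ 1 := (pow_one l).symm
          _ ≤ l ^ 4 := pow_le_pow_right₀ hl1 (by norm_num)
      calc l * Real.exp (l / 8) ≤ Real.exp (l / 4) * Real.exp (l / 8) :=
            mul_le_mul_of_nonneg_right (h3.trans hl4) (Real.exp_pos _).le
        _ = Real.exp (l / 4 + l / 8) := (Real.exp_add _ _).symm
        _ ≤ y := by rw [hy]; exact Real.exp_le_exp.2 (by linarith)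
    calc Yv * lam * (10240 * j * b ^ 2 * I ^ 2)
        ≤ Yv * Real.exp (l / 8) * (10240 * j * b ^ 2 * I ^ 2) := by gcongr
      _ ≤ Yv * Real.exp (l / 8) * (κ * l) := by gcongr
      _ = κ * Yv * (l * Real.exp (l / 8)) := by ring
      _ ≤ κ * Yv * y := by gcongr
      _ = κ * y * Yv := by ring

/-- The product of the gains. -/
lemma par_gain {a : ℝ} (ha0 : 0 ≤ a) (ha1 : a ≤ 1) (I : ℕ) (hI : 1 ≤ I) (n : ℕ) (g : ℕ → ℝ)
    (hg : ∀ j ∈ Ico I (I + n), a / j ≤ g j) :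
    (((I + n : ℕ) : ℝ) / I) ^ a ≤ ∏ j ∈ Ico I (I + n), (1 + g j) := by
  induction n with
  | zero =>
    have : (I : ℝ) ≠ 0 := by
      have : 0 < I := hI
      positivity
    simp [this]
  | succ n ih =>
    rw [← add_assoc, Finset.prod_Ico_succ_top (by omega : I ≤ I + n)]
    have h1 := ih fun j hj => hg j (by
      rw [mem_Ico] at hj ⊢
      omega)
    have h2 := hg (I + n) (by rw [mem_Ico]; omega)
    have hIn : (0 : ℝ) < ((I + n : ℕ) : ℝ) := by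
      have : 0 < I + n := by omega
      exact_mod_cast this
    have hI0 : (0 : ℝ) < (I : ℝ) := by exact_mod_cast hI
    have e : (((I + n + 1 : ℕ) : ℝ) / I) = (((I + n : ℕ) : ℝ) / I) * (1 + 1 / ((I + n : ℕ) : ℝ)) := by
      field_simp
      push_cast
      ring
    rw [e, Real.mul_rpow (by positivity) (by positivity)]
    have h3 : (1 + 1 / ((I + n : ℕ) : ℝ)) ^ a ≤ 1 + a * (1 / ((I + n : ℕ) : ℝ)) :=
      rpow_one_add_le_one_add_mul_self (by
        have : (0 : ℝ) ≤ 1 / ((I + n : ℕ) : ℝ) := by positivity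
        linarith) ha0 ha1
    have h4 : (1 + 1 / ((I + n : ℕ) : ℝ)) ^ a ≤ 1 + g (I + n) := by
      refine h3.trans ?_
      have : a * (1 / ((I + n : ℕ) : ℝ)) = a / ((I + n : ℕ) : ℝ) := by ring
      linarith
    exact mul_le_mul h1 h4 (by positivity) ((by positivity : (0 : ℝ) ≤ _).trans h1)

/-- At most six primes `q > v` divide a difference of size at most `y ^ 3`. -/
lemma par_w {Q : Finset ℕ} (hQ : ∀ q ∈ Q, q.Prime) {y V a b : ℕ} (hqV : ∀ q ∈ Q, y < q * V)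
    (hV : V ^ 7 ≤ y) (hy : 1 < y) (hab : a ≠ b) (h1 : a ≤ b + y ^ 3) (h2 : b ≤ a + y ^ 3) :
    (Q.filter (fun q => a % q = b % q)).card ≤ 6 := by
  by_contra hc
  have hc7 : 7 ≤ (Q.filter (fun q => a % q = b % q)).card := by omega
  obtain ⟨F, hF, hF7⟩ := Finset.exists_subset_card_eq hc7
  set d : ℕ := (a - b) + (b - a) with hd
  have hd0 : 0 < d := by omega
  have hdy : d ≤ y ^ 3 := by omega
  have hdvd : ∀ q ∈ F, q ∣ d := by
    intro q hq
    obtain ⟨_, h⟩ := mem_filter.1 (hF hq)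
    have h' : a ≡ b [MOD q] := h
    rcases le_total a b with hle | hle
    · have e : d = b - a := by omega
      rw [e]
      exact (Nat.modEq_iff_dvd' hle).1 h'
    · have e : d = a - b := by omega
      rw [e]
      exact (Nat.modEq_iff_dvd' hle).1 h'.symm
  have hprod : ∏ q ∈ F, q ∣ d := by
    refine Finset.prod_primes_dvd d (fun q hq => (hQ q ?_).prime) hdvd
    exact (mem_filter.1 (hF hq)).1
  have hle := Nat.le_of_dvd hd0 hprod
  have hlow : y ^ 7 < (∏ q ∈ F, q) * V ^ 7 := by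
    have h3 : ∏ q ∈ F, y < ∏ q ∈ F, (q * V) := by
      refine Finset.prod_lt_prod_of_nonempty (fun q _ => by omega) (fun q hq => ?_) ?_
      · exact hqV q (mem_filter.1 (hF hq)).1
      · rw [← Finset.card_pos]; omega
    rw [Finset.prod_const, hF7, Finset.prod_mul_distrib, Finset.prod_const, hF7] at h3
    exact h3
  have h4 : y ^ 7 < y ^ 3 * y := by
    refine hlow.trans_le ?_
    exact Nat.mul_le_mul (hle.trans hdy) hV
  have h5 : y ^ 3 * y = y ^ 4 := by ring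
  rw [h5] at h4
  exact absurd (Nat.pow_lt_pow_iff_right hy |>.1 h4) (by norm_num)

end Pool.Agent.GWC
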