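import Pool.Agent.GWC.Mert
import Pool.Agent.GW6.Cheb

/-! # Common size estimates for the choice of parameters -/

namespace Pool.Agent.GWC

open Finset

/-- the standing assumptions on `I` and `y`; `c0`, `C` are the constants of `sig_lower` and
`sum_inv_upper` -/
structure Base (c0 C : ℝ) (I y : ℕ) : Prop where
  hI : 10 ≤ I
  hc0 : 0 < c0
  hC0 : 0 < C
  hC : C ≤ I
  h1 : (I : ℝ) ^ 4 ≤ Real.log (Real.log y)
  h2 : Real.log (Real.log y) < ((I : ℝ) + 1) ^ 4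
  low : ∀ z : ℕ, 3 ≤ z → c0 / Real.log z ≤ sig (pr 2 z)
  up : ∀ z : ℕ, 3 ≤ z → ∑ r ∈ pr 2 z, (1 : ℝ) / r ≤ Real.log (Real.log z) + C

theorem pa_log160 : Real.log 160 ≤ 6 := by
  have h1 : (2.5 : ℝ) ≤ Real.exp 1 := by
    have := Real.exp_one_gt_d9
    linarith
  have h2 : (2.5 : ℝ) ^ 6 ≤ (Real.exp 1) ^ 6 := pow_le_pow_left₀ (by norm_num) h1 6
  have h3 : (Real.exp 1) ^ 6 = Real.exp 6 := by
    rw [← Real.exp_nat_mul]
    norm_num
  rw [← Real.log_exp 6, ← h3]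
  refine Real.log_le_log (by norm_num) (le_trans ?_ h2)
  norm_num

theorem pa_pow_exp (k : ℕ) : (160 : ℝ) ^ k ≤ Real.exp (6 * k) := by
  have h1 : (160 : ℝ) ≤ Real.exp 6 := by
    rw [← Real.log_le_iff_le_exp (by norm_num)]
    exact pa_log160
  calc (160 : ℝ) ^ k ≤ (Real.exp 6) ^ k := pow_le_pow_left₀ (by norm_num) h1 k
    _ = Real.exp (6 * k) := by
      rw [← Real.exp_nat_mul]
      ring_nf

variable {c0 C : ℝ} {I y : ℕ}

theorem Base.IR (b : Base c0 C I y) : (10 : ℝ) ≤ I := by exact_mod_cast b.hI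

theorem Base.I4 (b : Base c0 C I y) : 100 * (I : ℝ) ^ 2 ≤ (I : ℝ) ^ 4 := by
  have h := b.IR
  nlinarith [sq_nonneg (I : ℝ), mul_le_mul h h (by norm_num) (by linarith)]

theorem Base.l_pos (b : Base c0 C I y) : 0 < Real.log y := by
  by_contra h
  have h0 : 0 ≤ Real.log (y : ℝ) := Real.log_natCast_nonneg y
  have h1 : Real.log (y : ℝ) = 0 := le_antisymm (not_lt.1 h) h0
  have h2 := b.h1
  rw [h1, Real.log_zero] at h2
  have h3 := b.I4
  have h4 := b.IR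
  nlinarith

/-- `e^(I^4) ≤ log y` -/
theorem Base.l_ge (b : Base c0 C I y) : Real.exp ((I : ℝ) ^ 4) ≤ Real.log y := by
  rw [← Real.exp_log b.l_pos]
  exact Real.exp_le_exp.2 b.h1

theorem Base.y_pos (b : Base c0 C I y) : (0 : ℝ) < y := by
  rcases Nat.eq_zero_or_pos y with h | h
  · have := b.l_pos
    rw [h] at this
    simp at this
  · exact_mod_cast h

theorem Base.exp_l (b : Base c0 C I y) : Real.exp (Real.log y) = y := Real.exp_log b.y_pos

/-- `160^k ≤ log y` for `k ≤ 12 I^2` -/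
theorem Base.p160 (b : Base c0 C I y) {k : ℕ} (hk : k ≤ 12 * I ^ 2) :
    (160 : ℝ) ^ k ≤ Real.log y := by
  refine le_trans (pa_pow_exp k) (le_trans (Real.exp_le_exp.2 ?_) b.l_ge)
  have h1 : (k : ℝ) ≤ 12 * (I : ℝ) ^ 2 := by exact_mod_cast hk
  have h2 := b.I4
  have h3 := b.IR
  nlinarith

theorem Base.l_big (b : Base c0 C I y) : (160 : ℝ) ^ 12 ≤ Real.log y := by
  have h : 12 ≤ 12 * I ^ 2 := by
    have := b.hI
    nlinarith
  exact b.p160 h

/-- `(log y)^40 ≤ y` -/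
theorem Base.l40 (b : Base c0 C I y) : (Real.log y) ^ 40 ≤ y := by
  have hl := b.l_pos
  have ht : (10000 : ℝ) ≤ Real.log (Real.log y) := by
    have h1 := b.h1
    have h2 := b.I4
    have h3 := b.IR
    nlinarith
  rw [← b.exp_l]
  conv_lhs => rw [b.exp_l, ← Real.exp_log hl, ← Real.exp_nat_mul]
  apply Real.exp_le_exp.2
  have h4 : (Real.log (Real.log y)) ^ 2 / 2 ≤ Real.exp (Real.log (Real.log y)) := by
    have := Real.quadratic_le_exp_of_nonneg (x := Real.log (Real.log y)) (by linarith)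
    linarith
  rw [Real.exp_log hl] at h4
  push_cast
  nlinarith

/-- `16 * 160^(4 I^2) * ((I+1)^4 + C) ≤ log y` -/
theorem Base.big (b : Base c0 C I y) :
    16 * (160 : ℝ) ^ (4 * I ^ 2) * (((I : ℝ) + 1) ^ 4 + C) ≤ Real.log y := by
  refine le_trans ?_ b.l_ge
  have hI := b.IR
  have h1 : (160 : ℝ) ^ (4 * I ^ 2) ≤ Real.exp (24 * (I : ℝ) ^ 2) := by
    refine (pa_pow_exp _).trans (le_of_eq ?_)
    congr 1
    push_cast
    ring
  have h2 : ((I : ℝ) + 1) ^ 4 ≤ Real.exp (4 * I) := by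
    have h3 : (I : ℝ) + 1 ≤ Real.exp I := Real.add_one_le_exp _
    calc ((I : ℝ) + 1) ^ 4 ≤ (Real.exp I) ^ 4 := pow_le_pow_left₀ (by linarith) h3 4
      _ = Real.exp (4 * I) := by
        rw [← Real.exp_nat_mul]
        norm_num
  have h3 : C ≤ Real.exp (4 * I) := by
    have h4 : 4 * (I : ℝ) + 1 ≤ Real.exp (4 * I) := Real.add_one_le_exp _
    have := b.hC
    linarith
  have h5 : (32 : ℝ) ≤ Real.exp 4 := by
    have h6 : (2.5 : ℝ) ≤ Real.exp 1 := by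
      have := Real.exp_one_gt_d9
      linarith
    have h7 : (2.5 : ℝ) ^ 4 ≤ (Real.exp 1) ^ 4 := pow_le_pow_left₀ (by norm_num) h6 4
    have h8 : (Real.exp 1) ^ 4 = Real.exp 4 := by
      rw [← Real.exp_nat_mul]
      norm_num
    rw [← h8]
    refine le_trans ?_ h7
    norm_num
  have h9 : 0 ≤ ((I : ℝ) + 1) ^ 4 + C := by
    have := b.hC0
    positivity
  calc 16 * (160 : ℝ) ^ (4 * I ^ 2) * (((I : ℝ) + 1) ^ 4 + C)
      ≤ 16 * Real.exp (24 * (I : ℝ) ^ 2) * (2 * Real.exp (4 * I)) := by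
        refine mul_le_mul ?_ (by linarith) h9 (by positivity)
        linarith
    _ = 32 * (Real.exp (24 * (I : ℝ) ^ 2) * Real.exp (4 * I)) := by ring
    _ ≤ Real.exp 4 * (Real.exp (24 * (I : ℝ) ^ 2) * Real.exp (4 * I)) :=
        mul_le_mul_of_nonneg_right h5 (by positivity)
    _ = Real.exp (4 + (24 * (I : ℝ) ^ 2 + 4 * I)) := by
        rw [Real.exp_add, Real.exp_add]
    _ ≤ Real.exp ((I : ℝ) ^ 4) := by
        apply Real.exp_le_exp.2
        have h2 := b.I4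
        nlinarith

theorem Base.sqrt_ge (b : Base c0 C I y) {k : ℕ} (hk : k ≤ 12 * I ^ 2) :
    160 ^ k ≤ Nat.sqrt y := by
  rw [Nat.le_sqrt']
  have h1 := b.p160 hk
  have h2 := b.l40
  have h3 : (1 : ℝ) ≤ Real.log y := by
    have := b.l_big
    linarith [show (1 : ℝ) ≤ 160 ^ 12 by norm_num]
  have h4 : (Real.log y) ^ 2 ≤ (Real.log y) ^ 40 := pow_le_pow_right₀ h3 (by norm_num)
  have h5 : ((160 : ℝ) ^ k) ^ 2 ≤ (Real.log y) ^ 2 := pow_le_pow_left₀ (by positivity) h1 2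
  have h6 : (((160 ^ k) ^ 2 : ℕ) : ℝ) ≤ y := by
    push_cast
    linarith
  exact_mod_cast h6

theorem Base.sqrt3 (b : Base c0 C I y) : 3 ≤ Nat.sqrt y := by
  have h := b.sqrt_ge (k := 1) (by have := b.hI; nlinarith)
  omega

/-- `sig (pr 2 √y) ≤ 4 / log y` -/
theorem Base.sigT (b : Base c0 C I y) : sig (pr 2 (Nat.sqrt y)) ≤ 4 / Real.log y := by
  have h1 := sig_upper (Nat.sqrt y) (by have := b.sqrt3; omega)
  refine h1.trans ?_
  have h2 : y < (Nat.sqrt y + 1) ^ 2 := by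
    have := Nat.lt_succ_sqrt y
    rw [sq]
    exact this
  have h3 : Real.log y ≤ 2 * Real.log ((Nat.sqrt y + 1 : ℕ) : ℝ) := by
    have h4 : (y : ℝ) ≤ (((Nat.sqrt y + 1 : ℕ) : ℝ)) ^ 2 := by exact_mod_cast h2.le
    have h5 := Real.log_le_log b.y_pos h4
    rw [Real.log_pow] at h5
    exact_mod_cast h5
  have hl := b.l_pos
  rw [div_le_div_iff₀ (by linarith) hl]
  linarith

theorem Base.logz (b : Base c0 C I y) :
    Real.log (Real.log (Nat.sqrt y : ℝ)) ≤ Real.log (Real.log y) := by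
  have h3 : (3 : ℝ) ≤ (Nat.sqrt y : ℝ) := by exact_mod_cast b.sqrt3
  have h1 : 0 < Real.log (Nat.sqrt y : ℝ) := Real.log_pos (by linarith)
  refine Real.log_le_log h1 (Real.log_le_log (by linarith) ?_)
  exact_mod_cast Nat.sqrt_le_self y

theorem Base.suminv (b : Base c0 C I y) (R : ℕ) (hR : 2 ≤ R) :
    ∑ r ∈ pr R (Nat.sqrt y), (1 : ℝ) / r ≤ ((I : ℝ) + 1) ^ 4 + C := by
  have h1 : pr R (Nat.sqrt y) ⊆ pr 2 (Nat.sqrt y) := by
    intro r hr
    simp only [pr, mem_filter, mem_Ioc] at hr ⊢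
    exact ⟨⟨by omega, hr.1.2⟩, hr.2⟩
  have h2 := sum_le_sum_of_subset_of_nonneg h1 (f := fun r : ℕ => (1 : ℝ) / r)
    (fun r _ _ => by positivity)
  have h3 := b.up _ b.sqrt3
  have h4 := b.logz
  have h5 := b.h2
  linarith

section scale

variable {j : ℕ}

theorem p160_two (hj : 1 ≤ j) (k : ℕ) (hk : 1 ≤ k) : 2 ≤ 160 ^ (k * j) := by
  have h1 : 1 ≤ k * j := Nat.mul_pos hk hj
  calc 2 ≤ 160 ^ 1 := by norm_num
    _ ≤ 160 ^ (k * j) := Nat.pow_le_pow_right (by norm_num) h1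

/-- the basic splitting -/
theorem Base.split (b : Base c0 C I y) (hj1 : I ≤ j) (hj2 : j < I ^ 2) :
    pr 2 (160 ^ (12 * j)) ∪ pr (160 ^ (12 * j)) (Nat.sqrt y) = pr 2 (Nat.sqrt y) ∧
      Disjoint (pr 2 (160 ^ (12 * j))) (pr (160 ^ (12 * j)) (Nat.sqrt y)) :=
  pr_split _ _ (p160_two (by have := b.hI; omega) 12 (by norm_num))
    (b.sqrt_ge (by nlinarith))

theorem Base.setup (b : Base c0 C I y) (hj1 : I ≤ j) (hj2 : j < I ^ 2) :
    Setup (pr 2 (160 ^ (12 * j))) (pr (160 ^ (12 * j)) (Nat.sqrt y)) (160 ^ (2 * j))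
      (160 ^ (12 * j)) where
  p1 := fun r hr => (mem_filter.1 hr).2
  p2 := fun r hr => (mem_filter.1 hr).2
  big := fun r hr => (mem_Ioc.1 (mem_filter.1 hr).1).1
  disj := (b.split hj1 hj2).2
  MR := by
    have h1 : 160 ^ (12 * j) = 160 ^ (2 * j) * 160 ^ (10 * j) := by
      rw [← pow_add]
      congr 1
      ring
    have h2 : 4 ≤ 160 ^ (10 * j) := by
      have h3 : 1 ≤ 10 * j := by
        have := b.hI
        omega
      calc 4 ≤ 160 ^ 1 := by norm_num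
        _ ≤ 160 ^ (10 * j) := Nat.pow_le_pow_right (by norm_num) h3
    rw [h1, mul_comm]
    exact Nat.mul_le_mul_left _ h2
  M1 := Nat.one_le_pow _ _ (by norm_num)

theorem Base.WW (b : Base c0 C I y) (hj1 : I ≤ j) (hj2 : j < I ^ 2) :
    WW (pr 2 (160 ^ (12 * j))) (pr (160 ^ (12 * j)) (Nat.sqrt y))
      = ∏ r ∈ pr 2 (Nat.sqrt y), r := by
  obtain ⟨h1, h2⟩ := b.split hj1 hj2
  rw [← h1, prod_union h2]
  rfl

theorem Base.sig_mul (b : Base c0 C I y) (hj1 : I ≤ j) (hj2 : j < I ^ 2) :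
    sig (pr 2 (160 ^ (12 * j))) * sig (pr (160 ^ (12 * j)) (Nat.sqrt y))
      = sig (pr 2 (Nat.sqrt y)) := by
  obtain ⟨h1, h2⟩ := b.split hj1 hj2
  rw [← h1]
  unfold sig
  rw [prod_union h2]

theorem pr_prime {a c r : ℕ} (h : r ∈ pr a c) : r.Prime := (mem_filter.1 h).2

theorem Base.sig2_pos (_b : Base c0 C I y) :
    0 < sig (pr (160 ^ (12 * j)) (Nat.sqrt y)) := sig_pos _ fun _ h => pr_prime h

theorem Base.sig2_le_one (_b : Base c0 C I y) :
    sig (pr (160 ^ (12 * j)) (Nat.sqrt y)) ≤ 1 := sig_le_one _ fun _ h => pr_prime h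

theorem Base.sig1_pos (_b : Base c0 C I y) :
    0 < sig (pr 2 (160 ^ (12 * j))) := sig_pos _ fun _ h => pr_prime h

theorem Base.sig1_le_one (_b : Base c0 C I y) :
    sig (pr 2 (160 ^ (12 * j))) ≤ 1 := sig_le_one _ fun _ h => pr_prime h

/-- `c0 / (72 j) ≤ sig T1` -/
theorem Base.sig1 (b : Base c0 C I y) (hj1 : I ≤ j) :
    c0 / (72 * j) ≤ sig (pr 2 (160 ^ (12 * j))) := by
  have hj : 1 ≤ j := by
    have := b.hI
    omega
  have h3 : 3 ≤ 160 ^ (12 * j) := by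
    have h1 : 1 ≤ 12 * j := by omega
    calc 3 ≤ 160 ^ 1 := by norm_num
      _ ≤ 160 ^ (12 * j) := Nat.pow_le_pow_right (by norm_num) h1
  refine le_trans ?_ (b.low _ h3)
  have h4 : Real.log ((160 ^ (12 * j) : ℕ) : ℝ) ≤ 72 * j := by
    push_cast
    rw [Real.log_pow]
    push_cast
    have h5 := pa_log160
    have h6 : (0 : ℝ) ≤ j := by positivity
    nlinarith
  have h5 : 0 < Real.log ((160 ^ (12 * j) : ℕ) : ℝ) := by
    apply Real.log_pos
    exact_mod_cast (by omega : 1 < 160 ^ (12 * j))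
  exact div_le_div_of_nonneg_left b.hc0.le h5 h4

/-- `c0 log y / (288 j) ≤ 1 / sig T2` -/
theorem Base.sig2 (b : Base c0 C I y) (hj1 : I ≤ j) (hj2 : j < I ^ 2) :
    c0 * Real.log y / (288 * j) ≤ (sig (pr (160 ^ (12 * j)) (Nat.sqrt y)))⁻¹ := by
  have hs2 := b.sig2_pos (j := j)
  have hs1 := b.sig1_pos (j := j)
  have h1 := b.sig1 hj1
  have h2 := b.sig_mul hj1 hj2
  have h3 := b.sigT
  have hl := b.l_pos
  have hj : (0 : ℝ) < j := by
    have := b.hI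
    exact_mod_cast (by omega : 0 < j)
  have h4 : c0 / (72 * j) * sig (pr (160 ^ (12 * j)) (Nat.sqrt y)) ≤ 4 / Real.log y := by
    rw [← h2] at h3
    exact (mul_le_mul_of_nonneg_right h1 hs2.le).trans h3
  rw [le_inv_comm₀ (by have := b.hc0; positivity) hs2, inv_div]
  rw [div_mul_eq_mul_div, div_le_div_iff₀ (by positivity) hl] at h4
  rw [le_div_iff₀ (by have := b.hc0; positivity)]
  linarith

/-- the maximal weight is at most `y^(1/8)` -/
theorem Base.Lam_le (b : Base c0 C I y) (hj1 : I ≤ j) (hj2 : j < I ^ 2) :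
    Lam (pr (160 ^ (12 * j)) (Nat.sqrt y)) (160 ^ (2 * j)) ≤ Real.exp (Real.log y / 8) := by
  refine (Lam_upper _ _ _ (b.setup hj1 hj2).MR).trans (Real.exp_le_exp.2 ?_)
  have h1 := b.suminv (160 ^ (12 * j)) (p160_two (by have := b.hI; omega) 12 (by norm_num))
  have h2 := b.big
  have h3 : (160 : ℝ) ^ (2 * j) ≤ 160 ^ (4 * I ^ 2) :=
    pow_le_pow_right₀ (by norm_num) (by omega)
  have h4 : 0 ≤ ((I : ℝ) + 1) ^ 4 + C := by
    have := b.hC0
    positivity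
  push_cast
  have h5 : (160 : ℝ) ^ (2 * j) * ∑ r ∈ pr (160 ^ (12 * j)) (Nat.sqrt y), (1 : ℝ) / r
      ≤ 160 ^ (4 * I ^ 2) * (((I : ℝ) + 1) ^ 4 + C) :=
    mul_le_mul h3 h1 (sum_nonneg fun r _ => by positivity) (by positivity)
  nlinarith

/-- the trivial bound for `FF` is at most `y^(1/8)` -/
theorem Base.exp_le (b : Base c0 C I y) (hj1 : I ≤ j) (hj2 : j < I ^ 2) :
    Real.exp (2 * ((160 ^ (2 * j) : ℕ) : ℝ) ^ 2 *
      ∑ r ∈ pr (160 ^ (12 * j)) (Nat.sqrt y), (1 : ℝ) / r) ≤ Real.exp (Real.log y / 8) := by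
  refine Real.exp_le_exp.2 ?_
  have h1 := b.suminv (160 ^ (12 * j)) (p160_two (by have := b.hI; omega) 12 (by norm_num))
  have h2 := b.big
  have h3 : ((160 : ℝ) ^ (2 * j)) ^ 2 ≤ 160 ^ (4 * I ^ 2) := by
    rw [← pow_mul]
    exact pow_le_pow_right₀ (by norm_num) (by omega)
  have h4 : 0 ≤ ((I : ℝ) + 1) ^ 4 + C := by
    have := b.hC0
    positivity
  push_cast
  have h5 : ((160 : ℝ) ^ (2 * j)) ^ 2 * ∑ r ∈ pr (160 ^ (12 * j)) (Nat.sqrt y), (1 : ℝ) / r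
      ≤ 160 ^ (4 * I ^ 2) * (((I : ℝ) + 1) ^ 4 + C) :=
    mul_le_mul h3 h1 (sum_nonneg fun r _ => by positivity) (by positivity)
  nlinarith

/-- `y / (2 * 160^j) ≤ Yv` -/
theorem Base.Yv_ge (b : Base c0 C I y) (hj2 : j ≤ I ^ 2) :
    (y : ℝ) / (2 * 160 ^ j) ≤ ((y / 160 ^ j : ℕ) : ℝ) := by
  have h1 : y < 160 ^ j * (y / 160 ^ j + 1) := Nat.lt_mul_div_succ y (by positivity)
  have h2 : (y : ℝ) < 160 ^ j * (((y / 160 ^ j : ℕ) : ℝ) + 1) := by exact_mod_cast h1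
  have h3 : (160 : ℝ) ^ j ≤ Real.log y := b.p160 (by nlinarith)
  have h4 : (1 : ℝ) ≤ ((y / 160 ^ j : ℕ) : ℝ) := by
    have h5 : 160 ^ j ≤ Nat.sqrt y := b.sqrt_ge (by nlinarith)
    have h6 : 160 ^ j ≤ y := h5.trans (Nat.sqrt_le_self y)
    exact_mod_cast (Nat.one_le_div_iff (by positivity)).2 h6
  have h5 : (0 : ℝ) < 160 ^ j := by positivity
  rw [div_le_iff₀ (by positivity)]
  nlinarith

theorem Base.Yv_le (_b : Base c0 C I y) :
    ((y / 160 ^ j : ℕ) : ℝ) ≤ (y : ℝ) / 160 ^ j := by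
  have := Nat.cast_div_le (α := ℝ) (m := y) (n := 160 ^ j)
  push_cast at this
  exact this

theorem Base.Yv_big (b : Base c0 C I y) (hj2 : j ≤ I ^ 2) :
    160 ^ 12 ≤ y / 160 ^ j := by
  rw [Nat.le_div_iff_mul_le (by positivity)]
  have h1 : (160 : ℝ) ^ j ≤ Real.log y := b.p160 (by nlinarith)
  have h2 := b.l_big
  have h3 := b.l40
  have h4 : (1 : ℝ) ≤ Real.log y := le_trans (by norm_num) h2
  have h5 : (Real.log y) ^ 2 ≤ (Real.log y) ^ 40 := pow_le_pow_right₀ h4 (by norm_num)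
  have h6 : (160 : ℝ) ^ 12 * 160 ^ j ≤ (Real.log y) ^ 2 := by
    rw [sq]
    exact mul_le_mul h2 h1 (by positivity) (by linarith)
  have h7 : (((160 ^ 12 * 160 ^ j : ℕ)) : ℝ) ≤ y := by
    push_cast
    linarith
  exact_mod_cast h7

/-- many primes in each scale -/
theorem Base.Q_ge (b : Base c0 C I y) (hj2 : j ≤ I ^ 2) :
    ((y / 160 ^ j : ℕ) : ℝ) / (20 * Real.log y)
      ≤ ((pr (y / 160 ^ (j + 1)) (y / 160 ^ j)).card : ℝ) := by
  have h1 := b.Yv_big hj2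
  have h2 := GW6.cheb_lower (y / 160 ^ j) (by
    refine le_trans ?_ h1
    norm_num)
  have h3 : y / 160 ^ (j + 1) = y / 160 ^ j / 160 := by
    rw [Nat.div_div_eq_div_mul, pow_succ]
  have h4 : pr (y / 160 ^ (j + 1)) (y / 160 ^ j)
      = (Ioc (y / 160 ^ j / 160) (y / 160 ^ j)).filter Nat.Prime := by
    rw [h3]
    rfl
  rw [h4]
  refine le_trans ?_ h2
  have h5 : (1 : ℝ) < ((y / 160 ^ j : ℕ) : ℝ) := by
    have h6 : (((160 ^ 12 : ℕ)) : ℝ) ≤ ((y / 160 ^ j : ℕ) : ℝ) := by exact_mod_cast h1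
    refine lt_of_lt_of_le ?_ h6
    norm_num
  have h6 : Real.log ((y / 160 ^ j : ℕ) : ℝ) ≤ Real.log y := by
    refine Real.log_le_log (by linarith) ?_
    exact_mod_cast Nat.div_le_self y (160 ^ j)
  have h7 : 0 < Real.log ((y / 160 ^ j : ℕ) : ℝ) := Real.log_pos h5
  have h8 : ((y / 160 ^ j : ℕ) : ℝ) / (20 * Real.log y)
      = 1 / 20 * (((y / 160 ^ j : ℕ) : ℝ) / Real.log y) := by
    have := b.l_pos
    field_simp
  rw [h8]
  refine mul_le_mul_of_nonneg_left ?_ (by norm_num)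
  exact div_le_div_of_nonneg_left (by linarith) h7 h6

end scale

end Pool.Agent.GWC
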