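import Pool.Agent.GWC.Cover
import Pool.Agent.GWC.MomD
import Pool.Agent.GWC.MomB
import Pool.Agent.GWC.ParA
import Pool.Agent.GWC.ParA0

/-! # The covering theorem with parameters -/

namespace Pool.Agent.GWC

open Finset

lemma p10_pr_disj {a b c d : ℕ} (h : d ≤ a) : Disjoint (pr a b) (pr c d) := by
  rw [Finset.disjoint_left]
  intro r h1 h2
  unfold pr at h1 h2
  simp only [mem_filter, mem_Ioc] at h1 h2
  omega

section
variable {c0 C : ℝ} {I y : ℕ} {j : ℕ}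

lemma Base.p10_sqrt_le_div (b : Base c0 C I y) (hj : j + 1 ≤ I ^ 2) :
    Nat.sqrt y ≤ y / 160 ^ (j + 1) := by
  rw [Nat.le_div_iff_mul_le (by positivity)]
  have h1 : 160 ^ (j + 1) ≤ Nat.sqrt y := b.sqrt_ge (by nlinarith)
  exact (Nat.mul_le_mul_left _ h1).trans (Nat.sqrt_le y)

lemma Base.p10_pow7 (b : Base c0 C I y) (hj1 : I ≤ j) (hj2 : j < I ^ 2) :
    (160 ^ (j + 1)) ^ 7 ≤ y := by
  rw [← pow_mul]
  have h1 : 160 ^ ((j + 1) * 7) ≤ Nat.sqrt y := b.sqrt_ge (by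
    have := b.hI
    nlinarith)
  exact h1.trans (Nat.sqrt_le_self y)

lemma Base.p10_w_le (b : Base c0 C I y) (hj1 : I ≤ j) (hj2 : j < I ^ 2) {P : Finset ℕ}
    (hPd : ∀ a ∈ P, ∀ b ∈ P, a ≤ b + y ^ 3) :
    ∀ u ∈ P, ∀ v ∈ P, u ≠ v →
      ((pr (y / 160 ^ (j + 1)) (y / 160 ^ j)).filter (fun q => u % q = v % q)).card ≤ 6 := by
  intro u hu v hv huv
  refine par_w (V := 160 ^ (j + 1)) (y := y) (fun q hq => pr_prime hq) (fun q hq => ?_)
    (b.p10_pow7 hj1 hj2) ?_ huv (hPd u hu v hv) (hPd v hv u hu)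
  · have h1 := (mem_Ioc.1 (mem_filter.1 hq).1).1
    rw [Nat.div_lt_iff_lt_mul (by positivity)] at h1
    exact h1
  · have h1 := b.sqrt3
    have h2 := Nat.sqrt_le_self y
    omega

end

/-- From the bracket to the condition on the mean of `DD`. -/
lemma p10_parD2 {W t1 t2 q y l I Jc X : ℝ} (hW : 0 ≤ W) (h1 : 0 < t1) (h2 : 0 < t2) (hl : 0 < l)
    (hy : 0 < y) (hI : 0 < I) (hJ0 : 0 < Jc) (hJ : Jc ≤ I ^ 2) (h12 : t1 * t2 ≤ 4 / l)
    (hX : X ≤ q ^ 2 * y / (2560 * I ^ 2)) :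
    W * t1 / t2 * X ≤ W * ((q / t2) ^ 2 * (y / (20 * l)) / 4) / (8 * Jc) := by
  calc W * t1 / t2 * X ≤ W * t1 / t2 * (q ^ 2 * y / (2560 * I ^ 2)) := by gcongr
    _ = W * (q ^ 2 / t2 ^ 2) * y / (2560 * I ^ 2) * (t1 * t2) := by
        field_simp
    _ ≤ W * (q ^ 2 / t2 ^ 2) * y / (2560 * I ^ 2) * (4 / l) := by gcongr
    _ = W * (q ^ 2 / t2 ^ 2) * y / (640 * l * I ^ 2) := by
        field_simp
        ring
    _ ≤ W * (q ^ 2 / t2 ^ 2) * y / (640 * l * Jc) := by gcongr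
    _ = _ := by
        field_simp
        ring

lemma p10_g {κ l j s q Yv : ℝ} (hκ : 0 < κ) (hl : 0 < l) (hj : 0 < j) (hs : 0 < s)
    (hY : 0 < Yv) (h1 : Yv ≤ 20 * l * q) (h2 : κ * l * s ≤ 4 * j) :
    κ / 640 / j ≤ q / s / (8 * Yv) := by
  have hq : 0 < q := by
    by_contra hc
    have : 20 * l * q ≤ 0 := mul_nonpos_of_nonneg_of_nonpos (by positivity) (not_lt.1 hc)
    linarith
  rw [div_div, div_div, div_le_div_iff₀ (by positivity) (by positivity)]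
  calc κ * (s * (8 * Yv)) ≤ κ * (s * (8 * (20 * l * q))) := by gcongr
    _ = 160 * q * (κ * l * s) := by ring
    _ ≤ 160 * q * (4 * j) := by gcongr
    _ = q * (640 * j) := by ring

theorem cover_param : ∃ c1 : ℝ, 0 < c1 ∧ c1 ≤ 1 ∧ ∃ I0 : ℕ, ∀ I : ℕ, I0 ≤ I → ∀ y : ℕ,
    (I : ℝ) ^ 4 ≤ Real.log (Real.log y) → Real.log (Real.log y) < ((I : ℝ) + 1) ^ 4 →
    ∀ P : Finset ℕ, (P.card : ℝ) ≤ (I : ℝ) ^ c1 * y → (∀ a ∈ P, ∀ b ∈ P, a ≤ b + y ^ 3) →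
    (∀ j ∈ Ico I (I ^ 2), Phi (pr (160 ^ (12 * j)) (Nat.sqrt y)) (160 ^ (2 * j))
      (1 / (I : ℝ) ^ 4) P ≤ (y : ℝ) ^ 2 / (Real.log y) ^ 2) →
    (∀ j ∈ Ico I (I ^ 2), (K2 P (pr (y / 160 ^ (j + 1)) (y / 160 ^ j)) : ℝ)
      ≤ y * (pr (y / 160 ^ (j + 1)) (y / 160 ^ j)).card * 2000 ^ j) →
    ∃ a : ℕ → ℕ, ∀ x ∈ P, ∃ r, r.Prime ∧ 3 ≤ r ∧ r ≤ y ∧ x ≡ a r [MOD r] := by
  obtain ⟨c0, hc0, hlow⟩ := sig_lower
  obtain ⟨C, hC0, hup⟩ := sum_inv_upper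
  set κ : ℝ := min (c0 / 72) 1 with hκd
  have hκ : 0 < κ := by rw [hκd]; positivity
  have hκ1 : κ ≤ 1 := min_le_right _ _
  have hκ2 : κ ≤ c0 / 72 := min_le_left _ _
  obtain ⟨I0, hI0⟩ := par_ev κ C hκ hC0
  refine ⟨κ / 1280, by positivity, by linarith, max I0 (max 30720 ⌈C⌉₊), ?_⟩
  intro I hI y h1 h2 P hP hPd hPhi hK2
  have hIa : I0 ≤ I := (le_max_left _ _).trans hI
  have hIb : 30720 ≤ I := ((le_max_left _ _).trans (le_max_right _ _)).trans hI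
  have hIc : ⌈C⌉₊ ≤ I := ((le_max_right _ _).trans (le_max_right _ _)).trans hI
  obtain ⟨e1, e2, e3, _, _, e6, e7⟩ := hI0 I hIa
  have b : Base c0 C I y := ⟨by omega, hc0, hC0, (Nat.le_ceil C).trans (by exact_mod_cast hIc),
    h1, h2, hlow, hup⟩
  set l : ℝ := Real.log y with hl
  have hl0 : 0 < l := b.l_pos
  have hy0 : (0 : ℝ) < y := b.y_pos
  have hyl : (y : ℝ) = Real.exp l := b.exp_l.symm
  have hl4 : l ^ 4 ≤ Real.exp (l / 4) := e7 l b.l_ge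
  have hIR : (0 : ℝ) < I := by linarith
  have hIR1 : (1 : ℝ) ≤ I := by linarith
  -- the size of `P`
  have hP1 : (P.card : ℝ) ≤ I * y := by
    refine hP.trans (mul_le_mul_of_nonneg_right ?_ hy0.le)
    calc (I : ℝ) ^ (κ / 1280) ≤ (I : ℝ) ^ (1 : ℝ) :=
          Real.rpow_le_rpow_of_exponent_le hIR1 (by linarith)
      _ = I := Real.rpow_one _
  have hP0 : (0 : ℝ) ≤ P.card := Nat.cast_nonneg _
  -- the number of scales
  have hII : I ≤ I ^ 2 := by nlinarith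
  have hJcard : ((Ico I (I ^ 2)).card : ℝ) ≤ (I : ℝ) ^ 2 := by
    rw [Nat.card_Ico]
    have : I ^ 2 - I ≤ I ^ 2 := Nat.sub_le _ _
    exact_mod_cast this
  have hJ0 : (0 : ℝ) < (Ico I (I ^ 2)).card := by
    rw [Nat.card_Ico]
    have : 0 < I ^ 2 - I := by
      have : I < I ^ 2 := by nlinarith
      omega
    exact_mod_cast this
  -- facts on one scale
  have hscale : ∀ j ∈ Ico I (I ^ 2), (10 : ℝ) ^ 7 * (I : ℝ) ^ 4 * j ≤ κ * 160 ^ j ∧
      (10 : ℝ) ^ 12 * (I : ℝ) ^ 5 * j * (160 ^ j) ^ 4 ≤ κ * l ∧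
      (2000 : ℝ) ^ j * (15360 * (I : ℝ) ^ 2) ≤ (160 ^ j) ^ 2 ∧ (1 : ℝ) ≤ j := by
    intro j hj
    obtain ⟨hj1, hj2⟩ := mem_Ico.1 hj
    have hj1R : (I : ℝ) ≤ j := by exact_mod_cast hj1
    have hj2R : (j : ℝ) ≤ (I : ℝ) ^ 2 := by exact_mod_cast hj2.le
    have hexp : ∀ {B : ℝ}, Real.exp 1 ≤ B → 10 ^ 7 / κ * (I : ℝ) ^ 4 ≤ B ^ j := by
      intro B hB
      calc 10 ^ 7 / κ * (I : ℝ) ^ 4 ≤ Real.exp I := e6
        _ ≤ Real.exp j := Real.exp_le_exp.2 hj1R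
        _ = (Real.exp 1) ^ j := by rw [← Real.exp_nat_mul, mul_one]
        _ ≤ B ^ j := pow_le_pow_left₀ (Real.exp_pos _).le hB j
    have he : Real.exp 1 ≤ 3 := by
      have := Real.exp_one_lt_d9
      linarith
    refine ⟨?_, ?_, ?_, by linarith⟩
    · have h80 := hexp (B := 80) (by linarith)
      have h2j : (j : ℝ) ≤ 2 ^ j := by
        have := (Nat.lt_two_pow_self (n := j)).le
        exact_mod_cast this
      have e : (160 : ℝ) ^ j = 80 ^ j * 2 ^ j := by rw [← mul_pow]; norm_num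
      rw [e]
      calc (10 : ℝ) ^ 7 * (I : ℝ) ^ 4 * j = κ * ((10 ^ 7 / κ * (I : ℝ) ^ 4) * j) := by
            field_simp
        _ ≤ κ * (80 ^ j * 2 ^ j) := by gcongr
    · have h160 : ((160 : ℝ) ^ j) ^ 4 ≤ 160 ^ (4 * I ^ 2) := by
        rw [← pow_mul]
        exact pow_le_pow_right₀ (by norm_num) (by omega)
      calc (10 : ℝ) ^ 12 * (I : ℝ) ^ 5 * j * (160 ^ j) ^ 4
          ≤ (10 : ℝ) ^ 12 * (I : ℝ) ^ 5 * (I : ℝ) ^ 2 * 160 ^ (4 * I ^ 2) := by gcongr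
        _ = κ * (10 ^ 12 / κ * (I : ℝ) ^ 7 * 160 ^ (4 * I ^ 2)) := by
            field_simp
        _ ≤ κ * Real.exp ((I : ℝ) ^ 4) := by gcongr
        _ ≤ κ * l := by
            have := b.l_ge
            gcongr
    · have h64 := hexp (B := 64 / 5) (by linarith)
      have e : ((160 : ℝ) ^ j) ^ 2 = 2000 ^ j * (64 / 5) ^ j := by
        rw [← pow_mul, mul_comm j 2, pow_mul, ← mul_pow]
        norm_num
      rw [e]
      refine mul_le_mul_of_nonneg_left (le_trans ?_ h64) (by positivity)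
      have h3 : (10 : ℝ) ^ 7 ≤ 10 ^ 7 / κ := by
        rw [le_div_iff₀ hκ]
        nlinarith
      have h4 : (I : ℝ) ^ 2 ≤ (I : ℝ) ^ 4 := pow_le_pow_right₀ hIR1 (by norm_num)
      calc 15360 * (I : ℝ) ^ 2 ≤ 10 ^ 7 * (I : ℝ) ^ 4 := by nlinarith [pow_pos hIR 2]
        _ ≤ 10 ^ 7 / κ * (I : ℝ) ^ 4 := by gcongr
  have hM : ∀ j : ℕ, (((160 ^ (2 * j) : ℕ)) : ℝ) = ((160 : ℝ) ^ j) ^ 2 := by
    intro j
    push_cast
    rw [← pow_mul, mul_comm]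
  have hR : ∀ j : ℕ, (((160 ^ (12 * j) : ℕ)) : ℝ) = ((160 : ℝ) ^ j) ^ 12 := by
    intro j
    push_cast
    rw [← pow_mul, mul_comm]
  have hYv : ∀ j ∈ Ico I (I ^ 2), (y : ℝ) ≤ 2 * 160 ^ j * ((y / 160 ^ j : ℕ) : ℝ) := by
    intro j hj
    obtain ⟨_, hj2⟩ := mem_Ico.1 hj
    have h3 := b.Yv_ge hj2.le
    rw [div_le_iff₀ (by positivity)] at h3
    linarith
  have hYv0 : ∀ j ∈ Ico I (I ^ 2), (0 : ℝ) < ((y / 160 ^ j : ℕ) : ℝ) := by
    intro j hj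
    obtain ⟨_, hj2⟩ := mem_Ico.1 hj
    have h3 := b.Yv_big hj2.le
    have : 0 < y / 160 ^ j := lt_of_lt_of_le (by norm_num) h3
    exact_mod_cast this
  have hQge : ∀ j ∈ Ico I (I ^ 2), ((y / 160 ^ j : ℕ) : ℝ) ≤
      20 * l * (pr (y / 160 ^ (j + 1)) (y / 160 ^ j)).card := by
    intro j hj
    obtain ⟨_, hj2⟩ := mem_Ico.1 hj
    have h3 := b.Q_ge hj2.le
    rw [div_le_iff₀ (by positivity)] at h3
    linarith
  have hQ0 : ∀ j ∈ Ico I (I ^ 2), (0 : ℝ) < (pr (y / 160 ^ (j + 1)) (y / 160 ^ j)).card := by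
    intro j hj
    have h3 := hQge j hj
    have h4 := hYv0 j hj
    by_contra hc
    have h5 : ((pr (y / 160 ^ (j + 1)) (y / 160 ^ j)).card : ℝ) ≤ 0 := not_lt.1 hc
    have h6 : 20 * l * ((pr (y / 160 ^ (j + 1)) (y / 160 ^ j)).card : ℝ) ≤ 0 :=
      mul_nonpos_of_nonneg_of_nonpos (by positivity) h5
    linarith
  have hs12 : ∀ j ∈ Ico I (I ^ 2), sig (pr 2 (160 ^ (12 * j))) *
      sig (pr (160 ^ (12 * j)) (Nat.sqrt y)) ≤ 4 / l := by
    intro j hj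
    obtain ⟨hj1, hj2⟩ := mem_Ico.1 hj
    rw [b.sig_mul hj1 hj2]
    exact b.sigT
  have hs2 : ∀ j ∈ Ico I (I ^ 2), κ * l * sig (pr (160 ^ (12 * j)) (Nat.sqrt y)) ≤ 4 * j := by
    intro j hj
    obtain ⟨hj1, hj2⟩ := mem_Ico.1 hj
    have h3 := b.sig2 hj1 hj2
    have h4 := b.sig2_pos (j := j)
    have hj0 : (0 : ℝ) < j := by
      have : 0 < j := by omega
      exact_mod_cast this
    rw [← one_div, div_le_div_iff₀ (by positivity) h4] at h3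
    have h5 : κ * l * sig (pr (160 ^ (12 * j)) (Nat.sqrt y)) ≤
        c0 / 72 * l * sig (pr (160 ^ (12 * j)) (Nat.sqrt y)) := by gcongr
    refine h5.trans ?_
    have h6 : c0 * l * sig (pr (160 ^ (12 * j)) (Nat.sqrt y)) ≤ 288 * j := by linarith
    calc c0 / 72 * l * sig (pr (160 ^ (12 * j)) (Nat.sqrt y))
        = (c0 * l * sig (pr (160 ^ (12 * j)) (Nat.sqrt y))) / 72 := by ring
      _ ≤ (288 * j) / 72 := by gcongr
      _ = 4 * j := by ring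
  have hy1 : 1 < y := by
    have h3 := b.sqrt3
    have h4 := Nat.sqrt_le_self y
    omega
  have hθ : (0 : ℝ) < y / (20 * l) := by positivity
  have hsqrt_div : ∀ j ∈ Ico I (I ^ 2), Nat.sqrt y ≤ y / 160 ^ (j + 1) := by
    intro j hj
    obtain ⟨_, hj2⟩ := mem_Ico.1 hj
    exact b.p10_sqrt_le_div (by omega)
  have hsqrt0 : Nat.sqrt y ≤ y / 160 := by
    have := b.p10_sqrt_le_div (j := 0) (by nlinarith)
    simpa using this
  have hmono : ∀ i j : ℕ, i ≤ j → y / 160 ^ j ≤ y / 160 ^ i := fun i j hij =>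
    Nat.div_le_div_left (Nat.pow_le_pow_right (by norm_num) hij) (by positivity)
  -- the condition on `DD`
  have hD : ∀ j ∈ Ico I (I ^ 2), ∑ N ∈ range (∏ r ∈ pr 2 (Nat.sqrt y), r),
      DD (pr 2 (160 ^ (12 * j))) (pr (160 ^ (12 * j)) (Nat.sqrt y)) (160 ^ (2 * j)) P
        (pr (y / 160 ^ (j + 1)) (y / 160 ^ j)) N
      ≤ ((∏ r ∈ pr 2 (Nat.sqrt y), r : ℕ) : ℝ) *
        (((pr (y / 160 ^ (j + 1)) (y / 160 ^ j)).card /
          sig (pr (160 ^ (12 * j)) (Nat.sqrt y))) ^ 2 * (y / (20 * l)) / 4) /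
          (8 * (Ico I (I ^ 2)).card) := by
    intro j hj
    obtain ⟨hj1, hj2⟩ := mem_Ico.1 hj
    obtain ⟨f1, f2, f3, f4⟩ := hscale j hj
    have hm := momD (b.setup hj1 hj2) P (pr (y / 160 ^ (j + 1)) (y / 160 ^ j)) 6
      (b.p10_w_le hj1 hj2 hPd) (1 / (I : ℝ) ^ 4) (by positivity)
    rw [b.WW hj1 hj2] at hm
    refine hm.trans ?_
    refine p10_parD2 (Nat.cast_nonneg _) b.sig1_pos b.sig2_pos hl0 hy0 hIR hJ0 hJcard
      (hs12 j hj) ?_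
    have hb1 : (10 : ℝ) ^ 7 * (I : ℝ) ^ 4 ≤ 160 ^ j := by
      have h3 : (10 : ℝ) ^ 7 * (I : ℝ) ^ 4 ≤ (10 : ℝ) ^ 7 * (I : ℝ) ^ 4 * j := by
        have : (0 : ℝ) ≤ 10 ^ 7 * (I : ℝ) ^ 4 := by positivity
        nlinarith
      have h4 : κ * (160 : ℝ) ^ j ≤ 160 ^ j := by
        have : (0 : ℝ) < 160 ^ j := by positivity
        nlinarith
      linarith
    have hb2 : (10 : ℝ) ^ 12 * (I : ℝ) ^ 5 * (160 ^ j) ^ 4 ≤ l := by
      have h3 : (10 : ℝ) ^ 12 * (I : ℝ) ^ 5 * (160 ^ j) ^ 4 ≤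
          (10 : ℝ) ^ 12 * (I : ℝ) ^ 5 * j * (160 ^ j) ^ 4 := by
        have h5 : (0 : ℝ) ≤ 10 ^ 12 * (I : ℝ) ^ 5 * (160 ^ j) ^ 4 := by positivity
        calc _ = (10 : ℝ) ^ 12 * (I : ℝ) ^ 5 * (160 ^ j) ^ 4 * 1 := (mul_one _).symm
          _ ≤ (10 : ℝ) ^ 12 * (I : ℝ) ^ 5 * (160 ^ j) ^ 4 * j := by gcongr
          _ = _ := by ring
      have h4 : κ * l ≤ l := by nlinarith
      linarith
    have hPhi0 : 0 ≤ Phi (pr (160 ^ (12 * j)) (Nat.sqrt y)) (160 ^ (2 * j))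
        (1 / (I : ℝ) ^ 4) P := by
      unfold Phi
      refine sum_nonneg fun p hp => ?_
      have h3 := (mem_filter.1 hp).2.2
      have h4 : (0 : ℝ) ≤ 1 / (I : ℝ) ^ 4 := by positivity
      linarith
    have hLam0 : 0 ≤ Lam (pr (160 ^ (12 * j)) (Nat.sqrt y)) (160 ^ (2 * j)) := by
      unfold Lam
      refine prod_nonneg fun r hr => inv_nonneg.2 ?_
      have h3 := (b.setup hj1 hj2).big r hr
      have h4 := (b.setup hj1 hj2).MR
      have h5 : (((160 ^ (2 * j) : ℕ)) : ℝ) / r ≤ 1 := by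
        have hr0 : (0 : ℝ) < r := by exact_mod_cast (pr_prime hr).pos
        rw [div_le_one hr0]
        exact_mod_cast (by omega : 160 ^ (2 * j) ≤ r)
      linarith
    have key := parD (b := (160 : ℝ) ^ j) (l := l) (y := (y : ℝ)) (I := (I : ℝ))
      (p := (P.card : ℝ)) (q := ((pr (y / 160 ^ (j + 1)) (y / 160 ^ j)).card : ℝ))
      (k2 := (K2 P (pr (y / 160 ^ (j + 1)) (y / 160 ^ j)) : ℝ)) (v := (2000 : ℝ) ^ j)
      (phi := Phi (pr (160 ^ (12 * j)) (Nat.sqrt y)) (160 ^ (2 * j)) (1 / (I : ℝ) ^ 4) P)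
      (lam := Lam (pr (160 ^ (12 * j)) (Nat.sqrt y)) (160 ^ (2 * j)))
      (ex := Real.exp (2 * (((160 ^ (2 * j) : ℕ)) : ℝ) ^ 2 *
        ∑ r ∈ pr (160 ^ (12 * j)) (Nat.sqrt y), (1 : ℝ) / r))
      hl0 hyl e1 hb1 hP0 hP1 (hQ0 j hj)
      (by
        have h3 := hYv j hj
        have h4 := hQge j hj
        calc (y : ℝ) ≤ 2 * 160 ^ j * ((y / 160 ^ j : ℕ) : ℝ) := h3
          _ ≤ 2 * 160 ^ j * (20 * l * (pr (y / 160 ^ (j + 1)) (y / 160 ^ j)).card) := by gcongr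
          _ = _ := by ring)
      f3 (hK2 j hj) hPhi0 (hPhi j hj) hLam0 (b.Lam_le hj1 hj2) (Real.exp_pos _).le
      (b.exp_le hj1 hj2) hl4 hb2
    rw [hM, hR]
    rw [hM] at key
    push_cast
    exact key
  -- the condition on `BB`
  have hB : ∀ j ∈ Ico I (I ^ 2), ∑ N ∈ range (∏ r ∈ pr 2 (Nat.sqrt y), r),
      BB (pr 2 (160 ^ (12 * j))) (pr (160 ^ (12 * j)) (Nat.sqrt y)) (160 ^ (2 * j)) P
        (pr (y / 160 ^ (j + 1)) (y / 160 ^ j)) N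
      ≤ ((∏ r ∈ pr 2 (Nat.sqrt y), r : ℕ) : ℝ) *
        ((pr (y / 160 ^ (j + 1)) (y / 160 ^ j)).card /
          sig (pr (160 ^ (12 * j)) (Nat.sqrt y)) * (y / (20 * l)) * ((y / 160 ^ j : ℕ) : ℝ) /
          (8 * ((160 ^ (2 * j) : ℕ) : ℝ))) / (8 * (Ico I (I ^ 2)).card) := by
    intro j hj
    obtain ⟨hj1, hj2⟩ := mem_Ico.1 hj
    obtain ⟨f1, f2, f3, f4⟩ := hscale j hj
    have hm := momB (b.setup hj1 hj2) P (pr (y / 160 ^ (j + 1)) (y / 160 ^ j)) (y / 160 ^ j)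
      (fun q hq => ⟨(pr_prime hq).pos, (mem_Ioc.1 (mem_filter.1 hq).1).2⟩)
      (1 / (I : ℝ) ^ 4) (by positivity)
    rw [b.WW hj1 hj2] at hm
    refine hm.trans ?_
    rw [mul_div_assoc]
    refine mul_le_mul_of_nonneg_left ?_ (Nat.cast_nonneg _)
    rw [hM]
    exact parB hl0 hyl e1 f4 hκ hκ1 f1 hP0 hP1 (hQ0 j hj) (hPhi j hj) (b.Lam_le hj1 hj2) hl4 f2
      b.sig2_pos (hs2 j hj) (hYv j hj) hJ0 hJcard
  -- the gain
  have hgain : 4 * P.card * sig (pr 2 (Nat.sqrt y)) ≤ y / (20 * l) *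
      ∏ j ∈ Ico I (I ^ 2), (1 + (pr (y / 160 ^ (j + 1)) (y / 160 ^ j)).card /
        sig (pr (160 ^ (12 * j)) (Nat.sqrt y)) / (8 * ((y / 160 ^ j : ℕ) : ℝ))) := by
    have hg := par_gain (a := κ / 640) (by positivity) (by linarith) I (by omega) (I ^ 2 - I)
      (fun j => (pr (y / 160 ^ (j + 1)) (y / 160 ^ j)).card /
        sig (pr (160 ^ (12 * j)) (Nat.sqrt y)) / (8 * ((y / 160 ^ j : ℕ) : ℝ))) (by
        intro j hj
        have e : I + (I ^ 2 - I) = I ^ 2 := by omega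
        rw [e] at hj
        obtain ⟨_, _, _, f4⟩ := hscale j hj
        have g1 := hQge j hj
        have g2 := hs2 j hj
        have g3 := hYv0 j hj
        have g4 := b.sig2_pos (j := j)
        have hj0 : (0 : ℝ) < j := by linarith
        exact p10_g hκ hl0 hj0 g4 g3 g1 g2)
    have e : I + (I ^ 2 - I) = I ^ 2 := by omega
    rw [e] at hg
    have e' : (((I ^ 2 : ℕ) : ℝ) / I) = I := by
      push_cast
      field_simp
    rw [e'] at hg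
    have h3 : (I : ℝ) ^ (κ / 640) = (I : ℝ) ^ (κ / 1280) * (I : ℝ) ^ (κ / 1280) := by
      rw [← Real.rpow_add hIR]
      congr 1
      ring
    have h4 := b.sigT
    have h5 : True := trivial
    have h6 : 0 ≤ (I : ℝ) ^ (κ / 1280) := by positivity
    have h7 : (0 : ℝ) ≤ sig (pr 2 (Nat.sqrt y)) := (sig_pos _ fun _ h => pr_prime h).le
    calc 4 * P.card * sig (pr 2 (Nat.sqrt y))
        ≤ 4 * ((I : ℝ) ^ (κ / 1280) * y) * (4 / l) := by gcongr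
      _ = y / (20 * l) * (320 * (I : ℝ) ^ (κ / 1280)) := by
          field_simp
          ring
      _ ≤ y / (20 * l) * ((I : ℝ) ^ (κ / 1280) * (I : ℝ) ^ (κ / 1280)) := by gcongr
      _ = y / (20 * l) * (I : ℝ) ^ (κ / 640) := by rw [h3]
      _ ≤ _ := mul_le_mul_of_nonneg_left hg hθ.le
  -- the covering
  obtain ⟨a, ha⟩ := cover_main (pr 2 (Nat.sqrt y)) P (Ico I (I ^ 2)) (pr (y / 160) y)
    (fun j => pr 2 (160 ^ (12 * j))) (fun j => pr (160 ^ (12 * j)) (Nat.sqrt y))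
    (fun j => pr (y / 160 ^ (j + 1)) (y / 160 ^ j)) (fun j => 160 ^ (2 * j))
    (fun j => 160 ^ (12 * j)) (fun j => y / 160 ^ j) (y / (20 * l)) hθ
    (fun r hr => pr_prime hr)
    (fun j hj => b.setup (mem_Ico.1 hj).1 (mem_Ico.1 hj).2)
    (fun j hj => (b.split (mem_Ico.1 hj).1 (mem_Ico.1 hj).2).1)
    (fun j hj => by
      have := hYv0 j hj
      exact_mod_cast this)
    (fun j _ q hq => ⟨(pr_prime hq).pos, (mem_Ioc.1 (mem_filter.1 hq).1).2⟩)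
    (fun j hj => by
      have := hQ0 j hj
      exact Finset.card_pos.1 (by exact_mod_cast this))
    (fun i _ j _ hij => by
      rcases Nat.lt_or_gt_of_ne hij with h | h
      · exact p10_pr_disj (hmono (i + 1) j (by omega))
      · exact (p10_pr_disj (hmono (j + 1) i (by omega))).symm)
    (fun j hj => (p10_pr_disj (hsqrt_div j hj)).symm)
    (p10_pr_disj hsqrt0).symm
    (fun j hj => by
      refine (p10_pr_disj ?_).symm
      have h3 := hmono 1 j (by have := (mem_Ico.1 hj).1; omega)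
      simpa using h3)
    (by
      have h3 := GW6.cheb_lower y (by
        have h4 := b.Yv_big (j := 0) (Nat.zero_le _)
        simp only [pow_zero, Nat.div_one] at h4
        exact le_trans (by norm_num) h4)
      have h4 : (1 : ℝ) / 20 * (y / Real.log y) = y / (20 * l) := by
        rw [hl]
        field_simp
      rw [h4] at h3
      exact h3)
    hD hB hgain
  refine ⟨a, fun x hx => ?_⟩
  obtain ⟨r, hr, hm⟩ := ha x hx
  refine ⟨r, ?_⟩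
  have h3 := b.sqrt3
  have h4 := Nat.sqrt_le_self y
  rcases hr with hr | ⟨j, hj, hr⟩ | hr
  · have h5 := mem_Ioc.1 (mem_filter.1 hr).1
    exact ⟨pr_prime hr, by omega, by omega, hm⟩
  · have h5 := mem_Ioc.1 (mem_filter.1 hr).1
    have h6 := hsqrt_div j hj
    have h7 := Nat.div_le_self y (160 ^ j)
    exact ⟨pr_prime hr, by omega, by omega, hm⟩
  · have h5 := mem_Ioc.1 (mem_filter.1 hr).1
    exact ⟨pr_prime hr, by omega, by omega, hm⟩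

end Pool.Agent.GWC
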