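import Pool.Agent.GWC.ParA0
import Pool.Agent.GWC.MomB

/-! # The side conditions of the covering: second moment over the moduli, gain, disjointness -/

namespace Pool.Agent.GWC

open Finset

variable {c0 C : ℝ} {I y : ℕ} {j : ℕ}

theorem Base.l_one (b : Base c0 C I y) : (1 : ℝ) ≤ Real.log y :=
  le_trans (by norm_num) b.l_big

/-- `(log y)^5 ≤ y^(1/8)` -/
theorem Base.l5 (b : Base c0 C I y) : (Real.log y) ^ 5 ≤ Real.exp (Real.log y / 8) := by
  have h1 := b.l40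
  rw [← b.exp_l] at h1
  have h2 : (Real.exp (Real.log y / 8)) ^ 8 = Real.exp (Real.log y) := by
    rw [← Real.exp_nat_mul]
    congr 1
    push_cast
    ring
  have h3 : ((Real.log y) ^ 5) ^ 8 ≤ (Real.exp (Real.log y / 8)) ^ 8 := by
    rw [h2, ← pow_mul]
    rw [b.exp_l] at h1 ⊢
    exact h1
  exact le_of_pow_le_pow_left₀ (by norm_num) (by positivity) h3

theorem Base.I2_le (b : Base c0 C I y) : (I : ℝ) ^ 2 ≤ Real.log y := by
  refine le_trans ?_ b.l_ge
  have h1 := Real.add_one_le_exp ((I : ℝ) ^ 4)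
  have h2 := b.I4
  nlinarith [sq_nonneg (I : ℝ)]

theorem Base.I_le (b : Base c0 C I y) : (I : ℝ) ≤ Real.log y := by
  have h1 := b.I2_le
  have h2 := b.IR
  nlinarith

/-! ### the sets of moduli -/

theorem Base.Yv_pos (b : Base c0 C I y) (hj2 : j ≤ I ^ 2) : 0 < y / 160 ^ j := by
  have := b.Yv_big hj2
  exact lt_of_lt_of_le (by norm_num) this

theorem Q_range {q : ℕ} (hq : q ∈ pr (y / 160 ^ (j + 1)) (y / 160 ^ j)) :
    0 < q ∧ q ≤ y / 160 ^ j := by
  have h := (mem_filter.1 hq)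
  exact ⟨h.2.pos, (mem_Ioc.1 h.1).2⟩

theorem Base.Q_nonempty (b : Base c0 C I y) (hj2 : j ≤ I ^ 2) :
    (pr (y / 160 ^ (j + 1)) (y / 160 ^ j)).Nonempty := by
  have h1 := b.Q_ge hj2
  have h2 : (0 : ℝ) < ((y / 160 ^ j : ℕ) : ℝ) := by exact_mod_cast b.Yv_pos hj2
  have h3 := b.l_pos
  have h4 : (0 : ℝ) < ((pr (y / 160 ^ (j + 1)) (y / 160 ^ j)).card : ℝ) :=
    lt_of_lt_of_le (by positivity) h1
  rw [← card_pos]
  exact_mod_cast h4

theorem pr_disjoint {a b c d : ℕ} (h : b ≤ c) : Disjoint (pr a b) (pr c d) := by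
  rw [Finset.disjoint_left]
  intro x hx hx'
  simp only [pr, mem_filter, mem_Ioc] at hx hx'
  omega

theorem Q_disjoint {i j : ℕ} (h : i ≠ j) :
    Disjoint (pr (y / 160 ^ (i + 1)) (y / 160 ^ i)) (pr (y / 160 ^ (j + 1)) (y / 160 ^ j)) := by
  have key : ∀ i j : ℕ, i < j →
      Disjoint (pr (y / 160 ^ (i + 1)) (y / 160 ^ i)) (pr (y / 160 ^ (j + 1)) (y / 160 ^ j)) := by
    intro i j hij
    refine (pr_disjoint ?_).symm
    exact Nat.div_le_div_left (Nat.pow_le_pow_right (by norm_num) hij) (by positivity)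
  rcases lt_or_gt_of_ne h with h1 | h1
  · exact key i j h1
  · exact (key j i h1).symm

theorem Base.sqrt_le_div (b : Base c0 C I y) {k : ℕ} (hk : k ≤ 12 * I ^ 2) :
    Nat.sqrt y ≤ y / 160 ^ k := by
  rw [Nat.le_div_iff_mul_le (by positivity)]
  exact (Nat.mul_le_mul_left _ (b.sqrt_ge hk)).trans (Nat.sqrt_le y)

theorem Base.TQ_disjoint (b : Base c0 C I y) (hj2 : j < I ^ 2) :
    Disjoint (pr 2 (Nat.sqrt y)) (pr (y / 160 ^ (j + 1)) (y / 160 ^ j)) :=
  pr_disjoint (b.sqrt_le_div (by omega))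

theorem Base.TQ'_disjoint (b : Base c0 C I y) :
    Disjoint (pr 2 (Nat.sqrt y)) (pr (y / 160) y) := by
  have h := b.sqrt_le_div (k := 1) (by have := b.hI; nlinarith)
  rw [pow_one] at h
  exact pr_disjoint h

theorem QQ'_disjoint (hj : 1 ≤ j) :
    Disjoint (pr (y / 160 ^ (j + 1)) (y / 160 ^ j)) (pr (y / 160) y) := by
  refine pr_disjoint ?_
  have h : y / 160 ^ j ≤ y / 160 ^ 1 :=
    Nat.div_le_div_left (Nat.pow_le_pow_right (by norm_num) hj) (by positivity)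
  rwa [pow_one] at h

theorem Base.Q'_ge (b : Base c0 C I y) :
    (y : ℝ) / (20 * Real.log y) ≤ ((pr (y / 160) y).card : ℝ) := by
  have h1 := b.Yv_big (j := 0) (Nat.zero_le _)
  rw [pow_zero, Nat.div_one] at h1
  have h2 := GW6.cheb_lower y (le_trans (by norm_num) h1)
  refine le_trans (le_of_eq ?_) h2
  have := b.l_pos
  field_simp

/-- at most six moduli divide a difference -/
theorem Base.w_le (b : Base c0 C I y) (hj2 : j < I ^ 2) (P : Finset ℕ)
    (hP : ∀ a ∈ P, ∀ b ∈ P, a ≤ b + y ^ 3) (u v : ℕ) (hu : u ∈ P) (hv : v ∈ P) (huv : u ≠ v) :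
    ((pr (y / 160 ^ (j + 1)) (y / 160 ^ j)).filter (fun q => u % q = v % q)).card ≤ 6 := by
  by_contra hcon
  push Not at hcon
  set S := (pr (y / 160 ^ (j + 1)) (y / 160 ^ j)).filter (fun q => u % q = v % q) with hS
  set D := (u - v) + (v - u) with hD
  have hD0 : 0 < D := by omega
  have hD1 : D ≤ y ^ 3 := by
    have h1 := hP u hu v hv
    have h2 := hP v hv u hu
    omega
  have hdvd : ∀ q ∈ S, q ∣ D := by
    intro q hq
    have h1 : u ≡ v [MOD q] := (mem_filter.1 hq).2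
    rcases le_total u v with h | h
    · have h2 : q ∣ v - u := (Nat.modEq_iff_dvd' h).1 h1
      have h3 : D = v - u := by omega
      rwa [h3]
    · have h2 : q ∣ u - v := (Nat.modEq_iff_dvd' h).1 h1.symm
      have h3 : D = u - v := by omega
      rwa [h3]
  have hprod : ∏ q ∈ S, q ∣ D :=
    Finset.prod_primes_dvd D (fun q hq => (pr_prime (mem_filter.1 hq).1).prime) hdvd
  have hle : ∏ q ∈ S, q ≤ y ^ 3 := (Nat.le_of_dvd hD0 hprod).trans hD1
  have hlow : (y / 160 ^ (j + 1) + 1) ^ S.card ≤ ∏ q ∈ S, q := by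
    refine Finset.pow_card_le_prod S (fun q => q) _ fun q hq => ?_
    have := (mem_Ioc.1 (mem_filter.1 (mem_filter.1 hq).1).1).1
    omega
  have h7 : (y / 160 ^ (j + 1) + 1) ^ 7 ≤ y ^ 3 :=
    (Nat.pow_le_pow_right (Nat.succ_pos _) (by omega)).trans (hlow.trans hle)
  have h8 : (y : ℝ) / 160 ^ (j + 1) ≤ ((y / 160 ^ (j + 1) + 1 : ℕ) : ℝ) := by
    have h1 : y < 160 ^ (j + 1) * (y / 160 ^ (j + 1) + 1) :=
      Nat.lt_mul_div_succ y (by positivity)
    rw [div_le_iff₀ (by positivity), mul_comm]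
    exact_mod_cast h1.le
  have h9 : ((y : ℝ) / 160 ^ (j + 1)) ^ 7 ≤ (y : ℝ) ^ 3 := by
    refine (pow_le_pow_left₀ (by positivity) h8 7).trans ?_
    exact_mod_cast h7
  have hy := b.y_pos
  rw [div_pow, div_le_iff₀ (by positivity)] at h9
  have h10 : (160 : ℝ) ^ (j + 1) ≤ Real.log y := b.p160 (by omega)
  have h11 : ((160 : ℝ) ^ (j + 1)) ^ 7 ≤ (Real.log y) ^ 7 := pow_le_pow_left₀ (by positivity) h10 7
  have hl := b.l_one
  have h12 : (Real.log y) ^ 7 * Real.log y ≤ y := by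
    rw [← pow_succ]
    exact (pow_le_pow_right₀ hl (by norm_num)).trans b.l40
  have h13 : (Real.log y) ^ 7 ≤ y / 2 := by
    have h14 : (2 : ℝ) ≤ Real.log y := le_trans (by norm_num) b.l_big
    have h15 : 0 ≤ (Real.log y) ^ 7 := by positivity
    nlinarith
  have h16 : (y : ℝ) ^ 7 ≤ y ^ 3 * (y / 2) := by
    refine h9.trans ?_
    exact mul_le_mul_of_nonneg_left (h11.trans h13) (by positivity)
  have h17 : (1 : ℝ) ≤ y := by
    have h18 : (Real.log y) ^ 40 ≤ y := b.l40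
    have h19 : (1 : ℝ) ≤ (Real.log y) ^ 40 := one_le_pow₀ hl
    linarith
  have h20 : (y : ℝ) ^ 3 * y ≤ y ^ 7 := by
    rw [← pow_succ]
    exact pow_le_pow_right₀ h17 (by norm_num)
  have h21 : (0 : ℝ) < y ^ 3 * y := by positivity
  nlinarith

/-! ### the gain -/

theorem gain_prod (a : ℝ) (ha0 : 0 ≤ a) (ha1 : a ≤ 1) (I n : ℕ) (hI : 0 < I) (hn : I ≤ n) :
    ((n : ℝ) / I) ^ a ≤ ∏ j ∈ Ico I n, (1 + a / j) := by
  induction n, hn using Nat.le_induction with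
  | base =>
    have : ((I : ℝ) / I) = 1 := div_self (by positivity)
    rw [this]
    simp
  | succ n hn ih =>
    have hn0 : (0 : ℝ) < n := by exact_mod_cast (lt_of_lt_of_le hI hn)
    have hI0 : (0 : ℝ) < I := by exact_mod_cast hI
    rw [prod_Ico_succ_top hn]
    have h1 : (((n + 1 : ℕ) : ℝ) / I) = (n / I) * (1 + 1 / n) := by
      push_cast
      field_simp
    rw [h1, Real.mul_rpow (by positivity) (by positivity)]
    refine mul_le_mul ih ?_ (by positivity) (prod_nonneg fun j _ => by positivity)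
    have h2 := rpow_one_add_le_one_add_mul_self (s := 1 / (n : ℝ))
      (by have : (0 : ℝ) ≤ 1 / n := by positivity
          linarith) ha0 ha1
    refine h2.trans (le_of_eq ?_)
    ring

/-- each scale gains the factor `1 + (c0 / 46080) / j` -/
theorem Base.gain_one (b : Base c0 C I y) (hj1 : I ≤ j) (hj2 : j < I ^ 2) :
    1 + (c0 / 46080) / j ≤ 1 + ((pr (y / 160 ^ (j + 1)) (y / 160 ^ j)).card : ℝ)
      / sig (pr (160 ^ (12 * j)) (Nat.sqrt y)) / (8 * ((y / 160 ^ j : ℕ) : ℝ)) := by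
  have h1 := b.Q_ge (j := j) hj2.le
  have h2 := b.sig2 hj1 hj2
  have hl := b.l_pos
  have hY : (0 : ℝ) < ((y / 160 ^ j : ℕ) : ℝ) := by exact_mod_cast b.Yv_pos (j := j) hj2.le
  have hj : (0 : ℝ) < j := by
    have := b.hI
    exact_mod_cast (by omega : 0 < j)
  have hs := b.sig2_pos (j := j)
  have hc := b.hc0
  set Yv : ℝ := ((y / 160 ^ j : ℕ) : ℝ) with hYv
  have h3 : Yv / (20 * Real.log y) * (c0 * Real.log y / (288 * j))
      ≤ ((pr (y / 160 ^ (j + 1)) (y / 160 ^ j)).card : ℝ)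
        * (sig (pr (160 ^ (12 * j)) (Nat.sqrt y)))⁻¹ :=
    mul_le_mul h1 h2 (by positivity) (by positivity)
  have h4 : Yv / (20 * Real.log y) * (c0 * Real.log y / (288 * j)) / (8 * Yv)
      = (c0 / 46080) / j := by
    field_simp
    norm_num
  rw [← div_eq_mul_inv] at h3
  have h5 := div_le_div_of_nonneg_right h3 (by positivity : (0 : ℝ) ≤ 8 * Yv)
  rw [h4] at h5
  linarith

theorem Base.gain (b : Base c0 C I y) (hc1 : c0 ≤ 1) (c1 : ℝ) (hc1' : c1 = c0 / 92160)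
    (hI : (320 : ℝ) ≤ (I : ℝ) ^ c1) (P : Finset ℕ) (hP : (P.card : ℝ) ≤ (I : ℝ) ^ c1 * y) :
    4 * P.card * sig (pr 2 (Nat.sqrt y)) ≤ (y : ℝ) / (20 * Real.log y) *
      ∏ j ∈ Ico I (I ^ 2), (1 + ((pr (y / 160 ^ (j + 1)) (y / 160 ^ j)).card : ℝ)
        / sig (pr (160 ^ (12 * j)) (Nat.sqrt y)) / (8 * ((y / 160 ^ j : ℕ) : ℝ))) := by
  have hl := b.l_pos
  have hy := b.y_pos
  have hc := b.hc0
  have hIp : (0 : ℝ) < I := by
    have := b.IR
    linarith
  have hI0 : 0 < I := by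
    have := b.hI
    omega
  have hII : I ≤ I ^ 2 := by nlinarith
  have h1 := gain_prod (c0 / 46080) (by positivity) (by linarith) I (I ^ 2) hI0 hII
  have h2 : (((I ^ 2 : ℕ) : ℝ) / I) = I := by
    push_cast
    field_simp
  rw [h2] at h1
  have h3 : ∏ j ∈ Ico I (I ^ 2), (1 + (c0 / 46080) / (j : ℝ)) ≤
      ∏ j ∈ Ico I (I ^ 2), (1 + ((pr (y / 160 ^ (j + 1)) (y / 160 ^ j)).card : ℝ)
        / sig (pr (160 ^ (12 * j)) (Nat.sqrt y)) / (8 * ((y / 160 ^ j : ℕ) : ℝ))) := by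
    refine prod_le_prod (fun j _ => by positivity) fun j hj => ?_
    rw [mem_Ico] at hj
    exact b.gain_one hj.1 hj.2
  have h4 := h1.trans h3
  have h5 : (I : ℝ) ^ (c0 / 46080) = (I : ℝ) ^ c1 * (I : ℝ) ^ c1 := by
    rw [← Real.rpow_add hIp]
    congr 1
    rw [hc1']
    ring
  have h6 : 0 < (I : ℝ) ^ c1 := Real.rpow_pos_of_pos hIp _
  have h7 : 320 * (I : ℝ) ^ c1 ≤ ∏ j ∈ Ico I (I ^ 2),
      (1 + ((pr (y / 160 ^ (j + 1)) (y / 160 ^ j)).card : ℝ)
        / sig (pr (160 ^ (12 * j)) (Nat.sqrt y)) / (8 * ((y / 160 ^ j : ℕ) : ℝ))) := by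
    refine le_trans ?_ h4
    rw [h5]
    exact mul_le_mul_of_nonneg_right hI h6.le
  calc 4 * P.card * sig (pr 2 (Nat.sqrt y))
      ≤ 4 * ((I : ℝ) ^ c1 * y) * (4 / Real.log y) := by
        refine mul_le_mul (by linarith) b.sigT (sig_pos _ fun _ h => pr_prime h).le
          (by positivity)
    _ = (y : ℝ) / (20 * Real.log y) * (320 * (I : ℝ) ^ c1) := by
        field_simp
        ring
    _ ≤ _ := mul_le_mul_of_nonneg_left h7 (by positivity)

/-! ### the condition on `BB` -/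

theorem pow_j (j : ℕ) (hj : 10 ≤ j) : 2949120 * (j : ℝ) ^ 2 ≤ 160 ^ j := by
  induction j, hj using Nat.le_induction with
  | base => norm_num
  | succ n hn ih =>
    rw [pow_succ (160 : ℝ) n]
    have hn' : (10 : ℝ) ≤ n := by exact_mod_cast hn
    have h1 : ((n : ℝ) + 1) ^ 2 ≤ 160 * (n : ℝ) ^ 2 := by nlinarith
    push_cast
    linarith

theorem Base.condB (b : Base c0 C I y) (hcI : 1 ≤ c0 * I) (c1 : ℝ) (hc1 : c1 ≤ 1)
    (P : Finset ℕ) (hP : (P.card : ℝ) ≤ (I : ℝ) ^ c1 * y) (hj1 : I ≤ j) (hj2 : j < I ^ 2)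
    (hPhi : Phi (pr (160 ^ (12 * j)) (Nat.sqrt y)) (160 ^ (2 * j)) (1 / (I : ℝ) ^ 4) P
      ≤ (y : ℝ) ^ 2 / (Real.log y) ^ 2) :
    ∑ N ∈ range (∏ r ∈ pr 2 (Nat.sqrt y), r), BB (pr 2 (160 ^ (12 * j)))
      (pr (160 ^ (12 * j)) (Nat.sqrt y)) (160 ^ (2 * j)) P
      (pr (y / 160 ^ (j + 1)) (y / 160 ^ j)) N
      ≤ ((∏ r ∈ pr 2 (Nat.sqrt y), r : ℕ) : ℝ) *
        (((pr (y / 160 ^ (j + 1)) (y / 160 ^ j)).card : ℝ)
          / sig (pr (160 ^ (12 * j)) (Nat.sqrt y)) * ((y : ℝ) / (20 * Real.log y))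
          * ((y / 160 ^ j : ℕ) : ℝ) / (8 * ((160 ^ (2 * j) : ℕ) : ℝ)))
          / (8 * ((Ico I (I ^ 2)).card : ℝ)) := by
  have hl := b.l_pos
  have hl1 := b.l_one
  have hy := b.y_pos
  have hc := b.hc0
  have hI10 := b.IR
  have hIp : (0 : ℝ) < I := by linarith
  have hj10 : 10 ≤ j := by
    have := b.hI
    omega
  have hj : (0 : ℝ) < j := by exact_mod_cast (by omega : 0 < j)
  have hIj : (I : ℝ) ≤ j := by exact_mod_cast hj1
  have hjI : (j : ℝ) ≤ (I : ℝ) ^ 2 := by exact_mod_cast hj2.le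
  have hm := momB (b.setup hj1 hj2) P (pr (y / 160 ^ (j + 1)) (y / 160 ^ j)) (y / 160 ^ j)
    (fun q hq => Q_range hq) (1 / (I : ℝ) ^ 4) (by positivity)
  rw [b.WW hj1 hj2] at hm
  refine hm.trans ?_
  rw [mul_div_assoc]
  refine mul_le_mul_of_nonneg_left ?_ (by positivity)
  -- the number of scales
  have hJ1 : ((Ico I (I ^ 2)).card : ℝ) ≤ (I : ℝ) ^ 2 := by
    rw [Nat.card_Ico]
    exact_mod_cast Nat.sub_le _ _
  have hJ0 : (0 : ℝ) < ((Ico I (I ^ 2)).card : ℝ) := by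
    rw [Nat.card_Ico]
    have : 0 < I ^ 2 - I := by
      have := b.hI
      have h2 : I < I ^ 2 := by nlinarith
      omega
    exact_mod_cast this
  set Jc : ℝ := ((Ico I (I ^ 2)).card : ℝ) with hJc
  set Q : ℝ := ((pr (y / 160 ^ (j + 1)) (y / 160 ^ j)).card : ℝ) with hQ
  have hQ0 : 0 ≤ Q := by positivity
  set Yv : ℝ := ((y / 160 ^ j : ℕ) : ℝ) with hYv
  have hY0 : 0 < Yv := by
    rw [hYv]
    exact_mod_cast b.Yv_pos (j := j) hj2.le
  have hM : ((160 ^ (2 * j) : ℕ) : ℝ) = ((160 : ℝ) ^ j) ^ 2 := by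
    push_cast
    rw [← pow_mul, mul_comm 2 j]
  rw [hM]
  set u : ℝ := (160 : ℝ) ^ j with hu
  have hu0 : 0 < u := by positivity
  have hul : u ≤ Real.log y := b.p160 (by omega)
  have hs := b.sig2_pos (j := j)
  have hs2 := b.sig2 hj1 hj2
  set s := sig (pr (160 ^ (12 * j)) (Nat.sqrt y)) with hsdef
  set l := Real.log y with hldef
  -- lower bound for the right side
  have hR : c0 * y * Yv / (368640 * j * u ^ 2 * (I : ℝ) ^ 2) ≤
      s⁻¹ * ((y : ℝ) / (20 * l)) * Yv / (8 * u ^ 2) / (8 * Jc) := by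
    have h1 : c0 * l / (288 * j) * ((y : ℝ) / (20 * l)) * Yv / (8 * u ^ 2) / (8 * (I : ℝ) ^ 2)
        ≤ s⁻¹ * ((y : ℝ) / (20 * l)) * Yv / (8 * u ^ 2) / (8 * Jc) := by
      have h2 : c0 * l / (288 * j) * ((y : ℝ) / (20 * l)) * Yv / (8 * u ^ 2)
          ≤ s⁻¹ * ((y : ℝ) / (20 * l)) * Yv / (8 * u ^ 2) := by
        refine div_le_div_of_nonneg_right ?_ (by positivity)
        refine mul_le_mul_of_nonneg_right ?_ hY0.le
        exact mul_le_mul_of_nonneg_right hs2 (by positivity)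
      refine div_le_div₀ (by positivity) h2 (by positivity) (by linarith)
    refine le_trans (le_of_eq ?_) h1
    field_simp
    norm_num
  -- first part
  have hYlow : (y : ℝ) / (2 * u) ≤ Yv := b.Yv_ge (j := j) hj2.le
  have hA : (1 / (I : ℝ) ^ 4 * (P.card : ℝ) ^ 2 + Phi (pr (160 ^ (12 * j)) (Nat.sqrt y))
      (160 ^ (2 * j)) (1 / (I : ℝ) ^ 4) P) / (u ^ 2) ^ 2
      ≤ c0 * y * Yv / (737280 * j * u ^ 2 * (I : ℝ) ^ 2) := by
    have h1 : (P.card : ℝ) ^ 2 ≤ (I : ℝ) ^ 2 * (y : ℝ) ^ 2 := by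
      have h2 : (I : ℝ) ^ c1 ≤ I := by
        calc (I : ℝ) ^ c1 ≤ (I : ℝ) ^ (1 : ℝ) :=
              Real.rpow_le_rpow_of_exponent_le (by linarith) hc1
          _ = I := Real.rpow_one _
      have h3 : (P.card : ℝ) ≤ I * y := hP.trans (mul_le_mul_of_nonneg_right h2 hy.le)
      calc (P.card : ℝ) ^ 2 ≤ (I * y) ^ 2 := pow_le_pow_left₀ (by positivity) h3 2
        _ = (I : ℝ) ^ 2 * (y : ℝ) ^ 2 := by ring
    have h2 : 1 / (I : ℝ) ^ 4 * (P.card : ℝ) ^ 2 ≤ (y : ℝ) ^ 2 / (I : ℝ) ^ 2 := by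
      calc 1 / (I : ℝ) ^ 4 * (P.card : ℝ) ^ 2 ≤ 1 / (I : ℝ) ^ 4 * ((I : ℝ) ^ 2 * (y : ℝ) ^ 2) :=
            mul_le_mul_of_nonneg_left h1 (by positivity)
        _ = (y : ℝ) ^ 2 / (I : ℝ) ^ 2 := by
            field_simp
    have h3 : (y : ℝ) ^ 2 / l ^ 2 ≤ (y : ℝ) ^ 2 / (I : ℝ) ^ 2 := by
      refine div_le_div_of_nonneg_left (by positivity) (by positivity) ?_
      exact pow_le_pow_left₀ (by positivity) b.I_le 2
    have h4 : 2949120 * (j : ℝ) ≤ c0 * u := by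
      have h5 := pow_j j hj10
      have h6 : 1 ≤ c0 * j := hcI.trans (mul_le_mul_of_nonneg_left hIj hc.le)
      have h7 : 2949120 * (j : ℝ) * 1 ≤ 2949120 * (j : ℝ) * (c0 * j) :=
        mul_le_mul_of_nonneg_left h6 (by positivity)
      have h8 : c0 * (2949120 * (j : ℝ) ^ 2) ≤ c0 * u := mul_le_mul_of_nonneg_left h5 hc.le
      nlinarith
    calc (1 / (I : ℝ) ^ 4 * (P.card : ℝ) ^ 2 + Phi (pr (160 ^ (12 * j)) (Nat.sqrt y))
          (160 ^ (2 * j)) (1 / (I : ℝ) ^ 4) P) / (u ^ 2) ^ 2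
        ≤ (2 * ((y : ℝ) ^ 2 / (I : ℝ) ^ 2)) / (u ^ 2) ^ 2 := by
          refine div_le_div_of_nonneg_right ?_ (by positivity)
          linarith
      _ ≤ c0 * y * ((y : ℝ) / (2 * u)) / (737280 * j * u ^ 2 * (I : ℝ) ^ 2) := by
          rw [div_le_div_iff₀ (by positivity) (by positivity)]
          have h5 : 2 * ((y : ℝ) ^ 2 / (I : ℝ) ^ 2) * (737280 * j * u ^ 2 * (I : ℝ) ^ 2)
              = (y : ℝ) ^ 2 * u ^ 2 / 2 * (2949120 * j) := by
            field_simp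
            ring
          have h6 : c0 * y * ((y : ℝ) / (2 * u)) * (u ^ 2) ^ 2
              = (y : ℝ) ^ 2 * u ^ 2 / 2 * (c0 * u) := by
            field_simp
          rw [h5, h6]
          exact mul_le_mul_of_nonneg_left h4 (by positivity)
      _ ≤ c0 * y * Yv / (737280 * j * u ^ 2 * (I : ℝ) ^ 2) := by
          refine div_le_div_of_nonneg_right ?_ (by positivity)
          exact mul_le_mul_of_nonneg_left hYlow (by positivity)
  -- second part
  have hB : Yv * Lam (pr (160 ^ (12 * j)) (Nat.sqrt y)) (160 ^ (2 * j))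
      ≤ c0 * y * Yv / (737280 * j * u ^ 2 * (I : ℝ) ^ 2) := by
    have h1 := b.Lam_le hj1 hj2
    have h2 := b.l5
    have h3 : Real.exp (l / 8) * Real.exp (l / 8) ≤ y := by
      rw [← Real.exp_add]
      calc Real.exp (l / 8 + l / 8) ≤ Real.exp l := Real.exp_le_exp.2 (by linarith)
        _ = y := b.exp_l
    rw [le_div_iff₀ (by positivity)]
    have h4 : 737280 * (j : ℝ) * u ^ 2 * (I : ℝ) ^ 2 ≤ c0 * l ^ 5 := by
      have hIl := b.I_le
      have hI2 := b.I2_le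
      have hM2 : u ^ 2 ≤ l := by
        have := b.p160 (k := 2 * j) (by omega)
        rw [mul_comm 2 j, pow_mul] at this
        exact this
      have h5 : 737280 * (j : ℝ) * (I : ℝ) ≤ l := by
        have h8 : (160 : ℝ) ^ (4 * I ^ 2) ≤ l := b.p160 (by omega)
        have h9 : 737280 * ((I : ℝ) ^ 2 * I) ≤ 160 ^ (4 * I ^ 2) := by
          have h10 : (I : ℝ) ≤ 160 ^ I := by
            exact_mod_cast (Nat.lt_pow_self (by norm_num : 1 < 160)).le
          have h11 : (737280 : ℝ) ≤ 160 ^ I := by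
            calc (737280 : ℝ) ≤ 160 ^ 10 := by norm_num
              _ ≤ 160 ^ I := pow_le_pow_right₀ (by norm_num) b.hI
          calc 737280 * ((I : ℝ) ^ 2 * I) ≤ 160 ^ I * ((160 ^ I) ^ 2 * 160 ^ I) := by
                refine mul_le_mul h11 ?_ (by positivity) (by positivity)
                exact mul_le_mul (pow_le_pow_left₀ (by positivity) h10 2) h10 (by positivity)
                  (by positivity)
            _ = 160 ^ (4 * I) := by
                rw [← pow_mul, ← pow_add, ← pow_add]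
                congr 1
                ring
            _ ≤ 160 ^ (4 * I ^ 2) := by
                refine pow_le_pow_right₀ (by norm_num) ?_
                have := b.hI
                nlinarith
        have h12 : 737280 * (j : ℝ) * (I : ℝ) ≤ 737280 * ((I : ℝ) ^ 2 * I) := by
          have : (j : ℝ) * I ≤ (I : ℝ) ^ 2 * I := mul_le_mul_of_nonneg_right hjI hIp.le
          linarith
        linarith
      have h6 : 737280 * (j : ℝ) * (I : ℝ) * (u ^ 2 * (I : ℝ) ^ 2) ≤ l * (l * l) := by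
        refine mul_le_mul h5 ?_ (by positivity) hl.le
        exact mul_le_mul hM2 hI2 (by positivity) hl.le
      have h7 : l * (l * l) ≤ l ^ 5 := by
        calc l * (l * l) = l ^ 3 := by ring
          _ ≤ l ^ 5 := pow_le_pow_right₀ hl1 (by norm_num)
      have h8 : 737280 * (j : ℝ) * u ^ 2 * (I : ℝ) ^ 2 ≤
          c0 * (737280 * (j : ℝ) * (I : ℝ) * (u ^ 2 * (I : ℝ) ^ 2)) := by
        have h9 : 0 ≤ 737280 * (j : ℝ) * u ^ 2 * (I : ℝ) ^ 2 := by positivity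
        have h10 := mul_le_mul_of_nonneg_right hcI h9
        nlinarith
      refine h8.trans (mul_le_mul_of_nonneg_left (h6.trans h7) hc.le)
    have h5 : Lam (pr (160 ^ (12 * j)) (Nat.sqrt y)) (160 ^ (2 * j)) *
        (737280 * (j : ℝ) * u ^ 2 * (I : ℝ) ^ 2) ≤ c0 * y := by
      calc Lam (pr (160 ^ (12 * j)) (Nat.sqrt y)) (160 ^ (2 * j)) *
          (737280 * (j : ℝ) * u ^ 2 * (I : ℝ) ^ 2) ≤ Real.exp (l / 8) * (c0 * l ^ 5) :=
            mul_le_mul h1 h4 (by positivity) (by positivity)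
        _ ≤ Real.exp (l / 8) * (c0 * Real.exp (l / 8)) := by
            refine mul_le_mul_of_nonneg_left ?_ (by positivity)
            exact mul_le_mul_of_nonneg_left h2 hc.le
        _ = c0 * (Real.exp (l / 8) * Real.exp (l / 8)) := by ring
        _ ≤ c0 * y := mul_le_mul_of_nonneg_left h3 hc.le
    nlinarith
  have hsum : c0 * y * Yv / (737280 * j * u ^ 2 * (I : ℝ) ^ 2)
      + c0 * y * Yv / (737280 * j * u ^ 2 * (I : ℝ) ^ 2)
      = c0 * y * Yv / (368640 * j * u ^ 2 * (I : ℝ) ^ 2) := by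
    field_simp
    norm_num
  have hfin : (1 / (I : ℝ) ^ 4 * (P.card : ℝ) ^ 2 + Phi (pr (160 ^ (12 * j)) (Nat.sqrt y))
      (160 ^ (2 * j)) (1 / (I : ℝ) ^ 4) P) / (u ^ 2) ^ 2
      + Yv * Lam (pr (160 ^ (12 * j)) (Nat.sqrt y)) (160 ^ (2 * j))
      ≤ s⁻¹ * ((y : ℝ) / (20 * l)) * Yv / (8 * u ^ 2) / (8 * Jc) := by linarith
  have hfinal := mul_le_mul_of_nonneg_left hfin hQ0
  refine hfinal.trans (le_of_eq ?_)
  field_simp

end Pool.Agent.GWC
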