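import Pool.Agent.GWC.Weights

/-! # First and second moments of the weights `wt` (two stages) -/

namespace Pool.Agent.GWC

open Finset

variable {T1 T2 : Finset ℕ} {M R : ℕ}

theorem surv_subset (T : Finset ℕ) (N : ℕ) (V : Finset ℕ) : surv T N V ⊆ V := filter_subset _ _

theorem surv_card (T : Finset ℕ) (N : ℕ) (V : Finset ℕ) : (surv T N V).card ≤ V.card :=
  card_le_card (surv_subset T N V)

theorem mod_prod_mod (T : Finset ℕ) (N r : ℕ) (hr : r ∈ T) : N % (∏ r ∈ T, r) % r = N % r :=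
  Nat.mod_mod_of_dvd _ (dvd_prod_of_mem (fun q => q) hr)

theorem surv_mod (T : Finset ℕ) (N : ℕ) (V : Finset ℕ) :
    surv T (N % ∏ r ∈ T, r) V = surv T N V := by
  unfold surv
  refine filter_congr fun x _ => ?_
  constructor
  · intro h r hr
    rw [← mod_prod_mod T N r hr]
    exact h r hr
  · intro h r hr
    rw [mod_prod_mod T N r hr]
    exact h r hr

theorem ind_mod (T : Finset ℕ) (N x : ℕ) :
    (∀ r ∈ T, x % r ≠ (N % ∏ r ∈ T, r) % r) ↔ ∀ r ∈ T, x % r ≠ N % r := by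
  constructor
  · intro h r hr
    rw [← mod_prod_mod T N r hr]
    exact h r hr
  · intro h r hr
    rw [mod_prod_mod T N r hr]
    exact h r hr

/-- the number of classes for which `x` survives one stage -/
theorem sum_ind_all (T : Finset ℕ) (hT : ∀ r ∈ T, r.Prime) (x : ℕ) :
    ∑ N ∈ range (∏ r ∈ T, r), (if ∀ r ∈ T, x % r ≠ N % r then (1 : ℝ) else 0)
      = ((∏ r ∈ T, r : ℕ) : ℝ) * sig T := by
  have h1 : ∀ N ∈ range (∏ r ∈ T, r), (if ∀ r ∈ T, x % r ≠ N % r then (1 : ℝ) else 0)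
      = ∏ r ∈ T, (fun r k : ℕ => if k ∈ ({x % r} : Finset ℕ) then (0 : ℝ) else 1) r (N % r) := by
    intro N _
    split_ifs with h
    · symm
      refine prod_eq_one fun r hr => ?_
      beta_reduce
      rw [if_neg]
      rw [mem_singleton]
      exact fun h' => h r hr h'.symm
    · push Not at h
      obtain ⟨r, hr, h'⟩ := h
      symm
      refine prod_eq_zero hr ?_
      beta_reduce
      rw [if_pos]
      rw [mem_singleton]
      exact h'.symm
  rw [sum_congr rfl h1,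
    sum_prod T hT (fun r k : ℕ => if k ∈ ({x % r} : Finset ℕ) then (0 : ℝ) else 1)]
  unfold sig
  push_cast
  rw [← prod_mul_distrib]
  refine prod_congr rfl fun r hr => ?_
  have hr0 := (hT r hr).pos
  rw [sum_ind r _ (singleton_subset_iff.2 (mem_range.2 (Nat.mod_lt _ hr0)))]
  have : (0 : ℝ) < r := by exact_mod_cast hr0
  rw [card_singleton]
  field_simp
  push_cast
  ring

theorem Setup.lt (h : Setup T1 T2 M R) {V : Finset ℕ} (hV : V.card ≤ M) :
    ∀ r ∈ T2, V.card < r := by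
  intro r hr
  have h1 := h.big r hr
  have h2 := h.MR
  have h3 := h.M1
  omega

theorem wt_nonneg (h : Setup T1 T2 M R) (V : Finset ℕ) (N : ℕ) : 0 ≤ wt T1 T2 M V N := by
  unfold wt
  split_ifs with hV
  · exact vw_nonneg _ _ _ (h.lt ((surv_card T1 N V).trans hV))
  · exact le_rfl

/-- the number of classes for which `x` survives -/
theorem sum_surv (h : Setup T1 T2 M R) (x : ℕ) :
    ∑ N ∈ range (WW T1 T2), (if ∀ r ∈ T1 ∪ T2, x % r ≠ N % r then (1 : ℝ) else 0)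
      = WW T1 T2 * sig T1 * sig T2 := by
  have h1 : WW T1 T2 = ∏ r ∈ T1 ∪ T2, r := by
    rw [WW, prod_union h.disj]
  have h2 : sig T1 * sig T2 = sig (T1 ∪ T2) := by
    unfold sig
    rw [prod_union h.disj]
  rw [mul_assoc, h2, h1]
  refine sum_ind_all _ (fun r hr => ?_) x
  rcases mem_union.1 hr with h' | h'
  · exact h.p1 r h'
  · exact h.p2 r h'

/-- splitting a sum over the classes in two stages -/
theorem two_stage (h : Setup T1 T2 M R) (F G : ℕ → ℕ → ℝ)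
    (hF : ∀ N, F N N = G (N % ∏ r ∈ T1, r) (N % ∏ r ∈ T2, r)) :
    ∑ N ∈ range (WW T1 T2), F N N
      = ∑ i ∈ range (∏ r ∈ T1, r), ∑ k ∈ range (∏ r ∈ T2, r), G i k := by
  rw [← sum_two T1 T2 h.p1 h.p2 h.disj G]
  exact sum_congr rfl fun N _ => hF N

theorem sum_wt (h : Setup T1 T2 M R) (V : Finset ℕ) (hV : V.card ≤ M) :
    ∑ N ∈ range (WW T1 T2), wt T1 T2 M V N = WW T1 T2 := by
  rw [two_stage h (fun N _ => wt T1 T2 M V N) (fun i k => vw T2 (surv T1 i V) k) (fun N => ?_)]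
  · have h1 : ∀ i ∈ range (∏ r ∈ T1, r), ∑ k ∈ range (∏ r ∈ T2, r), vw T2 (surv T1 i V) k
        = ((∏ r ∈ T2, r : ℕ) : ℝ) := fun i _ =>
      sum_vw _ _ h.p2 (h.lt ((surv_card T1 i V).trans hV))
    rw [sum_congr rfl h1, sum_const, card_range, nsmul_eq_mul, WW, Nat.cast_mul]
  · beta_reduce
    rw [surv_mod, vw_mod, wt, if_pos hV]

/-- the indicator of the second stage is absorbed by the weight -/
theorem absorb (V : Finset ℕ) (x : ℕ) (hx : x ∈ V) (N : ℕ) (c : ℝ → ℝ)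
    (hc : c 0 = 0) :
    (if ∀ r ∈ T1 ∪ T2, x % r ≠ N % r then c (vw T2 (surv T1 N V) N) else 0)
      = if ∀ r ∈ T1, x % r ≠ N % r then c (vw T2 (surv T1 N V) N) else 0 := by
  by_cases h1 : ∀ r ∈ T1, x % r ≠ N % r
  · rw [if_pos h1]
    split_ifs with h2
    · rfl
    · push Not at h2
      obtain ⟨r, hr, h3⟩ := h2
      rcases mem_union.1 hr with h4 | h4
      · exact absurd h3 (h1 r h4)
      · have h5 : vw T2 (surv T1 N V) N = 0 := by
          unfold vw
          refine prod_eq_zero h4 (if_pos ?_)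
          exact mem_image.2 ⟨x, mem_filter.2 ⟨hx, h1⟩, h3⟩
        rw [h5, hc]
  · rw [if_neg h1, if_neg]
    intro h2
    exact h1 fun r hr => h2 r (mem_union_left _ hr)

/-- sum of the indicator of the first stage -/
theorem sum_stage_one (h : Setup T1 T2 M R) (x : ℕ) (B : ℝ) (G : ℕ → ℝ)
    (hG : ∀ i ∈ range (∏ r ∈ T1, r), (∀ r ∈ T1, x % r ≠ i % r) → G i ≤ B) :
    ∑ i ∈ range (∏ r ∈ T1, r), (if ∀ r ∈ T1, x % r ≠ i % r then G i else 0)
      ≤ ((∏ r ∈ T1, r : ℕ) : ℝ) * sig T1 * B := by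
  rw [← sum_ind_all T1 h.p1 x, sum_mul]
  refine sum_le_sum fun i hi => ?_
  split_ifs with h1
  · rw [one_mul]
    exact hG i hi h1
  · rw [zero_mul]

theorem sum_wt_x (h : Setup T1 T2 M R) (V : Finset ℕ) (hV : V.card ≤ M) (x : ℕ) (hx : x ∈ V) :
    ∑ N ∈ range (WW T1 T2), (if ∀ r ∈ T1 ∪ T2, x % r ≠ N % r then wt T1 T2 M V N else 0)
      = WW T1 T2 * sig T1 := by
  rw [two_stage h (fun N _ => if ∀ r ∈ T1 ∪ T2, x % r ≠ N % r then wt T1 T2 M V N else 0)
    (fun i k => if ∀ r ∈ T1, x % r ≠ i % r then vw T2 (surv T1 i V) k else 0) (fun N => ?_)]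
  · have h1 : ∀ i ∈ range (∏ r ∈ T1, r), ∑ k ∈ range (∏ r ∈ T2, r),
        (if ∀ r ∈ T1, x % r ≠ i % r then vw T2 (surv T1 i V) k else 0)
        = (if ∀ r ∈ T1, x % r ≠ i % r then (1 : ℝ) else 0) * ((∏ r ∈ T2, r : ℕ) : ℝ) := by
      intro i _
      split_ifs with h2
      · rw [one_mul]
        exact sum_vw _ _ h.p2 (h.lt ((surv_card T1 i V).trans hV))
      · rw [sum_const_zero, zero_mul]
    rw [sum_congr rfl h1, ← sum_mul, sum_ind_all T1 h.p1 x, WW, Nat.cast_mul]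
    ring
  · beta_reduce
    simp only [surv_mod, vw_mod, wt, if_pos hV, ind_mod]
    exact absorb V x hx N (fun y => y) rfl

theorem sum_cc_le (T : Finset ℕ) {A B : Finset (ℕ × ℕ)} (hAB : A ⊆ B) :
    ∑ p ∈ A, cc T p.1 p.2 ≤ ∑ p ∈ B, cc T p.1 p.2 := by
  refine sum_le_sum_of_subset_of_nonneg hAB fun p _ _ => ?_
  exact sum_nonneg fun _ _ => by positivity

theorem sum_wt_xx (h : Setup T1 T2 M R) (V V' : Finset ℕ) (hV : V.card ≤ M) (hV' : V'.card ≤ M)
    (x : ℕ) (hx : x ∈ V) (hx' : x ∈ V') :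
    ∑ N ∈ range (WW T1 T2), (if ∀ r ∈ T1 ∪ T2, x % r ≠ N % r then
        wt T1 T2 M V N * wt T1 T2 M V' N else 0)
      ≤ WW T1 T2 * sig T1 * (sig T2)⁻¹ *
        Real.exp (∑ p ∈ (V ×ˢ V').erase (x, x), cc T2 p.1 p.2 + 4 * (M : ℝ) ^ 2 / R) := by
  rw [two_stage h (fun N _ => if ∀ r ∈ T1 ∪ T2, x % r ≠ N % r then
      wt T1 T2 M V N * wt T1 T2 M V' N else 0)
    (fun i k => if ∀ r ∈ T1, x % r ≠ i % r then
      vw T2 (surv T1 i V) k * vw T2 (surv T1 i V') k else 0) (fun N => ?_)]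
  · have h1 : ∀ i ∈ range (∏ r ∈ T1, r), ∑ k ∈ range (∏ r ∈ T2, r),
        (if ∀ r ∈ T1, x % r ≠ i % r then
          vw T2 (surv T1 i V) k * vw T2 (surv T1 i V') k else 0)
        = if ∀ r ∈ T1, x % r ≠ i % r then ∑ k ∈ range (∏ r ∈ T2, r),
          vw T2 (surv T1 i V) k * vw T2 (surv T1 i V') k else 0 := by
      intro i _
      split_ifs with h2
      · rfl
      · exact sum_const_zero
    rw [sum_congr rfl h1]
    have hs : 0 ≤ (sig T2)⁻¹ := by
      refine inv_nonneg.2 (prod_nonneg fun r hr => ?_)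
      have hr2 : (2 : ℝ) ≤ r := by exact_mod_cast (h.p2 r hr).two_le
      rw [sub_nonneg, div_le_one (by linarith)]
      linarith
    refine (sum_stage_one h x (((∏ r ∈ T2, r : ℕ) : ℝ) * (sig T2)⁻¹ *
      Real.exp (∑ p ∈ (V ×ˢ V').erase (x, x), cc T2 p.1 p.2 + 4 * (M : ℝ) ^ 2 / R)) _
      (fun i _ hi => ?_)).trans (le_of_eq ?_)
    · refine (sum_vw_mul_le_x T2 _ _ M R x h.p2 h.big h.MR h.M1 ((surv_card T1 i V).trans hV)
        ((surv_card T1 i V').trans hV') (mem_filter.2 ⟨hx, hi⟩)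
        (mem_filter.2 ⟨hx', hi⟩)).trans ?_
      refine mul_le_mul_of_nonneg_left (Real.exp_le_exp.2 ?_) (by positivity)
      have := sum_cc_le T2 (erase_subset_erase (x, x)
        (product_subset_product (surv_subset T1 i V) (surv_subset T1 i V')))
      linarith
    · rw [WW, Nat.cast_mul]
      ring
  · beta_reduce
    simp only [surv_mod, vw_mod, wt, if_pos hV, if_pos hV', ind_mod]
    exact absorb V x hx N (fun y => y * vw T2 (surv T1 N V') N) (zero_mul _)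

theorem sum_wt_x_sq (h : Setup T1 T2 M R) (V : Finset ℕ) (hV : V.card ≤ M) (x : ℕ) (hx : x ∈ V) :
    ∑ N ∈ range (WW T1 T2), (if ∀ r ∈ T1 ∪ T2, x % r ≠ N % r then (wt T1 T2 M V N) ^ 2 else 0)
      ≤ WW T1 T2 * sig T1 * Lam T2 M := by
  rw [two_stage h (fun N _ => if ∀ r ∈ T1 ∪ T2, x % r ≠ N % r then (wt T1 T2 M V N) ^ 2 else 0)
    (fun i k => if ∀ r ∈ T1, x % r ≠ i % r then (vw T2 (surv T1 i V) k) ^ 2 else 0)
    (fun N => ?_)]
  · have h1 : ∀ i ∈ range (∏ r ∈ T1, r), ∑ k ∈ range (∏ r ∈ T2, r),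
        (if ∀ r ∈ T1, x % r ≠ i % r then (vw T2 (surv T1 i V) k) ^ 2 else 0)
        = if ∀ r ∈ T1, x % r ≠ i % r then ∑ k ∈ range (∏ r ∈ T2, r),
          (vw T2 (surv T1 i V) k) ^ 2 else 0 := by
      intro i _
      split_ifs with h2
      · rfl
      · exact sum_const_zero
    rw [sum_congr rfl h1]
    refine (sum_stage_one h x (((∏ r ∈ T2, r : ℕ) : ℝ) * Lam T2 M) _
      (fun i _ hi => ?_)).trans (le_of_eq ?_)
    · exact sum_vw_sq_le T2 _ M R h.p2 h.big h.MR ((surv_card T1 i V).trans hV)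
    · rw [WW, Nat.cast_mul]
      ring
  · beta_reduce
    simp only [surv_mod, vw_mod, wt, if_pos hV, ind_mod]
    exact absorb V x hx N (fun y => y ^ 2) (by norm_num)

theorem sum_wt_mul (h : Setup T1 T2 M R) (V V' : Finset ℕ) (hV : V.card ≤ M) (hV' : V'.card ≤ M) :
    ∑ N ∈ range (WW T1 T2), wt T1 T2 M V N * wt T1 T2 M V' N
      ≤ WW T1 T2 * Real.exp (2 * ∑ p ∈ V ×ˢ V', cc T2 p.1 p.2) := by
  rw [two_stage h (fun N _ => wt T1 T2 M V N * wt T1 T2 M V' N)
    (fun i k => vw T2 (surv T1 i V) k * vw T2 (surv T1 i V') k) (fun N => ?_)]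
  · have h1 : ∀ i ∈ range (∏ r ∈ T1, r), ∑ k ∈ range (∏ r ∈ T2, r),
        vw T2 (surv T1 i V) k * vw T2 (surv T1 i V') k
        ≤ ((∏ r ∈ T2, r : ℕ) : ℝ) * Real.exp (2 * ∑ p ∈ V ×ˢ V', cc T2 p.1 p.2) := by
      intro i _
      refine (sum_vw_mul_le T2 _ _ M R h.p2 h.big h.MR ((surv_card T1 i V).trans hV)
        ((surv_card T1 i V').trans hV')).trans ?_
      refine mul_le_mul_of_nonneg_left (Real.exp_le_exp.2 ?_) (Nat.cast_nonneg _)
      have := sum_cc_le T2 (product_subset_product (surv_subset T1 i V) (surv_subset T1 i V'))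
      linarith
    refine (sum_le_sum h1).trans (le_of_eq ?_)
    rw [sum_const, card_range, nsmul_eq_mul, WW, Nat.cast_mul]
    ring
  · beta_reduce
    simp only [surv_mod, vw_mod, wt, if_pos hV, if_pos hV']

theorem sum_wt_sq (h : Setup T1 T2 M R) (V : Finset ℕ) (hV : V.card ≤ M) :
    ∑ N ∈ range (WW T1 T2), (wt T1 T2 M V N) ^ 2 ≤ WW T1 T2 * Lam T2 M := by
  rw [two_stage h (fun N _ => (wt T1 T2 M V N) ^ 2)
    (fun i k => (vw T2 (surv T1 i V) k) ^ 2) (fun N => ?_)]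
  · have h1 : ∀ i ∈ range (∏ r ∈ T1, r), ∑ k ∈ range (∏ r ∈ T2, r),
        (vw T2 (surv T1 i V) k) ^ 2 ≤ ((∏ r ∈ T2, r : ℕ) : ℝ) * Lam T2 M := fun i _ =>
      sum_vw_sq_le T2 _ M R h.p2 h.big h.MR ((surv_card T1 i V).trans hV)
    refine (sum_le_sum h1).trans (le_of_eq ?_)
    rw [sum_const, card_range, nsmul_eq_mul, WW, Nat.cast_mul]
    ring
  · beta_reduce
    simp only [surv_mod, vw_mod, wt, if_pos hV]

/-- Jensen -/
theorem exp_sum_le {α : Type*} (I : Finset α) (c : α → ℝ) (hc : ∀ i ∈ I, 0 ≤ c i) (m : ℝ)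
    (hm : 0 < m) (hI : (I.card : ℝ) ≤ m) :
    Real.exp (∑ i ∈ I, c i) ≤ 1 + (∑ i ∈ I, (Real.exp (m * c i) - 1)) / m := by
  have key := convexOn_exp.map_sum_le (t := I.insertNone)
    (w := fun o : Option α => o.elim (1 - I.card / m) (fun _ => 1 / m))
    (p := fun o : Option α => o.elim 0 (fun i => m * c i)) (fun o _ => ?_) ?_ (fun _ _ => trivial)
  · rw [sum_insertNone, sum_insertNone] at key
    simp only [Option.elim, smul_eq_mul, mul_zero, zero_add, Real.exp_zero, mul_one] at key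
    have e1 : ∑ i ∈ I, 1 / m * (m * c i) = ∑ i ∈ I, c i := by
      refine sum_congr rfl fun i _ => ?_
      field_simp
    rw [e1] at key
    refine key.trans (le_of_eq ?_)
    rw [sum_sub_distrib, sum_const, nsmul_eq_mul, ← mul_sum]
    ring
  · rcases o with _ | i
    · simp only [Option.elim]
      have : (I.card : ℝ) / m ≤ 1 := by rwa [div_le_one hm]
      linarith
    · simp only [Option.elim]
      positivity
  · rw [sum_insertNone]
    simp only [Option.elim, sum_const, nsmul_eq_mul]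
    ring

end Pool.Agent.GWC
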