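import Pool.Agent.GWC.Par
import Pool.Agent.GWC.Avg
import Pool.Agent.GWC.FinA
import Pool.Agent.GWC.FinB

/-! # Typical windows -/

namespace Pool.Agent.GWC

open Finset

theorem card_bad (S J : Finset ℕ) (B1 : Finset ℕ) (B2 B3 : ℕ → Finset ℕ) (b1 b2 b3 : ℝ)
    (h1 : (B1.card : ℝ) ≤ b1) (h2 : ∀ j ∈ J, ((B2 j).card : ℝ) ≤ b2)
    (h3 : ∀ j ∈ J, ((B3 j).card : ℝ) ≤ b3) :
    (S.card : ℝ) - (b1 + J.card * b2 + J.card * b3)
      ≤ (S.filter (fun s => s ∉ B1 ∧ ∀ j ∈ J, s ∉ B2 j ∧ s ∉ B3 j)).card := by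
  have h4 : S ⊆ (S.filter (fun s => s ∉ B1 ∧ ∀ j ∈ J, s ∉ B2 j ∧ s ∉ B3 j)) ∪
      (B1 ∪ (J.biUnion B2 ∪ J.biUnion B3)) := by
    intro s hs
    by_cases hb : s ∉ B1 ∧ ∀ j ∈ J, s ∉ B2 j ∧ s ∉ B3 j
    · exact mem_union_left _ (mem_filter.2 ⟨hs, hb⟩)
    · refine mem_union_right _ ?_
      rw [not_and_or] at hb
      rcases hb with hb | hb
      · exact mem_union_left _ (not_not.1 hb)
      · refine mem_union_right _ ?_
        push Not at hb
        obtain ⟨j, hj, hj'⟩ := hb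
        by_cases h : s ∈ B2 j
        · exact mem_union_left _ (mem_biUnion.2 ⟨j, hj, h⟩)
        · exact mem_union_right _ (mem_biUnion.2 ⟨j, hj, hj' h⟩)
  have h5 := (card_le_card h4).trans (card_union_le _ _)
  have h6 := card_union_le B1 (J.biUnion B2 ∪ J.biUnion B3)
  have h7 := card_union_le (J.biUnion B2) (J.biUnion B3)
  have h8 : ((J.biUnion B2).card : ℝ) ≤ J.card * b2 := by
    have : ((J.biUnion B2).card : ℝ) ≤ ∑ j ∈ J, ((B2 j).card : ℝ) := by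
      exact_mod_cast card_biUnion_le
    refine this.trans ((sum_le_sum h2).trans (by rw [sum_const, nsmul_eq_mul]))
  have h9 : ((J.biUnion B3).card : ℝ) ≤ J.card * b3 := by
    have : ((J.biUnion B3).card : ℝ) ≤ ∑ j ∈ J, ((B3 j).card : ℝ) := by
      exact_mod_cast card_biUnion_le
    refine this.trans ((sum_le_sum h3).trans (by rw [sum_const, nsmul_eq_mul]))
  have h10 : (S.card : ℝ) ≤ ((S.filter (fun s => s ∉ B1 ∧ ∀ j ∈ J, s ∉ B2 j ∧ s ∉ B3 j)).card : ℝ)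
      + (B1.card + ((J.biUnion B2).card + (J.biUnion B3).card)) := by
    have : S.card ≤ (S.filter (fun s => s ∉ B1 ∧ ∀ j ∈ J, s ∉ B2 j ∧ s ∉ B3 j)).card
      + (B1.card + ((J.biUnion B2).card + (J.biUnion B3).card)) := by omega
    exact_mod_cast this
  linarith

theorem Phi_nonneg (T : Finset ℕ) (M : ℕ) (η : ℝ) (hη : 0 < η) (P : Finset ℕ) :
    0 ≤ Phi T M η P := by
  unfold Phi
  exact sum_nonneg fun p hp => (hη.trans (mem_filter.1 hp).2.2).le

open Classical in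
/-- most of the `s ∈ (X, 2X]` have a window `(s, s + H]` of length
`H ≥ 36 (log X)² (logloglog X)^c` whose primes are covered by one class modulo each prime
`3 ≤ r ≤ δ log X` -/
theorem typical : ∃ c : ℝ, 0 < c ∧ c ≤ 1 ∧ ∀ δ : ℝ, 0 < δ → δ ≤ 1 → ∃ X0 : ℕ, ∀ X : ℕ, X0 ≤ X →
    ∃ H y : ℕ, 8 * H ≤ X ∧ 2 ≤ y ∧ (y : ℝ) ≤ δ * Real.log X ∧
      36 * (Real.log X) ^ 2 * (Real.log (Real.log (Real.log X))) ^ c ≤ H ∧
      (1 - δ) * X ≤ ((Ioc X (2 * X)).filter (fun s => ∃ a : ℕ → ℕ, ∀ x ∈ Pw H s,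
        ∃ r, r.Prime ∧ 3 ≤ r ∧ r ≤ y ∧ x ≡ a r [MOD r])).card := by
  obtain ⟨c1, hc1, hc1', I0, hcov⟩ := cover_param
  obtain ⟨C1, hC1, havg⟩ := avg_card
  obtain ⟨C2, hC2, hK2⟩ := avg_K2
  obtain ⟨C3, hC3, hPhi⟩ := avg_Phi
  refine ⟨c1 / 16, by positivity, by linarith, fun δ hδ hδ1 => ?_⟩
  obtain ⟨I1, hI1⟩ := num_I c1 C1 C3 C2 δ hc1 hc1' hC1 hC3 hC2 hδ
  obtain ⟨X0, hX0⟩ := par_X δ hδ hδ1 (max (max I0 I1) 2)
  refine ⟨max X0 3, fun X hX => ?_⟩
  obtain ⟨y, I, hI, hX2, hy1, hy2, hI4, hI5, hLLL, hIX, hIy⟩ := hX0 X ((le_max_left _ _).trans hX)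
  have hX3 : 3 ≤ X := (le_max_right _ _).trans hX
  obtain ⟨hI2, n1, n2, n3, n4⟩ := hI1 I (((le_max_right _ _).trans (le_max_left _ _)).trans hI)
  have hII0 : I0 ≤ I := ((le_max_left _ _).trans (le_max_left _ _)).trans hI
  set L : ℝ := Real.log X with hL
  have hIr : (2 : ℝ) ≤ I := by exact_mod_cast hI2
  have hI0 : (0 : ℝ) < I := by linarith
  have hδ2 : 2 ≤ 2 / δ := by rw [le_div_iff₀ hδ]; linarith
  have hy4 : (4 : ℝ) ≤ y := by nlinarith
  have hy0 : (0 : ℝ) < y := by linarith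
  have hyL : (y : ℝ) ≤ L := by
    have hL0 : 0 ≤ L := Real.log_nonneg (by exact_mod_cast (by omega : 1 ≤ X))
    nlinarith
  have hL4 : 4 ≤ L := hy4.trans hyL
  have hL0 : 0 < L := by linarith
  have hXr : (0 : ℝ) < X := by exact_mod_cast (by omega : 0 < X)
  have hrp1 : (1 : ℝ) ≤ (I : ℝ) ^ (c1 / 2) := Real.one_le_rpow (by linarith) (by positivity)
  have hrpI : (I : ℝ) ^ (c1 / 2) ≤ I := by
    calc (I : ℝ) ^ (c1 / 2) ≤ (I : ℝ) ^ (1 : ℝ) :=
          Real.rpow_le_rpow_of_exponent_le (by linarith) (by linarith)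
      _ = I := Real.rpow_one _
  have hrp2 : (I : ℝ) ^ (c1 / 2) * (I : ℝ) ^ (c1 / 2) = (I : ℝ) ^ c1 := by
    rw [← Real.rpow_add hI0]
    congr 1
    ring
  have hrp0 : (0 : ℝ) < (I : ℝ) ^ c1 := Real.rpow_pos_of_pos hI0 _
  set A : ℝ := (I : ℝ) ^ (c1 / 2) with hA
  set H : ℕ := ⌊A * y * L⌋₊ with hH
  have hAyL : 16 ≤ A * y * L := by
    have h1 : (4 : ℝ) ≤ A * y := by nlinarith
    nlinarith
  have hHle : (H : ℝ) ≤ A * y * L := Nat.floor_le (by positivity)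
  have hHge : A * y * L / 2 ≤ H := by
    have := Nat.lt_floor_add_one (A * y * L)
    rw [← hH] at this
    linarith
  have hH1 : 1 ≤ H := by
    have : (1 : ℝ) ≤ H := by linarith
    exact_mod_cast this
  have hH8 : 8 * H ≤ X := by
    have : 8 * (H : ℝ) ≤ X := by
      calc 8 * (H : ℝ) ≤ 8 * (A * y * L) := by linarith
        _ ≤ 8 * (I * L * L) := by gcongr
        _ = 8 * (I * L ^ 2) := by ring
        _ ≤ X := hIX
    exact_mod_cast this
  have hHX : H ≤ X := by omega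
  have hH0 : (0 : ℝ) ≤ H := Nat.cast_nonneg _
  have hHsq : (H : ℝ) ^ 2 ≤ (I : ℝ) ^ c1 * (y : ℝ) ^ 2 * L ^ 2 := by
    calc (H : ℝ) ^ 2 ≤ (A * y * L) ^ 2 := pow_le_pow_left₀ hH0 hHle 2
      _ = (A * A) * (y : ℝ) ^ 2 * L ^ 2 := by ring
      _ = _ := by rw [hrp2]
  have hHy : H ≤ y ^ 3 := by
    have : (H : ℝ) ≤ (y : ℝ) ^ 3 := by
      have h1 : L ≤ 2 / δ * y := by
        calc L = 2 / δ * (δ / 2 * L) := by field_simp
          _ ≤ 2 / δ * y := mul_le_mul_of_nonneg_left hy2 (by positivity)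
      calc (H : ℝ) ≤ A * y * L := hHle
        _ ≤ I * y * (2 / δ * y) := by gcongr
        _ = (2 / δ * I) * (y * y) := by ring
        _ ≤ y * (y * y) := mul_le_mul_of_nonneg_right hIy (by positivity)
        _ = (y : ℝ) ^ 3 := by ring
    exact_mod_cast this
  have hlogy : (Real.log y) ^ 2 ≤ Real.exp (2 * ((I : ℝ) + 1) ^ 4) := by
    have h0 : 0 < Real.log y := Real.log_pos (by linarith)
    have h1 : Real.log y ≤ Real.exp (((I : ℝ) + 1) ^ 4) := by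
      rw [← Real.log_le_iff_le_exp h0]
      exact hI5.le
    calc (Real.log y) ^ 2 ≤ (Real.exp (((I : ℝ) + 1) ^ 4)) ^ 2 := pow_le_pow_left₀ h0.le h1 2
      _ = Real.exp (2 * ((I : ℝ) + 1) ^ 4) := by
          rw [← Real.exp_nat_mul]
          norm_num
  have hlogy0 : 0 < (Real.log y) ^ 2 := by
    have h0 : 0 < Real.log y := Real.log_pos (by linarith)
    positivity
  have hlyne : Real.log y ≠ 0 := (Real.log_pos (by linarith)).ne'
  have hη : (0 : ℝ) < 1 / (I : ℝ) ^ 4 := by positivity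
  -- the scales
  set J := Ico I (I ^ 2) with hJ
  have hJc : (J.card : ℝ) ≤ (I : ℝ) ^ 2 := by
    rw [hJ, Nat.card_Ico]
    have : I ^ 2 - I ≤ I ^ 2 := Nat.sub_le _ _
    exact_mod_cast this
  set B1 := (Ioc X (2 * X)).filter (fun s => (I : ℝ) ^ c1 * y < ((Pw H s).card : ℝ)) with hB1
  set B2 : ℕ → Finset ℕ := fun j => (Ioc X (2 * X)).filter (fun s => (y : ℝ) ^ 2 / (Real.log y) ^ 2
    < Phi (pr (160 ^ (12 * j)) (Nat.sqrt y)) (160 ^ (2 * j)) (1 / (I : ℝ) ^ 4) (Pw H s)) with hB2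
  set B3 : ℕ → Finset ℕ := fun j => (Ioc X (2 * X)).filter (fun s =>
    y * (pr (y / 160 ^ (j + 1)) (y / 160 ^ j)).card * 2000 ^ j
      < (K2 (Pw H s) (pr (y / 160 ^ (j + 1)) (y / 160 ^ j)) : ℝ)) with hB3
  have hb1 : (B1.card : ℝ) ≤ δ / 3 * X := by
    refine markov _ _ (fun s _ => Nat.cast_nonneg _) _ _ (by positivity) ?_
    refine (havg X H hX2 hHX).trans ?_
    have h1 : C1 * A ≤ δ / 3 * (I : ℝ) ^ c1 := by
      have h2 : (I : ℝ) ^ (-(c1 / 2)) * (I : ℝ) ^ c1 = A := by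
        rw [hA, ← Real.rpow_add hI0]
        congr 1
        ring
      calc C1 * A = C1 * (I : ℝ) ^ (-(c1 / 2)) * (I : ℝ) ^ c1 := by rw [mul_assoc, h2]
        _ ≤ _ := mul_le_mul_of_nonneg_right n1 hrp0.le
    calc C1 * (X / L) * H ≤ C1 * (X / L) * (A * y * L) := by gcongr
      _ = (C1 * A) * (X * y) := by field_simp
      _ ≤ (δ / 3 * (I : ℝ) ^ c1) * (X * y) := mul_le_mul_of_nonneg_right h1 (by positivity)
      _ = δ / 3 * X * ((I : ℝ) ^ c1 * y) := by ring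
  have hb2 : ∀ j ∈ J, ((B2 j).card : ℝ) ≤ δ / 3 * X / (I : ℝ) ^ 2 := by
    intro j hj
    have hjI : I ≤ j := (mem_Ico.1 hj).1
    refine markov _ _ (fun s _ => Phi_nonneg _ _ _ hη _) _ _ (by positivity) ?_
    refine (hPhi X H (160 ^ (12 * j)) (160 ^ (2 * j)) hX2 hH1 hHX _ _ (160 ^ I) ?_ hη
      (by positivity) ?_).trans ?_
    · intro r hr
      unfold pr at hr
      rw [mem_filter, mem_Ioc] at hr
      exact ⟨hr.2, hr.1.1⟩
    · push_cast
      have h1 : (160 : ℝ) ^ I ≤ 160 ^ j := pow_le_pow_right₀ (by norm_num) hjI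
      have h2 : (1 : ℝ) ≤ 160 ^ j := one_le_pow₀ (by norm_num)
      have h3 : (4 : ℝ) ≤ 160 ^ j := by
        have : (160 : ℝ) ^ 1 ≤ 160 ^ j := pow_le_pow_right₀ (by norm_num) (by omega)
        linarith
      calc 2 * ((160 : ℝ) ^ (2 * j)) ^ 2 * (1 + 160 ^ I)
          ≤ 2 * ((160 : ℝ) ^ (2 * j)) ^ 2 * (2 * 160 ^ j) := by gcongr; linarith
        _ = 4 * (160 : ℝ) ^ (5 * j) := by
            rw [← pow_mul, show 5 * j = 2 * j * 2 + j by ring, pow_add]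
            ring
        _ ≤ (160 : ℝ) ^ (7 * j) * 160 ^ (5 * j) := by
            refine mul_le_mul_of_nonneg_right ?_ (by positivity)
            exact h3.trans (pow_le_pow_right₀ (by norm_num) (by omega))
        _ = (160 : ℝ) ^ (12 * j) := by rw [← pow_add]; congr 1; ring
    · calc C3 * (X / L ^ 2) * (H : ℝ) ^ 2 * (1 + 1 / (I : ℝ) ^ 4) ^ (-((160 : ℝ) ^ I))
          ≤ C3 * (X / L ^ 2) * ((I : ℝ) ^ c1 * (y : ℝ) ^ 2 * L ^ 2) *
            (1 + 1 / (I : ℝ) ^ 4) ^ (-((160 : ℝ) ^ I)) := by gcongr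
        _ = (C3 * (I : ℝ) ^ c1 * (1 + 1 / (I : ℝ) ^ 4) ^ (-((160 : ℝ) ^ I)) * (Real.log y) ^ 2) *
            (X * ((y : ℝ) ^ 2 / (Real.log y) ^ 2)) := by field_simp
        _ ≤ (C3 * (I : ℝ) ^ c1 * (1 + 1 / (I : ℝ) ^ 4) ^ (-((160 : ℝ) ^ I)) *
            Real.exp (2 * ((I : ℝ) + 1) ^ 4)) * (X * ((y : ℝ) ^ 2 / (Real.log y) ^ 2)) := by
            gcongr
        _ = (I : ℝ) ^ 2 * (C3 * (I : ℝ) ^ c1 * Real.exp (2 * ((I : ℝ) + 1) ^ 4) *
            (1 + 1 / (I : ℝ) ^ 4) ^ (-((160 : ℝ) ^ I))) / (I : ℝ) ^ 2 *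
            (X * ((y : ℝ) ^ 2 / (Real.log y) ^ 2)) := by field_simp
        _ ≤ δ / 3 / (I : ℝ) ^ 2 * (X * ((y : ℝ) ^ 2 / (Real.log y) ^ 2)) := by gcongr
        _ = _ := by ring
  have hb3 : ∀ j ∈ J, ((B3 j).card : ℝ) ≤ δ / 3 * X / (I : ℝ) ^ 2 := by
    intro j hj
    have hjI : I ≤ j := (mem_Ico.1 hj).1
    set Qj := pr (y / 160 ^ (j + 1)) (y / 160 ^ j) with hQj
    rcases Nat.eq_zero_or_pos Qj.card with hz | hz
    · have h1 : B3 j = ∅ := by
        rw [hB3]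
        refine filter_eq_empty_iff.2 fun s _ => ?_
        have h2 : K2 (Pw H s) Qj = 0 := by
          unfold K2
          rw [card_eq_zero.1 hz, sum_empty]
        rw [← hQj, h2, hz]
        simp
      rw [h1, card_empty, Nat.cast_zero]
      positivity
    · have hzr : (0 : ℝ) < Qj.card := by exact_mod_cast hz
      refine markov _ _ (fun s _ => Nat.cast_nonneg _) _ _ (by positivity) ?_
      refine (hK2 X H hX2 hH1 hHX Qj ?_).trans ?_
      · intro r hr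
        rw [hQj, pr, mem_filter] at hr
        exact hr.2
      · have h1 : ∑ q ∈ Qj, (1 : ℝ) / q ≤ Qj.card * (160 ^ (j + 1) / y) := by
          rw [← nsmul_eq_mul]
          refine sum_le_card_nsmul _ _ _ fun q hq => ?_
          rw [hQj, pr, mem_filter, mem_Ioc] at hq
          have h2 : y < 160 ^ (j + 1) * q := by
            have h3 := Nat.lt_mul_div_succ y (show 0 < 160 ^ (j + 1) by positivity)
            exact h3.trans_le (Nat.mul_le_mul_left _ hq.1.1)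
          have h3 : (y : ℝ) < 160 ^ (j + 1) * q := by exact_mod_cast h2
          have hq0 : (0 : ℝ) < q := by exact_mod_cast hq.2.pos
          rw [div_le_div_iff₀ hq0 hy0]
          linarith
        have h4 : (12.5 : ℝ) ^ I ≤ 12.5 ^ j := pow_le_pow_right₀ (by norm_num) hjI
        have h5 : (160 : ℝ) ^ (j + 1) ≤ 160 * (160 / 2000) ^ I * 2000 ^ j := by
          have e1 : (160 : ℝ) ^ (j + 1) = 160 * (160 / 2000) ^ j * 2000 ^ j := by
            rw [pow_succ, mul_assoc, ← mul_pow]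
            norm_num
            ring
          rw [e1]
          have h6 : (160 / 2000 : ℝ) ^ j ≤ (160 / 2000) ^ I :=
            pow_le_pow_of_le_one (by norm_num) (by norm_num) hjI
          gcongr
        calc C2 * (X / L ^ 2) * (H : ℝ) ^ 2 * ∑ q ∈ Qj, (1 : ℝ) / q
            ≤ C2 * (X / L ^ 2) * ((I : ℝ) ^ c1 * (y : ℝ) ^ 2 * L ^ 2) *
              (Qj.card * (160 ^ (j + 1) / y)) := by gcongr
          _ = C2 * (I : ℝ) ^ c1 * 160 ^ (j + 1) * (X * (y * Qj.card)) := by field_simp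
          _ ≤ C2 * (I : ℝ) ^ c1 * (160 * (160 / 2000) ^ I * 2000 ^ j) * (X * (y * Qj.card)) := by
              gcongr
          _ = (I : ℝ) ^ 2 * (C2 * (I : ℝ) ^ c1 * 160 * (160 / 2000) ^ I) / (I : ℝ) ^ 2 *
              (X * (y * Qj.card * 2000 ^ j)) := by field_simp
          _ ≤ δ / 3 / (I : ℝ) ^ 2 * (X * (y * Qj.card * 2000 ^ j)) := by gcongr
          _ = _ := by ring
  refine ⟨H, y, hH8, by exact_mod_cast (by linarith : (2 : ℝ) ≤ y), hy1, ?_, ?_⟩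
  · have h1 : Real.log (Real.log L) ≤ 32 * (I : ℝ) ^ 4 := by
      have h2 : ((I : ℝ) + 1) ^ 4 ≤ 16 * (I : ℝ) ^ 4 := by
        calc ((I : ℝ) + 1) ^ 4 ≤ (2 * (I : ℝ)) ^ 4 :=
              pow_le_pow_left₀ (by positivity) (by linarith) 4
          _ = _ := by ring
      linarith
    have hlogL : 1 ≤ Real.log L := by
      rw [Real.le_log_iff_exp_le hL0]
      have := Real.exp_one_lt_d9
      linarith
    have h2 : (0 : ℝ) ≤ Real.log (Real.log L) := Real.log_nonneg hlogL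
    have h3 : (Real.log (Real.log L)) ^ (c1 / 16) ≤ 32 * (I : ℝ) ^ (c1 / 4) := by
      calc (Real.log (Real.log L)) ^ (c1 / 16) ≤ (32 * (I : ℝ) ^ 4) ^ (c1 / 16) :=
            Real.rpow_le_rpow h2 h1 (by positivity)
        _ = (32 : ℝ) ^ (c1 / 16) * ((I : ℝ) ^ 4) ^ (c1 / 16) :=
            Real.mul_rpow (by norm_num) (by positivity)
        _ ≤ 32 * (I : ℝ) ^ (c1 / 4) := by
            have h4 : (32 : ℝ) ^ (c1 / 16) ≤ 32 := by
              calc (32 : ℝ) ^ (c1 / 16) ≤ (32 : ℝ) ^ (1 : ℝ) :=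
                    Real.rpow_le_rpow_of_exponent_le (by norm_num) (by linarith)
                _ = 32 := Real.rpow_one _
            have h5 : ((I : ℝ) ^ 4) ^ (c1 / 16) = (I : ℝ) ^ (c1 / 4) := by
              rw [← Real.rpow_natCast, ← Real.rpow_mul hI0.le]
              congr 1
              push_cast
              ring
            rw [h5]
            exact mul_le_mul_of_nonneg_right h4 (by positivity)
    have h6 : 4608 * (I : ℝ) ^ (c1 / 4) ≤ δ * A := by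
      have := mul_le_mul_of_nonneg_left n4 hδ.le
      calc 4608 * (I : ℝ) ^ (c1 / 4) = δ * (4608 / δ * (I : ℝ) ^ (c1 / 4)) := by field_simp
        _ ≤ _ := this
    calc 36 * L ^ 2 * (Real.log (Real.log L)) ^ (c1 / 16)
        ≤ 36 * L ^ 2 * (32 * (I : ℝ) ^ (c1 / 4)) := by gcongr
      _ = L ^ 2 / 4 * (4608 * (I : ℝ) ^ (c1 / 4)) := by ring
      _ ≤ L ^ 2 / 4 * (δ * A) := by gcongr
      _ = A * (δ / 2 * L) * L / 2 := by ring
      _ ≤ A * y * L / 2 := by gcongr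
      _ ≤ H := hHge
  · have h1 := card_bad (Ioc X (2 * X)) J B1 B2 B3 _ _ _ hb1 hb2 hb3
    have h2 : ((Ioc X (2 * X)).card : ℝ) = X := by
      rw [Nat.card_Ioc]
      congr 1
      omega
    have h3 : (J.card : ℝ) * (δ / 3 * X / (I : ℝ) ^ 2) ≤ δ / 3 * X := by
      calc (J.card : ℝ) * (δ / 3 * X / (I : ℝ) ^ 2)
          ≤ (I : ℝ) ^ 2 * (δ / 3 * X / (I : ℝ) ^ 2) := by gcongr
        _ = δ / 3 * X := by field_simp
    have h4 : (1 - δ) * X ≤ ((Ioc X (2 * X)).filter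
        (fun s => s ∉ B1 ∧ ∀ j ∈ J, s ∉ B2 j ∧ s ∉ B3 j)).card := by
      rw [h2] at h1
      linarith
    refine h4.trans ?_
    have h5 : ((Ioc X (2 * X)).filter (fun s => s ∉ B1 ∧ ∀ j ∈ J, s ∉ B2 j ∧ s ∉ B3 j)) ⊆
        (Ioc X (2 * X)).filter (fun s => ∃ a : ℕ → ℕ, ∀ x ∈ Pw H s,
          ∃ r, r.Prime ∧ 3 ≤ r ∧ r ≤ y ∧ x ≡ a r [MOD r]) := by
      intro s hs
      rw [mem_filter] at hs ⊢
      obtain ⟨hs0, hs1, hs2⟩ := hs
      refine ⟨hs0, hcov I hII0 y hI4 hI5 (Pw H s) ?_ ?_ ?_ ?_⟩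
      · by_contra hcon
        exact hs1 (mem_filter.2 ⟨hs0, not_le.1 hcon⟩)
      · intro a ha b hb
        unfold Pw at ha hb
        rw [mem_filter, mem_Ioc] at ha hb
        omega
      · intro j hj
        by_contra hcon
        exact (hs2 j hj).1 (mem_filter.2 ⟨hs0, not_le.1 hcon⟩)
      · intro j hj
        by_contra hcon
        exact (hs2 j hj).2 (mem_filter.2 ⟨hs0, not_le.1 hcon⟩)
    exact_mod_cast card_le_card h5

end Pool.Agent.GWC
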