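import Pool.Agent.GWC.Crt

/-! # First and second moments of the weights `vw` (one stage) -/

namespace Pool.Agent.GWC

open Finset

theorem res_card_le (U : Finset ℕ) (r : ℕ) : (res U r).card ≤ U.card := card_image_le

theorem res_subset (U : Finset ℕ) (r : ℕ) (hr : 0 < r) : res U r ⊆ range r := by
  intro k hk
  obtain ⟨x, _, rfl⟩ := mem_image.1 hk
  exact mem_range.2 (Nat.mod_lt _ hr)

theorem sum_ind (r : ℕ) (S : Finset ℕ) (hS : S ⊆ range r) (c : ℝ) :
    ∑ k ∈ range r, (if k ∈ S then 0 else c) = ((r : ℝ) - S.card) * c := by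
  rw [sum_ite, sum_const_zero, zero_add, sum_const, nsmul_eq_mul]
  congr 1
  have h1 : (range r).filter (fun k => k ∉ S) = range r \ S := by
    ext k
    simp [mem_sdiff]
  rw [h1, card_sdiff_of_subset hS, card_range, Nat.cast_sub]
  simpa using card_le_card hS

theorem vw_nonneg (T U : Finset ℕ) (N : ℕ) (hU : ∀ r ∈ T, U.card < r) : 0 ≤ vw T U N := by
  refine prod_nonneg fun r hr => ?_
  split_ifs
  · exact le_rfl
  · have h1 : ((res U r).card : ℝ) < r := by
      exact_mod_cast (res_card_le U r).trans_lt (hU r hr)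
    have h2 : (0 : ℝ) < r := lt_of_le_of_lt (Nat.cast_nonneg _) h1
    have h3 : ((res U r).card : ℝ) / r < 1 := by rwa [div_lt_one h2]
    exact inv_nonneg.2 (by linarith)

theorem vw_mod (T U : Finset ℕ) (N : ℕ) : vw T U (N % ∏ r ∈ T, r) = vw T U N := by
  unfold vw
  refine prod_congr rfl fun r hr => ?_
  rw [Nat.mod_mod_of_dvd _ (dvd_prod_of_mem (fun q => q) hr)]

theorem sum_vw (T U : Finset ℕ) (hT : ∀ r ∈ T, r.Prime) (hU : ∀ r ∈ T, U.card < r) :
    ∑ N ∈ range (∏ r ∈ T, r), vw T U N = ((∏ r ∈ T, r : ℕ) : ℝ) := by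
  unfold vw
  rw [sum_prod T hT (fun r k => if k ∈ res U r then 0 else (1 - ((res U r).card : ℝ) / r)⁻¹)]
  push_cast
  refine prod_congr rfl fun r hr => ?_
  rw [sum_ind r _ (res_subset U r (hT r hr).pos)]
  have h1 : ((res U r).card : ℝ) < r := by
    exact_mod_cast (res_card_le U r).trans_lt (hU r hr)
  have h2 : (0 : ℝ) < r := lt_of_le_of_lt (Nat.cast_nonneg _) h1
  have h3 : ((res U r).card : ℝ) / r < 1 := by rwa [div_lt_one h2]
  have h4 : (r : ℝ) - (res U r).card = r * (1 - ((res U r).card : ℝ) / r) := by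
    field_simp
  rw [h4, mul_assoc, mul_inv_cancel₀ (by linarith), mul_one]

/-- the sum over one prime for two sets -/
theorem sum_mul_ind (U U' : Finset ℕ) (r : ℕ) (hr : 0 < r) (c c' : ℝ) :
    ∑ k ∈ range r, (if k ∈ res U r then 0 else c) * (if k ∈ res U' r then 0 else c')
      = ((r : ℝ) - (((res U r).card : ℝ) + (res U' r).card - (res U r ∩ res U' r).card))
        * (c * c') := by
  have h1 : ∀ k ∈ range r, (if k ∈ res U r then 0 else c) * (if k ∈ res U' r then 0 else c')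
      = if k ∈ res U r ∪ res U' r then 0 else c * c' := by
    intro k _
    by_cases h : k ∈ res U r <;> by_cases h' : k ∈ res U' r <;> simp [h, h']
  rw [sum_congr rfl h1, sum_ind r _ (union_subset (res_subset U r hr) (res_subset U' r hr))]
  congr 2
  have h2 := card_union_add_card_inter (res U r) (res U' r)
  have h3 : ((res U r ∪ res U' r).card : ℝ) + (res U r ∩ res U' r).card
      = (res U r).card + (res U' r).card := by exact_mod_cast h2
  linarith

/-- elementary inequality for one prime -/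
theorem ratio_le {r a b i : ℝ} (hr : 0 < r) (ha : 0 ≤ a) (hb : 0 ≤ b) (hi : 0 ≤ i)
    (h : 2 * (a + b) ≤ r) :
    (r - (a + b - i)) * ((1 - a / r)⁻¹ * (1 - b / r)⁻¹)
      ≤ r * (1 + i / r * (1 + 2 * ((a + b) / r))) := by
  set t := (a + b) / r with ht
  have ht0 : 0 ≤ t := by positivity
  have ht1 : t ≤ 1 / 2 := by rw [ht, div_le_iff₀ hr]; linarith
  have ha1 : a / r ≤ 1 / 2 := by rw [div_le_iff₀ hr]; linarith
  have hb1 : b / r ≤ 1 / 2 := by rw [div_le_iff₀ hr]; linarith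
  have hA : 0 < 1 - a / r := by linarith
  have hB : 0 < 1 - b / r := by linarith
  have hAB : 1 - t ≤ (1 - a / r) * (1 - b / r) := by
    have : t = a / r + b / r := by rw [ht, add_div]
    have h2 : 0 ≤ a / r * (b / r) := by positivity
    nlinarith
  have hi' : 0 ≤ i / r := by positivity
  have h3 : r - (a + b - i) = r * (1 - t + i / r) := by
    rw [ht]
    field_simp
    ring
  rw [h3, ← mul_inv, mul_assoc]
  refine mul_le_mul_of_nonneg_left ?_ hr.le
  rw [← div_eq_mul_inv, div_le_iff₀ (by positivity)]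
  have h4 : (1 + i / r * (1 + 2 * t)) * (1 - t)
      ≤ (1 + i / r * (1 + 2 * t)) * ((1 - a / r) * (1 - b / r)) :=
    mul_le_mul_of_nonneg_left hAB (by positivity)
  refine le_trans ?_ h4
  nlinarith [mul_nonneg hi' ht0, mul_nonneg (mul_nonneg hi' ht0) (by linarith : 0 ≤ 1 - 2 * t)]

/-- `∑ i_r / r` is at most the sum of the `cc` -/
theorem inter_le (T U U' : Finset ℕ) :
    ∑ r ∈ T, ((res U r ∩ res U' r).card : ℝ) / r ≤ ∑ p ∈ U ×ˢ U', cc T p.1 p.2 := by
  have h1 : ∑ p ∈ U ×ˢ U', cc T p.1 p.2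
      = ∑ r ∈ T, ∑ p ∈ (U ×ˢ U').filter (fun p => p.1 % r = p.2 % r), (1 : ℝ) / r := by
    unfold cc
    simp_rw [sum_filter]
    exact sum_comm
  rw [h1]
  refine sum_le_sum fun r _ => ?_
  rw [sum_const, nsmul_eq_mul, mul_one_div]
  refine div_le_div_of_nonneg_right ?_ (Nat.cast_nonneg _)
  have h2 : res U r ∩ res U' r ⊆
      ((U ×ˢ U').filter (fun p => p.1 % r = p.2 % r)).image (fun p => p.1 % r) := by
    intro k hk
    obtain ⟨hk1, hk2⟩ := mem_inter.1 hk
    obtain ⟨a, ha, rfl⟩ := mem_image.1 hk1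
    obtain ⟨b, hb, hab⟩ := mem_image.1 hk2
    exact mem_image.2 ⟨(a, b), mem_filter.2 ⟨mem_product.2 ⟨ha, hb⟩, hab.symm⟩, rfl⟩
  exact_mod_cast (card_le_card h2).trans card_image_le

theorem inter_le_x (T U U' : Finset ℕ) (x : ℕ) (hx : x ∈ U) (hx' : x ∈ U') :
    ∑ r ∈ T, (((res U r ∩ res U' r).card : ℝ) - 1) / r
      ≤ ∑ p ∈ (U ×ˢ U').erase (x, x), cc T p.1 p.2 := by
  have h1 : ∑ p ∈ (U ×ˢ U').erase (x, x), cc T p.1 p.2
      = ∑ r ∈ T, ∑ p ∈ ((U ×ˢ U').erase (x, x)).filter (fun p => p.1 % r = p.2 % r),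
        (1 : ℝ) / r := by
    unfold cc
    simp_rw [sum_filter]
    exact sum_comm
  rw [h1]
  refine sum_le_sum fun r _ => ?_
  rw [sum_const, nsmul_eq_mul, mul_one_div]
  refine div_le_div_of_nonneg_right ?_ (Nat.cast_nonneg _)
  have h2 : (res U r ∩ res U' r).erase (x % r) ⊆
      (((U ×ˢ U').erase (x, x)).filter (fun p => p.1 % r = p.2 % r)).image
        (fun p => p.1 % r) := by
    intro k hk
    obtain ⟨hkx, hk⟩ := mem_erase.1 hk
    obtain ⟨hk1, hk2⟩ := mem_inter.1 hk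
    obtain ⟨a, ha, rfl⟩ := mem_image.1 hk1
    obtain ⟨b, hb, hab⟩ := mem_image.1 hk2
    refine mem_image.2 ⟨(a, b), mem_filter.2 ⟨mem_erase.2 ⟨?_, mem_product.2 ⟨ha, hb⟩⟩, hab.symm⟩,
      rfl⟩
    intro h
    simp only [Prod.mk.injEq] at h
    exact hkx (by rw [h.1])
  have h3 : x % r ∈ res U r ∩ res U' r :=
    mem_inter.2 ⟨mem_image_of_mem _ hx, mem_image_of_mem _ hx'⟩
  have h4 := (card_le_card h2).trans card_image_le
  have h5 := card_erase_add_one h3
  have h6 : ((res U r ∩ res U' r).card : ℝ) = ((res U r ∩ res U' r).erase (x % r)).card + 1 := by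
    exact_mod_cast h5.symm
  rw [h6]
  have h7 : (((res U r ∩ res U' r).erase (x % r)).card : ℝ) ≤
      (((U ×ˢ U').erase (x, x)).filter (fun p => p.1 % r = p.2 % r)).card := by exact_mod_cast h4
  linarith

/-- the product of the two one-prime weights -/
noncomputable def pf (U U' : Finset ℕ) (r k : ℕ) : ℝ :=
  (if k ∈ res U r then 0 else (1 - ((res U r).card : ℝ) / r)⁻¹) *
    (if k ∈ res U' r then 0 else (1 - ((res U' r).card : ℝ) / r)⁻¹)

/-- the square of the one-prime weight -/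
noncomputable def sf (U : Finset ℕ) (r k : ℕ) : ℝ :=
  if k ∈ res U r then 0 else ((1 - ((res U r).card : ℝ) / r)⁻¹) ^ 2

theorem sum_vw_mul_le (T U U' : Finset ℕ) (M R : ℕ) (hT : ∀ r ∈ T, r.Prime) (hR : ∀ r ∈ T, R < r)
    (hM : 4 * M ≤ R) (hU : U.card ≤ M) (hU' : U'.card ≤ M) :
    ∑ N ∈ range (∏ r ∈ T, r), vw T U N * vw T U' N ≤ ((∏ r ∈ T, r : ℕ) : ℝ) *
      Real.exp (2 * ∑ p ∈ U ×ˢ U', cc T p.1 p.2) := by
  have h1 : ∀ N ∈ range (∏ r ∈ T, r), vw T U N * vw T U' N = ∏ r ∈ T,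
      pf U U' r (N % r) := by
    intro N _
    unfold vw pf
    rw [← prod_mul_distrib]
  rw [sum_congr rfl h1, sum_prod T hT (pf U U')]
  have h2 : ∀ r ∈ T, ∑ k ∈ range r, pf U U' r k
      ≤ r * Real.exp (2 * (((res U r ∩ res U' r).card : ℝ) / r)) := by
    intro r hr
    have hr0 : (0 : ℝ) < r := by exact_mod_cast (hT r hr).pos
    have ha : ((res U r).card : ℝ) ≤ M := by exact_mod_cast (res_card_le U r).trans hU
    have hb : ((res U' r).card : ℝ) ≤ M := by exact_mod_cast (res_card_le U' r).trans hU'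
    have hRr : (4 : ℝ) * M ≤ r := by exact_mod_cast hM.trans (hR r hr).le
    show ∑ k ∈ range r, (if k ∈ res U r then 0 else (1 - ((res U r).card : ℝ) / r)⁻¹) *
        (if k ∈ res U' r then 0 else (1 - ((res U' r).card : ℝ) / r)⁻¹) ≤ _
    rw [sum_mul_ind U U' r (hT r hr).pos]
    have h3 := ratio_le (r := (r : ℝ)) (a := (res U r).card) (b := (res U' r).card)
      (i := (res U r ∩ res U' r).card) hr0 (Nat.cast_nonneg _) (Nat.cast_nonneg _)
      (Nat.cast_nonneg _) (by linarith)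
    refine h3.trans (mul_le_mul_of_nonneg_left ?_ hr0.le)
    have h4 : (((res U r).card : ℝ) + (res U' r).card) / r ≤ 1 / 2 := by
      rw [div_le_iff₀ hr0]; linarith
    have h5 : (0 : ℝ) ≤ ((res U r ∩ res U' r).card : ℝ) / r := by positivity
    have h6 := Real.add_one_le_exp (2 * (((res U r ∩ res U' r).card : ℝ) / r))
    nlinarith
  refine (prod_le_prod (fun r hr => ?_) h2).trans ?_
  · refine sum_nonneg fun k _ => ?_
    have ha : ((res U r).card : ℝ) ≤ M := by exact_mod_cast (res_card_le U r).trans hU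
    have hb : ((res U' r).card : ℝ) ≤ M := by exact_mod_cast (res_card_le U' r).trans hU'
    have hr0 : (0 : ℝ) < r := by exact_mod_cast (hT r hr).pos
    have hRr : (4 : ℝ) * M ≤ r := by exact_mod_cast hM.trans (hR r hr).le
    have h3 : ((res U r).card : ℝ) / r ≤ 1 := by rw [div_le_one hr0]; linarith
    have h4 : ((res U' r).card : ℝ) / r ≤ 1 := by rw [div_le_one hr0]; linarith
    show 0 ≤ (if k ∈ res U r then 0 else (1 - ((res U r).card : ℝ) / r)⁻¹) *
        (if k ∈ res U' r then 0 else (1 - ((res U' r).card : ℝ) / r)⁻¹)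
    apply mul_nonneg <;> split_ifs <;> first | exact le_rfl | exact inv_nonneg.2 (by linarith)
  · rw [prod_mul_distrib, ← Real.exp_sum]
    push_cast
    refine mul_le_mul_of_nonneg_left (Real.exp_le_exp.2 ?_) (prod_nonneg fun r _ =>
      Nat.cast_nonneg _)
    rw [← mul_sum]
    have := inter_le T U U'
    linarith

theorem sum_inv_sq (T : Finset ℕ) (R : ℕ) (hR0 : 0 < R) (hR : ∀ r ∈ T, R < r) :
    ∑ r ∈ T, (1 : ℝ) / (r : ℝ) ^ 2 ≤ 1 / R := by
  obtain ⟨n, hn⟩ : ∃ n : ℕ, ∀ r ∈ T, r ≤ R + n := by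
    refine ⟨T.sup id, fun r hr => ?_⟩
    have := le_sup (f := id) hr
    simp only [id] at this
    omega
  have h1 : ∀ n : ℕ, ∑ r ∈ Ioc R (R + n), (1 : ℝ) / (r : ℝ) ^ 2 ≤ 1 / R - 1 / ((R + n : ℕ) : ℝ) := by
    intro n
    induction n with
    | zero => simp
    | succ n ih =>
      rw [← Nat.add_assoc, sum_Ioc_succ_top (by omega)]
      have hpos : (0 : ℝ) < ((R + n : ℕ) : ℝ) := by exact_mod_cast (by omega : 0 < R + n)
      have : (1 : ℝ) / ((R + n + 1 : ℕ) : ℝ) ^ 2 ≤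
          1 / ((R + n : ℕ) : ℝ) - 1 / ((R + n + 1 : ℕ) : ℝ) := by
        push_cast at hpos ⊢
        rw [div_sub_div _ _ (by positivity) (by positivity), div_le_div_iff₀ (by positivity)
          (by positivity)]
        nlinarith
      linarith
  have h2 : T ⊆ Ioc R (R + n) := fun r hr => mem_Ioc.2 ⟨hR r hr, hn r hr⟩
  refine (sum_le_sum_of_subset_of_nonneg h2 fun _ _ _ => by positivity).trans ((h1 n).trans ?_)
  have : (0 : ℝ) ≤ 1 / ((R + n : ℕ) : ℝ) := by positivity
  linarith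

theorem sum_vw_mul_le_x (T U U' : Finset ℕ) (M R x : ℕ) (hT : ∀ r ∈ T, r.Prime)
    (hR : ∀ r ∈ T, R < r) (hM : 4 * M ≤ R) (hM1 : 1 ≤ M) (hU : U.card ≤ M) (hU' : U'.card ≤ M)
    (hx : x ∈ U) (hx' : x ∈ U') :
    ∑ N ∈ range (∏ r ∈ T, r), vw T U N * vw T U' N ≤ ((∏ r ∈ T, r : ℕ) : ℝ) * (sig T)⁻¹ *
      Real.exp (∑ p ∈ (U ×ˢ U').erase (x, x), cc T p.1 p.2 + 4 * (M : ℝ) ^ 2 / R) := by
  have h1 : ∀ N ∈ range (∏ r ∈ T, r), vw T U N * vw T U' N = ∏ r ∈ T,
      pf U U' r (N % r) := by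
    intro N _
    unfold vw pf
    rw [← prod_mul_distrib]
  rw [sum_congr rfl h1, sum_prod T hT (pf U U')]
  have h2 : ∀ r ∈ T, ∑ k ∈ range r, pf U U' r k
      ≤ r * (1 - 1 / (r : ℝ))⁻¹ * Real.exp ((((res U r ∩ res U' r).card : ℝ) - 1) / r
        + 4 * (M : ℝ) ^ 2 * (1 / (r : ℝ) ^ 2)) := by
    intro r hr
    have hr2 : (2 : ℝ) ≤ r := by exact_mod_cast (hT r hr).two_le
    have hr0 : (0 : ℝ) < r := by linarith
    have ha : ((res U r).card : ℝ) ≤ M := by exact_mod_cast (res_card_le U r).trans hU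
    have hb : ((res U' r).card : ℝ) ≤ M := by exact_mod_cast (res_card_le U' r).trans hU'
    have hRr : (4 : ℝ) * M ≤ r := by exact_mod_cast hM.trans (hR r hr).le
    show ∑ k ∈ range r, (if k ∈ res U r then 0 else (1 - ((res U r).card : ℝ) / r)⁻¹) *
        (if k ∈ res U' r then 0 else (1 - ((res U' r).card : ℝ) / r)⁻¹) ≤ _
    rw [sum_mul_ind U U' r (hT r hr).pos]
    have h3 := ratio_le (r := (r : ℝ)) (a := (res U r).card) (b := (res U' r).card)
      (i := (res U r ∩ res U' r).card) hr0 (Nat.cast_nonneg _) (Nat.cast_nonneg _)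
      (Nat.cast_nonneg _) (by linarith)
    refine h3.trans ?_
    rw [mul_assoc]
    refine mul_le_mul_of_nonneg_left ?_ hr0.le
    have hxi : x % r ∈ res U r ∩ res U' r :=
      mem_inter.2 ⟨mem_image_of_mem _ hx, mem_image_of_mem _ hx'⟩
    have hi1 : (1 : ℝ) ≤ (res U r ∩ res U' r).card := by
      exact_mod_cast card_pos.2 ⟨_, hxi⟩
    have hiM : ((res U r ∩ res U' r).card : ℝ) ≤ M := by
      exact_mod_cast ((card_le_card inter_subset_left).trans (res_card_le U r)).trans hU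
    set i : ℝ := ((res U r ∩ res U' r).card : ℝ) with hi
    have h4 : (((res U r).card : ℝ) + (res U' r).card) / r ≤ 2 * M / r :=
      div_le_div_of_nonneg_right (by linarith) hr0.le
    have h40 : 0 ≤ (((res U r).card : ℝ) + (res U' r).card) / r := by positivity
    have hM0 : (0 : ℝ) ≤ M := Nat.cast_nonneg _
    have h5 : i / r * (1 + 2 * ((((res U r).card : ℝ) + (res U' r).card) / r))
        ≤ 1 / r + ((i - 1) / r + 4 * (M : ℝ) ^ 2 * (1 / (r : ℝ) ^ 2)) := by
      have e1 : i / r * (2 * ((((res U r).card : ℝ) + (res U' r).card) / r))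
          ≤ M / r * (2 * (2 * M / r)) := by
        apply mul_le_mul (div_le_div_of_nonneg_right hiM hr0.le) (by linarith) (by positivity)
          (by positivity)
      have e2 : (M : ℝ) / r * (2 * (2 * M / r)) = 4 * (M : ℝ) ^ 2 * (1 / (r : ℝ) ^ 2) := by
        field_simp
        ring
      have e3 : i / r = 1 / r + (i - 1) / r := by ring
      calc _ = i / r + i / r * (2 * ((((res U r).card : ℝ) + (res U' r).card) / r)) := by ring
        _ ≤ i / r + M / r * (2 * (2 * M / r)) := by linarith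
        _ = _ := by rw [e2, e3]; ring
    set E : ℝ := (i - 1) / r + 4 * (M : ℝ) ^ 2 * (1 / (r : ℝ) ^ 2) with hE
    have hE0 : 0 ≤ E := by
      have : 0 ≤ i - 1 := by linarith
      positivity
    have h6 : (1 + 1 / (r : ℝ)) ≤ (1 - 1 / (r : ℝ))⁻¹ := by
      have hp : 0 < 1 - 1 / (r : ℝ) := by
        rw [sub_pos, div_lt_one hr0]; linarith
      rw [← one_div, le_div_iff₀ hp]
      have : (0 : ℝ) ≤ 1 / r * (1 / r) := by positivity
      nlinarith
    have h7 := Real.add_one_le_exp E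
    have h8 : 0 ≤ 1 / (r : ℝ) := by positivity
    calc 1 + i / r * (1 + 2 * ((((res U r).card : ℝ) + (res U' r).card) / r))
        ≤ 1 + (1 / r + E) := by linarith
      _ ≤ (1 + 1 / (r : ℝ)) * (1 + E) := by nlinarith [mul_nonneg h8 hE0]
      _ ≤ (1 - 1 / (r : ℝ))⁻¹ * Real.exp E :=
          mul_le_mul h6 (by linarith) (by linarith) (by linarith)
  refine (prod_le_prod (fun r hr => ?_) h2).trans ?_
  · refine sum_nonneg fun k _ => ?_
    have ha : ((res U r).card : ℝ) ≤ M := by exact_mod_cast (res_card_le U r).trans hU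
    have hb : ((res U' r).card : ℝ) ≤ M := by exact_mod_cast (res_card_le U' r).trans hU'
    have hr0 : (0 : ℝ) < r := by exact_mod_cast (hT r hr).pos
    have hRr : (4 : ℝ) * M ≤ r := by exact_mod_cast hM.trans (hR r hr).le
    have h3 : ((res U r).card : ℝ) / r ≤ 1 := by rw [div_le_one hr0]; linarith
    have h4 : ((res U' r).card : ℝ) / r ≤ 1 := by rw [div_le_one hr0]; linarith
    show 0 ≤ (if k ∈ res U r then 0 else (1 - ((res U r).card : ℝ) / r)⁻¹) *
        (if k ∈ res U' r then 0 else (1 - ((res U' r).card : ℝ) / r)⁻¹)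
    apply mul_nonneg <;> split_ifs <;> first | exact le_rfl | exact inv_nonneg.2 (by linarith)
  · rw [prod_mul_distrib, prod_mul_distrib, ← Real.exp_sum, prod_inv_distrib]
    have hsig : 0 ≤ (sig T)⁻¹ := by
      refine inv_nonneg.2 (prod_nonneg fun r hr => ?_)
      have hr2 : (2 : ℝ) ≤ r := by exact_mod_cast (hT r hr).two_le
      rw [sub_nonneg, div_le_one (by linarith)]
      linarith
    have e : (((∏ r ∈ T, r : ℕ) : ℝ)) = ∏ r ∈ T, (r : ℝ) := by push_cast; rfl
    rw [e]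
    refine mul_le_mul_of_nonneg_left (Real.exp_le_exp.2 ?_)
      (mul_nonneg (prod_nonneg fun r _ => Nat.cast_nonneg _) hsig)
    rw [sum_add_distrib, ← mul_sum]
    have h5 := inter_le_x T U U' x hx hx'
    have h6 := sum_inv_sq T R (by omega) hR
    have h7 : 4 * (M : ℝ) ^ 2 * ∑ r ∈ T, (1 : ℝ) / (r : ℝ) ^ 2 ≤ 4 * (M : ℝ) ^ 2 / R := by
      rw [← mul_one_div (4 * (M : ℝ) ^ 2)]
      exact mul_le_mul_of_nonneg_left h6 (by positivity)
    linarith

theorem sum_vw_sq_le (T U : Finset ℕ) (M R : ℕ) (hT : ∀ r ∈ T, r.Prime) (hR : ∀ r ∈ T, R < r)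
    (hM : 4 * M ≤ R) (hU : U.card ≤ M) :
    ∑ N ∈ range (∏ r ∈ T, r), (vw T U N) ^ 2 ≤ ((∏ r ∈ T, r : ℕ) : ℝ) * Lam T M := by
  have h1 : ∀ N ∈ range (∏ r ∈ T, r), (vw T U N) ^ 2 = ∏ r ∈ T, sf U r (N % r) := by
    intro N _
    unfold vw
    rw [← prod_pow]
    refine prod_congr rfl fun r _ => ?_
    unfold sf
    split_ifs
    · simp
    · rfl
  rw [sum_congr rfl h1, sum_prod T hT (sf U)]
  have e : (((∏ r ∈ T, r : ℕ) : ℝ)) = ∏ r ∈ T, (r : ℝ) := by push_cast; rfl
  rw [e, Lam, ← prod_mul_distrib]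
  refine prod_le_prod (fun r hr => ?_) fun r hr => ?_
  · refine sum_nonneg fun k _ => ?_
    show 0 ≤ (if k ∈ res U r then 0 else ((1 - ((res U r).card : ℝ) / r)⁻¹) ^ 2)
    split_ifs
    · exact le_rfl
    · positivity
  · have hr0 : (0 : ℝ) < r := by exact_mod_cast (hT r hr).pos
    have ha : ((res U r).card : ℝ) ≤ M := by exact_mod_cast (res_card_le U r).trans hU
    have hRr : (4 : ℝ) * M ≤ r := by exact_mod_cast hM.trans (hR r hr).le
    have hMr : (M : ℝ) / r ≤ 1 / 4 := by rw [div_le_iff₀ hr0]; linarith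
    have har : ((res U r).card : ℝ) / r ≤ M / r := div_le_div_of_nonneg_right ha hr0.le
    show ∑ k ∈ range r, (if k ∈ res U r then 0 else ((1 - ((res U r).card : ℝ) / r)⁻¹) ^ 2) ≤ _
    rw [sum_ind r _ (res_subset U r (hT r hr).pos)]
    have h4 : (r : ℝ) - (res U r).card = r * (1 - ((res U r).card : ℝ) / r) := by
      field_simp
    have h5 : 1 - ((res U r).card : ℝ) / r ≠ 0 := by linarith
    have h6 : r * (1 - ((res U r).card : ℝ) / r) * ((1 - ((res U r).card : ℝ) / r)⁻¹) ^ 2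
        = r * (1 - ((res U r).card : ℝ) / r)⁻¹ := by
      field_simp
    rw [h4, h6]
    refine mul_le_mul_of_nonneg_left ?_ hr0.le
    exact inv_anti₀ (by linarith) (by linarith)

end Pool.Agent.GWC
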